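import Mathlib

set_option autoImplicit false

namespace Pool.MP0eb725

/-- `g` is a binary form of degree `d` (homogeneous polynomial function of degree `d`) over `ℚ`. -/
def IsForm (d : ℕ) (g : ℚ → ℚ → ℚ) : Prop :=
  ∃ a : ℕ → ℚ, ∀ u v : ℚ, g u v = ∑ i ∈ Finset.range (d + 1), a i * u ^ i * v ^ (d - i)

/-- The binary form with coefficients `a 0, ..., a d`, evaluated in a commutative ring. -/
def fm {A : Type*} [CommRing A] (d : ℕ) (a : ℕ → A) (x y : A) : A :=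
  ∑ i ∈ Finset.range (d + 1), a i * x ^ i * y ^ (d - i)

/-- The form of degree `2 K - 1`, odd in the first and even in the second variable, with coefficients
`b 0, ..., b (K - 1)`, evaluated in a commutative ring. -/
def fo {A : Type*} [CommRing A] (K : ℕ) (b : ℕ → A) (x y : A) : A :=
  ∑ j ∈ Finset.range K, b j * x ^ (2 * j + 1) * y ^ (2 * (K - 1 - j))

/-- odd in the first variable, even in the second one -/
def OE (B : ℚ → ℚ → ℚ) : Prop := (∀ u v : ℚ, B (-u) v = - B u v) ∧ (∀ u v : ℚ, B u (-v) = B u v)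

/-- homogeneous of degree `d` -/
def Hom (d : ℕ) (B : ℚ → ℚ → ℚ) : Prop := ∀ c u v : ℚ, B (c * u) (c * v) = c ^ d * B u v

def R2A (c a b : ℚ → ℚ → ℚ) : Prop := ∀ u v : ℚ,
  c (u + v) v - c (u - v) (-v) + a u (u + v) - a u (u - v) + 2 * a (u + v) (u - v)
    - 2 * b (u + v) (v - u) = 0

def R2B (c b : ℚ → ℚ → ℚ) : Prop := ∀ u v : ℚ,
  c (-v) (u - v) - c (-u) (v - u) + b v (u + v) - b u (u + v)
    + 2 * (c (u + v) (u - v) - c (u + v) (v - u)) = 0

def Ec (W : ℚ) (d : ℕ) (B Q : ℚ → ℚ → ℚ) (k : ℚ) (u v : ℚ) : ℚ :=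
  (W - 1) * B u v + 2 * B u (2 * v) - 2 * B (2 * u) v + 2 * B (u - v) (2 * v) - B (u - v) v
    - 2 * Q (u - v) (2 * u) - 2 * Q (2 * u) (u - v) + Q (u - v) u - Q u (u - v) + 2 * k * u ^ d

def Ea (W : ℚ) (d : ℕ) (B Q : ℚ → ℚ → ℚ) (k : ℚ) (u v : ℚ) : ℚ :=
  (W - 1) * (Q u v - Q v u) + 2 * Q u (2 * v) + 2 * Q (2 * v) u - 2 * Q (2 * u) v - 2 * Q v (2 * u)
    + 2 * B (2 * v) (u - v) + B v (u - v) - 2 * B (2 * u) (u - v) - B u (u - v)
    + 2 * k * (u ^ d - v ^ d)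

def Eb (W : ℚ) (d : ℕ) (Q : ℚ → ℚ → ℚ) (k : ℚ) (u v : ℚ) : ℚ :=
  (W - 1) * (Q u v + Q v u) + 2 * Q u (2 * v) - 2 * Q (2 * v) u - 2 * Q (2 * u) v + 2 * Q v (2 * u)
    - 2 * Q (2 * v) (u - v) - 2 * Q (u - v) (2 * v) - Q v (u - v) + Q (u - v) v
    + 2 * Q (u - v) (2 * u) - 2 * Q (2 * u) (u - v) - Q (u - v) u - Q u (u - v)
    + 2 * k * (u ^ d + v ^ d)

/-- `X(1+U+U²)` at `χ_c`, `χ_a`, `χ_b` -/
def Xc (B Q : ℚ → ℚ → ℚ) (u v : ℚ) : ℚ := B u v - B (u - v) v + Q (u - v) u - Q u (u - v)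
def Xa (B Q : ℚ → ℚ → ℚ) (u v : ℚ) : ℚ := Q u v - Q v u + B v (u - v) - B u (u - v)
def Xb (Q : ℚ → ℚ → ℚ) (u v : ℚ) : ℚ :=
  Q u v + Q v u - Q v (u - v) + Q (u - v) v - Q (u - v) u - Q u (u - v)

/-- relation R5 (with `e = 2^{-w}`) -/
def R5 (e : ℚ) (tc tb thc tha thb : ℚ → ℚ → ℚ) : Prop := ∀ u v : ℚ,
  (- tc u v - tc v u + tb u v)
    + 2 * ((thc (2 * u + v) v - tha v (2 * u + v) + thb v (2 * u + v))
        - e * (- tc (2 * u) (-v) - tc (-v) (2 * u) + tb (2 * u) (-v)))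
    + 6 * (- thc (2 * u + v) (3 * v) - e * tc (2 * u - 2 * v) (-3 * v))
    + 3 * tc (u - v) (3 * u) = 0

/-- relations R3 at `χ_c` and `χ_b` (`W = 2^w`) -/
def R3c (W : ℚ) (tc thc tha : ℚ → ℚ → ℚ) : Prop := ∀ u v : ℚ,
  (W + 1) * tc u v = W * (thc u v - thc (u - v) (-v) - tha u (u - v))

def R3b (W : ℚ) (tb thb : ℚ → ℚ → ℚ) : Prop := ∀ u v : ℚ,
  (W + 1) * tb u v = W * (thb u v + thb (-v) (u - v) + thb (v - u) (-u))

/-- Relation F1 for a function `D` -/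
def F1 (D : ℚ → ℚ → ℚ) : Prop := ∀ u v : ℚ,
  D (u - 2 * v) u - D (u - 2 * v) (2 * v) + D (2 * u + 2 * v) u + D (2 * u + 2 * v) v
    - 2 * D (2 * u + 2 * v) (2 * v) + D (u + v) v - D (u + v) (2 * v) = 0

/-- the functional `I(u,v) = 2 theta(psi) - (1+2e) tau(psi)` -/
def Ipsi (e : ℚ) (tc tb thc thb : ℚ → ℚ → ℚ) (u v : ℚ) : ℚ :=
  2 * (- thc u v - thc v u + thb u v) - (1 + 2 * e) * (- tc u v - tc v u + tb u v)

/-- `I` in terms of `A`, `B` -/
def IAB (e : ℚ) (A B : ℚ → ℚ → ℚ) (u v : ℚ) : ℚ :=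
  (1 - 4 * e) * ((A u v + A v u) / 2 - 3 / 2 * (B u v + B v u)) - A (u - v) v + A (u - v) u
    + ((A (u / 2) (-v) + A (-v) (u / 2)) / 2 - 3 / 2 * (B (u / 2) (-v) + B (-v) (u / 2)))
    - ((A u (-v / 2) + A (-v / 2) u) / 2 - 3 / 2 * (B u (-v / 2) + B (-v / 2) u))
    + A ((u - v) / 2) u - A ((u - v) / 2) v

/-- the coefficients of `B` in terms of those of `A` -/
def bOf (K : ℕ) (α : ℕ → ℚ) (j : ℕ) : ℚ := if j < K - 1 then α j / 3 ^ (2 * (K - 1 - j) + 1) else 0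

/-- the space of solutions of the relations `R2A`, `R2B` -/
def Sfun (K : ℕ) : Submodule ℚ ((ℚ → ℚ → ℚ) × (ℚ → ℚ → ℚ) × (ℚ → ℚ → ℚ)) where
  carrier := {x | IsForm (2 * K - 1) x.1 ∧ IsForm (2 * K - 1) x.2.1 ∧ IsForm (2 * K - 1) x.2.2 ∧
    (∀ u v : ℚ, x.2.1 v u = - x.2.1 u v) ∧ (∀ u v : ℚ, x.2.2 v u = x.2.2 u v) ∧
    R2A x.1 x.2.1 x.2.2 ∧ R2B x.1 x.2.2}
  add_mem' := by
    rintro x y ⟨h1, h2, h3, h4, h5, h6, h7⟩ ⟨g1, g2, g3, g4, g5, g6, g7⟩
    have key : ∀ (p q : ℚ → ℚ → ℚ), IsForm (2 * K - 1) p → IsForm (2 * K - 1) q →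
        IsForm (2 * K - 1) (p + q) := by
      rintro p q ⟨a, ha⟩ ⟨b, hb⟩
      refine ⟨fun i => a i + b i, fun u v => ?_⟩
      simp only [Pi.add_apply, ha, hb, ← Finset.sum_add_distrib]
      refine Finset.sum_congr rfl fun i _ => ?_
      ring
    refine ⟨key _ _ h1 g1, key _ _ h2 g2, key _ _ h3 g3, ?_, ?_, ?_, ?_⟩
    · intro u v
      have := h4 u v
      have := g4 u v
      simp only [Prod.snd_add, Prod.fst_add, Pi.add_apply]
      linarith
    · intro u v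
      have := h5 u v
      have := g5 u v
      simp only [Prod.snd_add, Pi.add_apply]
      linarith
    · intro u v
      have := h6 u v
      have := g6 u v
      simp only [Prod.snd_add, Prod.fst_add, Pi.add_apply]
      linarith
    · intro u v
      have := h7 u v
      have := g7 u v
      simp only [Prod.snd_add, Prod.fst_add, Pi.add_apply]
      linarith
  zero_mem' := by
    have key : IsForm (2 * K - 1) (0 : ℚ → ℚ → ℚ) := ⟨fun _ => 0, fun u v => by simp⟩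
    refine ⟨key, key, key, ?_, ?_, ?_, ?_⟩ <;> intro u v <;> simp
  smul_mem' := by
    rintro c x ⟨h1, h2, h3, h4, h5, h6, h7⟩
    have key : ∀ (p : ℚ → ℚ → ℚ), IsForm (2 * K - 1) p → IsForm (2 * K - 1) (c • p) := by
      rintro p ⟨a, ha⟩
      refine ⟨fun i => c * a i, fun u v => ?_⟩
      simp only [Pi.smul_apply, ha, smul_eq_mul, Finset.mul_sum]
      refine Finset.sum_congr rfl fun i _ => ?_
      ring
    refine ⟨key _ h1, key _ h2, key _ h3, ?_, ?_, ?_, ?_⟩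
    · intro u v
      have := h4 u v
      simp only [Prod.smul_snd, Prod.smul_fst, Pi.smul_apply, smul_eq_mul]
      linear_combination c * this
    · intro u v
      have := h5 u v
      simp only [Prod.smul_snd, Pi.smul_apply, smul_eq_mul]
      linear_combination c * this
    · intro u v
      have := h6 u v
      simp only [Prod.smul_snd, Prod.smul_fst, Pi.smul_apply, smul_eq_mul]
      linear_combination c * this
    · intro u v
      have := h7 u v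
      simp only [Prod.smul_snd, Prod.smul_fst, Pi.smul_apply, smul_eq_mul]
      linear_combination c * this

end Pool.MP0eb725
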