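import Mathlib

section

set_option autoImplicit false

namespace Pool.MP0eb725

/-- rational valued functions on `ℤ × ℤ` -/
abbrev Fn := ℤ → ℤ → ℚ

/-- 6-periodic in both variables -/
def Per (f : Fn) : Prop := ∀ m n : ℤ, f (m + 6) n = f m n ∧ f m (n + 6) = f m n
/-- 3-periodic in both variables -/
def Per3 (f : Fn) : Prop := ∀ m n : ℤ, f (m + 3) n = f m n ∧ f m (n + 3) = f m n
def Odd2 (f : Fn) : Prop := ∀ m n : ℤ, f (-m) (-n) = - f m n
/-- type 1: 6-periodic, odd in the first and even in the second variable -/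
def Ty1 (f : Fn) : Prop := Per f ∧ (∀ m n : ℤ, f (-m) n = - f m n) ∧ (∀ m n : ℤ, f m (-n) = f m n)

def tr (f : Fn) : Fn := fun m n => f n m
def fu (f : Fn) : Fn := fun m n => f (m + n) n
def fl (f : Fn) : Fn := fun m n => f m (m + n)
/-- type-1 part -/
def p1 (f : Fn) : Fn := fun m n => (f m n + f m (-n)) / 2
def sc (a b : ℕ) (f : Fn) : Fn := fun m n => if (a : ℤ) ∣ m ∧ (b : ℤ) ∣ n then f (m / a) (n / b) else 0
/-- `f^(1)` -/
def q1 (f : Fn) : Fn := fun m n => f (m + n) (-n)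
/-- `f^(2)` -/
def q2 (f : Fn) : Fn := fun m n => f n (m - n)

/-- `L(f,x) = ∑_{m,n ≥ 1} f(m,n) / (m x + n)^w` -/
noncomputable def L (w : ℕ) (f : Fn) (x : ℝ) : ℝ :=
  ∑' p : ℕ × ℕ, (f ((p.1 : ℤ) + 1) ((p.2 : ℤ) + 1) : ℝ) / (((p.1 : ℝ) + 1) * x + ((p.2 : ℝ) + 1)) ^ w

/-- `Z(f) = ∑_{k ≥ 1} f(k,k) / k^w` -/
noncomputable def Zd (w : ℕ) (f : Fn) : ℝ :=
  ∑' k : ℕ, (f ((k : ℤ) + 1) ((k : ℤ) + 1) : ℝ) / ((k : ℝ) + 1) ^ w

/-- `E_Y(h;u,v) = ∫_0^Y (u x + v)^(w-2) L(h,x) dx` -/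
noncomputable def EE (w : ℕ) (h : Fn) (u v Y : ℝ) : ℝ :=
  ∫ x in (0 : ℝ)..Y, (u * x + v) ^ (w - 2) * L w h x

/-- mean over the second variable -/
def hbar (h : Fn) (m : ℤ) : ℚ := (∑ j ∈ Finset.range 6, h m ((j : ℤ) + 1)) / 6

noncomputable def mu (w : ℕ) (h : Fn) : ℝ :=
  (∑' m : ℕ, (hbar h ((m : ℤ) + 1) : ℝ) / ((m : ℝ) + 1) ^ (w - 1)) / ((w : ℝ) - 1)

/-- the regularized integral `∫_0^∞ (u x + v)^(w-2) L(h,x) dx` for a function of type 1 -/
noncomputable def ereg (w : ℕ) (h : Fn) (u v : ℝ) : ℝ :=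
  Filter.limUnder Filter.atTop (fun Y : ℝ => EE w h u v Y - u ^ (w - 2) * mu w h * Real.log Y)

/-- the primitive `F_a(f;u,v)` of `(u x + v)^(w-2) L(f,x)` -/
noncomputable def FF (w : ℕ) (f : Fn) (u v a : ℝ) : ℝ :=
  EE w (p1 f) u v a - EE w (p1 (tr f)) v u (1 / a)

noncomputable def PP (w : ℕ) (f : Fn) (u v : ℝ) : ℝ :=
  ereg w (p1 (q1 f)) (u + v) (-v) - ereg w (p1 (q2 f)) (u + v) u

noncomputable def TH (w : ℕ) (f : Fn) (u v : ℝ) : ℝ := FF w f u v 1 - PP w f u v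

/-- equality modulo `ℚ √3 π^w` -/
def Eqv (w : ℕ) (x y : ℝ) : Prop := ∃ q : ℚ, x - y = q * (Real.sqrt 3 * Real.pi ^ w)

/-- the function of (A12) -/
noncomputable def CC (w : ℕ) (f : Fn) (u v a : ℝ) : ℝ :=
  FF w f u v a - FF w (fu f) (u - v) v (a / (1 + a)) - FF w (fl f) u (v - u) (1 + a)
    - Zd w f * ∫ z in (0 : ℝ)..(a / (1 + a)), ((u - v) * z + v) ^ (w - 2)

/-- integer valued functions on `(ℤ/6)²` as functions on `ℤ²` -/
def lift (F : ZMod 6 → ZMod 6 → ℤ) : Fn := fun m n => ((F (m : ZMod 6) (n : ZMod 6) : ℤ) : ℚ)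

/-- the `n`-th row `∑_m h(m+1,n+1)/((m+1)x+(n+1))^w` -/
noncomputable def rowR (w : ℕ) (h : Fn) (n : ℕ) (x : ℝ) : ℝ :=
  ∑' m : ℕ, (h ((m : ℤ) + 1) ((n : ℤ) + 1) : ℝ) / (((m : ℝ) + 1) * x + ((n : ℝ) + 1)) ^ w

/-- the odd character mod 3 as a function on `ℤ` -/
def chiI (m : ℤ) : ℚ := if m % 3 = 1 then 1 else if m % 3 = 2 then -1 else 0

/-- `ψ(m,n) = χ(n-m)` -/
def psiF : Fn := fun m n => chiI (n - m)

/-- real valued binary forms with real coefficients on rational arguments -/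
def RF (d : ℕ) (g : ℚ → ℚ → ℝ) : Prop :=
  ∃ a : ℕ → ℝ, ∀ u v : ℚ, g u v = ∑ i ∈ Finset.range (d + 1), a i * (u : ℝ) ^ i * (v : ℝ) ^ (d - i)

end Pool.MP0eb725
end

section

section

set_option autoImplicit false

namespace Pool.MP0eb725

theorem B01_pm {f : Fn} (h : Per f) (m n : ℤ) : f (m + 6) n = f m n := (h m n).1

theorem B01_pn {f : Fn} (h : Per f) (m n : ℤ) : f m (n + 6) = f m n := (h m n).2

theorem B01_sm {f : Fn} (h : Per f) (m n : ℤ) : f (m - 6) n = f m n := by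
  have := (h (m - 6) n).1
  rw [sub_add_cancel] at this
  exact this.symm

theorem B01_sn {f : Fn} (h : Per f) (m n : ℤ) : f m (n - 6) = f m n := by
  have := (h m (n - 6)).2
  rw [sub_add_cancel] at this
  exact this.symm

/-- shift invariance of the sum over a period -/
theorem B01_shift {g : ℤ → ℚ} (h : ∀ n, g (n + 6) = g n) (c : ℤ) :
    ∑ j ∈ Finset.range 6, g (c + ((j : ℤ) + 1)) = ∑ j ∈ Finset.range 6, g ((j : ℤ) + 1) := by
  have step : ∀ c : ℤ, ∑ j ∈ Finset.range 6, g (c + 1 + ((j : ℤ) + 1)) =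
      ∑ j ∈ Finset.range 6, g (c + ((j : ℤ) + 1)) := by
    intro c
    have h7 := h (c + 1)
    simp only [Finset.sum_range_succ, Finset.sum_range_zero]
    push_cast
    have e1 : c + 1 + 1 = c + 2 := by ring
    have e2 : c + 1 + 2 = c + 3 := by ring
    have e3 : c + 1 + 3 = c + 4 := by ring
    have e4 : c + 1 + 4 = c + 5 := by ring
    have e5 : c + 1 + 5 = c + 6 := by ring
    norm_num
    rw [e1, e2, e3, e4, e5, h7]
    ring
  induction c using Int.induction_on with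
  | zero => simp
  | succ i ih => rw [step, ih]
  | pred i ih =>
    have := step (-(i : ℤ) - 1)
    rw [sub_add_cancel] at this
    rw [← this, ih]

theorem B01_mod {f : Fn} (h : Per f) (m n : ℤ) : f m n = f (m % 6) (n % 6) := by
  have h1 : ∀ (k : ℤ) (m n : ℤ), f (m + 6 * k) n = f m n := by
    intro k
    induction k using Int.induction_on with
    | zero => intro m n; simp
    | succ i ih =>
      intro m n
      have e : m + 6 * ((i : ℤ) + 1) = m + 6 * i + 6 := by ring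
      rw [e, (h _ _).1, ih]
    | pred i ih =>
      intro m n
      have e : m + 6 * (-(i : ℤ) - 1) = m + 6 * (-(i : ℤ)) - 6 := by ring
      rw [e, B01_sm h, ih]
  have h2 : ∀ (k : ℤ) (m n : ℤ), f m (n + 6 * k) = f m n := by
    intro k
    induction k using Int.induction_on with
    | zero => intro m n; simp
    | succ i ih =>
      intro m n
      have e : n + 6 * ((i : ℤ) + 1) = n + 6 * i + 6 := by ring
      rw [e, (h _ _).2, ih]
    | pred i ih =>
      intro m n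
      have e : n + 6 * (-(i : ℤ) - 1) = n + 6 * (-(i : ℤ)) - 6 := by ring
      rw [e, B01_sn h, ih]
  conv_lhs => rw [← Int.emod_add_mul_ediv m 6, ← Int.emod_add_mul_ediv n 6]
  rw [h1, h2]

theorem Per.tr {f : Fn} (h : Per f) : Per (tr f) := by
  intro m n
  exact ⟨(h n m).2, (h n m).1⟩

theorem Per.fu {f : Fn} (h : Per f) : Per (fu f) := by
  intro m n
  unfold Pool.MP0eb725.fu
  constructor
  · have e : m + 6 + n = m + n + 6 := by ring
    rw [e, B01_pm h]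
  · have e : m + (n + 6) = m + n + 6 := by ring
    rw [e, B01_pm h, B01_pn h]

theorem Per.fl {f : Fn} (h : Per f) : Per (fl f) := by
  intro m n
  unfold Pool.MP0eb725.fl
  constructor
  · have e : m + 6 + n = m + n + 6 := by ring
    rw [e, B01_pm h, B01_pn h]
  · have e : m + (n + 6) = m + n + 6 := by ring
    rw [e, B01_pn h]

theorem Per.p1 {f : Fn} (h : Per f) : Per (p1 f) := by
  intro m n
  unfold Pool.MP0eb725.p1
  constructor
  · rw [B01_pm h, B01_pm h]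
  · have e : -(n + 6) = -n - 6 := by ring
    rw [e, B01_pn h, B01_sn h]

theorem Per.q1 {f : Fn} (h : Per f) : Per (q1 f) := by
  intro m n
  unfold Pool.MP0eb725.q1
  constructor
  · have e : m + 6 + n = m + n + 6 := by ring
    rw [e, B01_pm h]
  · have e : m + (n + 6) = m + n + 6 := by ring
    have e2 : -(n + 6) = -n - 6 := by ring
    rw [e, e2, B01_pm h, B01_sn h]

theorem Per.q2 {f : Fn} (h : Per f) : Per (q2 f) := by
  intro m n
  unfold Pool.MP0eb725.q2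
  constructor
  · have e : m + 6 - n = m - n + 6 := by ring
    rw [e, B01_pn h]
  · have e : m - (n + 6) = m - n - 6 := by ring
    rw [e, B01_pm h, B01_sn h]

theorem Odd2.tr {f : Fn} (h : Odd2 f) : Odd2 (tr f) := by
  intro m n
  exact h n m

theorem Odd2.fu {f : Fn} (h : Odd2 f) : Odd2 (fu f) := by
  intro m n
  unfold Pool.MP0eb725.fu
  rw [← neg_add, h]

theorem Odd2.fl {f : Fn} (h : Odd2 f) : Odd2 (fl f) := by
  intro m n
  unfold Pool.MP0eb725.fl
  rw [← neg_add, h]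

theorem Odd2.q1 {f : Fn} (h : Odd2 f) : Odd2 (q1 f) := by
  intro m n
  unfold Pool.MP0eb725.q1
  rw [← neg_add, h]

theorem Odd2.q2 {f : Fn} (h : Odd2 f) : Odd2 (q2 f) := by
  intro m n
  unfold Pool.MP0eb725.q2
  have e : -m - -n = -(m - n) := by ring
  rw [e, h]

/-- the type-1 part of an odd 6-periodic function is of type 1 -/
theorem ty1_p1 {f : Fn} (h : Per f) (ho : Odd2 f) : Ty1 (p1 f) := by
  refine ⟨Per.p1 h, ?_, ?_⟩
  · intro m n
    unfold p1
    have h1 : f (-m) n = - f m (-n) := by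
      have := ho m (-n)
      rwa [neg_neg] at this
    rw [h1, ho m n]
    ring
  · intro m n
    unfold p1
    rw [neg_neg]
    ring

/-- a 6-periodic function is bounded -/
theorem per_bdd {f : Fn} (h : Per f) : ∃ C : ℝ, 0 ≤ C ∧ ∀ m n : ℤ, |(f m n : ℝ)| ≤ C := by
  refine ⟨∑ i ∈ Finset.range 6, ∑ j ∈ Finset.range 6, |(f (i : ℤ) (j : ℤ) : ℝ)|,
    Finset.sum_nonneg fun _ _ => Finset.sum_nonneg fun _ _ => abs_nonneg _, ?_⟩
  intro m n
  obtain ⟨i, hi⟩ : ∃ i : ℕ, (i : ℤ) = m % 6 :=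
    ⟨(m % 6).toNat, Int.toNat_of_nonneg (Int.emod_nonneg _ (by norm_num))⟩
  obtain ⟨j, hj⟩ : ∃ j : ℕ, (j : ℤ) = n % 6 :=
    ⟨(n % 6).toNat, Int.toNat_of_nonneg (Int.emod_nonneg _ (by norm_num))⟩
  have hi6 : i < 6 := by
    have := Int.emod_lt_of_pos m (show (0 : ℤ) < 6 by norm_num)
    omega
  have hj6 : j < 6 := by
    have := Int.emod_lt_of_pos n (show (0 : ℤ) < 6 by norm_num)
    omega
  rw [B01_mod h m n, ← hi, ← hj]
  refine le_trans ?_ (Finset.single_le_sum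
    (f := fun i : ℕ => ∑ j ∈ Finset.range 6, |(f (i : ℤ) (j : ℤ) : ℝ)|)
    (fun _ _ => Finset.sum_nonneg fun _ _ => abs_nonneg _) (Finset.mem_range.2 hi6))
  exact Finset.single_le_sum (f := fun j : ℕ => |(f (i : ℤ) (j : ℤ) : ℝ)|)
    (fun _ _ => abs_nonneg _) (Finset.mem_range.2 hj6)

/-- `f = p1 f + tr (p1 (tr f))` for odd `f` -/
theorem split12 {f : Fn} (ho : Odd2 f) (m n : ℤ) : f m n = p1 f m n + tr (p1 (tr f)) m n := by
  unfold tr p1
  have h1 : f (-m) n = - f m (-n) := by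
    have := ho m (-n)
    rwa [neg_neg] at this
  simp only
  rw [h1]
  ring

theorem sc_p1 (a b : ℕ) (ha : 1 ≤ a) (hb : 1 ≤ b) (f : Fn) : p1 (sc a b f) = sc a b (p1 f) := by
  funext m n
  unfold p1 sc
  by_cases h1 : (a : ℤ) ∣ m
  · by_cases h2 : (b : ℤ) ∣ n
    · have h3 : (b : ℤ) ∣ -n := (dvd_neg).2 h2
      rw [if_pos ⟨h1, h2⟩, if_pos ⟨h1, h3⟩, if_pos ⟨h1, h2⟩, Int.neg_ediv_of_dvd h2]
    · have h3 : ¬ (b : ℤ) ∣ -n := fun h => h2 ((dvd_neg).1 h)
      rw [if_neg (fun h => h2 h.2), if_neg (fun h => h3 h.2), if_neg (fun h => h2 h.2)]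
      norm_num
  · rw [if_neg (fun h => h1 h.1), if_neg (fun h => h1 h.1), if_neg (fun h => h1 h.1)]
    norm_num

theorem sc_tr (a b : ℕ) (f : Fn) : tr (sc a b f) = sc b a (tr f) := by
  funext m n
  unfold tr sc
  simp only [and_comm]

theorem hbar_p1 {f : Fn} (h : Per f) (m : ℤ) : hbar (p1 f) m = hbar f m := by
  unfold hbar
  have h1 : ∑ j ∈ Finset.range 6, f m (-((j : ℤ) + 1)) =
      ∑ j ∈ Finset.range 6, f m ((j : ℤ) + 1) := by
    simp only [Finset.sum_range_succ, Finset.sum_range_zero]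
    push_cast
    have e0 : f m (-1) = f m 5 := by
      rw [← B01_pn h]; norm_num
    have e1 : f m (-2) = f m 4 := by
      rw [← B01_pn h]; norm_num
    have e2 : f m (-3) = f m 3 := by
      rw [← B01_pn h]; norm_num
    have e3 : f m (-4) = f m 2 := by
      rw [← B01_pn h]; norm_num
    have e4 : f m (-5) = f m 1 := by
      rw [← B01_pn h]; norm_num
    have e5 : f m (-6) = f m 6 := by
      rw [← B01_pn h, ← B01_pn h]; norm_num
    norm_num
    rw [e0, e1, e2, e3, e4, e5]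
    ring
  unfold p1
  rw [← Finset.sum_div, Finset.sum_add_distrib, h1]
  ring

theorem hbar_fl {f : Fn} (h : Per f) (m : ℤ) : hbar (fl f) m = hbar f m := by
  unfold hbar fl
  rw [B01_shift (g := fun n => f m n) (fun n => B01_pn h m n) m]

theorem hbar_tr_fu {f : Fn} (h : Per f) (m : ℤ) : hbar (tr (fu f)) m = hbar (tr f) m := by
  unfold hbar tr fu
  have h1 := B01_shift (g := fun n => f n m) (fun n => B01_pm h n m) m
  rw [← h1]
  simp only [add_comm m]

/-- `mu(f^(1)) = mu(f^(2))` -/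
theorem hbar_q12 {f : Fn} (h : Per f) (m : ℤ) : hbar (q1 f) m = hbar (q2 f) m := by
  unfold hbar q1 q2
  have h1 := B01_shift (g := fun n => f n (m - n)) (fun n => by
    have e : m - (n + 6) = m - n - 6 := by ring
    rw [e, B01_pm h, B01_sn h]) m
  rw [← h1]
  congr 1
  refine Finset.sum_congr rfl fun j _ => ?_
  congr 1
  ring

/-- `mu` only depends on `hbar` -/
theorem mu_congr (w : ℕ) {f g : Fn} (h : ∀ m, hbar f m = hbar g m) : mu w f = mu w g := by
  unfold mu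
  simp only [h]

theorem p1_q1_tr (f : Fn) : p1 (q1 (tr f)) = p1 (q2 f) := by
  funext m n
  unfold p1 q1 q2 tr
  have e1 : m + -n = m - n := by ring
  have e2 : m - -n = m + n := by ring
  simp only [neg_neg, e1, e2]
  ring

theorem p1_q2_tr (f : Fn) : p1 (q2 (tr f)) = p1 (q1 f) := by
  funext m n
  unfold p1 q1 q2 tr
  have e1 : m + -n = m - n := by ring
  have e2 : m - -n = m + n := by ring
  simp only [neg_neg, e1, e2]
  ring

/-- `(f^l)^(1) = (f^u)^T`, `(f^l)^(2) = f^T` -/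
theorem q1_fl (f : Fn) : q1 (fl f) = tr (fu f) := by
  funext m n
  unfold q1 fl tr fu
  have e1 : m + n + -n = m := by ring
  have e2 : n + m = m + n := by ring
  simp only [e1, e2]

theorem q2_fl (f : Fn) : q2 (fl f) = tr f := by
  funext m n
  unfold q2 fl tr
  have e1 : n + (m - n) = m := by ring
  simp only [e1]

/-- `(f^u)^(1)(M,N) = f(M,-N)`, `(f^u)^(2)(M,N) = f^l(M,-N)`; same type-1 parts -/
theorem p1_q1_fu (f : Fn) : p1 (q1 (fu f)) = p1 f := by
  funext m n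
  unfold p1 q1 fu
  have e1 : m + n + -n = m := by ring
  have e2 : m + -n + - -n = m := by ring
  simp only [e1, neg_neg]
  rw [add_comm]
  congr 2
  have e3 : m + -n + n = m := by ring
  simp only [e3]

theorem p1_q2_fu (f : Fn) : p1 (q2 (fu f)) = p1 (fl f) := by
  funext m n
  unfold p1 q2 fu fl
  have e1 : n + (m - n) = m := by ring
  have e2 : -n + (m - -n) = m := by ring
  have e3 : m - -n = m + n := by ring
  have e4 : m + -n = m - n := by ring
  simp only [e1, e2, e3, e4]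
  rw [add_comm (f m (m - n))]
  congr 2
  have e5 : -n + (m + n) = m := by ring
  simp only [e5]

end Pool.MP0eb725
end

section

end
end

section

section

set_option autoImplicit false

namespace Pool.MP0eb725

theorem B02a_base : Summable (fun n : ℕ => (((n : ℝ) + 1) ^ (3 / 2 : ℝ))⁻¹) := by
  have h1 : Summable (fun n : ℕ => ((n : ℝ) ^ (3 / 2 : ℝ))⁻¹) :=
    Real.summable_nat_rpow_inv.2 (by norm_num)
  have h2 := (summable_nat_add_iff 1).2 h1
  refine h2.congr fun n => ?_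
  push_cast
  rfl

theorem B02a_pos (x : ℝ) (hx : 0 < x) (m n : ℕ) : 0 < ((m : ℝ) + 1) * x + ((n : ℝ) + 1) := by
  positivity

theorem B02a_ineq (w : ℕ) (hw : 3 ≤ w) (x : ℝ) (hx : 0 < x) (m n : ℕ) :
    (min x 1) ^ w * (((m : ℝ) + 1) ^ (3 / 2 : ℝ) * ((n : ℝ) + 1) ^ (3 / 2 : ℝ)) ≤
      (((m : ℝ) + 1) * x + ((n : ℝ) + 1)) ^ w := by
  have ha : (1 : ℝ) ≤ (m : ℝ) + 1 := by
    have : (0 : ℝ) ≤ (m : ℝ) := Nat.cast_nonneg m
    linarith
  have hb : (1 : ℝ) ≤ (n : ℝ) + 1 := by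
    have : (0 : ℝ) ≤ (n : ℝ) := Nat.cast_nonneg n
    linarith
  obtain ⟨a, hadef⟩ : ∃ a : ℝ, a = (m : ℝ) + 1 := ⟨_, rfl⟩
  obtain ⟨b, hbdef⟩ : ∃ b : ℝ, b = (n : ℝ) + 1 := ⟨_, rfl⟩
  rw [← hadef, ← hbdef]
  rw [← hadef] at ha
  rw [← hbdef] at hb
  have hc : 0 < min x 1 := lt_min hx one_pos
  have h1 : min x 1 * (a + b) ≤ a * x + b := by
    have e1 : min x 1 * a ≤ a * x := by
      rw [mul_comm]
      exact mul_le_mul_of_nonneg_left (min_le_left _ _) (by linarith)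
    have e2 : min x 1 * b ≤ b := by
      have := mul_le_mul_of_nonneg_right (min_le_right x 1) (by linarith : (0 : ℝ) ≤ b)
      linarith
    linarith
  have h2 : (min x 1) ^ w * (a + b) ^ w ≤ (a * x + b) ^ w := by
    rw [← mul_pow]
    exact pow_le_pow_left₀ (by positivity) h1 w
  have h3 : (a + b) ^ 3 ≤ (a + b) ^ w := pow_le_pow_right₀ (by linarith) hw
  have h4 : a ^ (3 / 2 : ℝ) * b ^ (3 / 2 : ℝ) ≤ (a + b) ^ 3 := by
    have e1 : a ^ (3 / 2 : ℝ) ≤ (a + b) ^ (3 / 2 : ℝ) :=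
      Real.rpow_le_rpow (by linarith) (by linarith) (by norm_num)
    have e2 : b ^ (3 / 2 : ℝ) ≤ (a + b) ^ (3 / 2 : ℝ) :=
      Real.rpow_le_rpow (by linarith) (by linarith) (by norm_num)
    have e3 : (a + b) ^ (3 / 2 : ℝ) * (a + b) ^ (3 / 2 : ℝ) = (a + b) ^ 3 := by
      rw [← Real.rpow_add (by linarith)]
      norm_num
    rw [← e3]
    exact mul_le_mul e1 e2 (by positivity) (by positivity)
  calc (min x 1) ^ w * (a ^ (3 / 2 : ℝ) * b ^ (3 / 2 : ℝ)) ≤ (min x 1) ^ w * (a + b) ^ w :=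
        mul_le_mul_of_nonneg_left (h4.trans h3) (by positivity)
    _ ≤ _ := h2

/-- Absolute convergence. E.g. `(a+b)^3 ≥ (a b)^(3/2)` (real powers) and a product of two convergent series, or
sum over the antidiagonals `∑_N (N+1)/(N+2)^3`, or `EisensteinSeries` summability; `(m x + n) ≥ min x 1 * (m + n)`. -/
theorem summL (w : ℕ) (hw : 3 ≤ w) (f : Fn) (C : ℝ) (hC : ∀ m n : ℤ, |(f m n : ℝ)| ≤ C) (x : ℝ) (hx : 0 < x) :
    Summable (fun p : ℕ × ℕ => (f ((p.1 : ℤ) + 1) ((p.2 : ℤ) + 1) : ℝ) /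
      (((p.1 : ℝ) + 1) * x + ((p.2 : ℝ) + 1)) ^ w) := by
  have hC0 : 0 ≤ C := (abs_nonneg _).trans (hC 0 0)
  have hc : 0 < min x 1 := lt_min hx one_pos
  have hs := B02a_base.mul_of_nonneg B02a_base (fun n => by positivity) (fun n => by positivity)
  refine Summable.of_norm_bounded (hs.mul_left (C / (min x 1) ^ w)) ?_
  intro p
  have h1 := B02a_ineq w hw x hx p.1 p.2
  have h2 := B02a_pos x hx p.1 p.2
  rw [Real.norm_eq_abs, abs_div, abs_of_pos (pow_pos h2 w)]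
  have h3 : 0 < (min x 1) ^ w * (((p.1 : ℝ) + 1) ^ (3 / 2 : ℝ) * ((p.2 : ℝ) + 1) ^ (3 / 2 : ℝ)) := by
    positivity
  have h4 : C / (min x 1) ^ w * ((((p.1 : ℝ) + 1) ^ (3 / 2 : ℝ))⁻¹ * (((p.2 : ℝ) + 1) ^ (3 / 2 : ℝ))⁻¹) =
      C / ((min x 1) ^ w * (((p.1 : ℝ) + 1) ^ (3 / 2 : ℝ) * ((p.2 : ℝ) + 1) ^ (3 / 2 : ℝ))) := by
    have e1 : ((p.1 : ℝ) + 1) ^ (3 / 2 : ℝ) ≠ 0 := by positivity
    have e2 : ((p.2 : ℝ) + 1) ^ (3 / 2 : ℝ) ≠ 0 := by positivity
    have e3 : (min x 1) ^ w ≠ 0 := by positivity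
    field_simp
  rw [h4]
  exact div_le_div₀ hC0 (hC _ _) h3 h1

theorem L_add (w : ℕ) (hw : 3 ≤ w) {f g : Fn} (hf : Per f) (hg : Per g) (x : ℝ) (hx : 0 < x) :
    L w (fun m n => f m n + g m n) x = L w f x + L w g x := by
  obtain ⟨C, _, hC⟩ := per_bdd hf
  obtain ⟨D, _, hD⟩ := per_bdd hg
  unfold L
  rw [← (summL w hw f C hC x hx).tsum_add (summL w hw g D hD x hx)]
  refine tsum_congr fun p => ?_
  push_cast
  rw [add_div]

theorem L_smul (w : ℕ) (c : ℚ) (f : Fn) (x : ℝ) :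
    L w (fun m n => c * f m n) x = c * L w f x := by
  unfold L
  rw [← tsum_mul_left]
  refine tsum_congr fun p => ?_
  push_cast
  rw [mul_div_assoc]

end Pool.MP0eb725
end

section

set_option autoImplicit false

namespace Pool.MP0eb725

/-- (A1) -/
theorem L_tr (w : ℕ) (f : Fn) (x : ℝ) (hx : 0 < x) : L w f x = (1 / x) ^ w * L w (tr f) (1 / x) := by
  unfold L
  rw [← tsum_mul_left, ← (Equiv.prodComm ℕ ℕ).tsum_eq]
  refine tsum_congr fun p => ?_
  simp only [Equiv.prodComm_apply, Prod.fst_swap, Prod.snd_swap, tr]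
  have h1 : ((p.1 : ℝ) + 1) * (1 / x) + ((p.2 : ℝ) + 1) = (1 / x) * (((p.2 : ℝ) + 1) * x + ((p.1 : ℝ) + 1)) := by
    field_simp
    ring
  have h2 : (1 / x) ^ w ≠ 0 := pow_ne_zero _ (by positivity)
  rw [h1, mul_pow, ← mul_div_assoc, mul_div_mul_left _ _ h2]

/-- (A3): the terms with `a ∣ m`, `b ∣ n` only (`Function.Injective.tsum_eq` or similar). -/
theorem L_sc (w : ℕ) (a b : ℕ) (ha : 1 ≤ a) (hb : 1 ≤ b) (f : Fn) (x : ℝ) (hx : 0 < x) :
    L w (sc a b f) x = (1 / (b : ℝ)) ^ w * L w f ((a : ℝ) / b * x) := by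
  unfold L
  obtain ⟨g, hg⟩ : ∃ g : ℕ × ℕ → ℕ × ℕ, g = fun p => (a * (p.1 + 1) - 1, b * (p.2 + 1) - 1) := ⟨_, rfl⟩
  have hg1 : ∀ p : ℕ × ℕ, (g p).1 + 1 = a * (p.1 + 1) := fun p => by
    rw [hg]
    have : 1 ≤ a * (p.1 + 1) := Nat.mul_pos ha (Nat.succ_pos _)
    exact Nat.sub_add_cancel this
  have hg2 : ∀ p : ℕ × ℕ, (g p).2 + 1 = b * (p.2 + 1) := fun p => by
    rw [hg]
    have : 1 ≤ b * (p.2 + 1) := Nat.mul_pos hb (Nat.succ_pos _)
    exact Nat.sub_add_cancel this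
  have hinj : Function.Injective g := by
    intro p q h
    have h1 : a * (p.1 + 1) = a * (q.1 + 1) := by rw [← hg1, ← hg1, h]
    have h2 : b * (p.2 + 1) = b * (q.2 + 1) := by rw [← hg2, ← hg2, h]
    have h3 := Nat.eq_of_mul_eq_mul_left ha h1
    have h4 := Nat.eq_of_mul_eq_mul_left hb h2
    exact Prod.ext (by omega) (by omega)
  rw [← hinj.tsum_eq, ← tsum_mul_left]
  · refine tsum_congr fun p => ?_
    have c1 : (((g p).1 : ℤ) + 1) = (a : ℤ) * ((p.1 : ℤ) + 1) := by exact_mod_cast hg1 p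
    have c2 : (((g p).2 : ℤ) + 1) = (b : ℤ) * ((p.2 : ℤ) + 1) := by exact_mod_cast hg2 p
    have r1 : (((g p).1 : ℝ) + 1) = (a : ℝ) * ((p.1 : ℝ) + 1) := by exact_mod_cast hg1 p
    have r2 : (((g p).2 : ℝ) + 1) = (b : ℝ) * ((p.2 : ℝ) + 1) := by exact_mod_cast hg2 p
    have a0 : (a : ℤ) ≠ 0 := by exact_mod_cast (by omega : a ≠ 0)
    have b0 : (b : ℤ) ≠ 0 := by exact_mod_cast (by omega : b ≠ 0)
    have bR : (b : ℝ) ≠ 0 := by exact_mod_cast (by omega : b ≠ 0)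
    rw [c1, c2, r1, r2]
    unfold sc
    rw [if_pos ⟨dvd_mul_right _ _, dvd_mul_right _ _⟩, Int.mul_ediv_cancel_left _ a0, Int.mul_ediv_cancel_left _ b0]
    have h1 : (a : ℝ) * ((p.1 : ℝ) + 1) * x + (b : ℝ) * ((p.2 : ℝ) + 1) =
        (b : ℝ) * (((p.1 : ℝ) + 1) * ((a : ℝ) / b * x) + ((p.2 : ℝ) + 1)) := by
      field_simp
    rw [h1, mul_pow, one_div, inv_pow, div_mul_eq_div_div, div_eq_inv_mul _ ((b : ℝ) ^ w), mul_div_assoc]
  · intro p hp
    rw [Function.mem_support] at hp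
    have h1 : (a : ℤ) ∣ ((p.1 : ℤ) + 1) ∧ (b : ℤ) ∣ ((p.2 : ℤ) + 1) := by
      by_contra hne
      apply hp
      unfold sc
      rw [if_neg hne]
      simp
    obtain ⟨h2, h3⟩ := h1
    have h4 : a ∣ p.1 + 1 := by exact_mod_cast h2
    have h5 : b ∣ p.2 + 1 := by exact_mod_cast h3
    obtain ⟨m, hm⟩ := h4
    obtain ⟨n, hn⟩ := h5
    have m0 : m ≠ 0 := by
      rintro rfl
      simp at hm
    have n0 : n ≠ 0 := by
      rintro rfl
      simp at hn
    refine ⟨(m - 1, n - 1), ?_⟩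
    have e1 := hg1 (m - 1, n - 1)
    have e2 := hg2 (m - 1, n - 1)
    simp only at e1 e2
    rw [Nat.sub_add_cancel (by omega)] at e1 e2
    exact Prod.ext (by omega) (by omega)

end Pool.MP0eb725
end

section

set_option autoImplicit false

namespace Pool.MP0eb725

/-- a periodic function is bounded -/
theorem B02c_bdd {f : Fn} (hf : Per f) : ∃ C : ℝ, ∀ m n : ℤ, |(f m n : ℝ)| ≤ C := by
  classical
  have h1 : ∀ (k : ℤ) (m n : ℤ), f (m + 6 * k) n = f m n := by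
    intro k
    induction k using Int.induction_on with
    | zero => intro m n; simp
    | succ k ih =>
      intro m n
      have := (hf (m + 6 * (k : ℤ)) n).1
      rw [show m + 6 * ((k : ℤ) + 1) = m + 6 * (k : ℤ) + 6 by ring, this, ih]
    | pred k ih =>
      intro m n
      have := (hf (m + 6 * (-(k : ℤ) - 1)) n).1
      rw [← this, show m + 6 * (-(k : ℤ) - 1) + 6 = m + 6 * (-(k : ℤ)) by ring, ih]
  have h2 : ∀ (k : ℤ) (m n : ℤ), f m (n + 6 * k) = f m n := by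
    intro k
    induction k using Int.induction_on with
    | zero => intro m n; simp
    | succ k ih =>
      intro m n
      have := (hf m (n + 6 * (k : ℤ))).2
      rw [show n + 6 * ((k : ℤ) + 1) = n + 6 * (k : ℤ) + 6 by ring, this, ih]
    | pred k ih =>
      intro m n
      have := (hf m (n + 6 * (-(k : ℤ) - 1))).2
      rw [← this, show n + 6 * (-(k : ℤ) - 1) + 6 = n + 6 * (-(k : ℤ)) by ring, ih]
  have h3 : ∀ m n : ℤ, f m n = f (m % 6) (n % 6) := by
    intro m n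
    have e1 := h1 (m / 6) (m % 6) n
    have e2 := h2 (n / 6) (m % 6) (n % 6)
    rw [Int.emod_add_mul_ediv] at e1 e2
    rw [e1, e2]
  refine ⟨∑ p ∈ (Finset.Ico (0 : ℤ) 6) ×ˢ (Finset.Ico (0 : ℤ) 6), |(f p.1 p.2 : ℝ)|, ?_⟩
  intro m n
  rw [h3 m n]
  have hm : (m % 6, n % 6) ∈ (Finset.Ico (0 : ℤ) 6) ×ˢ (Finset.Ico (0 : ℤ) 6) := by
    simp only [Finset.mem_product, Finset.mem_Ico]
    omega
  exact Finset.single_le_sum (f := fun p : ℤ × ℤ => |(f p.1 p.2 : ℝ)|) (fun p _ => abs_nonneg _) hm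

theorem B02c_perU {f : Fn} (hf : Per f) : Per (fu f) := by
  intro m n
  constructor
  · show f (m + 6 + n) n = f (m + n) n
    rw [show m + 6 + n = m + n + 6 by ring]
    exact (hf (m + n) n).1
  · show f (m + (n + 6)) (n + 6) = f (m + n) n
    rw [(hf _ n).2, show m + (n + 6) = m + n + 6 by ring]
    exact (hf (m + n) n).1

theorem B02c_perL {f : Fn} (hf : Per f) : Per (fl f) := by
  intro m n
  constructor
  · show f (m + 6) (m + 6 + n) = f m (m + n)
    rw [(hf m _).1, show m + 6 + n = m + n + 6 by ring]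
    exact (hf m (m + n)).2
  · show f m (m + (n + 6)) = f m (m + n)
    rw [show m + (n + 6) = m + n + 6 by ring]
    exact (hf m (m + n)).2

/-- (A2), three-term identity: split the sum over pairs `(m, n)` according to `m > n` (`m = m' + n`), `m < n`
(`n = m + n'`), `m = n`. -/
theorem L_three (w : ℕ) (hw : 3 ≤ w) {f : Fn} (hf : Per f) (x : ℝ) (hx : 0 < x) :
    L w f x = (1 / (1 + x)) ^ w * L w (fu f) (x / (1 + x)) + L w (fl f) (1 + x)
      + (1 / (1 + x)) ^ w * Zd w f := by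
  obtain ⟨C, hC⟩ := B02c_bdd hf
  set g : ℕ × ℕ → ℝ := fun p => (f ((p.1 : ℤ) + 1) ((p.2 : ℤ) + 1) : ℝ) /
      (((p.1 : ℝ) + 1) * x + ((p.2 : ℝ) + 1)) ^ w with hg
  have hS : Summable g := summL w hw f C hC x hx
  have hx1 : (0 : ℝ) < 1 + x := by linarith
  -- the three injections
  let i1 : ℕ × ℕ → ℕ × ℕ := fun p => (p.1 + p.2 + 1, p.2)
  let i2 : ℕ × ℕ → ℕ × ℕ := fun p => (p.1, p.1 + p.2 + 1)
  let i3 : ℕ → ℕ × ℕ := fun k => (k, k)
  have j1 : Function.Injective i1 := by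
    rintro ⟨a, b⟩ ⟨c, d⟩ h
    simp only [i1, Prod.mk.injEq] at h ⊢
    omega
  have j2 : Function.Injective i2 := by
    rintro ⟨a, b⟩ ⟨c, d⟩ h
    simp only [i2, Prod.mk.injEq] at h ⊢
    omega
  have j3 : Function.Injective i3 := by
    intro a b h
    simp only [i3, Prod.mk.injEq] at h
    exact h.1
  have s1 : HasSum (g ∘ i1) ((1 / (1 + x)) ^ w * L w (fu f) (x / (1 + x))) := by
    have e : g ∘ i1 = fun p : ℕ × ℕ => (1 / (1 + x)) ^ w * ((fu f ((p.1 : ℤ) + 1) ((p.2 : ℤ) + 1) : ℝ) /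
      (((p.1 : ℝ) + 1) * (x / (1 + x)) + ((p.2 : ℝ) + 1)) ^ w) := by
      funext p
      simp only [hg, i1, Function.comp, fu]
      have e1 : (((p.1 + p.2 + 1 : ℕ) : ℤ) + 1) = (p.1 : ℤ) + 1 + ((p.2 : ℤ) + 1) := by push_cast; ring
      have e2 : ((((p.1 + p.2 + 1 : ℕ) : ℝ) + 1) * x + ((p.2 : ℝ) + 1)) =
        (1 + x) * (((p.1 : ℝ) + 1) * (x / (1 + x)) + ((p.2 : ℝ) + 1)) := by
        push_cast; field_simp; ring
      rw [e1, e2, mul_pow, one_div, inv_pow]
      rw [div_mul_eq_div_div, ← div_eq_inv_mul, div_right_comm]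
    rw [e]
    have hp : (0 : ℝ) < x / (1 + x) := by positivity
    obtain ⟨C', hC'⟩ := B02c_bdd (B02c_perU hf)
    exact (summL w hw (fu f) C' hC' _ hp).hasSum.mul_left _
  have s2 : HasSum (g ∘ i2) (L w (fl f) (1 + x)) := by
    have e : g ∘ i2 = fun p : ℕ × ℕ => ((fl f ((p.1 : ℤ) + 1) ((p.2 : ℤ) + 1) : ℝ) /
      (((p.1 : ℝ) + 1) * (1 + x) + ((p.2 : ℝ) + 1)) ^ w) := by
      funext p
      simp only [hg, i2, Function.comp, fl]
      have e1 : (((p.1 + p.2 + 1 : ℕ) : ℤ) + 1) = (p.1 : ℤ) + 1 + ((p.2 : ℤ) + 1) := by push_cast; ring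
      have e2 : ((((p.1 : ℝ) + 1) * x + (((p.1 + p.2 + 1 : ℕ) : ℝ) + 1))) =
        (((p.1 : ℝ) + 1) * (1 + x) + ((p.2 : ℝ) + 1)) := by
        push_cast; ring
      rw [e1, e2]
    rw [e]
    obtain ⟨C', hC'⟩ := B02c_bdd (B02c_perL hf)
    exact (summL w hw (fl f) C' hC' _ hx1).hasSum
  have s3 : HasSum (g ∘ i3) ((1 / (1 + x)) ^ w * Zd w f) := by
    have e : g ∘ i3 = fun k : ℕ => (1 / (1 + x)) ^ w * ((f ((k : ℤ) + 1) ((k : ℤ) + 1) : ℝ) / ((k : ℝ) + 1) ^ w) := by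
      funext k
      simp only [hg, i3, Function.comp]
      have e2 : (((k : ℝ) + 1) * x + ((k : ℝ) + 1)) = (1 + x) * ((k : ℝ) + 1) := by ring
      rw [e2, mul_pow, one_div, inv_pow]
      rw [div_mul_eq_div_div, ← div_eq_inv_mul, div_right_comm]
    have hs3 : Summable (fun k : ℕ => (f ((k : ℤ) + 1) ((k : ℤ) + 1) : ℝ) / ((k : ℝ) + 1) ^ w) := by
      have h4 : Summable (g ∘ i3) := hS.comp_injective j3
      rw [e] at h4
      have hne : (1 / (1 + x)) ^ w ≠ 0 := by positivity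
      exact (summable_mul_left_iff hne).1 h4
    rw [e]
    exact hs3.hasSum.mul_left _
  have t1 : HasSum (g ∘ ((↑) : Set.range i1 → ℕ × ℕ)) ((1 / (1 + x)) ^ w * L w (fu f) (x / (1 + x))) :=
    (j1.hasSum_range_iff).2 s1
  have t2 : HasSum (g ∘ ((↑) : Set.range i2 → ℕ × ℕ)) (L w (fl f) (1 + x)) :=
    (j2.hasSum_range_iff).2 s2
  have t3 : HasSum (g ∘ ((↑) : Set.range i3 → ℕ × ℕ)) ((1 / (1 + x)) ^ w * Zd w f) :=
    (j3.hasSum_range_iff).2 s3
  have d12 : Disjoint (Set.range i1) (Set.range i2) := by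
    rw [Set.disjoint_left]
    rintro ⟨a, b⟩ ⟨⟨c, d⟩, h⟩ ⟨⟨c', d'⟩, h'⟩
    simp only [i1, i2, Prod.mk.injEq] at h h'
    omega
  have d3 : Disjoint (Set.range i1 ∪ Set.range i2) (Set.range i3) := by
    rw [Set.disjoint_left]
    rintro ⟨a, b⟩ hab ⟨k, hk⟩
    simp only [i3, Prod.mk.injEq] at hk
    rcases hab with ⟨⟨c, d⟩, h⟩ | ⟨⟨c, d⟩, h⟩
    · simp only [i1, Prod.mk.injEq] at h
      omega
    · simp only [i2, Prod.mk.injEq] at h
      omega
  have t12 := HasSum.add_disjoint d12 t1 t2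
  have t123 := HasSum.add_disjoint d3 t12 t3
  have hU : (Set.range i1 ∪ Set.range i2) ∪ Set.range i3 = Set.univ := by
    ext ⟨a, b⟩
    simp only [Set.mem_union, Set.mem_range, Set.mem_univ, iff_true]
    rcases lt_trichotomy a b with h | h | h
    · left; right
      exact ⟨(a, b - a - 1), Prod.ext rfl (by show a + (b - a - 1) + 1 = b; omega)⟩
    · right
      exact ⟨a, Prod.ext rfl h⟩
    · left; left
      exact ⟨(a - b - 1, b), Prod.ext (by show a - b - 1 + b + 1 = a; omega) rfl⟩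
  rw [hU] at t123
  have t := ((Equiv.Set.univ (ℕ × ℕ)).hasSum_iff).1 t123
  show ∑' p, g p = _
  exact t.tsum_eq

end Pool.MP0eb725
end

section

set_option autoImplicit false

namespace Pool.MP0eb725

/-- (A4): on `[δ, ∞)` the terms are bounded by a summable sequence (`continuousOn_tsum`). -/
theorem L_cont (w : ℕ) (hw : 3 ≤ w) {f : Fn} (hf : Per f) : ContinuousOn (L w f) (Set.Ioi 0) := by
  obtain ⟨C, hC0, hC⟩ := per_bdd hf
  intro x hx
  have hx0 : (0 : ℝ) < x := hx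
  have hδ : 0 < x / 2 := by linarith
  have hs := (summL w hw (fun _ _ => 1) 1 (fun m n => by norm_num) (x / 2) hδ).mul_left C
  have hpos : ∀ (p : ℕ × ℕ) (y : ℝ), 0 < y →
      0 < ((p.1 : ℝ) + 1) * y + ((p.2 : ℝ) + 1) := fun p y hy => by positivity
  have hc : ContinuousOn (fun y : ℝ => ∑' p : ℕ × ℕ, (f ((p.1 : ℤ) + 1) ((p.2 : ℤ) + 1) : ℝ) /
      (((p.1 : ℝ) + 1) * y + ((p.2 : ℝ) + 1)) ^ w) (Set.Ioi (x / 2)) := by
    refine continuousOn_tsum (fun p => ?_) hs fun p y hy => ?_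
    · refine ContinuousOn.div continuousOn_const ?_ fun y hy => ?_
      · exact (((continuous_const.mul continuous_id).add continuous_const).pow w).continuousOn
      · exact (pow_pos (hpos p y (hδ.trans hy)) w).ne'
    · have hy0 : 0 < y := hδ.trans hy
      have h1 : ((p.1 : ℝ) + 1) * (x / 2) + ((p.2 : ℝ) + 1) ≤
          ((p.1 : ℝ) + 1) * y + ((p.2 : ℝ) + 1) := by
        have : ((p.1 : ℝ) + 1) * (x / 2) ≤ ((p.1 : ℝ) + 1) * y :=
          mul_le_mul_of_nonneg_left (le_of_lt hy) (by positivity)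
        linarith
      have h2 : (((p.1 : ℝ) + 1) * (x / 2) + ((p.2 : ℝ) + 1)) ^ w ≤
          (((p.1 : ℝ) + 1) * y + ((p.2 : ℝ) + 1)) ^ w :=
        pow_le_pow_left₀ (hpos p _ hδ).le h1 w
      rw [Real.norm_eq_abs, abs_div, abs_of_pos (pow_pos (hpos p y hy0) w)]
      have h3 := hC ((p.1 : ℤ) + 1) ((p.2 : ℤ) + 1)
      calc |(f ((p.1 : ℤ) + 1) ((p.2 : ℤ) + 1) : ℝ)| / (((p.1 : ℝ) + 1) * y + ((p.2 : ℝ) + 1)) ^ w
          ≤ C / (((p.1 : ℝ) + 1) * (x / 2) + ((p.2 : ℝ) + 1)) ^ w :=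
            div_le_div₀ hC0 h3 (pow_pos (hpos p _ hδ) w) h2
        _ = C * ((((1 : ℚ) : ℝ)) / (((p.1 : ℝ) + 1) * (x / 2) + ((p.2 : ℝ) + 1)) ^ w) := by
            push_cast
            rw [mul_one_div]
  exact (hc.continuousAt (Ioi_mem_nhds (by linarith))).continuousWithinAt

end Pool.MP0eb725
end

section

end

section

set_option autoImplicit false

namespace Pool.MP0eb725

theorem B03a_parts (a φ : ℕ → ℝ) (M : ℕ) :
    ∑ i ∈ Finset.range (M + 1), a i * φ i = (∑ i ∈ Finset.range (M + 1), a i) * φ M +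
      ∑ i ∈ Finset.range M, (∑ j ∈ Finset.range (i + 1), a j) * (φ i - φ (i + 1)) := by
  induction M with
  | zero => simp
  | succ M ih =>
    rw [Finset.sum_range_succ, ih, Finset.sum_range_succ a (M + 1),
      Finset.sum_range_succ (fun i => (∑ j ∈ Finset.range (i + 1), a j) * (φ i - φ (i + 1))) M]
    ring

/-- Abel's inequality (summation by parts). -/
theorem abel_le (a φ : ℕ → ℝ) (C : ℝ) (hC : ∀ M, |∑ i ∈ Finset.range M, a i| ≤ C) (hφ : Antitone φ)
    (h0 : ∀ i, 0 ≤ φ i) (M : ℕ) : |∑ i ∈ Finset.range M, a i * φ i| ≤ C * φ 0 := by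
  have hC0 : 0 ≤ C := (abs_nonneg _).trans (hC 0)
  rcases M with _ | M
  · simpa using mul_nonneg hC0 (h0 0)
  rw [B03a_parts]
  have h1 : |(∑ i ∈ Finset.range (M + 1), a i) * φ M| ≤ C * φ M := by
    rw [abs_mul, abs_of_nonneg (h0 M)]
    exact mul_le_mul_of_nonneg_right (hC _) (h0 M)
  have h2 : |∑ i ∈ Finset.range M, (∑ j ∈ Finset.range (i + 1), a j) * (φ i - φ (i + 1))| ≤
      ∑ i ∈ Finset.range M, C * (φ i - φ (i + 1)) := by
    refine (Finset.abs_sum_le_sum_abs _ _).trans (Finset.sum_le_sum fun i _ => ?_)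
    have h3 : 0 ≤ φ i - φ (i + 1) := sub_nonneg.2 (hφ (Nat.le_succ i))
    rw [abs_mul, abs_of_nonneg h3]
    exact mul_le_mul_of_nonneg_right (hC _) h3
  have h3 : ∑ i ∈ Finset.range M, C * (φ i - φ (i + 1)) = C * (φ 0 - φ M) := by
    rw [← Finset.mul_sum, Finset.sum_range_sub']
  have h4 := abs_add_le ((∑ i ∈ Finset.range (M + 1), a i) * φ M)
    (∑ i ∈ Finset.range M, (∑ j ∈ Finset.range (i + 1), a j) * (φ i - φ (i + 1)))
  linarith

/-- bounded partial sums of an odd 6-periodic function (zero sum over a period; finitely many classes of `n`) -/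
theorem part_sum_bdd {h : Fn} (hP : Per h) (ho : ∀ m n : ℤ, h (-m) n = - h m n) :
    ∃ C : ℝ, 0 ≤ C ∧ ∀ (n : ℤ) (M : ℕ), |∑ i ∈ Finset.range M, (h ((i : ℤ) + 1) n : ℝ)| ≤ C := by
  obtain ⟨C0, hC0, hb⟩ := per_bdd hP
  refine ⟨6 * C0, by positivity, ?_⟩
  intro n M
  -- the sum over a period vanishes
  have hper : ∀ m : ℤ, h (m + 1) n + h (m + 2) n + h (m + 3) n + h (m + 4) n + h (m + 5) n
      + h (m + 6) n = 0 := by
    intro m
    -- the sum over a period does not depend on the starting point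
    have hstep : ∀ m : ℤ, h (m + 1 + 1) n + h (m + 1 + 2) n + h (m + 1 + 3) n + h (m + 1 + 4) n
        + h (m + 1 + 5) n + h (m + 1 + 6) n = h (m + 1) n + h (m + 2) n + h (m + 3) n
        + h (m + 4) n + h (m + 5) n + h (m + 6) n := by
      intro m
      rw [(hP (m + 1) n).1, show m + 1 + 1 = m + 2 by ring, show m + 1 + 2 = m + 3 by ring,
        show m + 1 + 3 = m + 4 by ring, show m + 1 + 4 = m + 5 by ring,
        show m + 1 + 5 = m + 6 by ring]
      ring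
    have hbase : h ((-3 : ℤ) + 1) n + h ((-3 : ℤ) + 2) n + h ((-3 : ℤ) + 3) n + h ((-3 : ℤ) + 4) n
        + h ((-3 : ℤ) + 5) n + h ((-3 : ℤ) + 6) n = 0 := by
      have e0 : h 0 n = 0 := by
        have := ho 0 n
        rw [neg_zero] at this
        linarith
      have e1 := ho 1 n
      have e2 := ho 2 n
      have e3 := ho 3 n
      have e3' := (hP (-3) n).1
      norm_num at e1 e2 e3 e3' ⊢
      linarith
    have hall : ∀ k : ℕ, ∀ m : ℤ, m = -3 + k ∨ m = -3 - k →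
        h (m + 1) n + h (m + 2) n + h (m + 3) n + h (m + 4) n + h (m + 5) n + h (m + 6) n = 0 := by
      intro k
      induction k with
      | zero =>
        intro m hm
        have : m = -3 := by rcases hm with hm | hm <;> simpa using hm
        rw [this]
        exact hbase
      | succ k ih =>
        intro m hm
        rcases hm with hm | hm
        · have h1 := ih (m - 1) (Or.inl (by push_cast at hm ⊢; linarith))
          have h2 := hstep (m - 1)
          rw [sub_add_cancel] at h1 h2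
          rw [h2]
          exact h1
        · have h1 := ih (m + 1) (Or.inr (by push_cast at hm ⊢; linarith))
          rw [hstep m] at h1
          exact h1
    rcases le_total (-3) m with hm | hm
    · exact hall (m + 3).toNat m (Or.inl (by
        have : ((m + 3).toNat : ℤ) = m + 3 := Int.toNat_of_nonneg (by linarith)
        rw [this]; ring))
    · exact hall (-3 - m).toNat m (Or.inr (by
        have : ((-3 - m).toNat : ℤ) = -3 - m := Int.toNat_of_nonneg (by linarith)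
        rw [this]; ring))
  have hS : ∀ q r : ℕ, ∑ i ∈ Finset.range (6 * q + r), (h ((i : ℤ) + 1) n : ℝ) =
      ∑ i ∈ Finset.range r, (h ((i : ℤ) + 1) n : ℝ) := by
    intro q
    induction q with
    | zero => intro r; simp
    | succ q ih =>
      intro r
      rw [show 6 * (q + 1) + r = (6 * q + r) + 6 by ring, ← ih r]
      rw [Finset.sum_range_succ, Finset.sum_range_succ, Finset.sum_range_succ,
        Finset.sum_range_succ, Finset.sum_range_succ, Finset.sum_range_succ]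
      have h1 := hper ((6 * q + r : ℕ) : ℤ)
      have h2 : ((h (((6 * q + r : ℕ) : ℤ) + 1) n + h (((6 * q + r : ℕ) : ℤ) + 2) n
        + h (((6 * q + r : ℕ) : ℤ) + 3) n + h (((6 * q + r : ℕ) : ℤ) + 4) n
        + h (((6 * q + r : ℕ) : ℤ) + 5) n + h (((6 * q + r : ℕ) : ℤ) + 6) n : ℚ) : ℝ) = 0 := by
        rw [h1]; simp
      push_cast at h2 ⊢
      have e : ∀ c d : ℤ, (6 * (q : ℤ) + r + c + d) = 6 * (q : ℤ) + r + (c + d) := by
        intro c d; ring
      simp only [e] at *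
      norm_num at h2 ⊢
      linarith
  have hM : M = 6 * (M / 6) + M % 6 := (Nat.div_add_mod M 6).symm
  rw [hM, hS]
  refine (Finset.abs_sum_le_sum_abs _ _).trans ?_
  refine (Finset.sum_le_sum fun i _ => hb _ _).trans ?_
  rw [Finset.sum_const, Finset.card_range, nsmul_eq_mul]
  have h6 : ((M % 6 : ℕ) : ℝ) ≤ 6 := by
    have : M % 6 < 6 := Nat.mod_lt _ (by norm_num)
    exact_mod_cast this.le
  exact mul_le_mul_of_nonneg_right h6 hC0

/-- bound for the partial sums of a row (`abel_le` with `φ i = 1/((i+1)x+(n+1))^w`) -/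
theorem row_bdd (w : ℕ) {h : Fn} (hP : Per h) (ho : ∀ m n : ℤ, h (-m) n = - h m n) :
    ∃ C : ℝ, 0 ≤ C ∧ ∀ (x : ℝ), 0 ≤ x → ∀ (n M : ℕ),
      |∑ i ∈ Finset.range M, (h ((i : ℤ) + 1) ((n : ℤ) + 1) : ℝ) / (((i : ℝ) + 1) * x + ((n : ℝ) + 1)) ^ w| ≤
        C / (x + ((n : ℝ) + 1)) ^ w := by
  obtain ⟨C, hC0, hC⟩ := part_sum_bdd hP ho
  refine ⟨C, hC0, fun x hx n M => ?_⟩
  have key := abel_le (fun i : ℕ => (h ((i : ℤ) + 1) ((n : ℤ) + 1) : ℝ))
    (fun i : ℕ => 1 / (((i : ℝ) + 1) * x + ((n : ℝ) + 1)) ^ w) C (fun M => hC ((n : ℤ) + 1) M) ?_ ?_ M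
  · simp only [mul_one_div] at key
    refine key.trans (le_of_eq ?_)
    norm_num
  · intro i j hij
    have h1 : (i : ℝ) ≤ (j : ℝ) := by exact_mod_cast hij
    have h2 : (0 : ℝ) < ((i : ℝ) + 1) * x + ((n : ℝ) + 1) := by positivity
    have h3 : ((i : ℝ) + 1) * x + ((n : ℝ) + 1) ≤ ((j : ℝ) + 1) * x + ((n : ℝ) + 1) := by
      nlinarith
    exact one_div_le_one_div_of_le (by positivity) (pow_le_pow_left₀ h2.le h3 w)
  · intro i
    positivity

end Pool.MP0eb725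
end

section

set_option autoImplicit false

namespace Pool.MP0eb725

/-- (A5) -/
theorem L_bdd (w : ℕ) (hw : 3 ≤ w) {h : Fn} (hP : Per h) (ho : ∀ m n : ℤ, h (-m) n = - h m n) :
    ∃ C : ℝ, 0 ≤ C ∧ ∀ x : ℝ, 0 < x → |L w h x| ≤ C := by
  obtain ⟨B, hB0, hB⟩ := per_bdd hP
  obtain ⟨C, hC0, hC⟩ := row_bdd w hP ho
  have hsz : Summable fun n : ℕ => C * (1 / ((n : ℝ) + 1) ^ w) := by
    refine Summable.mul_left C ?_
    have h1 : Summable fun n : ℕ => 1 / (n : ℝ) ^ w :=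
      Real.summable_one_div_nat_pow.2 (by omega)
    have h2 := (summable_nat_add_iff (f := fun n : ℕ => 1 / (n : ℝ) ^ w) 1).2 h1
    refine h2.congr fun n => ?_
    push_cast
    rfl
  refine ⟨∑' n : ℕ, C * (1 / ((n : ℝ) + 1) ^ w), tsum_nonneg fun n => by positivity,
    fun x hx => ?_⟩
  have hs := summL w hw h B hB x hx
  set F : ℕ × ℕ → ℝ := fun p => (h ((p.1 : ℤ) + 1) ((p.2 : ℤ) + 1) : ℝ) /
      (((p.1 : ℝ) + 1) * x + ((p.2 : ℝ) + 1)) ^ w with hF
  have hL : L w h x = ∑' n : ℕ, ∑' m : ℕ, F (m, n) := by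
    have h1 : L w h x = ∑' p : ℕ × ℕ, F p := rfl
    rw [h1, ← (Equiv.prodComm ℕ ℕ).tsum_eq F]
    have h2 : Summable fun c => F ((Equiv.prodComm ℕ ℕ) c) :=
      (Equiv.prodComm ℕ ℕ).summable_iff.2 hs
    rw [h2.tsum_prod]
    rfl
  rw [hL, ← Real.norm_eq_abs]
  refine tsum_of_norm_bounded hsz.hasSum fun n => ?_
  rw [Real.norm_eq_abs]
  have hr : Summable fun m : ℕ => F (m, n) := by
    have h2 : Summable fun c => F ((Equiv.prodComm ℕ ℕ) c) :=
      (Equiv.prodComm ℕ ℕ).summable_iff.2 hs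
    exact h2.prod_factor n
  have ht := hr.hasSum.tendsto_sum_nat.abs
  refine le_of_tendsto' ht fun K => ?_
  refine (hC x hx.le n K).trans ?_
  rw [div_eq_mul_one_div C]
  refine mul_le_mul_of_nonneg_left ?_ hC0
  refine one_div_le_one_div_of_le (by positivity) ?_
  exact pow_le_pow_left₀ (by positivity) (by linarith) w

end Pool.MP0eb725
end

section

set_option autoImplicit false

namespace Pool.MP0eb725

theorem B03c_pow (a b : ℝ) (hb : 0 ≤ b) (hab : b ≤ a) (k : ℕ) :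
    ((k : ℝ) + 1) * b ^ k * (a - b) ≤ a ^ (k + 1) - b ^ (k + 1) ∧
      a ^ (k + 1) - b ^ (k + 1) ≤ ((k : ℝ) + 1) * a ^ k * (a - b) := by
  have ha : 0 ≤ a := hb.trans hab
  have hd : 0 ≤ a - b := sub_nonneg.2 hab
  induction k with
  | zero => constructor <;> simp
  | succ k ih =>
    have e : a ^ (k + 1 + 1) - b ^ (k + 1 + 1) =
        a * (a ^ (k + 1) - b ^ (k + 1)) + b ^ (k + 1) * (a - b) := by ring
    have hpk : b ^ (k + 1) ≤ a ^ (k + 1) := pow_le_pow_left₀ hb hab _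
    have hp0 : 0 ≤ a ^ (k + 1) - b ^ (k + 1) := sub_nonneg.2 hpk
    rw [e]
    push_cast
    constructor
    · have h1 : b * (((k : ℝ) + 1) * b ^ k * (a - b)) ≤ a * (a ^ (k + 1) - b ^ (k + 1)) :=
        (mul_le_mul_of_nonneg_left ih.1 hb).trans (mul_le_mul_of_nonneg_right hab hp0)
      have h2 : ((k : ℝ) + 1 + 1) * b ^ (k + 1) * (a - b) =
          b * (((k : ℝ) + 1) * b ^ k * (a - b)) + b ^ (k + 1) * (a - b) := by ring
      rw [h2]
      linarith
    · have h1 : a * (a ^ (k + 1) - b ^ (k + 1)) ≤ a * (((k : ℝ) + 1) * a ^ k * (a - b)) :=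
        mul_le_mul_of_nonneg_left ih.2 ha
      have h2 : ((k : ℝ) + 1 + 1) * a ^ (k + 1) * (a - b) =
          a * (((k : ℝ) + 1) * a ^ k * (a - b)) + a ^ (k + 1) * (a - b) := by ring
      have h3 : b ^ (k + 1) * (a - b) ≤ a ^ (k + 1) * (a - b) :=
        mul_le_mul_of_nonneg_right hpk hd
      rw [h2]
      linarith

theorem B03c_step (k : ℕ) (t : ℝ) (ht : 0 < t) :
    1 / (t + 1) ^ (k + 2) ≤ (1 / t) ^ (k + 1) / ((k : ℝ) + 1) - (1 / (t + 1)) ^ (k + 1) / ((k : ℝ) + 1) ∧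
      (1 / t) ^ (k + 1) / ((k : ℝ) + 1) - (1 / (t + 1)) ^ (k + 1) / ((k : ℝ) + 1) ≤ 1 / t ^ (k + 2) := by
  have ht1 : 0 < t + 1 := by linarith
  have hab : 1 / (t + 1) ≤ 1 / t := one_div_le_one_div_of_le ht (by linarith)
  have hb : 0 < 1 / (t + 1) := by positivity
  have ha : 0 < 1 / t := by positivity
  have hk : (0 : ℝ) < (k : ℝ) + 1 := by positivity
  obtain ⟨h1, h2⟩ := B03c_pow (1 / t) (1 / (t + 1)) hb.le hab k
  have e0 : 1 / t - 1 / (t + 1) = (1 / t) * (1 / (t + 1)) := by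
    field_simp
    ring
  rw [e0] at h1 h2
  rw [← sub_div]
  have ea : 1 / t ^ (k + 2) = (1 / t) ^ k * ((1 / t) * (1 / t)) := by
    rw [one_div_pow]
    rw [pow_add]
    field_simp
  have eb : 1 / (t + 1) ^ (k + 2) = (1 / (t + 1)) ^ k * ((1 / (t + 1)) * (1 / (t + 1))) := by
    rw [one_div_pow]
    rw [pow_add]
    field_simp
  constructor
  · rw [le_div_iff₀ hk, eb]
    refine le_trans ?_ h1
    have h3 : (1 / (t + 1)) ^ k * ((1 / (t + 1)) * (1 / (t + 1))) * ((k : ℝ) + 1) ≤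
        (1 / (t + 1)) ^ k * ((1 / t) * (1 / (t + 1))) * ((k : ℝ) + 1) := by
      gcongr
    linarith
  · rw [div_le_iff₀ hk, ea]
    refine h2.trans ?_
    have h3 : (1 / t) ^ k * ((1 / t) * (1 / (t + 1))) * ((k : ℝ) + 1) ≤
        (1 / t) ^ k * ((1 / t) * (1 / t)) * ((k : ℝ) + 1) := by
      gcongr
    linarith

theorem B03c_up (k : ℕ) (A : ℝ) (hA : 0 < A) (N : ℕ) :
    (∑ n ∈ Finset.range N, 1 / (A + ((n : ℝ) + 1)) ^ (k + 2)) ≤
      (1 / A) ^ (k + 1) / ((k : ℝ) + 1) - (1 / (A + N)) ^ (k + 1) / ((k : ℝ) + 1) := by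
  induction N with
  | zero => simp
  | succ N ih =>
    rw [Finset.sum_range_succ]
    have h1 := (B03c_step k (A + N) (by positivity)).1
    push_cast
    rw [← add_assoc]
    linarith

theorem B03c_lo (k : ℕ) (A : ℝ) (hA : 0 < A) (N : ℕ) :
    (1 / (A + 1)) ^ (k + 1) / ((k : ℝ) + 1) - (1 / (A + 1 + N)) ^ (k + 1) / ((k : ℝ) + 1) ≤
      ∑ n ∈ Finset.range N, 1 / (A + ((n : ℝ) + 1)) ^ (k + 2) := by
  induction N with
  | zero => simp
  | succ N ih =>
    rw [Finset.sum_range_succ]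
    have h1 := (B03c_step k (A + 1 + N) (by positivity)).2
    have e : A + ((N : ℝ) + 1) = A + 1 + N := by ring
    push_cast
    rw [e, ← add_assoc]
    linarith

/-- comparison of a sum with an integral: telescope `T t = t^(1-w)/(w-1)`,
`(A+n+1)^(-w) ≤ T(A+n) - T(A+n+1) ≤ (A+n)^(-w)`. -/
theorem sum_int (w : ℕ) (hw : 2 ≤ w) (A : ℝ) (hA : 0 < A) :
    |(∑' n : ℕ, 1 / (A + ((n : ℝ) + 1)) ^ w) - (1 / A) ^ (w - 1) / ((w : ℝ) - 1)| ≤ (1 / A) ^ w := by
  obtain ⟨k, rfl⟩ : ∃ k, w = k + 2 := ⟨w - 2, by omega⟩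
  have e1 : k + 2 - 1 = k + 1 := by omega
  have e2 : ((k + 2 : ℕ) : ℝ) - 1 = (k : ℝ) + 1 := by
    push_cast
    ring
  rw [e1, e2]
  have hnn : ∀ n : ℕ, 0 ≤ 1 / (A + ((n : ℝ) + 1)) ^ (k + 2) := fun n => by positivity
  have hT : ∀ t : ℝ, 0 < t → 0 ≤ (1 / t) ^ (k + 1) / ((k : ℝ) + 1) := fun t ht => by positivity
  have hub : ∀ N : ℕ, (∑ n ∈ Finset.range N, 1 / (A + ((n : ℝ) + 1)) ^ (k + 2)) ≤
      (1 / A) ^ (k + 1) / ((k : ℝ) + 1) := fun N => by
    have h1 := B03c_up k A hA N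
    have h2 := hT (A + N) (by positivity)
    linarith
  have hsum : Summable fun n : ℕ => 1 / (A + ((n : ℝ) + 1)) ^ (k + 2) :=
    summable_of_sum_range_le hnn hub
  have hS1 : (∑' n : ℕ, 1 / (A + ((n : ℝ) + 1)) ^ (k + 2)) ≤ (1 / A) ^ (k + 1) / ((k : ℝ) + 1) :=
    Real.tsum_le_of_sum_range_le hnn hub
  have hS2 : (1 / (A + 1)) ^ (k + 1) / ((k : ℝ) + 1) ≤ ∑' n : ℕ, 1 / (A + ((n : ℝ) + 1)) ^ (k + 2) := by
    have h1 : ∀ N : ℕ, (1 / (A + 1)) ^ (k + 1) / ((k : ℝ) + 1) -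
        (1 / (A + 1 + N)) ^ (k + 1) / ((k : ℝ) + 1) ≤ ∑' n : ℕ, 1 / (A + ((n : ℝ) + 1)) ^ (k + 2) :=
      fun N => (B03c_lo k A hA N).trans (hsum.sum_le_tsum _ fun n _ => hnn n)
    have h2 : Filter.Tendsto (fun N : ℕ => (1 / (A + 1)) ^ (k + 1) / ((k : ℝ) + 1) -
        (1 / (A + 1 + N)) ^ (k + 1) / ((k : ℝ) + 1)) Filter.atTop
        (nhds ((1 / (A + 1)) ^ (k + 1) / ((k : ℝ) + 1) - 0 ^ (k + 1) / ((k : ℝ) + 1))) := by
      refine Filter.Tendsto.sub tendsto_const_nhds (Filter.Tendsto.div_const (Filter.Tendsto.pow ?_ _) _)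
      exact tendsto_const_nhds.div_atTop
        (Filter.tendsto_atTop_add_const_left _ _ tendsto_natCast_atTop_atTop)
    rw [zero_pow (by omega), zero_div, sub_zero] at h2
    exact le_of_tendsto' h2 h1
  have h3 := (B03c_step k A hA).2
  have h4 : (1 / A) ^ (k + 2) = 1 / A ^ (k + 2) := by rw [one_div_pow]
  rw [h4, abs_le]
  have h5 : 0 ≤ 1 / A ^ (k + 2) := by positivity
  constructor <;> linarith

end Pool.MP0eb725
end

section

set_option autoImplicit false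

namespace Pool.MP0eb725

theorem B03d_part {g : ℕ → ℝ} (hp : ∀ n, g (n + 6) = g n)
    (h0 : ∑ i ∈ Finset.range 6, g i = 0) {B : ℝ} (hB : ∀ n, |g n| ≤ B) (M : ℕ) :
    |∑ i ∈ Finset.range M, g i| ≤ 6 * B := by
  have hB0 : 0 ≤ B := (abs_nonneg _).trans (hB 0)
  have h6 : ∀ M : ℕ, ∑ i ∈ Finset.range 6, g (M + i) = 0 := by
    intro M
    induction M with
    | zero => simpa using h0
    | succ M ih =>
      simp only [Finset.sum_range_succ, Finset.sum_range_zero] at ih ⊢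
      have e := hp M
      have e1 : g (M + 1 + 5) = g M := by rw [← e]
      have e2 : g (M + 1 + 0) = g (M + 1) := rfl
      have e3 : g (M + 1 + 1) = g (M + 2) := rfl
      have e4 : g (M + 1 + 2) = g (M + 3) := rfl
      have e5 : g (M + 1 + 3) = g (M + 4) := rfl
      have e6 : g (M + 1 + 4) = g (M + 5) := rfl
      have e7 : g (M + 0) = g M := rfl
      rw [e7] at ih
      rw [e1, e2, e3, e4, e5, e6]
      linarith
  induction M using Nat.strong_induction_on with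
  | _ M ih =>
    rcases lt_or_ge M 6 with h | h
    · calc |∑ i ∈ Finset.range M, g i| ≤ ∑ i ∈ Finset.range M, |g i| :=
            Finset.abs_sum_le_sum_abs _ _
        _ ≤ ∑ i ∈ Finset.range M, B := Finset.sum_le_sum fun i _ => hB i
        _ = M * B := by rw [Finset.sum_const, Finset.card_range, nsmul_eq_mul]
        _ ≤ 6 * B := mul_le_mul_of_nonneg_right (by exact_mod_cast h.le) hB0
    · obtain ⟨M', rfl⟩ : ∃ M', M = M' + 6 := ⟨M - 6, by omega⟩
      rw [Finset.sum_range_add, h6 M', add_zero]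
      exact ih M' (by omega)

theorem B03d_hbar {h : Fn} {C : ℝ} (hC : ∀ m n : ℤ, |(h m n : ℝ)| ≤ C) (m : ℤ) :
    |(hbar h m : ℝ)| ≤ C := by
  unfold hbar
  push_cast
  rw [abs_div, abs_of_pos (by norm_num : (0 : ℝ) < 6), div_le_iff₀ (by norm_num)]
  calc |∑ j ∈ Finset.range 6, (h m ((j : ℤ) + 1) : ℝ)| ≤
        ∑ j ∈ Finset.range 6, |(h m ((j : ℤ) + 1) : ℝ)| := Finset.abs_sum_le_sum_abs _ _
    _ ≤ ∑ j ∈ Finset.range 6, C := Finset.sum_le_sum fun j _ => hC _ _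
    _ = C * 6 := by rw [Finset.sum_const, Finset.card_range, nsmul_eq_mul]; push_cast; ring

theorem B03d_inner (w : ℕ) (hw : 3 ≤ w) {h : Fn} (hP : Per h) {C : ℝ}
    (hC : ∀ m n : ℤ, |(h m n : ℝ)| ≤ C) (m : ℤ) (A : ℝ) (hA : 0 < A)
    (hs : Summable fun n : ℕ => (h m ((n : ℤ) + 1) : ℝ) / (A + ((n : ℝ) + 1)) ^ w)
    (hs1 : Summable fun n : ℕ => 1 / (A + ((n : ℝ) + 1)) ^ w) :
    |(∑' n : ℕ, (h m ((n : ℤ) + 1) : ℝ) / (A + ((n : ℝ) + 1)) ^ w) -
      hbar h m * ((1 / A) ^ (w - 1) / ((w : ℝ) - 1))| ≤ (13 * C) * (1 / A) ^ w := by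
  have hC0 : 0 ≤ C := (abs_nonneg _).trans (hC 0 0)
  set a : ℕ → ℝ := fun n => (h m ((n : ℤ) + 1) : ℝ) - hbar h m with ha
  have hp : ∀ n, a (n + 6) = a n := by
    intro n
    have e := (hP m ((n : ℤ) + 1)).2
    have e1 : (((n + 6 : ℕ) : ℤ) + 1) = ((n : ℤ) + 1) + 6 := by push_cast; ring
    simp only [ha]
    rw [e1, e]
  have h0 : ∑ i ∈ Finset.range 6, a i = 0 := by
    have e : ((hbar h m : ℚ) : ℝ) = (∑ j ∈ Finset.range 6, (h m ((j : ℤ) + 1) : ℝ)) / 6 := by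
      unfold hbar; push_cast; rfl
    simp only [ha]
    rw [Finset.sum_sub_distrib, Finset.sum_const, Finset.card_range, nsmul_eq_mul, e]
    push_cast; ring
  have hb : ∀ n, |a n| ≤ 2 * C := fun n => by
    have h1 := abs_sub (h m ((n : ℤ) + 1) : ℝ) (hbar h m : ℝ)
    have h2 := hC m ((n : ℤ) + 1)
    have h3 := B03d_hbar hC m
    simp only [ha]
    linarith
  have hpos : ∀ n : ℕ, 0 < A + ((n : ℝ) + 1) := fun n => by positivity
  set φ : ℕ → ℝ := fun n => 1 / (A + ((n : ℝ) + 1)) ^ w with hφ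
  have hφ0 : ∀ n, 0 ≤ φ n := fun n => by simp only [hφ]; have := hpos n; positivity
  have hanti : Antitone φ := by
    intro i j hij
    simp only [hφ]
    apply one_div_le_one_div_of_le (pow_pos (hpos i) w)
    apply pow_le_pow_left₀ (hpos i).le
    have : (i : ℝ) ≤ j := by exact_mod_cast hij
    linarith
  have hsφ : Summable φ := hs1
  have hsa : Summable fun n => a n * φ n := by
    have h1 := hs.sub (hs1.mul_left (hbar h m : ℝ))
    refine h1.congr fun n => ?_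
    simp only [ha, hφ]
    ring
  have k1 : |∑' n, a n * φ n| ≤ (6 * (2 * C)) * φ 0 := by
    have h1 : ∀ M, |∑ i ∈ Finset.range M, a i * φ i| ≤ (6 * (2 * C)) * φ 0 :=
      abel_le a φ (6 * (2 * C)) (B03d_part hp h0 hb) hanti hφ0
    exact le_of_tendsto (hsa.hasSum.tendsto_sum_nat.abs) (Filter.Eventually.of_forall h1)
  have k2 : (∑' n : ℕ, (h m ((n : ℤ) + 1) : ℝ) / (A + ((n : ℝ) + 1)) ^ w) =
      (∑' n, a n * φ n) + hbar h m * ∑' n, φ n := by
    rw [← tsum_mul_left, ← hsa.tsum_add (hsφ.mul_left _)]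
    refine tsum_congr fun n => ?_
    simp only [ha, hφ]
    ring
  have k3 := sum_int w (by omega) A hA
  have k4 : φ 0 ≤ (1 / A) ^ w := by
    simp only [hφ]
    rw [one_div_pow]
    apply one_div_le_one_div_of_le (pow_pos hA w)
    apply pow_le_pow_left₀ hA.le
    push_cast
    linarith
  have k5 := B03d_hbar hC m
  rw [k2]
  have e : (∑' n, a n * φ n) + hbar h m * ∑' n, φ n -
      hbar h m * ((1 / A) ^ (w - 1) / ((w : ℝ) - 1)) =
      (∑' n, a n * φ n) + hbar h m * ((∑' n, φ n) - (1 / A) ^ (w - 1) / ((w : ℝ) - 1)) := by ring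
  rw [e]
  have k6 : |(hbar h m : ℝ) * ((∑' n, φ n) - (1 / A) ^ (w - 1) / ((w : ℝ) - 1))| ≤
      C * (1 / A) ^ w := by
    rw [abs_mul]
    exact mul_le_mul k5 k3 (abs_nonneg _) hC0
  have k7 : (6 * (2 * C)) * φ 0 ≤ (6 * (2 * C)) * (1 / A) ^ w :=
    mul_le_mul_of_nonneg_left k4 (by positivity)
  have k8 := abs_add_le (∑' n, a n * φ n)
    ((hbar h m : ℝ) * ((∑' n, φ n) - (1 / A) ^ (w - 1) / ((w : ℝ) - 1)))
  linarith

theorem B03d_zeta (p : ℕ) (hp : 2 ≤ p) : Summable fun m : ℕ => 1 / ((m : ℝ) + 1) ^ p := by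
  have h := (summable_nat_add_iff 1).2 (Real.summable_one_div_nat_pow.2 (by omega : 1 < p))
  simpa using h

/-- (A6).  For fixed `m`, with `A = (m+1) x`: `∑_n h(m+1,n+1)/(A+n+1)^w = ∑_n (h - hbar)/(A+n+1)^w + hbar ∑_n 1/(A+n+1)^w`;
the first sum is `≤ C / A^w` by `abel_le` (the partial sums of `h(m,·) - hbar(m)` are bounded), the second one by
`sum_int`. Sum over `m` (`Summable.tsum_prod`, `summL`). -/
theorem L_asym (w : ℕ) (hw : 3 ≤ w) {h : Fn} (hP : Per h) :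
    ∃ C : ℝ, 0 ≤ C ∧ ∀ x : ℝ, 1 ≤ x → |L w h x - mu w h * (1 / x) ^ (w - 1)| ≤ C * (1 / x) ^ w := by
  obtain ⟨C, hC0, hC⟩ := per_bdd hP
  refine ⟨13 * C * ∑' m : ℕ, 1 / ((m : ℝ) + 1) ^ w,
    mul_nonneg (by positivity) (tsum_nonneg fun m => by positivity), fun x hx => ?_⟩
  have hx0 : 0 < x := by linarith
  have hs := summL w hw h C hC x hx0
  have hs1 := summL w hw (fun _ _ => 1) 1 (fun m n => by simp) x hx0
  have hA : ∀ m : ℕ, 0 < ((m : ℝ) + 1) * x := fun m => by positivity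
  set I : ℕ → ℝ := fun m => ∑' n : ℕ, (h ((m : ℤ) + 1) ((n : ℤ) + 1) : ℝ) /
    (((m : ℝ) + 1) * x + ((n : ℝ) + 1)) ^ w with hI
  set J : ℕ → ℝ := fun m => hbar h ((m : ℤ) + 1) * ((1 / (((m : ℝ) + 1) * x)) ^ (w - 1) / ((w : ℝ) - 1))
    with hJ
  have e1 : L w h x = ∑' m, I m := hs.tsum_prod
  have hIJ : ∀ m, |I m - J m| ≤ (13 * C * (1 / x) ^ w) * (1 / ((m : ℝ) + 1) ^ w) := by
    intro m
    have h1 := B03d_inner w hw hP hC ((m : ℤ) + 1) (((m : ℝ) + 1) * x) (hA m)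
      (hs.prod_factor m) (by simpa using hs1.prod_factor m)
    refine h1.trans (le_of_eq ?_)
    rw [one_div_pow, one_div_pow, mul_pow]
    have : ((m : ℝ) + 1) ≠ 0 := by positivity
    field_simp
  have hJe : ∀ m, J m = (hbar h ((m : ℤ) + 1) : ℝ) / ((m : ℝ) + 1) ^ (w - 1) *
      ((1 / x) ^ (w - 1) / ((w : ℝ) - 1)) := by
    intro m
    simp only [hJ]
    rw [one_div_pow, one_div_pow, mul_pow]
    have h1 : ((m : ℝ) + 1) ≠ 0 := by positivity
    have h2 : ((w : ℝ) - 1) ≠ 0 := by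
      have : (3 : ℝ) ≤ w := by exact_mod_cast hw
      linarith
    field_simp
  have hJs : Summable J := by
    have h1 : Summable fun m : ℕ => (hbar h ((m : ℤ) + 1) : ℝ) / ((m : ℝ) + 1) ^ (w - 1) := by
      refine Summable.of_norm_bounded ((B03d_zeta (w - 1) (by omega)).mul_left C) fun m => ?_
      rw [Real.norm_eq_abs, abs_div, abs_of_pos (by positivity : (0 : ℝ) < ((m : ℝ) + 1) ^ (w - 1)),
        div_eq_mul_one_div]
      exact mul_le_mul_of_nonneg_right (B03d_hbar hC _) (by positivity)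
    exact (h1.mul_right _).congr fun m => (hJe m).symm
  have hIs : Summable I := hs.prod
  have e2 : mu w h * (1 / x) ^ (w - 1) = ∑' m, J m := by
    rw [tsum_congr hJe, tsum_mul_right]
    unfold mu
    ring
  rw [e1, e2, ← hIs.tsum_sub hJs]
  have h3 := tsum_of_norm_bounded ((B03d_zeta w (by omega)).hasSum.mul_left (13 * C * (1 / x) ^ w))
    (f := fun m => I m - J m) (fun m => by rw [Real.norm_eq_abs]; exact hIJ m)
  rw [Real.norm_eq_abs] at h3
  refine h3.trans (le_of_eq ?_)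
  ring

end Pool.MP0eb725
end

section

end

section

set_option autoImplicit false

open MeasureTheory Filter

namespace Pool.MP0eb725

/-- integrability on `[0,Y]`: continuous on `(0,∞)` (`L_cont`) and bounded (`L_bdd`) -/
theorem EE_ii (w : ℕ) (hw : 3 ≤ w) {h : Fn} (hh : Ty1 h) (u v a b : ℝ) (ha : 0 ≤ a) (hb : 0 ≤ b) :
    IntervalIntegrable (fun x => (u * x + v) ^ (w - 2) * L w h x) volume a b := by
  obtain ⟨C, hC0, hC⟩ := L_bdd w hw hh.1 hh.2.1
  have hLc : ContinuousOn (L w h) (Set.Ioi 0) := L_cont w hw hh.1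
  have hL : IntervalIntegrable (L w h) volume a b := by
    rw [intervalIntegrable_iff]
    have hsub : Set.uIoc a b ⊆ Set.Ioi 0 := by
      intro x hx
      rw [Set.uIoc, Set.mem_Ioc] at hx
      exact lt_of_le_of_lt (le_min ha hb) hx.1
    have hfin : volume (Set.uIoc a b) ≠ ⊤ := by
      rw [Set.uIoc, Real.volume_Ioc]
      exact ENNReal.ofReal_ne_top
    have hconst : IntegrableOn (fun _ : ℝ => C) (Set.uIoc a b) volume := integrableOn_const hfin
    refine Integrable.mono' hconst ((hLc.mono hsub).aestronglyMeasurable measurableSet_uIoc) ?_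
    refine (ae_restrict_iff' measurableSet_uIoc).2 (Filter.Eventually.of_forall fun x hx => ?_)
    rw [Real.norm_eq_abs]
    exact hC x (hsub hx)
  exact hL.continuousOn_mul (by fun_prop)

theorem EE_sub (w : ℕ) (hw : 3 ≤ w) {h : Fn} (hh : Ty1 h) (u v a b : ℝ) (ha : 0 ≤ a) (hb : 0 ≤ b) :
    EE w h u v b - EE w h u v a = ∫ x in a..b, (u * x + v) ^ (w - 2) * L w h x := by
  unfold EE
  exact intervalIntegral.integral_interval_sub_left (EE_ii w hw hh u v 0 b le_rfl hb)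
    (EE_ii w hw hh u v 0 a le_rfl ha)

/-- continuity in the upper limit -/
theorem EE_cont (w : ℕ) (hw : 3 ≤ w) {h : Fn} (hh : Ty1 h) (u v : ℝ) :
    ContinuousOn (fun Y => EE w h u v Y) (Set.Ici 0) := by
  intro Y hY
  have hY0 : (0 : ℝ) ≤ Y := hY
  have h1 : ContinuousOn (fun Z => EE w h u v Z) (Set.uIcc 0 (Y + 1)) := by
    unfold EE
    apply intervalIntegral.continuousOn_primitive_interval
    have h2 := EE_ii w hw hh u v 0 (Y + 1) le_rfl (by linarith)
    rw [intervalIntegrable_iff_integrableOn_Icc_of_le (by linarith)] at h2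
    rw [Set.uIcc_of_le (by linarith)]
    exact h2
  rw [Set.uIcc_of_le (by linarith)] at h1
  have h3 := h1 Y ⟨hY0, by linarith⟩
  refine h3.mono_of_mem_nhdsWithin ?_
  have h4 : Set.Iio (Y + 1) ∈ nhds Y := Iio_mem_nhds (by linarith)
  have h5 : Set.Ici (0 : ℝ) ∩ Set.Iio (Y + 1) ∈ nhdsWithin Y (Set.Ici 0) :=
    Filter.inter_mem self_mem_nhdsWithin (mem_nhdsWithin_of_mem_nhds h4)
  exact Filter.mem_of_superset h5 fun z hz => ⟨hz.1, hz.2.le⟩

end Pool.MP0eb725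
end

section

set_option autoImplicit false

open MeasureTheory Filter

namespace Pool.MP0eb725

private theorem b04b_pow (n : ℕ) (u v : ℝ) :
    ∃ K : ℝ, 0 ≤ K ∧ ∀ x : ℝ, 1 ≤ x → |(u + v / x) ^ n - u ^ n| ≤ K * (1 / x) := by
  induction n with
  | zero => exact ⟨0, le_refl _, fun x _ => by simp⟩
  | succ n ih =>
    obtain ⟨K, hK0, hK⟩ := ih
    refine ⟨(|u| + |v|) * K + |v| * |u| ^ n, by positivity, fun x hx => ?_⟩
    have hx0 : 0 < x := lt_of_lt_of_le one_pos hx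
    have h1 : (u + v / x) ^ (n + 1) - u ^ (n + 1)
        = (u + v / x) * ((u + v / x) ^ n - u ^ n) + (v / x) * u ^ n := by ring
    have h2 : |u + v / x| ≤ |u| + |v| := by
      refine (abs_add_le _ _).trans ?_
      rw [abs_div, abs_of_pos hx0]
      have := div_le_self (abs_nonneg v) hx
      linarith
    rw [h1]
    refine (abs_add_le _ _).trans ?_
    rw [abs_mul, abs_mul, abs_div, abs_pow, abs_of_pos hx0]
    have h3 := mul_le_mul h2 (hK x hx) (abs_nonneg _) (by positivity)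
    have h4 : |v| / x * |u| ^ n = |v| * |u| ^ n * (1 / x) := by ring
    rw [h4]
    calc _ ≤ (|u| + |v|) * (K * (1 / x)) + |v| * |u| ^ n * (1 / x) := by linarith
      _ = _ := by ring

private theorem b04b_bd (w : ℕ) (hw : 3 ≤ w) {h : Fn} (hh : Ty1 h) (u v : ℝ) :
    ∃ K : ℝ, 0 ≤ K ∧ ∀ x : ℝ, 1 ≤ x →
      |(u * x + v) ^ (w - 2) * L w h x - u ^ (w - 2) * mu w h * x⁻¹| ≤ K * x ^ (-2 : ℝ) := by
  obtain ⟨C, hC0, hC⟩ := L_asym w hw hh.1
  obtain ⟨K, hK0, hK⟩ := b04b_pow (w - 2) u v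
  refine ⟨|mu w h| * K + (|u| + |v|) ^ (w - 2) * C, by positivity, fun x hx => ?_⟩
  have hx0 : 0 < x := lt_of_lt_of_le one_pos hx
  have hxne : x ≠ 0 := hx0.ne'
  obtain ⟨m, rfl⟩ : ∃ m, w = m + 3 := ⟨w - 3, by omega⟩
  have e1 : m + 3 - 2 = m + 1 := by omega
  have e2 : m + 3 - 1 = m + 2 := by omega
  simp only [e1] at hK ⊢
  have h1 : (u * x + v) ^ (m + 1) * L (m + 3) h x - u ^ (m + 1) * mu (m + 3) h * x⁻¹
      = (u * x + v) ^ (m + 1) * (L (m + 3) h x - mu (m + 3) h * (1 / x) ^ (m + 3 - 1))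
        + mu (m + 3) h * (1 / x) * ((u + v / x) ^ (m + 1) - u ^ (m + 1)) := by
    rw [e2]
    have : (u * x + v) ^ (m + 1) * (1 / x) ^ (m + 2) = (1 / x) * (u + v / x) ^ (m + 1) := by
      have : u + v / x = (u * x + v) * (1 / x) := by field_simp
      rw [this, mul_pow]; ring
    have h3 : mu (m + 3) h * ((u * x + v) ^ (m + 1) * (1 / x) ^ (m + 2))
      = mu (m + 3) h * ((1 / x) * (u + v / x) ^ (m + 1)) := by rw [this]
    rw [inv_eq_one_div]
    linear_combination h3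
  have h2 : |u * x + v| ≤ (|u| + |v|) * x := by
    refine (abs_add_le _ _).trans ?_
    rw [abs_mul, abs_of_pos hx0]
    have := le_mul_of_one_le_right (abs_nonneg v) hx
    linarith
  rw [h1]
  refine (abs_add_le _ _).trans ?_
  rw [abs_mul, abs_mul, abs_mul, abs_pow, abs_div, abs_one, abs_of_pos hx0]
  have h3 : |u * x + v| ^ (m + 1) ≤ ((|u| + |v|) * x) ^ (m + 1) :=
    pow_le_pow_left₀ (abs_nonneg _) h2 _
  have h4 := mul_le_mul h3 (hC x hx) (abs_nonneg _) (by positivity)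
  have h5 := mul_le_mul_of_nonneg_left (hK x hx) (show 0 ≤ |mu (m + 3) h| * (1 / x) by positivity)
  have h6 : x ^ (-2 : ℝ) = (1 / x) ^ 2 := by
    rw [show (-2 : ℝ) = ((-2 : ℤ) : ℝ) by norm_num, Real.rpow_intCast]
    rw [zpow_neg, one_div, inv_pow]
    norm_cast
  rw [h6]
  have h7 : ((|u| + |v|) * x) ^ (m + 1) * (C * (1 / x) ^ (m + 3))
      = (|u| + |v|) ^ (m + 1) * C * (1 / x) ^ 2 := by
    rw [mul_pow]
    have : x ^ (m + 1) * (1 / x) ^ (m + 3) = (1 / x) ^ 2 := by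
      rw [one_div, inv_pow, pow_add x m 3, pow_succ]
      field_simp
    linear_combination ((|u| + |v|) ^ (m + 1) * C) * this
  rw [h7] at h4
  calc _ ≤ (|u| + |v|) ^ (m + 1) * C * (1 / x) ^ 2
        + |mu (m + 3) h| * (1 / x) * (K * (1 / x)) := by linarith
    _ = _ := by ring

/-- (A7): the regularized integral exists: by `L_asym`, `(u x + v)^(w-2) L(h,x) - u^(w-2) mu / x = O(x^(-2))` on
`[1,∞)`, `intervalIntegral_tendsto_integral_Ioi`, `∫_1^Y dx/x = log Y`, `tendsto_nhds_limUnder`. -/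
theorem EE_lim (w : ℕ) (hw : 3 ≤ w) {h : Fn} (hh : Ty1 h) (u v : ℝ) :
    Tendsto (fun Y : ℝ => EE w h u v Y - u ^ (w - 2) * mu w h * Real.log Y) atTop
      (nhds (ereg w h u v)) := by
  unfold ereg
  apply tendsto_nhds_limUnder
  obtain ⟨K, hK0, hK⟩ := b04b_bd w hw hh u v
  set G : ℝ → ℝ := fun x => (u * x + v) ^ (w - 2) * L w h x - u ^ (w - 2) * mu w h * x⁻¹ with hG
  have hcont : ContinuousOn G (Set.Ioi 1) := by
    have h1 : ContinuousOn (L w h) (Set.Ioi 1) :=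
      (L_cont w hw hh.1).mono (Set.Ioi_subset_Ioi zero_le_one)
    refine ContinuousOn.sub (ContinuousOn.mul (by fun_prop) h1) ?_
    refine ContinuousOn.mul continuousOn_const ?_
    exact ContinuousOn.inv₀ continuousOn_id (fun x hx => (lt_trans one_pos hx).ne')
  have hint : IntegrableOn G (Set.Ioi 1) := by
    have h1 : IntegrableOn (fun x : ℝ => K * x ^ (-2 : ℝ)) (Set.Ioi 1) :=
      (integrableOn_Ioi_rpow_of_lt (by norm_num) one_pos).const_mul K
    refine Integrable.mono' h1 (hcont.aestronglyMeasurable measurableSet_Ioi) ?_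
    refine (ae_restrict_iff' measurableSet_Ioi).mpr (Eventually.of_forall fun x hx => ?_)
    rw [Real.norm_eq_abs]
    exact hK x (le_of_lt hx)
  have hlim := intervalIntegral_tendsto_integral_Ioi 1 hint tendsto_id
  refine ⟨EE w h u v 1 + ∫ x in Set.Ioi (1 : ℝ), G x, ?_⟩
  refine (hlim.const_add (EE w h u v 1)).congr' ?_
  filter_upwards [eventually_ge_atTop (1 : ℝ)] with Y hY
  have hY0 : 0 < Y := lt_of_lt_of_le one_pos hY
  simp only [id]
  have e1 := EE_sub w hw hh u v 1 Y zero_le_one hY0.le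
  have e2 : ∫ x in (1 : ℝ)..Y, G x = (∫ x in (1 : ℝ)..Y, (u * x + v) ^ (w - 2) * L w h x)
      - u ^ (w - 2) * mu w h * Real.log Y := by
    rw [hG]
    rw [intervalIntegral.integral_sub (EE_ii w hw hh u v 1 Y zero_le_one hY0.le)]
    · rw [intervalIntegral.integral_const_mul, integral_inv_of_pos one_pos hY0, div_one]
    · refine IntervalIntegrable.const_mul ?_ _
      exact (intervalIntegral.intervalIntegrable_inv (fun x hx => by
        rw [Set.uIcc_of_le hY] at hx; exact (lt_of_lt_of_le one_pos hx.1).ne') continuousOn_id)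
  rw [e2, ← e1]; ring

end Pool.MP0eb725
end

section

set_option autoImplicit false

open MeasureTheory Filter

namespace Pool.MP0eb725

/-- (A8), first part: substitution `z = a x / b`, `L_sc`. -/
theorem EE_sc (w : ℕ) (hw : 3 ≤ w) (a b : ℕ) (ha : 1 ≤ a) (hb : 1 ≤ b) (h : Fn) (u v Y : ℝ) (hY : 0 ≤ Y) :
    ((a : ℝ) * b) ^ (w - 1) * EE w (sc a b h) u v Y = EE w h (b * u) (a * v) ((a : ℝ) / b * Y) := by
  have ha0 : (a : ℝ) ≠ 0 := by positivity
  have hb0 : (b : ℝ) ≠ 0 := by positivity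
  obtain ⟨k, rfl⟩ : ∃ k, w = k + 2 := ⟨w - 2, by omega⟩
  have e1 : k + 2 - 2 = k := rfl
  have e2 : k + 2 - 1 = k + 1 := rfl
  unfold EE
  rw [e1, e2]
  have h1 : ∫ x in (0 : ℝ)..Y, (u * x + v) ^ k * L (k + 2) (sc a b h) x =
      ∫ x in (0 : ℝ)..Y, (1 / (b : ℝ)) ^ (k + 2) * ((u * x + v) ^ k * L (k + 2) h ((a : ℝ) / b * x)) := by
    refine intervalIntegral.integral_congr_ae (Eventually.of_forall fun x hx => ?_)
    rw [Set.uIoc_of_le hY] at hx
    rw [L_sc (k + 2) a b ha hb h x hx.1]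
    ring
  have h2 := intervalIntegral.integral_comp_mul_left (a := 0) (b := Y)
    (fun z => ((b : ℝ) * u * z + a * v) ^ k * L (k + 2) h z) (c := (a : ℝ) / b) (div_ne_zero ha0 hb0)
  rw [mul_zero, smul_eq_mul] at h2
  have h3 : ∀ x : ℝ, ((b : ℝ) * u * ((a : ℝ) / b * x) + a * v) ^ k * L (k + 2) h ((a : ℝ) / b * x) =
      (a : ℝ) ^ k * ((u * x + v) ^ k * L (k + 2) h ((a : ℝ) / b * x)) := by
    intro x
    have : (b : ℝ) * u * ((a : ℝ) / b * x) + a * v = a * (u * x + v) := by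
      field_simp
    rw [this, mul_pow]
    ring
  simp only [h3] at h2
  rw [intervalIntegral.integral_const_mul] at h2
  rw [h1, intervalIntegral.integral_const_mul]
  have h4 : ∫ x in (0 : ℝ)..(a : ℝ) / b * Y, ((b : ℝ) * u * x + a * v) ^ k * L (k + 2) h x =
      (a : ℝ) / b * ((a : ℝ) ^ k * ∫ x in (0 : ℝ)..Y, (u * x + v) ^ k * L (k + 2) h ((a : ℝ) / b * x)) := by
    rw [h2, ← mul_assoc, mul_inv_cancel₀ (div_ne_zero ha0 hb0), one_mul]
  rw [h4]
  generalize (∫ x in (0 : ℝ)..Y, (u * x + v) ^ k * L (k + 2) h ((a : ℝ) / b * x)) = I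
  have e3 : ((a : ℝ) * b) ^ (k + 1) = (a : ℝ) ^ k * a * ((b : ℝ) ^ k * b) := by
    rw [mul_pow, pow_succ, pow_succ]
  have e4 : (1 / (b : ℝ)) ^ (k + 2) = 1 / ((b : ℝ) ^ k * b * b) := by
    rw [one_div_pow, pow_succ, pow_succ]
  rw [e3, e4]
  field_simp

end Pool.MP0eb725
end

section

set_option autoImplicit false

open MeasureTheory Filter

namespace Pool.MP0eb725

theorem B04d_coef {c l : ℝ} (h : Tendsto (fun Y : ℝ => c * Real.log Y) atTop (nhds l)) : c = 0 := by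
  by_contra hc
  have h1 : Tendsto (fun Y : ℝ => c⁻¹ * (c * Real.log Y)) atTop (nhds (c⁻¹ * l)) :=
    h.const_mul c⁻¹
  have h2 : (fun Y : ℝ => c⁻¹ * (c * Real.log Y)) = Real.log := by
    funext Y
    rw [← mul_assoc, inv_mul_cancel₀ hc, one_mul]
  rw [h2] at h1
  exact not_tendsto_nhds_of_tendsto_atTop Real.tendsto_log_atTop _ h1

/-- (A8), second part: `EE_sc`, `EE_lim`; compare: `const + coef * log Y → 0` forces `coef = 0`, `const = 0`. -/
theorem ereg_sc (w : ℕ) (hw : 3 ≤ w) (a b : ℕ) (ha : 1 ≤ a) (hb : 1 ≤ b) {h : Fn} (hh : Ty1 h)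
    (hs : Ty1 (sc a b h)) (u v : ℝ) :
    ((a : ℝ) * b) ^ (w - 1) * ereg w (sc a b h) u v =
      ereg w h (b * u) (a * v) + (b * u) ^ (w - 2) * mu w h * Real.log ((a : ℝ) / b) := by
  have ha0 : (0 : ℝ) < a := by exact_mod_cast ha
  have hb0 : (0 : ℝ) < b := by exact_mod_cast hb
  have hab : (0 : ℝ) < (a : ℝ) / b := div_pos ha0 hb0
  have h1 := (EE_lim w hw hs u v).const_mul (((a : ℝ) * b) ^ (w - 1))
  have h2 : Tendsto (fun Y : ℝ => EE w h (b * u) (a * v) ((a : ℝ) / b * Y) -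
      (b * u) ^ (w - 2) * mu w h * Real.log ((a : ℝ) / b * Y)) atTop
      (nhds (ereg w h (b * u) (a * v))) :=
    (EE_lim w hw hh (b * u) (a * v)).comp (tendsto_id.const_mul_atTop hab)
  have h3 := h1.sub h2
  have h4 : Tendsto (fun Y : ℝ => ((b * u) ^ (w - 2) * mu w h -
      ((a : ℝ) * b) ^ (w - 1) * (u ^ (w - 2) * mu w (sc a b h))) * Real.log Y +
      (b * u) ^ (w - 2) * mu w h * Real.log ((a : ℝ) / b)) atTop
      (nhds (((a : ℝ) * b) ^ (w - 1) * ereg w (sc a b h) u v - ereg w h (b * u) (a * v))) := by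
    refine h3.congr' ?_
    filter_upwards [eventually_gt_atTop 0] with Y hY
    rw [mul_sub, EE_sc w hw a b ha hb h u v Y hY.le, Real.log_mul hab.ne' hY.ne']
    ring
  have h5 := h4.sub_const ((b * u) ^ (w - 2) * mu w h * Real.log ((a : ℝ) / b))
  simp only [add_sub_cancel_right] at h5
  have hc := B04d_coef h5
  rw [hc] at h4
  simp only [zero_mul, zero_add] at h4
  have h6 := tendsto_nhds_unique h4 tendsto_const_nhds
  linarith

/-- homogeneity of the regularized integral (rational or real factor `c`) -/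
theorem ereg_hom (w : ℕ) (hw : 3 ≤ w) {h : Fn} (hh : Ty1 h) (c u v : ℝ) :
    ereg w h (c * u) (c * v) = c ^ (w - 2) * ereg w h u v := by
  have h1 := (EE_lim w hw hh u v).const_mul (c ^ (w - 2))
  have h2 := EE_lim w hw hh (c * u) (c * v)
  have h3 : (fun Y : ℝ => EE w h (c * u) (c * v) Y - (c * u) ^ (w - 2) * mu w h * Real.log Y) =
      fun Y : ℝ => c ^ (w - 2) * (EE w h u v Y - u ^ (w - 2) * mu w h * Real.log Y) := by
    funext Y
    have h4 : EE w h (c * u) (c * v) Y = c ^ (w - 2) * EE w h u v Y := by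
      rw [EE, EE, ← intervalIntegral.integral_const_mul]
      apply intervalIntegral.integral_congr
      intro x _
      change (c * u * x + c * v) ^ (w - 2) * L w h x = c ^ (w - 2) * ((u * x + v) ^ (w - 2) * L w h x)
      rw [show c * u * x + c * v = c * (u * x + v) by ring, mul_pow]
      ring
    rw [h4, mul_pow]
    ring
  rw [h3] at h2
  exact tendsto_nhds_unique h2 h1

/-- `E_{Y+1} - E_Y → 0` in the form needed: `E_{Y+1} - u^(w-2) mu log Y → ereg` -/
theorem EE_lim_succ (w : ℕ) (hw : 3 ≤ w) {h : Fn} (hh : Ty1 h) (u v : ℝ) :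
    Tendsto (fun Y : ℝ => EE w h u v (Y + 1) - u ^ (w - 2) * mu w h * Real.log Y) atTop
      (nhds (ereg w h u v)) := by
  have h1 : Tendsto (fun Y : ℝ => EE w h u v (Y + 1) -
      u ^ (w - 2) * mu w h * Real.log (Y + 1)) atTop (nhds (ereg w h u v)) :=
    (EE_lim w hw hh u v).comp (tendsto_atTop_add_const_right _ 1 tendsto_id)
  have h2 := (Real.tendsto_log_comp_add_sub_log 1).const_mul (u ^ (w - 2) * mu w h)
  have h3 := h1.add h2
  rw [mul_zero, add_zero] at h3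
  refine h3.congr ?_
  intro Y
  ring

end Pool.MP0eb725
end

section

set_option autoImplicit false

open MeasureTheory Filter

namespace Pool.MP0eb725

theorem B04e_ty_add {f g : Fn} (hf : Ty1 f) (hg : Ty1 g) : Ty1 (fun m n => f m n + g m n) := by
  refine ⟨fun m n => ⟨?_, ?_⟩, fun m n => ?_, fun m n => ?_⟩
  · show f (m + 6) n + g (m + 6) n = f m n + g m n
    rw [(hf.1 m n).1, (hg.1 m n).1]
  · show f m (n + 6) + g m (n + 6) = f m n + g m n
    rw [(hf.1 m n).2, (hg.1 m n).2]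
  · show f (-m) n + g (-m) n = -(f m n + g m n)
    rw [hf.2.1, hg.2.1]
    ring
  · show f m (-n) + g m (-n) = f m n + g m n
    rw [hf.2.2, hg.2.2]

theorem B04e_ty_neg {f : Fn} (hf : Ty1 f) : Ty1 (fun m n => - f m n) := by
  refine ⟨fun m n => ⟨?_, ?_⟩, fun m n => ?_, fun m n => ?_⟩
  · show -f (m + 6) n = -f m n
    rw [(hf.1 m n).1]
  · show -f m (n + 6) = -f m n
    rw [(hf.1 m n).2]
  · show -f (-m) n = -(-f m n)
    rw [hf.2.1]
  · show -f m (-n) = -f m n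
    rw [hf.2.2]

/-- If `A - c log Y → l` and `A - d log Y → l'`, then `l = l'`. -/
theorem B04e_lim {A : ℝ → ℝ} {c d l l' : ℝ} (h1 : Tendsto (fun Y : ℝ => A Y - c * Real.log Y) atTop (nhds l))
    (h2 : Tendsto (fun Y : ℝ => A Y - d * Real.log Y) atTop (nhds l')) : l = l' := by
  have h3 := h2.sub h1
  have h4 : (fun Y : ℝ => A Y - d * Real.log Y - (A Y - c * Real.log Y)) = fun Y => (c - d) * Real.log Y := by
    funext Y
    ring
  rw [h4] at h3
  have h5 := B04d_coef h3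
  have h6 : c = d := by linarith
  rw [h6] at h1
  exact tendsto_nhds_unique h1 h2

/-- additivity in the function -/
theorem EE_add (w : ℕ) (hw : 3 ≤ w) {f g : Fn} (hf : Ty1 f) (hg : Ty1 g) (u v Y : ℝ) (hY : 0 ≤ Y) :
    EE w (fun m n => f m n + g m n) u v Y = EE w f u v Y + EE w g u v Y := by
  unfold EE
  rw [← intervalIntegral.integral_add (EE_ii w hw hf u v 0 Y le_rfl hY) (EE_ii w hw hg u v 0 Y le_rfl hY)]
  refine intervalIntegral.integral_congr_ae (Filter.Eventually.of_forall fun x hx => ?_)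
  rw [Set.uIoc_of_le hY] at hx
  show (u * x + v) ^ (w - 2) * L w (fun m n => f m n + g m n) x =
    (u * x + v) ^ (w - 2) * L w f x + (u * x + v) ^ (w - 2) * L w g x
  rw [L_add w hw hf.1 hg.1 x hx.1]
  ring

theorem ereg_add (w : ℕ) (hw : 3 ≤ w) {f g : Fn} (hf : Ty1 f) (hg : Ty1 g) (u v : ℝ) :
    ereg w (fun m n => f m n + g m n) u v = ereg w f u v + ereg w g u v := by
  have h1 := EE_lim w hw (B04e_ty_add hf hg) u v
  have h2 := (EE_lim w hw hf u v).add (EE_lim w hw hg u v)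
  refine B04e_lim h1 (d := u ^ (w - 2) * mu w f + u ^ (w - 2) * mu w g) ?_
  refine h2.congr' ?_
  filter_upwards [eventually_ge_atTop (0 : ℝ)] with Y hY
  rw [EE_add w hw hf hg u v Y hY]
  ring

theorem EE_neg (w : ℕ) (f : Fn) (u v Y : ℝ) :
    EE w (fun m n => - f m n) u v Y = - EE w f u v Y := by
  unfold EE
  rw [← intervalIntegral.integral_neg]
  congr 1
  funext x
  have h1 : L w (fun m n => - f m n) x = - L w f x := by
    unfold L
    rw [← tsum_neg]
    refine tsum_congr fun p => ?_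
    push_cast
    rw [neg_div]
  rw [h1]
  ring

theorem ereg_neg (w : ℕ) (hw : 3 ≤ w) {f : Fn} (hf : Ty1 f) (u v : ℝ) :
    ereg w (fun m n => - f m n) u v = - ereg w f u v := by
  have h1 := EE_lim w hw (B04e_ty_neg hf) u v
  have h2 := (EE_lim w hw hf u v).neg
  refine B04e_lim h1 (d := -(u ^ (w - 2) * mu w f)) ?_
  refine h2.congr fun Y => ?_
  rw [EE_neg]
  ring

end Pool.MP0eb725
end

section

end
end
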