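import Mathlib
import Pool.Agent.Lib.MP_0eb725_nt.AlgDefs
import Pool.Agent.Lib.MP_0eb725_nt.B04_EE

section

section

set_option autoImplicit false

namespace Pool.MP0eb725

private theorem A01_add {d : ℕ} {g h : ℚ → ℚ → ℚ} (hg : IsForm d g) (hh : IsForm d h) :
    IsForm d (fun u v => g u v + h u v) := by
  obtain ⟨a, ha⟩ := hg
  obtain ⟨b, hb⟩ := hh
  refine ⟨fun i => a i + b i, fun u v => ?_⟩
  simp only [ha, hb, ← Finset.sum_add_distrib]
  refine Finset.sum_congr rfl fun i _ => ?_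
  ring

private theorem A01_smul {d : ℕ} {g : ℚ → ℚ → ℚ} (c : ℚ) (hg : IsForm d g) :
    IsForm d (fun u v => c * g u v) := by
  obtain ⟨a, ha⟩ := hg
  refine ⟨fun i => c * a i, fun u v => ?_⟩
  simp only [ha, Finset.mul_sum]
  refine Finset.sum_congr rfl fun i _ => ?_
  ring

private theorem A01_zero (d : ℕ) : IsForm d (fun _ _ => 0) := ⟨fun _ => 0, fun u v => by simp⟩

private theorem A01_one : IsForm 0 (fun _ _ => 1) := ⟨fun _ => 1, fun u v => by simp⟩

private theorem A01_sum {d : ℕ} (S : Finset ℕ) (F : ℕ → ℚ → ℚ → ℚ) (h : ∀ i ∈ S, IsForm d (F i)) :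
    IsForm d (fun u v => ∑ i ∈ S, F i u v) := by
  induction S using Finset.induction_on with
  | empty => simpa using A01_zero d
  | insert a S ha ih =>
    have h1 := A01_add (h a (Finset.mem_insert_self a S))
      (ih fun i hi => h i (Finset.mem_insert_of_mem hi))
    simpa only [Finset.sum_insert ha] using h1

private theorem A01_lin {d : ℕ} {g : ℚ → ℚ → ℚ} (p q : ℚ) (hg : IsForm d g) :
    IsForm (d + 1) (fun u v => (p * u + q * v) * g u v) := by
  obtain ⟨a, ha⟩ := hg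
  refine ⟨fun i => p * (if i = 0 then 0 else a (i - 1)) + q * (if i ≤ d then a i else 0),
    fun u v => ?_⟩
  have h1 : ∑ i ∈ Finset.range (d + 1 + 1), (if i = 0 then 0 else a (i - 1)) * u ^ i * v ^ (d + 1 - i) =
      u * ∑ i ∈ Finset.range (d + 1), a i * u ^ i * v ^ (d - i) := by
    rw [Finset.sum_range_succ', Finset.mul_sum]
    simp only [Nat.succ_ne_zero, if_false, if_true, Nat.add_sub_cancel, zero_mul, add_zero]
    refine Finset.sum_congr rfl fun i _ => ?_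
    rw [Nat.add_sub_add_right]
    ring
  have h2 : ∑ i ∈ Finset.range (d + 1 + 1), (if i ≤ d then a i else 0) * u ^ i * v ^ (d + 1 - i) =
      v * ∑ i ∈ Finset.range (d + 1), a i * u ^ i * v ^ (d - i) := by
    rw [Finset.sum_range_succ, Finset.mul_sum]
    rw [if_neg (by omega), zero_mul, zero_mul, add_zero]
    refine Finset.sum_congr rfl fun i hi => ?_
    have hi' : i ≤ d := Nat.lt_succ_iff.1 (Finset.mem_range.1 hi)
    rw [if_pos hi', Nat.sub_add_comm hi', pow_succ]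
    ring
  calc (p * u + q * v) * g u v
        = p * (u * ∑ i ∈ Finset.range (d + 1), a i * u ^ i * v ^ (d - i)) +
          q * (v * ∑ i ∈ Finset.range (d + 1), a i * u ^ i * v ^ (d - i)) := by
        rw [ha]
        ring
    _ = _ := by
        rw [← h1, ← h2, Finset.mul_sum, Finset.mul_sum, ← Finset.sum_add_distrib]
        refine Finset.sum_congr rfl fun i _ => ?_
        ring

private theorem A01_pow (a b c e : ℚ) (i j : ℕ) :
    IsForm (i + j) (fun u v => (a * u + b * v) ^ i * (c * u + e * v) ^ j) := by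
  induction i with
  | zero =>
    induction j with
    | zero => simpa using A01_one
    | succ j ih =>
      have h1 := A01_lin c e ih
      refine (congrArg₂ IsForm (by omega) ?_).mp h1
      funext u v
      ring
  | succ i ih =>
    have h1 := A01_lin a b ih
    refine (congrArg₂ IsForm (by omega) ?_).mp h1
    funext u v
    ring

/-- Proof: expand `(a u + b v)^i (c u + e v)^(d-i)` with the binomial theorem (`add_pow`), or: products of forms
of degrees `i` and `j` are forms of degree `i + j`, and linear forms are forms of degree 1. -/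
theorem IsForm.comp_lin {d : ℕ} {g : ℚ → ℚ → ℚ} (hg : IsForm d g) (a b c e : ℚ) :
    IsForm d (fun u v => g (a * u + b * v) (c * u + e * v)) := by
  obtain ⟨w, hw⟩ := hg
  have h1 : (fun u v => g (a * u + b * v) (c * u + e * v)) = fun u v =>
      ∑ i ∈ Finset.range (d + 1), w i * ((a * u + b * v) ^ i * (c * u + e * v) ^ (d - i)) := by
    funext u v
    rw [hw]
    exact Finset.sum_congr rfl fun i _ => by ring
  rw [h1]
  refine A01_sum _ (fun i u v => w i * ((a * u + b * v) ^ i * (c * u + e * v) ^ (d - i))) ?_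
  intro i hi
  have hi' : i ≤ d := Nat.lt_succ_iff.1 (Finset.mem_range.1 hi)
  have h2 := A01_smul (w i) (A01_pow a b c e i (d - i))
  rwa [Nat.add_sub_cancel' hi'] at h2

theorem IsForm.add' {d : ℕ} {g h : ℚ → ℚ → ℚ} (hg : IsForm d g) (hh : IsForm d h) :
    IsForm d (fun u v => g u v + h u v) := A01_add hg hh

theorem IsForm.smul' {d : ℕ} {g : ℚ → ℚ → ℚ} (c : ℚ) (hg : IsForm d g) :
    IsForm d (fun u v => c * g u v) := A01_smul c hg

/-- a form of degree `d` is homogeneous of degree `d` -/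
theorem IsForm.hom {d : ℕ} {g : ℚ → ℚ → ℚ} (hg : IsForm d g) : Hom d g := by
  obtain ⟨a, ha⟩ := hg
  intro c u v
  rw [ha, ha, Finset.mul_sum]
  refine Finset.sum_congr rfl fun i hi => ?_
  have hi' : i ≤ d := Nat.lt_succ_iff.1 (Finset.mem_range.1 hi)
  have h1 : c ^ d = c ^ i * c ^ (d - i) := by rw [← pow_add, Nat.add_sub_cancel' hi']
  rw [h1, mul_pow, mul_pow]
  ring

private theorem A01_poly (n : ℕ) (f : ℕ → ℕ) (hf : Function.Injective f) (a : ℕ → ℚ)
    (h : ∀ u : ℚ, ∑ i ∈ Finset.range n, a i * u ^ f i = 0) : ∀ i < n, a i = 0 := by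
  intro i hi
  have h1 : (∑ j ∈ Finset.range n, Polynomial.monomial (f j) (a j) : Polynomial ℚ) = 0 := by
    apply Polynomial.funext
    intro u
    rw [Polynomial.eval_finsetSum, Polynomial.eval_zero]
    simp only [Polynomial.eval_monomial]
    exact h u
  have h2 := congrArg (fun p : Polynomial ℚ => p.coeff (f i)) h1
  simp only [Polynomial.finsetSum_coeff, Polynomial.coeff_monomial, Polynomial.coeff_zero] at h2
  rw [Finset.sum_eq_single i] at h2
  · rwa [if_pos rfl] at h2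
  · intro j _ hj
    rw [if_neg fun hh => hj (hf hh)]
  · intro hh
    exact absurd (Finset.mem_range.2 hi) hh

/-- coefficients of a form are determined by its values (take `v = 1`, a polynomial in `u` with infinitely many
zeros) -/
theorem coeff_unique (d : ℕ) (a b : ℕ → ℚ)
    (h : ∀ u v : ℚ, ∑ i ∈ Finset.range (d + 1), a i * u ^ i * v ^ (d - i) =
      ∑ i ∈ Finset.range (d + 1), b i * u ^ i * v ^ (d - i)) :
    ∀ i ≤ d, a i = b i := by
  intro i hi
  have h1 := A01_poly (d + 1) id Function.injective_id (fun i => a i - b i) (fun u => by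
    have h2 := h u 1
    simp only [one_pow, mul_one] at h2
    simp only [sub_mul, Finset.sum_sub_distrib, id]
    rw [h2, sub_self]) i (Nat.lt_succ_of_le hi)
  exact sub_eq_zero.1 h1

theorem fo_OE (K : ℕ) (b : ℕ → ℚ) : OE (fo K b) := by
  constructor
  · intro u v
    unfold fo
    rw [← Finset.sum_neg_distrib]
    refine Finset.sum_congr rfl fun j _ => ?_
    rw [Odd.neg_pow ⟨j, rfl⟩]
    ring
  · intro u v
    unfold fo
    refine Finset.sum_congr rfl fun j _ => ?_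
    rw [Even.neg_pow (even_two_mul _)]

theorem fo_hom (K : ℕ) (hK : 1 ≤ K) (b : ℕ → ℚ) : Hom (2 * K - 1) (fo K b) := by
  intro c u v
  unfold fo
  rw [Finset.mul_sum]
  refine Finset.sum_congr rfl fun j hj => ?_
  have hj' := Finset.mem_range.1 hj
  have h1 : c ^ (2 * K - 1) = c ^ (2 * j + 1) * c ^ (2 * (K - 1 - j)) := by
    rw [← pow_add]
    congr 1
    omega
  rw [h1, mul_pow, mul_pow]
  ring

private theorem A01_pairs (K : ℕ) (f : ℕ → ℚ) :
    ∑ i ∈ Finset.range (2 * K), f i = ∑ j ∈ Finset.range K, (f (2 * j) + f (2 * j + 1)) := by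
  induction K with
  | zero => simp
  | succ K ih =>
    rw [Finset.sum_range_succ _ K, ← ih, show 2 * (K + 1) = 2 * K + 1 + 1 by ring,
      Finset.sum_range_succ, Finset.sum_range_succ]
    ring

theorem fo_form (K : ℕ) (hK : 1 ≤ K) (b : ℕ → ℚ) : IsForm (2 * K - 1) (fo K b) := by
  refine ⟨fun i => if i % 2 = 1 then b (i / 2) else 0, fun u v => ?_⟩
  rw [show 2 * K - 1 + 1 = 2 * K by omega, A01_pairs]
  unfold fo
  refine Finset.sum_congr rfl fun j hj => ?_
  have hj' := Finset.mem_range.1 hj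
  beta_reduce
  rw [if_neg (by omega), if_pos (by omega), show (2 * j + 1) / 2 = j by omega,
    show 2 * K - 1 - (2 * j + 1) = 2 * (K - 1 - j) by omega]
  ring

theorem fo_unique (K : ℕ) (b c : ℕ → ℚ) (h : ∀ u v : ℚ, fo K b u v = fo K c u v) :
    ∀ j < K, b j = c j := by
  intro j hj
  have h1 := A01_poly K (fun i => 2 * i + 1) (fun x y hxy => by
    have : 2 * x + 1 = 2 * y + 1 := hxy
    omega) (fun i => b i - c i) (fun u => by
    have h2 := h u 1
    unfold fo at h2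
    simp only [one_pow, mul_one] at h2
    simp only [sub_mul, Finset.sum_sub_distrib]
    rw [h2, sub_self]) j hj
  exact sub_eq_zero.1 h1

end Pool.MP0eb725
end

section

end
end

section

set_option autoImplicit false

namespace Pool.MP0eb725

/-- integer valued functions on `(ℤ/6)²` -/
abbrev FZ := ZMod 6 → ZMod 6 → ℤ

def OddZ (F : FZ) : Prop := ∀ m n : ZMod 6, F (-m) (-n) = - F m n
/-- 3-periodic -/
def P3 (F : FZ) : Prop := ∀ m n : ZMod 6, F (m + 3) n = F m n ∧ F m (n + 3) = F m n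

/-- the odd character mod 3 -/
def chiZ (m : ZMod 6) : ℤ := if m = 1 ∨ m = 4 then 1 else if m = 2 ∨ m = 5 then -1 else 0

/-- `(-1)^m χ(m)` -/
def FI : FZ := fun m _ => if m = 4 ∨ m = 5 then 1 else if m = 1 ∨ m = 2 then -1 else 0

/-- The relations (H1)-(H5) for a family of binary forms `Th F` of degree `w - 2`.
In `ZMod 6`: `3 * m = 0` iff `m` is even, `2 * m = 0` iff `3 ∣ m`. -/
structure Iface (w : ℕ) (Th : FZ → ℚ → ℚ → ℚ) : Prop where
  form : ∀ F, OddZ F → IsForm (w - 2) (Th F)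
  add : ∀ F G, OddZ F → OddZ G → ∀ u v, Th (fun m n => F m n + G m n) u v = Th F u v + Th G u v
  neg : ∀ F, OddZ F → ∀ u v, Th (fun m n => - F m n) u v = - Th F u v
  h1 : ∀ F, OddZ F → ∀ u v, Th (fun m n => F n m) v u = - Th F u v
  h2 : ∀ F, OddZ F → ∀ u v, Th (fun m n => F (-n) (m + n)) (u + v) (-u) = Th F u v
  h3 : ∀ F, OddZ F → P3 F → ∀ u v,
    2 ^ w * Th (fun m n => if 3 * m = 0 ∧ 3 * n = 0 then F m n else 0) u v = - Th F u v
  h4 : ∀ F, OddZ F → P3 F → ∀ u v, Th F u v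
    - 2 * Th (fun m n => if 3 * n = 0 then F (m - n) (-n) else 0) (u - v) (2 * v)
    - 2 * Th (fun m n => if 3 * m = 0 then F (-m) (n - m) else 0) (2 * u) (v - u)
    + Th (fun m n => F m (m + n)) u (v - u) = 0
  h5 : ∀ u v, 2 * Th (fun m n => if 3 * m = 0 then chiZ (m + n) else 0) (2 * u) v
    - 6 * Th (fun m n => if 3 * m = 0 ∧ 2 * n = 0 then chiZ m else 0) (2 * (u - v)) (3 * v)
    - 3 * Th (fun m n => if 2 * m = 0 then chiZ n else 0) (3 * u) (v - u)
    + Th (fun _ n => chiZ n) u (v - u) = 0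

/-- `χ_c`, supported on `± (1,0)` mod 3 -/
def Cc : FZ := fun m n => if 2 * n = 0 then chiZ m else 0
/-- `χ_c'`, supported on `± (0,1)` mod 3 -/
def Cc' : FZ := fun m n => if 2 * m = 0 then chiZ n else 0
/-- `χ_a`, supported on `± (1,1)` mod 3 -/
def Ca : FZ := fun m n => if 2 * (m - n) = 0 then chiZ m else 0
/-- `χ_b`, supported on `± (1,-1)` mod 3 -/
def Cb : FZ := fun m n => if 2 * (m + n) = 0 then chiZ m else 0

/-- restriction to `m, n` both odd -/
def oo (F : FZ) : FZ := fun m n => if 3 * m ≠ 0 ∧ 3 * n ≠ 0 then F m n else 0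
/-- restriction to `n` even -/
def ev2 (F : FZ) : FZ := fun m n => if 3 * n = 0 then F m n else 0
/-- restriction to `m` even -/
def ev1 (F : FZ) : FZ := fun m n => if 3 * m = 0 then F m n else 0
/-- `F ∘ ρ⁻¹` -/
def rh (F : FZ) : FZ := fun m n => F (-n) (m + n)
/-- `F ∘ ρ⁻²` -/
def rh2 (F : FZ) : FZ := fun m n => F (- m - n) m

end Pool.MP0eb725
end

section

section

set_option autoImplicit false

open MeasureTheory Filter

namespace Pool.MP0eb725

theorem B05a_pos (x : ℝ) : 0 < 1 + x + x ^ 2 := by nlinarith [sq_nonneg (x + 1 / 2)]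

theorem B05a_cont : Continuous fun x : ℝ => 1 / (1 + x + x ^ 2) := by
  refine Continuous.div continuous_const (by fun_prop) fun x => (B05a_pos x).ne'

theorem B05a_sum (M : ℕ) (x : ℝ) :
    ∑ j ∈ Finset.range M, (x ^ (3 * j) - x ^ (3 * j + 1)) =
      1 / (1 + x + x ^ 2) - x ^ (3 * M) * (1 / (1 + x + x ^ 2)) := by
  have h : (∑ j ∈ Finset.range M, (x ^ (3 * j) - x ^ (3 * j + 1))) * (1 + x + x ^ 2) = 1 - x ^ (3 * M) := by
    induction M with
    | zero => simp
    | succ M ih =>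
      rw [Finset.sum_range_succ, add_mul, ih]
      ring
  have h1 := (B05a_pos x).ne'
  rw [mul_one_div, ← sub_div, eq_div_iff h1, h]

theorem B05a_int (M : ℕ) :
    ∑ j ∈ Finset.range M, (1 / (3 * (j : ℝ) + 1) - 1 / (3 * (j : ℝ) + 2)) =
      (∫ x in (0 : ℝ)..1, 1 / (1 + x + x ^ 2)) - ∫ x in (0 : ℝ)..1, x ^ (3 * M) * (1 / (1 + x + x ^ 2)) := by
  have i1 : IntervalIntegrable (fun x : ℝ => 1 / (1 + x + x ^ 2)) volume 0 1 := B05a_cont.intervalIntegrable _ _
  have i2 : IntervalIntegrable (fun x : ℝ => x ^ (3 * M) * (1 / (1 + x + x ^ 2))) volume 0 1 :=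
    ((continuous_pow _).mul B05a_cont).intervalIntegrable _ _
  rw [← intervalIntegral.integral_sub i1 i2]
  have e1 : ∀ x : ℝ, 1 / (1 + x + x ^ 2) - x ^ (3 * M) * (1 / (1 + x + x ^ 2)) =
      ∑ j ∈ Finset.range M, (x ^ (3 * j) - x ^ (3 * j + 1)) := fun x => (B05a_sum M x).symm
  simp only [e1]
  rw [intervalIntegral.integral_finsetSum fun j _ => (by fun_prop : Continuous fun x : ℝ =>
    x ^ (3 * j) - x ^ (3 * j + 1)).intervalIntegrable _ _]
  refine Finset.sum_congr rfl fun j _ => ?_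
  rw [intervalIntegral.integral_sub ((continuous_pow _).intervalIntegrable _ _)
    ((continuous_pow _).intervalIntegrable _ _), integral_pow, integral_pow]
  push_cast
  simp only [one_pow, ne_eq, Nat.add_eq_zero_iff, one_ne_zero, and_false, not_false_eq_true, zero_pow, sub_zero]
  ring

theorem B05a_deriv (x : ℝ) :
    HasDerivAt (fun x : ℝ => 2 / Real.sqrt 3 * Real.arctan ((2 * x + 1) / Real.sqrt 3)) (1 / (1 + x + x ^ 2)) x := by
  have h3 : Real.sqrt 3 ≠ 0 := by positivity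
  have hs : Real.sqrt 3 ^ 2 = 3 := Real.sq_sqrt (by norm_num)
  have h1 : HasDerivAt (fun x : ℝ => (2 * x + 1) / Real.sqrt 3) (2 / Real.sqrt 3) x := by
    have := (((hasDerivAt_id x).const_mul 2).add_const 1).div_const (Real.sqrt 3)
    simpa using this
  have h2 := (h1.arctan).const_mul (2 / Real.sqrt 3)
  refine h2.congr_deriv ?_
  have hp := (B05a_pos x).ne'
  have hq : (1 : ℝ) + ((2 * x + 1) / Real.sqrt 3) ^ 2 = 4 / 3 * (1 + x + x ^ 2) := by
    rw [div_pow, hs]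
    ring
  rw [hq]
  field_simp
  rw [hs]
  ring

theorem B05a_val : ∫ x in (0 : ℝ)..1, 1 / (1 + x + x ^ 2) = Real.pi / (3 * Real.sqrt 3) := by
  have h := intervalIntegral.integral_eq_sub_of_hasDerivAt (a := 0) (b := 1) (fun x _ => B05a_deriv x)
    (B05a_cont.intervalIntegrable _ _)
  rw [h]
  have h3 : Real.sqrt 3 ≠ 0 := by positivity
  have hs : Real.sqrt 3 * Real.sqrt 3 = 3 := Real.mul_self_sqrt (by norm_num)
  have e1 : (2 * (1 : ℝ) + 1) / Real.sqrt 3 = Real.sqrt 3 := by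
    rw [div_eq_iff h3, hs]
    norm_num
  have e2 : (2 * (0 : ℝ) + 1) / Real.sqrt 3 = (Real.sqrt 3)⁻¹ := by
    rw [mul_zero, zero_add, one_div]
  rw [e1, e2, Real.arctan_sqrt_three, Real.arctan_inv_sqrt_three]
  field_simp
  ring

/-- `∑_{m < 3M} χ(m+1)/(m+1) → π/(3√3)`: `1/(3j+1) - 1/(3j+2) = ∫_0^1 (x^(3j) - x^(3j+1)) dx`, so the partial sum is
`∫_0^1 (1 - x)(1 - x^(3M))/(1 - x^3) dx = ∫_0^1 (1 - x^(3M))/(1 + x + x^2) dx → ∫_0^1 dx/(1+x+x^2) = π/(3√3)`
(antiderivative `(2/√3) arctan((2x+1)/√3)`).  Here in the form `∑_{j<M} (1/(3j+1) - 1/(3j+2))`. -/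
theorem chi_one : Tendsto (fun M : ℕ => ∑ j ∈ Finset.range M,
    (1 / (3 * (j : ℝ) + 1) - 1 / (3 * (j : ℝ) + 2))) atTop (nhds (Real.pi / (3 * Real.sqrt 3))) := by
  have h1 : Tendsto (fun M : ℕ => ∫ x in (0 : ℝ)..1, x ^ (3 * M) * (1 / (1 + x + x ^ 2))) atTop (nhds 0) := by
    have h2 : Tendsto (fun M : ℕ => 1 / ((M : ℝ) + 1)) atTop (nhds 0) := tendsto_one_div_add_atTop_nhds_zero_nat
    refine squeeze_zero (fun M => ?_) (fun M => ?_) h2
    · refine intervalIntegral.integral_nonneg (by norm_num) fun x hx => ?_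
      have := B05a_pos x
      have := hx.1
      positivity
    · have h3 : ∫ x in (0 : ℝ)..1, x ^ (3 * M) * (1 / (1 + x + x ^ 2)) ≤ ∫ x in (0 : ℝ)..1, x ^ (3 * M) := by
        refine intervalIntegral.integral_mono_on (by norm_num)
          (((continuous_pow _).mul B05a_cont).intervalIntegrable _ _)
          ((continuous_pow _).intervalIntegrable _ _) fun x hx => ?_
        have hx0 := hx.1
        have h4 : 1 / (1 + x + x ^ 2) ≤ 1 := by
          rw [div_le_one (B05a_pos x)]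
          nlinarith [sq_nonneg x]
        exact mul_le_of_le_one_right (pow_nonneg hx0 _) h4
      refine h3.trans ?_
      rw [integral_pow]
      push_cast
      rw [one_pow, zero_pow (Nat.succ_ne_zero _), sub_zero]
      refine one_div_le_one_div_of_le (by positivity) ?_
      have : (0 : ℝ) ≤ M := Nat.cast_nonneg M
      linarith
  have h2 := (tendsto_const_nhds (x := ∫ x in (0 : ℝ)..1, 1 / (1 + x + x ^ 2))).sub h1
  rw [sub_zero, B05a_val] at h2
  refine h2.congr fun M => ?_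
  rw [B05a_int, B05a_val]

end Pool.MP0eb725
end

section

set_option autoImplicit false

open MeasureTheory Filter

namespace Pool.MP0eb725

private theorem B05b_sin0 (a : ℕ) : Real.sin (2 * Real.pi * ((3 * a : ℕ) : ℝ) * (1 / 3)) = 0 := by
  have h : 2 * Real.pi * ((3 * a : ℕ) : ℝ) * (1 / 3) = 0 + a * (2 * Real.pi) := by push_cast; ring
  rw [h, Real.sin_add_nat_mul_two_pi, Real.sin_zero]

private theorem B05b_sin1 (a : ℕ) :
    Real.sin (2 * Real.pi * ((3 * a + 1 : ℕ) : ℝ) * (1 / 3)) = Real.sqrt 3 / 2 := by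
  have h : 2 * Real.pi * ((3 * a + 1 : ℕ) : ℝ) * (1 / 3) = (Real.pi - Real.pi / 3) + a * (2 * Real.pi) := by
    push_cast; ring
  rw [h, Real.sin_add_nat_mul_two_pi, Real.sin_pi_sub, Real.sin_pi_div_three]

private theorem B05b_sin2 (a : ℕ) :
    Real.sin (2 * Real.pi * ((3 * a + 2 : ℕ) : ℝ) * (1 / 3)) = - (Real.sqrt 3 / 2) := by
  have h : 2 * Real.pi * ((3 * a + 2 : ℕ) : ℝ) * (1 / 3) = (Real.pi / 3 + Real.pi) + a * (2 * Real.pi) := by
    push_cast; ring
  rw [h, Real.sin_add_nat_mul_two_pi, Real.sin_add_pi, Real.sin_pi_div_three]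

/-- grouping by residue classes modulo three -/
private theorem B05b_group {f : ℕ → ℝ} {S : ℝ} (h : HasSum f S) :
    HasSum (fun a : ℕ => f (3 * a) + f (3 * a + 1) + f (3 * a + 2)) S := by
  have h1 : HasSum (f ∘ (Nat.divModEquiv 3).symm) S := (Equiv.hasSum_iff _).2 h
  have h2 := h1.prod_fiberwise (g := fun a : ℕ => f (3 * a) + f (3 * a + 1) + f (3 * a + 2)) ?_
  · exact h2
  · intro a
    have h3 := hasSum_fintype (fun b : Fin 3 => (f ∘ (Nat.divModEquiv 3).symm) (a, b))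
    rw [Fin.sum_univ_three] at h3
    simpa [Nat.divModEquiv, mul_comm] using h3

/-- `L(χ,r) ∈ ℚ √3 π^r`, `r ≥ 3` odd: `hasSum_one_div_nat_pow_mul_sin` at `x = 1/3` (`sin(2πn/3) = (√3/2) χ(n)`);
absolutely convergent series over `j`. -/
theorem chi_odd (r : ℕ) (hr : 3 ≤ r) (hodd : Odd r) : ∃ q : ℚ,
    HasSum (fun j : ℕ => (1 / (3 * (j : ℝ) + 1) ^ r - 1 / (3 * (j : ℝ) + 2) ^ r))
      (q * (Real.sqrt 3 * Real.pi ^ r)) := by
  obtain ⟨k, rfl⟩ := hodd
  have hk : k ≠ 0 := by omega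
  have h0 := hasSum_one_div_nat_pow_mul_sin hk (x := 1 / 3) ⟨by norm_num, by norm_num⟩
  have h1 := (B05b_group h0).mul_left (2 * Real.sqrt 3 / 3)
  set b : ℚ := (Polynomial.bernoulli (2 * k + 1)).eval (1 / 3) with hb
  have hev : (Polynomial.map (algebraMap ℚ ℝ) (Polynomial.bernoulli (2 * k + 1))).eval (1 / 3) = (b : ℝ) := by
    have h2 := Polynomial.eval_map_algebraMap (B := ℝ) (Polynomial.bernoulli (2 * k + 1)) (algebraMap ℚ ℝ (1 / 3))
    rw [Polynomial.aeval_algebraMap_apply] at h2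
    simpa [hb] using h2
  refine ⟨2 / 3 * ((-1) ^ (k + 1) * 2 ^ (2 * k + 1) / 2 / (2 * k + 1).factorial * b), ?_⟩
  have hs : Real.sqrt 3 * Real.sqrt 3 = 3 := Real.mul_self_sqrt (by norm_num)
  have hf : (fun j : ℕ => (1 / (3 * (j : ℝ) + 1) ^ (2 * k + 1) - 1 / (3 * (j : ℝ) + 2) ^ (2 * k + 1))) =
      fun i : ℕ => 2 * Real.sqrt 3 / 3 *
        (1 / ((3 * i : ℕ) : ℝ) ^ (2 * k + 1) * Real.sin (2 * Real.pi * ((3 * i : ℕ) : ℝ) * (1 / 3)) +
            1 / ((3 * i + 1 : ℕ) : ℝ) ^ (2 * k + 1) * Real.sin (2 * Real.pi * ((3 * i + 1 : ℕ) : ℝ) * (1 / 3)) +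
          1 / ((3 * i + 2 : ℕ) : ℝ) ^ (2 * k + 1) * Real.sin (2 * Real.pi * ((3 * i + 2 : ℕ) : ℝ) * (1 / 3))) := by
    funext j
    rw [B05b_sin0, B05b_sin1, B05b_sin2]
    push_cast
    have e : 2 * Real.sqrt 3 / 3 * (Real.sqrt 3 / 2) = 1 := by
      calc 2 * Real.sqrt 3 / 3 * (Real.sqrt 3 / 2) = (Real.sqrt 3 * Real.sqrt 3) / 3 := by ring
        _ = 1 := by rw [hs]; norm_num
    have e2 : ∀ A B : ℝ, 2 * Real.sqrt 3 / 3 * (1 / (3 * (j : ℝ)) ^ (2 * k + 1) * 0 + A * (Real.sqrt 3 / 2)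
        + B * -(Real.sqrt 3 / 2)) = (2 * Real.sqrt 3 / 3 * (Real.sqrt 3 / 2)) * (A - B) := by
      intro A B; ring
    rw [e2, e, one_mul]
  rw [hf]
  rw [hev] at h1
  have hv : ((2 / 3 * ((-1) ^ (k + 1) * 2 ^ (2 * k + 1) / 2 / (2 * k + 1).factorial * b) : ℚ) : ℝ) *
      (Real.sqrt 3 * Real.pi ^ (2 * k + 1)) = 2 * Real.sqrt 3 / 3 *
      ((-1) ^ (k + 1) * (2 * Real.pi) ^ (2 * k + 1) / 2 / (2 * k + 1).factorial * b) := by
    push_cast
    rw [mul_pow]
    ring
  rw [hv]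
  exact h1

end Pool.MP0eb725
end

section

set_option autoImplicit false

open MeasureTheory Filter

namespace Pool.MP0eb725

/-- the `j`-th term of the series of the odd character mod 3 -/
private noncomputable def B05c_c (r : ℕ) (j : ℕ) : ℝ := 1 / (3 * (j : ℝ) + 1) ^ r - 1 / (3 * (j : ℝ) + 2) ^ r

private theorem B05c_lim (r : ℕ) (hodd : Odd r) : ∃ q : ℚ,
    Tendsto (fun M : ℕ => ∑ j ∈ Finset.range M, B05c_c r j) atTop (nhds (q * (Real.sqrt 3 * Real.pi ^ r))) := by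
  rcases lt_or_ge r 3 with h | h
  · have h1 : r = 1 := by
      obtain ⟨k, hk⟩ := hodd
      omega
    subst h1
    refine ⟨1 / 9, ?_⟩
    have h2 := chi_one
    have h3 : Real.pi / (3 * Real.sqrt 3) = ((1 / 9 : ℚ) : ℝ) * (Real.sqrt 3 * Real.pi ^ 1) := by
      have h4 : Real.sqrt 3 * Real.sqrt 3 = 3 := Real.mul_self_sqrt (by norm_num)
      have h5 : Real.sqrt 3 ≠ 0 := (Real.sqrt_pos.2 (by norm_num)).ne'
      rw [div_eq_iff (mul_ne_zero (by norm_num) h5)]
      push_cast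
      linear_combination (-(Real.pi / 3)) * h4
    rw [← h3]
    simpa [B05c_c] using h2
  · obtain ⟨q, hq⟩ := chi_odd r h hodd
    exact ⟨q, hq.tendsto_sum_nat⟩

private theorem B05c_per {g : ℤ → ℚ} (hg : ∀ m, g (m + 6) = g m) (k : ℕ) (i : ℤ) : g (6 * (k : ℤ) + i) = g i := by
  induction k with
  | zero => simp
  | succ k ih =>
    have h1 : 6 * ((k + 1 : ℕ) : ℤ) + i = (6 * (k : ℤ) + i) + 6 := by
      push_cast
      ring
    rw [h1, hg, ih]

private theorem B05c_sum (r : ℕ) (g : ℤ → ℚ) (hg : ∀ m, g (m + 6) = g m) (ho : ∀ m, g (-m) = - g m) (M : ℕ) :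
    ∑ m ∈ Finset.range (6 * M), (g ((m : ℤ) + 1) : ℝ) / ((m : ℝ) + 1) ^ r =
      (g 1 : ℝ) * (∑ j ∈ Finset.range (2 * M), B05c_c r j) +
      (((g 1 : ℝ) + g 2) * (1 / 2 ^ r)) * ∑ j ∈ Finset.range M, B05c_c r j := by
  have h0 : g 0 = 0 := by
    have := ho 0
    simp only [neg_zero] at this
    linarith
  have h6 : g 6 = 0 := by
    have := hg 0
    rw [zero_add] at this
    rw [this, h0]
  have h3 : g 3 = 0 := by
    have h1 := hg (-3)
    have h2 := ho 3
    norm_num at h1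
    rw [h2] at h1
    linarith
  have h4 : g 4 = - g 2 := by
    have h1 := hg (-2)
    have h2 := ho 2
    norm_num at h1
    rw [h2] at h1
    exact h1
  have h5 : g 5 = - g 1 := by
    have h1 := hg (-1)
    have h2 := ho 1
    norm_num at h1
    rw [h2] at h1
    exact h1
  induction M with
  | zero => simp
  | succ M ih =>
    have e1 : 6 * (M + 1) = 6 * M + 1 + 1 + 1 + 1 + 1 + 1 := by ring
    have e2 : 2 * (M + 1) = 2 * M + 1 + 1 := by ring
    rw [e1, e2]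
    simp only [Finset.sum_range_succ] at ih ⊢
    rw [ih]
    have p1 : g (((6 * M : ℕ) : ℤ) + 1) = g 1 := by
      rw [← B05c_per hg M 1]; congr 1
    have p2 : g (((6 * M + 1 : ℕ) : ℤ) + 1) = g 2 := by
      rw [← B05c_per hg M 2]; congr 1
    have p3 : g (((6 * M + 1 + 1 : ℕ) : ℤ) + 1) = g 3 := by
      rw [← B05c_per hg M 3]; congr 1
    have p4 : g (((6 * M + 1 + 1 + 1 : ℕ) : ℤ) + 1) = g 4 := by
      rw [← B05c_per hg M 4]; congr 1
    have p5 : g (((6 * M + 1 + 1 + 1 + 1 : ℕ) : ℤ) + 1) = g 5 := by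
      rw [← B05c_per hg M 5]; congr 1
    have p6 : g (((6 * M + 1 + 1 + 1 + 1 + 1 : ℕ) : ℤ) + 1) = g 6 := by
      rw [← B05c_per hg M 6]; congr 1
    rw [p1, p2, p3, p4, p5, p6, h3, h4, h5, h6]
    unfold B05c_c
    push_cast
    have a1 : (6 * (M : ℝ) + 1) = 3 * (2 * (M : ℝ)) + 1 := by ring
    have a2 : (6 * (M : ℝ) + 1 + 1) = 3 * (2 * (M : ℝ)) + 2 := by ring
    have a2' : (1 : ℝ) / 2 ^ r * (1 / (3 * (M : ℝ) + 1) ^ r) = 1 / (3 * (2 * (M : ℝ)) + 2) ^ r := by
      rw [one_div_mul_one_div, ← mul_pow]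
      congr 2
      ring
    have a4' : (1 : ℝ) / 2 ^ r * (1 / (3 * (M : ℝ) + 2) ^ r) = 1 / (3 * (2 * (M : ℝ) + 1) + 1) ^ r := by
      rw [one_div_mul_one_div, ← mul_pow]
      congr 2
      ring
    have a4 : (6 * (M : ℝ) + 1 + 1 + 1 + 1) = 3 * (2 * (M : ℝ) + 1) + 1 := by ring
    have a5 : (6 * (M : ℝ) + 1 + 1 + 1 + 1 + 1) = 3 * (2 * (M : ℝ) + 1) + 2 := by ring
    rw [a1] at *
    rw [show (3 * (2 * (M : ℝ)) + 1 + 1) = 3 * (2 * (M : ℝ)) + 2 by ring] at *
    rw [show (3 * (2 * (M : ℝ)) + 2 + 1 + 1) = 3 * (2 * (M : ℝ) + 1) + 1 by ring] at *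
    rw [show (3 * (2 * (M : ℝ) + 1) + 1 + 1) = 3 * (2 * (M : ℝ) + 1) + 2 by ring] at *
    linear_combination (-((g 1 : ℝ) + g 2)) * a2' + ((g 1 : ℝ) + g 2) * a4'

/-- odd 6-periodic `g`, `r` odd (also `r = 1`): the sums over full periods converge to an element of `ℚ √3 π^r`.
Proof: `g = g(1) (χ + o_2) + g(2) o_2` with `o_2 = - 1_{2 ∣ m} χ`; sum of `χ` over `m ≤ 6M` is the sum over `j < 2M` of
`1/(3j+1)^r - 1/(3j+2)^r`; sum of `o_2` over `m ≤ 6M` is `2^{-r}` times the sum of `χ` over `m ≤ 3M`. -/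
theorem odd_sum (r : ℕ) (hodd : Odd r) (g : ℤ → ℚ) (hg : ∀ m, g (m + 6) = g m) (ho : ∀ m, g (-m) = - g m) :
    ∃ q : ℚ, Tendsto (fun M : ℕ => ∑ m ∈ Finset.range (6 * M), (g ((m : ℤ) + 1) : ℝ) / ((m : ℝ) + 1) ^ r) atTop
      (nhds (q * (Real.sqrt 3 * Real.pi ^ r))) := by
  obtain ⟨q, hq⟩ := B05c_lim r hodd
  refine ⟨g 1 * q + ((g 1 + g 2) * (1 / 2 ^ r)) * q, ?_⟩
  have h2 : Tendsto (fun M : ℕ => 2 * M) atTop atTop :=
    tendsto_id.const_mul_atTop' (by norm_num)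
  have h3 := ((hq.comp h2).const_mul (g 1 : ℝ)).add (hq.const_mul (((g 1 : ℝ) + g 2) * (1 / 2 ^ r)))
  have h4 : (fun M : ℕ => ∑ m ∈ Finset.range (6 * M), (g ((m : ℤ) + 1) : ℝ) / ((m : ℝ) + 1) ^ r) =
      fun M : ℕ => (g 1 : ℝ) * ((fun M : ℕ => ∑ j ∈ Finset.range M, B05c_c r j) ∘ fun M : ℕ => 2 * M) M +
        (((g 1 : ℝ) + g 2) * (1 / 2 ^ r)) * ∑ j ∈ Finset.range M, B05c_c r j := by
    funext M
    exact B05c_sum r g hg ho M
  rw [h4]
  have h5 : (((g 1 * q + ((g 1 + g 2) * (1 / 2 ^ r)) * q : ℚ) : ℝ) * (Real.sqrt 3 * Real.pi ^ r)) =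
      (g 1 : ℝ) * (q * (Real.sqrt 3 * Real.pi ^ r)) +
        ((g 1 : ℝ) + g 2) * (1 / 2 ^ r) * (q * (Real.sqrt 3 * Real.pi ^ r)) := by
    push_cast
    ring
  rw [h5]
  exact h3

end Pool.MP0eb725
end

section

set_option autoImplicit false

open MeasureTheory Filter

namespace Pool.MP0eb725

private theorem B05d_mod (g : ℤ → ℚ) (hg : ∀ m, g (m + 6) = g m) (m : ℤ) : g m = g (m % 6) := by
  have per : Function.Periodic g 6 := hg
  have h1 := per.int_mul (m / 6) (m % 6)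
  have h2 : m % 6 + (m / 6 : ℤ) * 6 = m := by
    have := Int.emod_add_mul_ediv m 6
    linarith
  rw [← h1]
  congr 1
  exact_mod_cast h2.symm

private theorem B05d_decomp (g : ℤ → ℚ) (hg : ∀ m, g (m + 6) = g m) (he : ∀ m, g (-m) = g m) (m : ℤ) :
    g m = g 1 + (if 2 ∣ m then g 2 - g 1 else 0) + (if 3 ∣ m then g 3 - g 1 else 0)
      + (if 6 ∣ m then g 0 - g 2 - g 3 + g 1 else 0) := by
  have h4 : g 4 = g 2 := by
    have h := hg (-2)
    rw [he 2] at h
    exact h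
  have h5 : g 5 = g 1 := by
    have h := hg (-1)
    rw [he 1] at h
    exact h
  rw [B05d_mod g hg m]
  have h0 : 0 ≤ m % 6 := Int.emod_nonneg m (by norm_num)
  have h1 : m % 6 < 6 := Int.emod_lt_of_pos m (by norm_num)
  have hc : m % 6 = 0 ∨ m % 6 = 1 ∨ m % 6 = 2 ∨ m % 6 = 3 ∨ m % 6 = 4 ∨ m % 6 = 5 := by omega
  rcases hc with h | h | h | h | h | h
  · rw [h, if_pos (by omega), if_pos (by omega), if_pos (by omega)]
    ring
  · rw [h, if_neg (by omega), if_neg (by omega), if_neg (by omega)]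
    ring
  · rw [h, if_pos (by omega), if_neg (by omega), if_neg (by omega)]
    ring
  · rw [h, if_neg (by omega), if_pos (by omega), if_neg (by omega)]
    ring
  · rw [h, h4, if_pos (by omega), if_neg (by omega), if_neg (by omega)]
    ring
  · rw [h, h5, if_neg (by omega), if_neg (by omega), if_neg (by omega)]
    ring

private theorem B05d_dvd {r : ℕ} {Z : ℝ} (hZ : HasSum (fun n : ℕ => 1 / (n : ℝ) ^ r) Z)
    (d : ℕ) (hd : 0 < d) :
    HasSum (fun n : ℕ => if (d : ℤ) ∣ (n : ℤ) then 1 / (n : ℝ) ^ r else 0) (1 / (d : ℝ) ^ r * Z) := by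
  have hinj : Function.Injective (fun k : ℕ => d * k) := fun a b h =>
    Nat.eq_of_mul_eq_mul_left hd h
  rw [← hinj.hasSum_iff]
  · refine (hZ.mul_left (1 / (d : ℝ) ^ r)).congr_fun fun k => ?_
    show (if (d : ℤ) ∣ ((d * k : ℕ) : ℤ) then 1 / ((d * k : ℕ) : ℝ) ^ r else 0) = _
    rw [if_pos (by exact_mod_cast Dvd.intro k rfl)]
    push_cast
    rw [mul_pow, one_div_mul_one_div]
  · intro n hn
    refine if_neg fun hdvd => hn ?_
    obtain ⟨k, hk⟩ := (Int.natCast_dvd_natCast.1 hdvd)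
    exact ⟨k, hk.symm⟩

/-- even 6-periodic `g`, `r ≥ 2` even: `g` is a combination of `1`, `1_{2∣n}`, `1_{3∣n}`, `1_{6∣n}`; `hasSum_zeta_nat`. -/
theorem even_sum (r : ℕ) (hr : 2 ≤ r) (hev : Even r) (g : ℤ → ℚ) (hg : ∀ m, g (m + 6) = g m)
    (he : ∀ m, g (-m) = g m) :
    ∃ q : ℚ, HasSum (fun n : ℕ => (g ((n : ℤ) + 1) : ℝ) / ((n : ℝ) + 1) ^ r) (q * Real.pi ^ r) := by
  obtain ⟨k, rfl⟩ := hev
  rw [← two_mul] at hr ⊢
  have hk : k ≠ 0 := by omega
  obtain ⟨Z, hZd⟩ : ∃ Z : ℝ, Z = (-1) ^ (k + 1) * 2 ^ (2 * k - 1) * Real.pi ^ (2 * k) *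
    (bernoulli (2 * k) : ℝ) / ((2 * k).factorial : ℝ) := ⟨_, rfl⟩
  have hZ : HasSum (fun n : ℕ => 1 / (n : ℝ) ^ (2 * k)) Z := by
    rw [hZd]
    exact hasSum_zeta_nat hk
  have h2 := (B05d_dvd hZ 2 (by norm_num)).mul_left ((g 2 - g 1 : ℚ) : ℝ)
  have h3 := (B05d_dvd hZ 3 (by norm_num)).mul_left ((g 3 - g 1 : ℚ) : ℝ)
  have h6 := (B05d_dvd hZ 6 (by norm_num)).mul_left ((g 0 - g 2 - g 3 + g 1 : ℚ) : ℝ)
  have h1 := hZ.mul_left ((g 1 : ℚ) : ℝ)
  have hs := ((h1.add h2).add h3).add h6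
  have hF : HasSum (fun n : ℕ => (g (n : ℤ) : ℝ) / (n : ℝ) ^ (2 * k))
      ((g 1 : ℝ) * Z + ((g 2 - g 1 : ℚ) : ℝ) * (1 / ((2 : ℕ) : ℝ) ^ (2 * k) * Z) +
        ((g 3 - g 1 : ℚ) : ℝ) * (1 / ((3 : ℕ) : ℝ) ^ (2 * k) * Z) +
        ((g 0 - g 2 - g 3 + g 1 : ℚ) : ℝ) * (1 / ((6 : ℕ) : ℝ) ^ (2 * k) * Z)) := by
    refine hs.congr_fun fun n => ?_
    rw [B05d_decomp g hg he (n : ℤ)]
    push_cast
    by_cases c2 : (2 : ℤ) ∣ (n : ℤ) <;> by_cases c3 : (3 : ℤ) ∣ (n : ℤ) <;>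
      by_cases c6 : (6 : ℤ) ∣ (n : ℤ) <;> simp only [c2, c3, c6, if_true, if_false] <;>
      push_cast <;> ring
  refine ⟨(g 1 + (g 2 - g 1) * (1 / 2 ^ (2 * k)) + (g 3 - g 1) * (1 / 3 ^ (2 * k)) +
    (g 0 - g 2 - g 3 + g 1) * (1 / 6 ^ (2 * k))) *
    ((-1) ^ (k + 1) * 2 ^ (2 * k - 1) * bernoulli (2 * k) / (2 * k).factorial), ?_⟩
  have hG := (hasSum_nat_add_iff' 1).2 hF
  simp only [Finset.range_one, Finset.sum_singleton, Nat.cast_zero, zero_pow (by omega : 2 * k ≠ 0),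
    div_zero, sub_zero] at hG
  have e1 : ∀ n : ℕ, (g ((n : ℤ) + 1) : ℝ) / ((n : ℝ) + 1) ^ (2 * k) =
      (g ((n + 1 : ℕ) : ℤ) : ℝ) / ((n + 1 : ℕ) : ℝ) ^ (2 * k) := fun n => by push_cast; rfl
  have hG' := hG.congr_fun e1
  have hval : ∀ x y : ℝ, x = y → HasSum (fun n : ℕ => (g ((n : ℤ) + 1) : ℝ) / ((n : ℝ) + 1) ^ (2 * k)) y →
      HasSum (fun n : ℕ => (g ((n : ℤ) + 1) : ℝ) / ((n : ℝ) + 1) ^ (2 * k)) x := by
    rintro x y rfl h
    exact h
  refine hval _ _ ?_ hG'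
  rw [hZd]
  push_cast
  ring

end Pool.MP0eb725
end

section

set_option autoImplicit false

open MeasureTheory Filter

namespace Pool.MP0eb725

/-- `Z(f) ∈ ℚ √3 π^w` (`odd_sum`, absolute convergence) -/
theorem Zd_rat (w : ℕ) (hw : 3 ≤ w) (hodd : Odd w) {f : Fn} (hf : Per f) (ho : Odd2 f) :
    ∃ q : ℚ, Zd w f = q * (Real.sqrt 3 * Real.pi ^ w) := by
  have hg : ∀ m : ℤ, (fun m : ℤ => f m m) (m + 6) = (fun m : ℤ => f m m) m := by
    intro m
    change f (m + 6) (m + 6) = f m m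
    rw [(hf m (m + 6)).1, (hf m m).2]
  have hgo : ∀ m : ℤ, (fun m : ℤ => f m m) (-m) = -(fun m : ℤ => f m m) m := fun m => ho m m
  obtain ⟨q, hq⟩ := odd_sum w hodd (fun m : ℤ => f m m) hg hgo
  refine ⟨q, ?_⟩
  obtain ⟨C, hC0, hC⟩ := per_bdd hf
  have hsum : Summable (fun k : ℕ =>
      (f ((k : ℤ) + 1) ((k : ℤ) + 1) : ℝ) / ((k : ℝ) + 1) ^ w) := by
    have h1 : Summable (fun k : ℕ => C * (1 / ((k : ℝ) + 1) ^ w)) := by
      have h2 : Summable (fun n : ℕ => 1 / ((n : ℝ)) ^ w) :=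
        Real.summable_one_div_nat_pow.2 (by omega)
      have h3 := (summable_nat_add_iff 1).2 h2
      refine Summable.mul_left C ?_
      simpa using h3
    refine Summable.of_norm_bounded h1 fun k => ?_
    have hpos : (0 : ℝ) < ((k : ℝ) + 1) ^ w := by positivity
    rw [norm_div, Real.norm_eq_abs, Real.norm_of_nonneg hpos.le, mul_one_div]
    exact div_le_div_of_nonneg_right (hC _ _) hpos.le
  have ht := hsum.hasSum.tendsto_sum_nat
  have h6 : Tendsto (fun M : ℕ => 6 * M) atTop atTop :=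
    tendsto_atTop_mono (fun n => by change n ≤ 6 * n; omega) tendsto_id
  exact tendsto_nhds_unique (ht.comp h6) hq

end Pool.MP0eb725
end

section

end

section

set_option autoImplicit false

open MeasureTheory Filter

namespace Pool.MP0eb725

theorem B06a_pos {A B x : ℝ} (hA : 0 < A) (hB : 0 < B) (hx : 0 ≤ x) : 0 < A * x + B := by
  have := mul_nonneg hA.le hx
  linarith

theorem B06a_deriv (i n : ℕ) (A B x : ℝ) (hA : 0 < A) (hB : 0 < B) (hx : 0 ≤ x) :
    HasDerivAt (fun x : ℝ => x ^ (i + 1) / (A * x + B) ^ (i + 1 + n))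
      (((i : ℝ) + 1 + n) * B * (x ^ i / (A * x + B) ^ (i + 2 + n))
        - n * (x ^ i / (A * x + B) ^ (i + 1 + n))) x := by
  have hp := B06a_pos hA hB hx
  have h1 : HasDerivAt (fun x : ℝ => A * x + B) A x := by
    simpa using ((hasDerivAt_id x).const_mul A).add_const B
  have h2 : HasDerivAt (fun x : ℝ => (A * x + B) ^ (i + 1 + n))
      (((i + 1 + n : ℕ) : ℝ) * (A * x + B) ^ (i + 1 + n - 1) * A) x := h1.pow (i + 1 + n)
  have h3 : HasDerivAt (fun x : ℝ => x ^ (i + 1)) (((i + 1 : ℕ) : ℝ) * x ^ (i + 1 - 1)) x :=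
    hasDerivAt_pow (i + 1) x
  have h4 := h3.div h2 (pow_ne_zero _ hp.ne')
  have e1 : i + 1 + n - 1 = i + n := by omega
  have e2 : i + 1 - 1 = i := by omega
  rw [e1, e2] at h4
  refine HasDerivAt.congr_deriv (f := fun x : ℝ => x ^ (i + 1) / (A * x + B) ^ (i + 1 + n)) h4 ?_
  have hq : (A * x + B) ≠ 0 := hp.ne'
  have e3 : (A * x + B) ^ (i + 2 + n) = (A * x + B) ^ (i + n) * (A * x + B) ^ 2 := by
    rw [← pow_add]; congr 1; omega
  have e4 : (A * x + B) ^ (i + 1 + n) = (A * x + B) ^ (i + n) * (A * x + B) := by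
    rw [← pow_succ]; congr 1; omega
  rw [e3, e4]
  have hq2 : (A * x + B) ^ (i + n) ≠ 0 := pow_ne_zero _ hq
  push_cast
  field_simp
  ring

theorem B06a_lim (i n : ℕ) (A B : ℝ) (hA : 0 < A) (hB : 0 < B) :
    Tendsto (fun x : ℝ => x ^ (i + 1) / (A * x + B) ^ (i + 1 + n)) atTop
      (nhds ((1 / A) ^ (i + 1) * (0 : ℝ) ^ n)) := by
  have h1 : Tendsto (fun x : ℝ => A * x + B) atTop atTop :=
    tendsto_atTop_add_const_right _ _ (Tendsto.const_mul_atTop hA tendsto_id)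
  have h2 : Tendsto (fun x : ℝ => (A * x + B)⁻¹) atTop (nhds 0) := h1.inv_tendsto_atTop
  have h3 : Tendsto (fun x : ℝ => 1 / A - B / A * (A * x + B)⁻¹) atTop (nhds (1 / A - B / A * 0)) :=
    tendsto_const_nhds.sub (h2.const_mul _)
  rw [mul_zero, sub_zero] at h3
  have h4 : Tendsto (fun x : ℝ => (1 / A - B / A * (A * x + B)⁻¹) ^ (i + 1) * ((A * x + B)⁻¹) ^ n)
      atTop (nhds ((1 / A) ^ (i + 1) * (0 : ℝ) ^ n)) := (h3.pow (i + 1)).mul (h2.pow n)
  refine h4.congr' ?_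
  filter_upwards [eventually_ge_atTop (0 : ℝ)] with x hx
  have hp := B06a_pos hA hB hx
  have e1 : 1 / A - B / A * (A * x + B)⁻¹ = x / (A * x + B) := by
    field_simp
    ring
  rw [e1, pow_add (A * x + B), div_pow, inv_pow]
  field_simp

theorem B06a_aux (i : ℕ) (A B : ℝ) (hA : 0 < A) (hB : 0 < B) (n : ℕ) :
    IntegrableOn (fun x : ℝ => x ^ i / (A * x + B) ^ (i + 2 + n)) (Set.Ioi 0) ∧
    ∫ x in Set.Ioi (0 : ℝ), x ^ i / (A * x + B) ^ (i + 2 + n) =
      (Nat.factorial i * Nat.factorial n : ℝ) /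
        (Nat.factorial (i + 1 + n) * A ^ (i + 1) * B ^ (n + 1)) := by
  induction n with
  | zero =>
    have hd : ∀ x ∈ Set.Ici (0 : ℝ), HasDerivAt (fun x : ℝ => x ^ (i + 1) / (A * x + B) ^ (i + 1 + 0))
        (((i : ℝ) + 1) * B * (x ^ i / (A * x + B) ^ (i + 2 + 0))) x := by
      intro x hx
      have h := B06a_deriv i 0 A B x hA hB hx
      convert h using 1
      push_cast
      ring
    have hl := B06a_lim i 0 A B hA hB
    have hint : IntegrableOn (fun x : ℝ => ((i : ℝ) + 1) * B * (x ^ i / (A * x + B) ^ (i + 2 + 0)))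
        (Set.Ioi 0) := by
      refine integrableOn_Ioi_deriv_of_nonneg' hd (fun x hx => ?_) hl
      have hx' : (0 : ℝ) < x := hx
      have hp := B06a_pos hA hB hx'.le
      positivity
    have hval := integral_Ioi_of_hasDerivAt_of_tendsto' hd hint hl
    have hc : ((i : ℝ) + 1) * B ≠ 0 := by positivity
    have hint2 : IntegrableOn (fun x : ℝ => x ^ i / (A * x + B) ^ (i + 2 + 0)) (Set.Ioi 0) := by
      have := hint.const_mul (((i : ℝ) + 1) * B)⁻¹
      refine this.congr (Eventually.of_forall fun x => ?_)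
      simp only
      rw [inv_mul_cancel_left₀ hc]
    refine ⟨hint2, ?_⟩
    rw [integral_const_mul] at hval
    have e1 : (Nat.factorial (i + 1 + 0) : ℝ) = ((i : ℝ) + 1) * Nat.factorial i := by
      rw [add_zero, Nat.factorial_succ]; push_cast; ring
    have hf : (Nat.factorial i : ℝ) ≠ 0 := by positivity
    have e2 : ∫ x in Set.Ioi (0 : ℝ), x ^ i / (A * x + B) ^ (i + 2 + 0) =
        (((i : ℝ) + 1) * B)⁻¹ * ((1 / A) ^ (i + 1)) := by
      rw [eq_inv_mul_iff_mul_eq₀ hc, hval]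
      simp
    rw [e2, e1, one_div, inv_pow]
    have hA1 : A ^ (i + 1) ≠ 0 := by positivity
    simp only [Nat.factorial_zero, Nat.cast_one, zero_add, pow_one, mul_one]
    field_simp
  | succ n ih =>
    obtain ⟨ih1, ih2⟩ := ih
    have hint : IntegrableOn (fun x : ℝ => x ^ i / (A * x + B) ^ (i + 2 + (n + 1))) (Set.Ioi 0) := by
      have h1 := ih1.const_mul B⁻¹
      refine Integrable.mono' h1 ?_ ?_
      · refine ContinuousOn.aestronglyMeasurable ?_ measurableSet_Ioi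
        intro x hx
        have hx' : (0 : ℝ) < x := hx
        have hp := B06a_pos hA hB hx'.le
        refine ContinuousAt.continuousWithinAt ?_
        refine ContinuousAt.div (by fun_prop) (by fun_prop) (pow_ne_zero _ hp.ne')
      · refine (ae_restrict_mem measurableSet_Ioi).mono fun x hx => ?_
        have hx' : (0 : ℝ) < x := hx
        have hp := B06a_pos hA hB hx'.le
        rw [Real.norm_of_nonneg (by positivity)]
        have e1 : x ^ i / (A * x + B) ^ (i + 2 + (n + 1)) =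
            (A * x + B)⁻¹ * (x ^ i / (A * x + B) ^ (i + 2 + n)) := by
          rw [← add_assoc, pow_succ]
          field_simp
        rw [e1]
        refine mul_le_mul_of_nonneg_right ?_ (by positivity)
        refine inv_anti₀ hB ?_
        have := mul_pos hA hx'
        linarith
    refine ⟨hint, ?_⟩
    have hd : ∀ x ∈ Set.Ici (0 : ℝ), HasDerivAt
        (fun x : ℝ => x ^ (i + 1) / (A * x + B) ^ (i + 1 + (n + 1)))
        (((i : ℝ) + 2 + n) * B * (x ^ i / (A * x + B) ^ (i + 2 + (n + 1)))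
          - ((n : ℝ) + 1) * (x ^ i / (A * x + B) ^ (i + 2 + n))) x := by
      intro x hx
      have h := B06a_deriv i (n + 1) A B x hA hB hx
      have e1 : i + 1 + (n + 1) = i + 2 + n := by omega
      rw [e1] at h ⊢
      convert h using 1
      push_cast
      ring
    have hl := B06a_lim i (n + 1) A B hA hB
    have hI1 := hint.const_mul (((i : ℝ) + 2 + n) * B)
    have hI2 := ih1.const_mul ((n : ℝ) + 1)
    have hval := integral_Ioi_of_hasDerivAt_of_tendsto' hd (hI1.sub hI2) hl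
    rw [integral_sub hI1 hI2, integral_const_mul, integral_const_mul, ih2] at hval
    have hc : ((i : ℝ) + 2 + n) * B ≠ 0 := by positivity
    simp only [pow_succ (0 : ℝ) n, mul_zero, ne_eq, Nat.add_eq_zero_iff, one_ne_zero,
      and_false, not_false_eq_true, zero_pow, zero_div, sub_zero] at hval
    have e2 : ∫ x in Set.Ioi (0 : ℝ), x ^ i / (A * x + B) ^ (i + 2 + (n + 1)) =
        (((i : ℝ) + 2 + n) * B)⁻¹ * (((n : ℝ) + 1) * ((Nat.factorial i * Nat.factorial n : ℝ) /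
        (Nat.factorial (i + 1 + n) * A ^ (i + 1) * B ^ (n + 1)))) := by
      rw [eq_inv_mul_iff_mul_eq₀ hc]
      linarith
    rw [e2]
    have e3 : (Nat.factorial (i + 1 + (n + 1)) : ℝ) = ((i : ℝ) + 2 + n) * Nat.factorial (i + 1 + n) := by
      rw [← add_assoc, Nat.factorial_succ]; push_cast; ring
    have e4 : (Nat.factorial (n + 1) : ℝ) = ((n : ℝ) + 1) * Nat.factorial n := by
      rw [Nat.factorial_succ]; push_cast; ring
    rw [e3, e4]
    have hf : (Nat.factorial (i + 1 + n) : ℝ) ≠ 0 := by positivity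
    have hc2 : ((i : ℝ) + 2 + n) ≠ 0 := by positivity
    field_simp
    try ring

/-- Beta integral on the half line: `∫_0^∞ x^i/(A x + B)^w dx = i! (w-2-i)! / ((w-1)! A^(i+1) B^(w-1-i))`, with
integrability.  (Induction on `i` by parts, or substitution.) -/
theorem beta_half (w i : ℕ) (hi : i + 2 ≤ w) (A B : ℝ) (hA : 0 < A) (hB : 0 < B) :
    IntegrableOn (fun x : ℝ => x ^ i / (A * x + B) ^ w) (Set.Ioi 0) ∧
    ∫ x in Set.Ioi (0 : ℝ), x ^ i / (A * x + B) ^ w =
      (Nat.factorial i * Nat.factorial (w - 2 - i) : ℝ) /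
        (Nat.factorial (w - 1) * A ^ (i + 1) * B ^ (w - 1 - i)) := by
  obtain ⟨n, rfl⟩ := Nat.exists_eq_add_of_le hi
  have h := B06a_aux i A B hA hB n
  have e1 : i + 2 + n - 2 - i = n := by omega
  have e2 : i + 2 + n - 1 = i + 1 + n := by omega
  have e3 : i + 1 + n - i = n + 1 := by omega
  rw [e1, e2, e3]
  exact h

end Pool.MP0eb725
end

section

set_option autoImplicit false

open MeasureTheory Filter

namespace Pool.MP0eb725

/-- `|row_n(x)| ≤ C/(x+n+1)^w` (limit of `row_bdd`) and `L(h,x) = ∑_n row_n(x)` for `x > 0` (`summL`, `tsum_prod`,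
`tsum_comm`). -/
theorem rowR_props (w : ℕ) (hw : 3 ≤ w) {h : Fn} (hh : Ty1 h) :
    (∃ C : ℝ, 0 ≤ C ∧ ∀ (x : ℝ), 0 < x → ∀ n : ℕ, |rowR w h n x| ≤ C / (x + ((n : ℝ) + 1)) ^ w) ∧
    (∀ x : ℝ, 0 < x → HasSum (fun n => rowR w h n x) (L w h x)) := by
  obtain ⟨hP, ho, _⟩ := hh
  obtain ⟨C0, _, hC0⟩ := per_bdd hP
  have hS : ∀ x : ℝ, 0 < x → Summable (fun p : ℕ × ℕ => (h ((p.1 : ℤ) + 1) ((p.2 : ℤ) + 1) : ℝ) /
      (((p.1 : ℝ) + 1) * x + ((p.2 : ℝ) + 1)) ^ w) := fun x hx => summL w hw h C0 hC0 x hx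
  have hrow : ∀ x : ℝ, 0 < x → ∀ n : ℕ, HasSum (fun m : ℕ => (h ((m : ℤ) + 1) ((n : ℤ) + 1) : ℝ) /
      (((m : ℝ) + 1) * x + ((n : ℝ) + 1)) ^ w) (rowR w h n x) := by
    intro x hx n
    exact ((hS x hx).prod_symm.prod_factor n).hasSum
  constructor
  · obtain ⟨C, hC, hb⟩ := row_bdd w hP ho
    refine ⟨C, hC, fun x hx n => ?_⟩
    have h1 := (hrow x hx n).tendsto_sum_nat.abs
    exact le_of_tendsto' h1 (fun M => hb x hx.le n M)
  · intro x hx
    have h1 : HasSum (fun p : ℕ × ℕ => (h ((p.1 : ℤ) + 1) ((p.2 : ℤ) + 1) : ℝ) /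
      (((p.1 : ℝ) + 1) * x + ((p.2 : ℝ) + 1)) ^ w) (L w h x) := (hS x hx).hasSum
    have h2 := (Equiv.prodComm ℕ ℕ).hasSum_iff.2 h1
    exact h2.prod_fiberwise (fun n => hrow x hx n)

end Pool.MP0eb725
end

section

set_option autoImplicit false

open MeasureTheory Filter

namespace Pool.MP0eb725

/-- the odd functions mod 6 -/
def B06c_o (j m : ℤ) : ℚ := if m % 6 = j then 1 else if m % 6 = 6 - j then -1 else 0

theorem B06c_o_per (j m : ℤ) : B06c_o j (m + 6) = B06c_o j m := by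
  unfold B06c_o
  rw [Int.add_emod_right]

theorem B06c_o_odd (j : ℤ) (hj : j = 1 ∨ j = 2) (m : ℤ) : B06c_o j (-m) = - B06c_o j m := by
  unfold B06c_o
  have h6 : m % 6 = 0 ∨ m % 6 = 1 ∨ m % 6 = 2 ∨ m % 6 = 3 ∨ m % 6 = 4 ∨ m % 6 = 5 := by omega
  have hneg : (-m) % 6 = (6 - m % 6) % 6 := by omega
  rw [hneg]
  rcases hj with rfl | rfl <;> rcases h6 with h | h | h | h | h | h <;> rw [h] <;> norm_num

theorem B06c_dec (g : ℤ → ℚ) (hg : ∀ m, g (m + 6) = g m) (ho : ∀ m, g (-m) = - g m) (m : ℤ) :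
    g m = g 1 * B06c_o 1 m + g 2 * B06c_o 2 m := by
  have hper : Function.Periodic g 6 := hg
  have h1 : g (m % 6) = g m := by
    have h2 := hper.sub_zsmul_eq (x := m) (m / 6)
    rw [← h2]
    congr 1
    simp only [smul_eq_mul]
    omega
  have g0 : g 0 = 0 := by
    have := ho 0
    rw [neg_zero] at this
    linarith
  have g3 : g 3 = 0 := by
    have h2 := ho 3
    have h3 := hg (-3)
    norm_num at h2 h3
    linarith
  have g4 : g 4 = - g 2 := by
    have h2 := ho 2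
    have h3 := hg (-2)
    norm_num at h2 h3
    linarith
  have g5 : g 5 = - g 1 := by
    have h2 := ho 1
    have h3 := hg (-1)
    norm_num at h2 h3
    linarith
  rw [← h1]
  unfold B06c_o
  have h6 : m % 6 = 0 ∨ m % 6 = 1 ∨ m % 6 = 2 ∨ m % 6 = 3 ∨ m % 6 = 4 ∨ m % 6 = 5 := by omega
  rcases h6 with h | h | h | h | h | h <;> rw [h] <;> norm_num [g0, g3, g4, g5]

/-- Integral of a row.  Dominated convergence along `M ↦ ∑_{m < 6M}` (dominating function
`C x^i/(x+n+1)^w`, `row_bdd`), `beta_half` for each term, and `odd_sum` for `g = h(·, n+1)`, `r = i+1`: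
`∫_0^∞ x^i row_n(x) dx = i!(w-2-i)!/(w-1)! * (n+1)^(i+1-w) * lam_n`, `lam_n = lim_M ∑_{m<6M} h(m+1,n+1)/(m+1)^(i+1)`.
As `h(·,n+1)` is an odd 6-periodic function, `lam_n = ∑_{j=1,2} h(j,n+1) Lam_j`,
where `Lam_j = lim_M ∑_{m<6M} o_j(m+1)/(m+1)^(i+1)`, `o_j(m) = 1` if `m ≡ j`, `-1` if `m ≡ -j` mod 6, else 0, and
`Lam_j = q_j √3 π^(i+1)` with rational `q_j` for `i` even. -/
theorem row_int (w : ℕ) (hw : 3 ≤ w) {h : Fn} (hh : Ty1 h) (i : ℕ) (hi : i + 3 ≤ w) (hev : Even i) :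
    ∃ s1 s2 : ℚ, ∀ n : ℕ, ∫ x in Set.Ioi (0 : ℝ), x ^ i * rowR w h n x =
      ((s1 * h 1 ((n : ℤ) + 1) + s2 * h 2 ((n : ℤ) + 1) : ℚ) : ℝ) * (Real.sqrt 3 * Real.pi ^ (i + 1)) /
        ((n : ℝ) + 1) ^ (w - 1 - i) := by
  obtain ⟨hP, ho, he⟩ := hh
  have hodd : Odd (i + 1) := hev.add_one
  obtain ⟨q1, hq1⟩ := odd_sum (i + 1) hodd (B06c_o 1) (B06c_o_per 1) (B06c_o_odd 1 (Or.inl rfl))
  obtain ⟨q2, hq2⟩ := odd_sum (i + 1) hodd (B06c_o 2) (B06c_o_per 2) (B06c_o_odd 2 (Or.inr rfl))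
  obtain ⟨c, hc⟩ : ∃ c : ℚ, c = (Nat.factorial i * Nat.factorial (w - 2 - i) : ℚ) /
      (Nat.factorial (w - 1) : ℚ) := ⟨_, rfl⟩
  refine ⟨c * q1, c * q2, fun n => ?_⟩
  have hB : (0 : ℝ) < (n : ℝ) + 1 := by positivity
  obtain ⟨C, hC0, hC⟩ := row_bdd w hP ho
  obtain ⟨D, hD0, hD⟩ := per_bdd hP
  have hpos : ∀ m : ℕ, (0 : ℝ) < (m : ℝ) + 1 := fun m => by positivity
  have hint : ∀ m : ℕ, IntegrableOn (fun x : ℝ => x ^ i / (((m : ℝ) + 1) * x + ((n : ℝ) + 1)) ^ w)
      (Set.Ioi 0) := fun m => (beta_half w i (by omega) _ _ (hpos m) hB).1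
  have hval : ∀ m : ℕ, ∫ x in Set.Ioi (0 : ℝ), x ^ i / (((m : ℝ) + 1) * x + ((n : ℝ) + 1)) ^ w =
      (Nat.factorial i * Nat.factorial (w - 2 - i) : ℝ) /
        (Nat.factorial (w - 1) * ((m : ℝ) + 1) ^ (i + 1) * ((n : ℝ) + 1) ^ (w - 1 - i)) :=
    fun m => (beta_half w i (by omega) _ _ (hpos m) hB).2
  obtain ⟨S, hS⟩ : ∃ S : ℕ → ℝ → ℝ, S = fun M x => ∑ m ∈ Finset.range (6 * M),
      (h ((m : ℤ) + 1) ((n : ℤ) + 1) : ℝ) * (x ^ i / (((m : ℝ) + 1) * x + ((n : ℝ) + 1)) ^ w) :=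
    ⟨_, rfl⟩
  have hSi : ∀ M, IntegrableOn (S M) (Set.Ioi 0) := by
    intro M
    rw [hS]
    exact integrable_finsetSum _ fun m _ => (hint m).const_mul _
  have hSx : ∀ M x, S M x = x ^ i * ∑ m ∈ Finset.range (6 * M),
      (h ((m : ℤ) + 1) ((n : ℤ) + 1) : ℝ) / (((m : ℝ) + 1) * x + ((n : ℝ) + 1)) ^ w := by
    intro M x
    rw [hS, Finset.mul_sum]
    refine Finset.sum_congr rfl fun m _ => ?_
    ring
  have h6 : Tendsto (fun M : ℕ => 6 * M) atTop atTop :=
    tendsto_id.const_mul_atTop' (by norm_num)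
  -- limit of the integrals, first computation
  have hlim1 : Tendsto (fun M => ∫ x in Set.Ioi (0 : ℝ), S M x) atTop
      (nhds (∫ x in Set.Ioi (0 : ℝ), x ^ i * rowR w h n x)) := by
    refine tendsto_integral_of_dominated_convergence
      (fun x => C * (x ^ i / (1 * x + ((n : ℝ) + 1)) ^ w)) (fun M => (hSi M).aestronglyMeasurable)
      ((beta_half w i (by omega) 1 _ one_pos hB).1.const_mul C) (fun M => ?_) ?_
    · filter_upwards [ae_restrict_mem measurableSet_Ioi] with x hx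
      have hx0 : (0 : ℝ) < x := hx
      rw [hSx, Real.norm_eq_abs, abs_mul, abs_of_nonneg (pow_nonneg hx0.le i)]
      have h1 := mul_le_mul_of_nonneg_left (hC x hx0.le n (6 * M)) (pow_nonneg hx0.le i)
      refine h1.trans (le_of_eq ?_)
      rw [one_mul]
      ring
    · filter_upwards [ae_restrict_mem measurableSet_Ioi] with x hx
      have hx0 : (0 : ℝ) < x := hx
      have hs := summL w hw h D hD x hx0
      have hs1 : Summable fun m : ℕ => (h ((m : ℤ) + 1) ((n : ℤ) + 1) : ℝ) /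
          (((m : ℝ) + 1) * x + ((n : ℝ) + 1)) ^ w :=
        hs.comp_injective (i := fun m : ℕ => (m, n)) (fun a b hab => by simpa using hab)
      have ht := (hs1.hasSum.tendsto_sum_nat.comp h6).const_mul (x ^ i)
      refine ht.congr fun M => ?_
      rw [hSx]
      rfl
  -- second computation
  have hval2 : ∀ M, ∫ x in Set.Ioi (0 : ℝ), S M x =
      (c : ℝ) / ((n : ℝ) + 1) ^ (w - 1 - i) *
        ((h 1 ((n : ℤ) + 1) : ℝ) * ∑ m ∈ Finset.range (6 * M),
            (B06c_o 1 ((m : ℤ) + 1) : ℝ) / ((m : ℝ) + 1) ^ (i + 1) +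
          (h 2 ((n : ℤ) + 1) : ℝ) * ∑ m ∈ Finset.range (6 * M),
            (B06c_o 2 ((m : ℤ) + 1) : ℝ) / ((m : ℝ) + 1) ^ (i + 1)) := by
    intro M
    rw [hS]
    simp only
    rw [integral_finsetSum _ fun m _ => (hint m).const_mul _]
    rw [Finset.mul_sum, Finset.mul_sum, ← Finset.sum_add_distrib, Finset.mul_sum]
    refine Finset.sum_congr rfl fun m _ => ?_
    rw [integral_const_mul, hval]
    have hdec := B06c_dec (fun k => h k ((n : ℤ) + 1)) (fun k => (hP k _).1) (fun k => ho k _)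
      ((m : ℤ) + 1)
    rw [hdec, hc]
    have e1 := (hpos m).ne'
    have e2 := hB.ne'
    have e3 : (Nat.factorial (w - 1) : ℝ) ≠ 0 := by positivity
    push_cast
    field_simp
  have hlim2 : Tendsto (fun M => ∫ x in Set.Ioi (0 : ℝ), S M x) atTop
      (nhds ((c : ℝ) / ((n : ℝ) + 1) ^ (w - 1 - i) *
        ((h 1 ((n : ℤ) + 1) : ℝ) * (q1 * (Real.sqrt 3 * Real.pi ^ (i + 1))) +
          (h 2 ((n : ℤ) + 1) : ℝ) * (q2 * (Real.sqrt 3 * Real.pi ^ (i + 1)))))) := by
    simp only [hval2]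
    exact ((hq1.const_mul _).add (hq2.const_mul _)).const_mul _
  rw [tendsto_nhds_unique hlim1 hlim2]
  push_cast
  ring

end Pool.MP0eb725
end

section

set_option autoImplicit false

open MeasureTheory Filter

namespace Pool.MP0eb725

theorem B06d_row_meas (w : ℕ) (hw : 3 ≤ w) {h : Fn} (hh : Ty1 h) (n : ℕ) :
    AEStronglyMeasurable (rowR w h n) (volume.restrict (Set.Ioi 0)) := by
  obtain ⟨C, hC0, hC⟩ := per_bdd hh.1
  refine aestronglyMeasurable_of_tendsto_ae (u := atTop)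
    (f := fun (N : ℕ) (x : ℝ) => ∑ m ∈ Finset.range N,
      (h ((m : ℤ) + 1) ((n : ℤ) + 1) : ℝ) / (((m : ℝ) + 1) * x + ((n : ℝ) + 1)) ^ w) ?_ ?_
  · intro N
    refine ContinuousOn.aestronglyMeasurable ?_ measurableSet_Ioi
    refine continuousOn_finsetSum _ fun m _ => ?_
    refine ContinuousOn.div continuousOn_const (by fun_prop) ?_
    intro x hx
    have hx' : 0 < x := hx
    have : 0 < ((m : ℝ) + 1) * x + ((n : ℝ) + 1) := by positivity
    positivity
  · refine (ae_restrict_iff' measurableSet_Ioi).2 (Eventually.of_forall fun x hx => ?_)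
    have hs := summL w hw h C hC x hx
    have hs2 : Summable (fun m : ℕ => (h ((m : ℤ) + 1) ((n : ℤ) + 1) : ℝ) /
        (((m : ℝ) + 1) * x + ((n : ℝ) + 1)) ^ w) :=
      hs.comp_injective (i := fun m : ℕ => (m, n)) (fun a b hab => (Prod.mk.inj hab).1)
    exact hs2.hasSum.tendsto_sum_nat

theorem B06d_intL (w : ℕ) (hw : 3 ≤ w) {h : Fn} (hh : Ty1 h) (i : ℕ) (hi : i + 3 ≤ w) :
    IntegrableOn (fun x : ℝ => x ^ i * L w h x) (Set.Ioi 0) := by
  obtain ⟨C1, hC10, hC1⟩ := L_bdd w hw hh.1 hh.2.1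
  obtain ⟨C2, hC20, hC2⟩ := L_asym w hw hh.1
  have hcont := L_cont w hw hh.1
  rw [← Set.Ioc_union_Ioi_eq_Ioi (zero_le_one (α := ℝ))]
  refine IntegrableOn.union ?_ ?_
  · have hc : IntegrableOn (fun _ : ℝ => C1) (Set.Ioc (0 : ℝ) 1) := continuous_const.integrableOn_Ioc
    refine Integrable.mono' hc ?_ ?_
    · refine ContinuousOn.aestronglyMeasurable ?_ measurableSet_Ioc
      exact ((continuous_pow i).continuousOn).mul (hcont.mono fun x hx => hx.1)
    · refine (ae_restrict_iff' measurableSet_Ioc).2 (Eventually.of_forall fun x hx => ?_)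
      have h1 := hC1 x hx.1
      have h2 : x ^ i ≤ 1 := pow_le_one₀ hx.1.le hx.2
      have h3 : 0 ≤ x ^ i := pow_nonneg hx.1.le i
      rw [Real.norm_eq_abs, abs_mul, abs_of_nonneg h3]
      calc x ^ i * |L w h x| ≤ 1 * C1 := mul_le_mul h2 h1 (abs_nonneg _) zero_le_one
        _ = C1 := one_mul _
  · have hg : IntegrableOn (fun x : ℝ => (|mu w h| + C2) * x ^ (-2 : ℝ)) (Set.Ioi 1) :=
      (integrableOn_Ioi_rpow_of_lt (by norm_num) one_pos).const_mul _
    refine Integrable.mono' hg ?_ ?_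
    · refine ContinuousOn.aestronglyMeasurable ?_ measurableSet_Ioi
      exact ((continuous_pow i).continuousOn).mul (hcont.mono fun x hx => Set.mem_Ioi.2 (lt_trans one_pos (Set.mem_Ioi.1 hx)))
    · refine (ae_restrict_iff' measurableSet_Ioi).2 (Eventually.of_forall fun x hx => ?_)
      have hx1 : 1 < x := hx
      have hx0 : 0 < x := lt_trans one_pos hx1
      have h1 := hC2 x hx1.le
      have hinv0 : 0 ≤ 1 / x := by positivity
      have hinv : 1 / x ≤ 1 := by rw [div_le_one hx0]; exact hx1.le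
      have h2 : |L w h x| ≤ (|mu w h| + C2) * (1 / x) ^ (w - 1) := by
        have h3 : (1 / x) ^ w ≤ (1 / x) ^ (w - 1) := pow_le_pow_of_le_one hinv0 hinv (by omega)
        have h4 : |L w h x| ≤ |L w h x - mu w h * (1 / x) ^ (w - 1)| + |mu w h * (1 / x) ^ (w - 1)| := by
          have := abs_add_le (L w h x - mu w h * (1 / x) ^ (w - 1)) (mu w h * (1 / x) ^ (w - 1))
          simpa using this
        have h5 : |mu w h * (1 / x) ^ (w - 1)| = |mu w h| * (1 / x) ^ (w - 1) := by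
          rw [abs_mul, abs_of_nonneg (pow_nonneg hinv0 _)]
        have h6 : C2 * (1 / x) ^ w ≤ C2 * (1 / x) ^ (w - 1) := mul_le_mul_of_nonneg_left h3 hC20
        calc |L w h x| ≤ C2 * (1 / x) ^ (w - 1) + |mu w h| * (1 / x) ^ (w - 1) := by linarith
          _ = _ := by ring
      have h7 : x ^ i * (1 / x) ^ (w - 1) ≤ x ^ (-2 : ℝ) := by
        have e1 : x ^ i * (1 / x) ^ (w - 1) = (1 / x) ^ (w - 1 - i) := by
          have : w - 1 = i + (w - 1 - i) := by omega
          conv_lhs => rw [this, pow_add, ← mul_assoc, ← mul_pow]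
          rw [mul_one_div_cancel hx0.ne', one_pow, one_mul]
        rw [e1]
        calc (1 / x) ^ (w - 1 - i) ≤ (1 / x) ^ 2 := pow_le_pow_of_le_one hinv0 hinv (by omega)
          _ = x ^ (-2 : ℝ) := by
            rw [Real.rpow_neg hx0.le]
            norm_num
      have h3 : 0 ≤ x ^ i := pow_nonneg hx0.le i
      rw [Real.norm_eq_abs, abs_mul, abs_of_nonneg h3]
      have hD : 0 ≤ |mu w h| + C2 := by positivity
      calc x ^ i * |L w h x| ≤ x ^ i * ((|mu w h| + C2) * (1 / x) ^ (w - 1)) :=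
            mul_le_mul_of_nonneg_left h2 h3
        _ = (|mu w h| + C2) * (x ^ i * (1 / x) ^ (w - 1)) := by ring
        _ ≤ (|mu w h| + C2) * x ^ (-2 : ℝ) := mul_le_mul_of_nonneg_left h7 hD

/-- Moments for even `i ≤ w - 3`: `∫_0^∞ x^i L(h,x) dx = ∑_n ∫_0^∞ x^i row_n(x) dx`
(`hasSum_integral_of_summable_integral_norm`; `∫ x^i C/(x+n+1)^w ≤ C'/(n+1)^(w-1-i)`, summable as `w-1-i ≥ 2`), then
`row_int` and `even_sum` for `g = h(1,·)`, `h(2,·)`, `r = w-1-i` (even since `w` is odd).  Finally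
`∫_0^Y → ∫_0^∞`. -/
theorem moment_even (w : ℕ) (hw : 3 ≤ w) (hodd : Odd w) {h : Fn} (hh : Ty1 h) (i : ℕ) (hi : i + 3 ≤ w)
    (hev : Even i) :
    ∃ q : ℚ, Tendsto (fun Y : ℝ => ∫ x in (0 : ℝ)..Y, x ^ i * L w h x) atTop
      (nhds (q * (Real.sqrt 3 * Real.pi ^ w))) := by
  obtain ⟨⟨C, hC0, hC⟩, hsum⟩ := rowR_props w hw hh
  obtain ⟨s1, s2, hrow⟩ := row_int w hw hh i hi hev
  have hr2 : 2 ≤ w - 1 - i := by omega
  have hrev : Even (w - 1 - i) := by
    obtain ⟨a, ha⟩ := hodd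
    obtain ⟨b, hb⟩ := hev
    exact ⟨a - b, by omega⟩
  obtain ⟨q, hq⟩ := even_sum (w - 1 - i) hr2 hrev (fun m => s1 * h 1 m + s2 * h 2 m)
    (fun m => by simp only [(hh.1 1 m).2, (hh.1 2 m).2]) (fun m => by simp only [hh.2.2])
  have hbd : ∀ n : ℕ, ∀ x ∈ Set.Ioi (0 : ℝ), ‖x ^ i * rowR w h n x‖ ≤
      C * (x ^ i / (1 * x + ((n : ℝ) + 1)) ^ w) := by
    intro n x hx
    have hx0 : 0 < x := hx
    have h1 := hC x hx0 n
    rw [Real.norm_eq_abs, abs_mul, abs_of_nonneg (pow_nonneg hx0.le i), one_mul]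
    calc x ^ i * |rowR w h n x| ≤ x ^ i * (C / (x + ((n : ℝ) + 1)) ^ w) :=
          mul_le_mul_of_nonneg_left h1 (pow_nonneg hx0.le i)
      _ = _ := by ring
  have hbeta : ∀ n : ℕ, _ := fun n : ℕ => beta_half w i (by omega) 1 ((n : ℝ) + 1) one_pos (by positivity)
  have hint : ∀ n : ℕ, Integrable (fun x : ℝ => x ^ i * rowR w h n x) (volume.restrict (Set.Ioi 0)) := by
    intro n
    refine Integrable.mono' ((hbeta n).1.const_mul C) ?_ ?_
    · exact ((continuous_pow i).aestronglyMeasurable).mul (B06d_row_meas w hw hh n)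
    · exact (ae_restrict_iff' measurableSet_Ioi).2 (Eventually.of_forall fun x hx => hbd n x hx)
  have hnorm : Summable (fun n : ℕ => ∫ x in Set.Ioi (0 : ℝ), ‖x ^ i * rowR w h n x‖) := by
    have hs : Summable (fun n : ℕ => C * ((Nat.factorial i * Nat.factorial (w - 2 - i) : ℝ) /
        (Nat.factorial (w - 1))) * (1 / ((n : ℝ) + 1) ^ (w - 1 - i))) := by
      refine Summable.mul_left _ ?_
      have := (summable_nat_add_iff 1).2 (Real.summable_one_div_nat_pow.2 (show 1 < w - 1 - i by omega))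
      simpa using this
    refine Summable.of_nonneg_of_le (fun n => integral_nonneg fun x => norm_nonneg _) (fun n => ?_) hs
    calc ∫ x in Set.Ioi (0 : ℝ), ‖x ^ i * rowR w h n x‖
        ≤ ∫ x in Set.Ioi (0 : ℝ), C * (x ^ i / (1 * x + ((n : ℝ) + 1)) ^ w) :=
          setIntegral_mono_on (hint n).norm ((hbeta n).1.const_mul C) measurableSet_Ioi (hbd n)
      _ = C * ((Nat.factorial i * Nat.factorial (w - 2 - i) : ℝ) /
        (Nat.factorial (w - 1))) * (1 / ((n : ℝ) + 1) ^ (w - 1 - i)) := by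
          rw [integral_const_mul, (hbeta n).2]
          have h1 : ((n : ℝ) + 1) ^ (w - 1 - i) ≠ 0 := by positivity
          have h2 : (Nat.factorial (w - 1) : ℝ) ≠ 0 := by positivity
          field_simp
          simp
  have hmain := hasSum_integral_of_summable_integral_norm hint hnorm
  have e1 : ∫ x in Set.Ioi (0 : ℝ), (∑' n, x ^ i * rowR w h n x) =
      ∫ x in Set.Ioi (0 : ℝ), x ^ i * L w h x := by
    refine setIntegral_congr_fun measurableSet_Ioi fun x hx => ?_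
    exact ((hsum x hx).mul_left (x ^ i)).tsum_eq
  rw [e1] at hmain
  have hq2 := hq.mul_left (Real.sqrt 3 * Real.pi ^ (i + 1))
  have e2 : (fun n : ℕ => ∫ x in Set.Ioi (0 : ℝ), x ^ i * rowR w h n x) =
      fun n : ℕ => Real.sqrt 3 * Real.pi ^ (i + 1) *
        (((s1 * h 1 ((n : ℤ) + 1) + s2 * h 2 ((n : ℤ) + 1) : ℚ) : ℝ) / ((n : ℝ) + 1) ^ (w - 1 - i)) := by
    funext n
    rw [hrow n]
    ring
  rw [e2] at hmain
  have e3 := hmain.unique hq2
  refine ⟨q, ?_⟩
  have e4 : (q : ℝ) * (Real.sqrt 3 * Real.pi ^ w) = ∫ x in Set.Ioi (0 : ℝ), x ^ i * L w h x := by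
    rw [e3]
    have : w = (i + 1) + (w - 1 - i) := by omega
    conv_lhs => rw [this, pow_add]
    ring
  rw [e4]
  exact intervalIntegral_tendsto_integral_Ioi 0 (B06d_intL w hw hh i hi) tendsto_id

end Pool.MP0eb725
end

section

set_option autoImplicit false

open MeasureTheory Filter

namespace Pool.MP0eb725

theorem B06e_ii (w : ℕ) (hw : 3 ≤ w) {h : Fn} (hh : Ty1 h) (i : ℕ) (a b : ℝ) (ha : 0 ≤ a) (hb : 0 ≤ b) :
    IntervalIntegrable (fun x => x ^ i * L w h x) volume a b := by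
  have h1 := EE_ii w hw hh 0 1 a b ha hb
  have h2 : (fun x : ℝ => ((0 : ℝ) * x + 1) ^ (w - 2) * L w h x) = fun x => L w h x := by
    funext x
    rw [zero_mul, zero_add, one_pow, one_mul]
  rw [h2] at h1
  exact h1.continuousOn_mul (continuous_pow i).continuousOn

theorem B06e_int (w : ℕ) (hw : 3 ≤ w) {h : Fn} (hh : Ty1 h) (i : ℕ) (hi : i + 3 ≤ w) :
    IntegrableOn (fun x => x ^ i * L w h x) (Set.Ioi 0) := by
  obtain ⟨C, hC0, hC⟩ := L_asym w hw hh.1
  rw [← Set.Ioc_union_Ioi_eq_Ioi (zero_le_one (α := ℝ))]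
  refine IntegrableOn.union ?_ ?_
  · exact (intervalIntegrable_iff_integrableOn_Ioc_of_le zero_le_one).1
      (B06e_ii w hw hh i 0 1 le_rfl zero_le_one)
  · have hb : IntegrableOn (fun x : ℝ => (|mu w h| + C) * x ^ (-2 : ℝ)) (Set.Ioi 1) :=
      (integrableOn_Ioi_rpow_of_lt (by norm_num) one_pos).const_mul _
    have hcont : ContinuousOn (fun x => x ^ i * L w h x) (Set.Ioi 1) :=
      (continuous_pow i).continuousOn.mul ((L_cont w hw hh.1).mono (Set.Ioi_subset_Ioi zero_le_one))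
    refine Integrable.mono' hb (hcont.aestronglyMeasurable measurableSet_Ioi) ?_
    refine (ae_restrict_iff' measurableSet_Ioi).2 (Eventually.of_forall fun x hx => ?_)
    have hx1 : (1 : ℝ) ≤ x := le_of_lt hx
    have hx0 : (0 : ℝ) < x := lt_of_lt_of_le one_pos hx1
    have h1 := hC x hx1
    have hy0 : 0 < 1 / x := by positivity
    have hy1 : 1 / x ≤ 1 := by
      rw [div_le_one hx0]
      exact hx1
    have h2 : |L w h x| ≤ (|mu w h| + C) * (1 / x) ^ (w - 1) := by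
      have h3 : |L w h x| ≤ |mu w h * (1 / x) ^ (w - 1)| + |L w h x - mu w h * (1 / x) ^ (w - 1)| := by
        have := abs_add_le (mu w h * (1 / x) ^ (w - 1)) (L w h x - mu w h * (1 / x) ^ (w - 1))
        rwa [add_sub_cancel] at this
      have h4 : |mu w h * (1 / x) ^ (w - 1)| = |mu w h| * (1 / x) ^ (w - 1) := by
        rw [abs_mul, abs_of_pos (pow_pos hy0 _)]
      have h5 : (1 / x) ^ w ≤ (1 / x) ^ (w - 1) :=
        pow_le_pow_of_le_one hy0.le hy1 (by omega)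
      have h6 : C * (1 / x) ^ w ≤ C * (1 / x) ^ (w - 1) := mul_le_mul_of_nonneg_left h5 hC0
      rw [h4] at h3
      linarith
    have h7 : x ^ i * (1 / x) ^ (w - 1) ≤ x ^ (-2 : ℝ) := by
      have e1 : (1 / x) ^ (w - 1) = (1 / x) ^ i * (1 / x) ^ (w - 1 - i) := by
        rw [← pow_add]
        congr 1
        omega
      have e2 : x ^ i * (1 / x) ^ i = 1 := by
        rw [← mul_pow, mul_one_div_cancel hx0.ne', one_pow]
      have e3 : (1 / x) ^ (w - 1 - i) ≤ (1 / x) ^ 2 :=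
        pow_le_pow_of_le_one hy0.le hy1 (by omega)
      have e4 : x ^ (-2 : ℝ) = (1 / x) ^ 2 := by
        rw [Real.rpow_neg hx0.le, one_div, inv_pow]
        norm_num
      rw [e1, ← mul_assoc, e2, one_mul, e4]
      exact e3
    rw [Real.norm_eq_abs, abs_mul, abs_of_pos (pow_pos hx0 i)]
    calc x ^ i * |L w h x| ≤ x ^ i * ((|mu w h| + C) * (1 / x) ^ (w - 1)) :=
          mul_le_mul_of_nonneg_left h2 (pow_pos hx0 i).le
      _ = (|mu w h| + C) * (x ^ i * (1 / x) ^ (w - 1)) := by ring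
      _ ≤ _ := mul_le_mul_of_nonneg_left h7 (by positivity)

theorem B06e_exp (w : ℕ) (hw : 3 ≤ w) {h : Fn} (hh : Ty1 h) (u v Y : ℝ) (hY : 0 ≤ Y) :
    EE w h u v Y = ∑ i ∈ Finset.range (w - 1), ((w - 2).choose i : ℝ) * u ^ i * v ^ (w - 2 - i) *
      ∫ x in (0 : ℝ)..Y, x ^ i * L w h x := by
  have e1 : w - 1 = w - 2 + 1 := by omega
  unfold EE
  have e2 : (fun x : ℝ => (u * x + v) ^ (w - 2) * L w h x) = fun x => ∑ i ∈ Finset.range (w - 1),
      (((w - 2).choose i : ℝ) * u ^ i * v ^ (w - 2 - i)) * (x ^ i * L w h x) := by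
    funext x
    rw [add_pow, e1, Finset.sum_mul]
    refine Finset.sum_congr rfl fun i _ => ?_
    rw [mul_pow]
    ring
  rw [e2, intervalIntegral.integral_finsetSum]
  · refine Finset.sum_congr rfl fun i _ => ?_
    rw [intervalIntegral.integral_const_mul]
  · intro i _
    exact (B06e_ii w hw hh i 0 Y le_rfl hY).const_mul _

/-- The regularized integral as a form in `(u,v)`; coefficients with even exponent of `u` are in `ℚ √3 π^w`.
Proof: binomial expansion of `(u x + v)^(w-2)` in `EE`; the moments `M_i(Y) = ∫_0^Y x^i L` converge for `i ≤ w-3`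
and `M_{w-2}(Y) - mu log Y` converges (`L_asym`; or from `EE_lim` at suitable `(u,v)`). -/
theorem ereg_coeff (w : ℕ) (hw : 3 ≤ w) (hodd : Odd w) {h : Fn} (hh : Ty1 h) :
    ∃ e : ℕ → ℝ, (∀ u v : ℝ, ereg w h u v =
      ∑ i ∈ Finset.range (w - 1), ((w - 2).choose i : ℝ) * u ^ i * v ^ (w - 2 - i) * e i) ∧
      ∀ i, Even i → i + 3 ≤ w → ∃ q : ℚ, e i = q * (Real.sqrt 3 * Real.pi ^ w) := by
  have hM : ∀ i, i + 3 ≤ w → Tendsto (fun Y : ℝ => ∫ x in (0 : ℝ)..Y, x ^ i * L w h x) atTop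
      (nhds (∫ x in Set.Ioi (0 : ℝ), x ^ i * L w h x)) := fun i hi =>
    intervalIntegral_tendsto_integral_Ioi 0 (B06e_int w hw hh i hi) tendsto_id
  have hMd : Tendsto (fun Y : ℝ => (∫ x in (0 : ℝ)..Y, x ^ (w - 2) * L w h x) - mu w h * Real.log Y)
      atTop (nhds (ereg w h 1 0)) := by
    have h1 := EE_lim w hw hh 1 0
    refine h1.congr fun Y => ?_
    unfold EE
    simp only [one_mul, add_zero, one_pow]
  refine ⟨fun i => if i = w - 2 then ereg w h 1 0 else ∫ x in Set.Ioi (0 : ℝ), x ^ i * L w h x,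
    fun u v => ?_, fun i hev hi => ?_⟩
  · refine tendsto_nhds_unique (EE_lim w hw hh u v) ?_
    have h1 : Tendsto (fun Y : ℝ => ∑ i ∈ Finset.range (w - 1),
        ((w - 2).choose i : ℝ) * u ^ i * v ^ (w - 2 - i) *
          ((∫ x in (0 : ℝ)..Y, x ^ i * L w h x) - if i = w - 2 then mu w h * Real.log Y else 0)) atTop
        (nhds (∑ i ∈ Finset.range (w - 1), ((w - 2).choose i : ℝ) * u ^ i * v ^ (w - 2 - i) *
          (if i = w - 2 then ereg w h 1 0 else ∫ x in Set.Ioi (0 : ℝ), x ^ i * L w h x))) := by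
      refine tendsto_finsetSum _ fun i hi => Tendsto.const_mul _ ?_
      rw [Finset.mem_range] at hi
      by_cases h2 : i = w - 2
      · simp only [h2, if_true]
        exact hMd
      · simp only [h2, if_false, sub_zero]
        exact hM i (by omega)
    refine h1.congr' ?_
    filter_upwards [eventually_ge_atTop (0 : ℝ)] with Y hY
    rw [B06e_exp w hw hh u v Y hY]
    have e1 : w - 1 = w - 2 + 1 := by omega
    rw [e1, Finset.sum_range_succ, Finset.sum_range_succ]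
    simp only [if_true, Nat.choose_self, Nat.cast_one, one_mul, Nat.sub_self, pow_zero, mul_one]
    have e2 : ∀ i ∈ Finset.range (w - 2), ((w - 2).choose i : ℝ) * u ^ i * v ^ (w - 2 - i) *
        ((∫ x in (0 : ℝ)..Y, x ^ i * L w h x) - if i = w - 2 then mu w h * Real.log Y else 0) =
        ((w - 2).choose i : ℝ) * u ^ i * v ^ (w - 2 - i) * ∫ x in (0 : ℝ)..Y, x ^ i * L w h x := by
      intro i hi
      rw [Finset.mem_range] at hi
      rw [if_neg (by omega), sub_zero]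
    rw [Finset.sum_congr rfl e2]
    ring
  · obtain ⟨q, hq⟩ := moment_even w hw hodd hh i hi hev
    refine ⟨q, ?_⟩
    have h1 : i ≠ w - 2 := by omega
    simp only [h1, if_false]
    exact tendsto_nhds_unique (hM i hi) hq

end Pool.MP0eb725
end

section

set_option autoImplicit false

open MeasureTheory Filter

namespace Pool.MP0eb725

/-- (A9) -/
theorem parity (w : ℕ) (hw : 3 ≤ w) (hodd : Odd w) {h : Fn} (hh : Ty1 h) (u v : ℚ) :
    Eqv w (ereg w h u (-v)) (ereg w h u v) := by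
  obtain ⟨e, he, hq⟩ := ereg_coeff w hw hodd hh
  have h1 : ∀ i, ∃ q : ℚ, Even i → i + 3 ≤ w → e i = q * (Real.sqrt 3 * Real.pi ^ w) := by
    intro i
    by_cases h2 : Even i ∧ i + 3 ≤ w
    · obtain ⟨q, h3⟩ := hq i h2.1 h2.2
      exact ⟨q, fun _ _ => h3⟩
    · exact ⟨0, fun h3 h4 => absurd ⟨h3, h4⟩ h2⟩
  choose q hq' using h1
  refine ⟨∑ i ∈ Finset.range (w - 1), ((w - 2).choose i : ℚ) * u ^ i *
    ((-v) ^ (w - 2 - i) - v ^ (w - 2 - i)) * q i, ?_⟩
  rw [he, he, ← Finset.sum_sub_distrib]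
  push_cast
  rw [Finset.sum_mul]
  refine Finset.sum_congr rfl fun i hi => ?_
  rw [Finset.mem_range] at hi
  rcases Nat.even_or_odd i with h2 | h2
  · have h3 : i + 3 ≤ w := by
      obtain ⟨a, ha⟩ := h2
      obtain ⟨b, hb⟩ := hodd
      omega
    rw [hq' i h2 h3]
    ring
  · have h3 : Even (w - 2 - i) := by
      obtain ⟨a, ha⟩ := h2
      obtain ⟨b, hb⟩ := hodd
      exact ⟨b - 1 - a, by omega⟩
    rw [h3.neg_pow, sub_self, sub_self]
    ring

end Pool.MP0eb725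
end

section

end
end
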