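import Mathlib
import Pool.Agent.Lib.MP_0eb725_nt.AlgDefs
import Pool.Agent.Lib.MP_0eb725_nt.B06_Parity

section

section

set_option autoImplicit false

namespace Pool.MP0eb725

/-- 2-adic descent. Proof: let `D ≠ 0` be a common denominator of the `a i`; the integer vector `D a` satisfies `R`.
By induction on `k`: every integer vector satisfying `R` has all entries divisible by `2 ^ k` (if all entries are
even, the vector divided by 2 satisfies `R` too by `hs` with `c = 1/2`).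
So all entries of `D a` are divisible by all powers of 2, hence are 0. -/
theorem descent {ι : Type*} [Finite ι] (R : (ι → ℚ) → Prop)
    (hs : ∀ (c : ℚ) (a : ι → ℚ), R a → R (fun i => c * a i))
    (he : ∀ a : ι → ℤ, R (fun i => (a i : ℚ)) → ∀ i, (2 : ℤ) ∣ a i)
    (a : ι → ℚ) (ha : R a) : ∀ i, a i = 0 := by
  classical
  have key : ∀ k : ℕ, ∀ b : ι → ℤ, R (fun i => (b i : ℚ)) → ∀ i, (2 : ℤ) ^ k ∣ b i := by
    intro k
    induction k with
    | zero => intro b _ i; simp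
    | succ k ih =>
      intro b hb i
      choose c hc using he b hb
      have h1 : R (fun i => ((c i : ℤ) : ℚ)) := by
        have h2 := hs (1 / 2) _ hb
        have h3 : (fun i => (1 / 2 : ℚ) * (b i : ℚ)) = fun i => ((c i : ℤ) : ℚ) := by
          funext i
          rw [hc i]
          push_cast
          ring
        rwa [h3] at h2
      have h4 := ih c h1 i
      rw [hc i, pow_succ, mul_comm]
      exact mul_dvd_mul (dvd_refl _) h4
  have hzero : ∀ b : ι → ℤ, R (fun i => (b i : ℚ)) → ∀ i, b i = 0 := by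
    intro b hb i
    have h1 := key (b i).natAbs b hb i
    refine Int.eq_zero_of_abs_lt_dvd h1 ?_
    have h2 : ((b i).natAbs : ℤ) < 2 ^ (b i).natAbs := by
      exact_mod_cast (Nat.lt_two_pow_self (n := (b i).natAbs))
    rwa [Int.natCast_natAbs] at h2
  cases nonempty_fintype ι
  obtain ⟨D, hD⟩ : ∃ D : ℕ, D = ∏ i, (a i).den := ⟨_, rfl⟩
  have hD0 : (D : ℚ) ≠ 0 := by
    have : D ≠ 0 := by
      rw [hD]
      exact Finset.prod_ne_zero_iff.2 fun i _ => (a i).den_ne_zero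
    exact_mod_cast this
  have hint : ∀ i, ∃ z : ℤ, (z : ℚ) = (D : ℚ) * a i := by
    intro i
    obtain ⟨m, hm⟩ : (a i).den ∣ D := by
      rw [hD]
      exact Finset.dvd_prod_of_mem (fun i => (a i).den) (Finset.mem_univ i)
    refine ⟨m * (a i).num, ?_⟩
    have h1 := Rat.mul_den_eq_num (a i)
    rw [hm]
    push_cast
    rw [← h1]
    ring
  choose b hb using hint
  have hRb : R (fun i => (b i : ℚ)) := by
    have h2 := hs (D : ℚ) a ha
    have h3 : (fun i => (D : ℚ) * a i) = fun i => (b i : ℚ) := by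
      funext i
      rw [hb i]
    rwa [h3] at h2
  intro i
  have h1 := hzero b hRb i
  have h2 := hb i
  rw [h1, Int.cast_zero] at h2
  rcases mul_eq_zero.1 h2.symm with h3 | h3
  · exact absurd h3 hD0
  · exact h3

end Pool.MP0eb725
end

section

set_option autoImplicit false

namespace Pool.MP0eb725

open MvPolynomial in
/-- An integral polynomial in two variables vanishing on all integer points is zero
(`MvPolynomial.funext`), hence vanishes at all points of all commutative rings. -/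
theorem poly_transfer (P : MvPolynomial (Fin 2) ℤ)
    (h : ∀ u v : ℤ, (aeval ![u, v] P : ℤ) = 0) {A : Type*} [CommRing A] (x y : A) :
    (aeval ![x, y] P : A) = 0 := by
  have h0 : P = 0 := by
    apply MvPolynomial.funext
    intro x
    have h1 := h (x 0) (x 1)
    have h2 : (![x 0, x 1] : Fin 2 → ℤ) = x := by
      funext i
      fin_cases i <;> rfl
    rw [h2] at h1
    rw [map_zero, ← h1]
    rfl
  rw [h0, map_zero]

theorem fm_map {A B : Type*} [CommRing A] [CommRing B] (φ : A →+* B) (d : ℕ) (a : ℕ → A) (x y : A) :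
    φ (fm d a x y) = fm d (fun i => φ (a i)) (φ x) (φ y) := by
  simp only [fm, map_sum, map_mul, map_pow]

theorem fo_map {A B : Type*} [CommRing A] [CommRing B] (φ : A →+* B) (K : ℕ) (a : ℕ → A) (x y : A) :
    φ (fo K a x y) = fo K (fun i => φ (a i)) (φ x) (φ y) := by
  simp only [fo, map_sum, map_mul, map_pow]

open Polynomial in
theorem A03_fm_coeff {n : ℕ} (d : ℕ) (a : ℕ → ℤ) (i : ℕ) (hi : i ≤ d) :
    (fm d (fun j => ((a j : ℤ) : (ZMod n)[X])) X 1).coeff i = ((a i : ℤ) : ZMod n) := by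
  unfold fm
  rw [Polynomial.finsetSum_coeff, Finset.sum_eq_single i]
  · simp only [one_pow, mul_one]
    rw [← Polynomial.C_eq_intCast, Polynomial.coeff_C_mul, Polynomial.coeff_X_pow, if_pos rfl,
      mul_one]
  · intro b _ hb
    simp only [one_pow, mul_one]
    rw [← Polynomial.C_eq_intCast, Polynomial.coeff_C_mul, Polynomial.coeff_X_pow,
      if_neg (Ne.symm hb), mul_zero]
  · intro h
    exact absurd (Finset.mem_range.mpr (Nat.lt_succ_of_le hi)) h

open Polynomial in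
theorem A03_fo_coeff {n : ℕ} (K : ℕ) (b : ℕ → ℤ) (j : ℕ) (hj : j < K) :
    (fo K (fun j => ((b j : ℤ) : (ZMod n)[X])) X 1).coeff (2 * j + 1) = ((b j : ℤ) : ZMod n) := by
  unfold fo
  rw [Polynomial.finsetSum_coeff, Finset.sum_eq_single j]
  · simp only [one_pow, mul_one]
    rw [← Polynomial.C_eq_intCast, Polynomial.coeff_C_mul, Polynomial.coeff_X_pow, if_pos rfl,
      mul_one]
  · intro c _ hc
    simp only [one_pow, mul_one]
    rw [← Polynomial.C_eq_intCast, Polynomial.coeff_C_mul, Polynomial.coeff_X_pow,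
      if_neg (by omega), mul_zero]
  · intro h
    exact absurd (Finset.mem_range.mpr hj) h

open Polynomial in
/-- if `fo K b X 1 = 0` in `(ZMod 2)[X]` then the integers `b j`, `j < K`, are even -/
theorem fo_even (K : ℕ) (b : ℕ → ℤ)
    (h : fo K (fun j => ((b j : ℤ) : (ZMod 2)[X])) X 1 = 0) : ∀ j < K, (2 : ℤ) ∣ b j := by
  intro j hj
  have h1 := A03_fo_coeff (n := 2) K b j hj
  rw [h, Polynomial.coeff_zero] at h1
  exact_mod_cast (ZMod.intCast_zmod_eq_zero_iff_dvd (b j) 2).mp h1.symm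

open Polynomial in
/-- if `fm d a X 1 = 0` in `(ZMod 2)[X]` then the integers `a i`, `i ≤ d`, are even -/
theorem fm_even (d : ℕ) (a : ℕ → ℤ)
    (h : fm d (fun j => ((a j : ℤ) : (ZMod 2)[X])) X 1 = 0) : ∀ i ≤ d, (2 : ℤ) ∣ a i := by
  intro i hi
  have h1 := A03_fm_coeff (n := 2) d a i hi
  rw [h, Polynomial.coeff_zero] at h1
  exact_mod_cast (ZMod.intCast_zmod_eq_zero_iff_dvd (a i) 2).mp h1.symm

open Polynomial in
/-- if `2 * fm d a X 1 = 0` in `(ZMod 4)[X]` then the integers `a i`, `i ≤ d`, are even -/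
theorem fm_even4 (d : ℕ) (a : ℕ → ℤ)
    (h : 2 * fm d (fun j => ((a j : ℤ) : (ZMod 4)[X])) X 1 = 0) : ∀ i ≤ d, (2 : ℤ) ∣ a i := by
  intro i hi
  have h1 := A03_fm_coeff (n := 4) d a i hi
  have h2 : ((2 * a i : ℤ) : ZMod 4) = 0 := by
    push_cast
    rw [← h1, ← Polynomial.coeff_C_mul]
    have h3 : (C (2 : ZMod 4)) = (2 : (ZMod 4)[X]) := rfl
    rw [h3, h, Polynomial.coeff_zero]
  have h3 : (4 : ℤ) ∣ 2 * a i := by
    exact_mod_cast (ZMod.intCast_zmod_eq_zero_iff_dvd (2 * a i) 4).mp h2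
  omega

end Pool.MP0eb725
end

section

end

section

end
end

section

section

set_option autoImplicit false

namespace Pool.MP0eb725

theorem A06a_zero {B : ℚ → ℚ → ℚ} (hB : OE B) (y : ℚ) : B 0 y = 0 := by
  have h := hB.1 0 y
  rw [neg_zero] at h
  linarith

theorem A06a_one {B : ℚ → ℚ → ℚ} (hB : OE B) (s1 s2 x' y' x y : ℚ) (h1 : s1 = 1 ∨ s1 = -1)
    (h2 : s2 = 1 ∨ s2 = -1) (hx : x = s1 * x') (hy : y = s2 * y') : B x y = s1 * B x' y' := by
  subst hx hy
  have h3 : B (s1 * x') (s2 * y') = B (s1 * x') y' := by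
    rcases h2 with rfl | rfl
    · rw [one_mul]
    · rw [neg_one_mul, hB.2]
  rw [h3]
  rcases h1 with rfl | rfl
  · rw [one_mul, one_mul]
  · rw [neg_one_mul, hB.1, neg_one_mul]

theorem A06a_two {d : ℕ} {B : ℚ → ℚ → ℚ} (hB : OE B) (hBh : Hom d B) (s1 s2 c x' y' x y : ℚ)
    (h1 : s1 = 1 ∨ s1 = -1) (h2 : s2 = 1 ∨ s2 = -1) (hx : x = s1 * (c * x')) (hy : y = s2 * (c * y')) :
    B x y = s1 * c ^ d * B x' y' := by
  rw [A06a_one hB s1 s2 (c * x') (c * y') x y h1 h2 hx hy, hBh]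
  ring

theorem A06a_pow (K : ℕ) (hK : 1 ≤ K) (s1 c x' x : ℚ) (h1 : s1 = 1 ∨ s1 = -1)
    (hx : x = s1 * (c * x')) : x ^ (2 * K - 1) = s1 * c ^ (2 * K - 1) * x' ^ (2 * K - 1) := by
  have hodd : Odd (2 * K - 1) := ⟨K - 1, by omega⟩
  subst hx
  rw [mul_pow, mul_pow]
  rcases h1 with rfl | rfl
  · rw [one_pow]; ring
  · rw [hodd.neg_one_pow]; ring


/-! Explicit solutions.  All statements are polynomial identities in the values of `B`, `Q`: unfold `Ec, Ea, Eb`,
rewrite the arguments by parity (`hB, hQ`) and homogeneity (`hBh, hQh` with `c = 2`), then `ring`/`linear_combination`.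
(The identities were tested numerically.)  Tip: normalise every term to `B x y` with `x, y` among
`u, v, u+v, u-v` (up to factors 2) and sign. -/

theorem E_sym_a (W : ℚ) (d : ℕ) (B Q : ℚ → ℚ → ℚ) (k : ℚ) (hB : OE B) (hQ : OE Q) (u v : ℚ) :
    Ea W d B Q k v u = - Ea W d B Q k u v := by
  unfold Ea
  have h0 : Q v u = 1 * Q (0 * u + 1 * v) (1 * u + 0 * v) :=
    A06a_one hQ 1 1 _ _ _ _ (by norm_num) (by norm_num) (by ring) (by ring)
  have h1 : Q u v = 1 * Q (1 * u + 0 * v) (0 * u + 1 * v) :=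
    A06a_one hQ 1 1 _ _ _ _ (by norm_num) (by norm_num) (by ring) (by ring)
  have h2 : Q v (2 * u) = 1 * Q (0 * u + 1 * v) (2 * u + 0 * v) :=
    A06a_one hQ 1 1 _ _ _ _ (by norm_num) (by norm_num) (by ring) (by ring)
  have h3 : Q (2 * u) v = 1 * Q (2 * u + 0 * v) (0 * u + 1 * v) :=
    A06a_one hQ 1 1 _ _ _ _ (by norm_num) (by norm_num) (by ring) (by ring)
  have h4 : Q (2 * v) u = 1 * Q (0 * u + 2 * v) (1 * u + 0 * v) :=
    A06a_one hQ 1 1 _ _ _ _ (by norm_num) (by norm_num) (by ring) (by ring)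
  have h5 : Q u (2 * v) = 1 * Q (1 * u + 0 * v) (0 * u + 2 * v) :=
    A06a_one hQ 1 1 _ _ _ _ (by norm_num) (by norm_num) (by ring) (by ring)
  have h6 : B (2 * u) (v - u) = 1 * B (2 * u + 0 * v) (1 * u + (-1) * v) :=
    A06a_one hB 1 (-1) _ _ _ _ (by norm_num) (by norm_num) (by ring) (by ring)
  have h7 : B u (v - u) = 1 * B (1 * u + 0 * v) (1 * u + (-1) * v) :=
    A06a_one hB 1 (-1) _ _ _ _ (by norm_num) (by norm_num) (by ring) (by ring)
  have h8 : B (2 * v) (v - u) = 1 * B (0 * u + 2 * v) (1 * u + (-1) * v) :=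
    A06a_one hB 1 (-1) _ _ _ _ (by norm_num) (by norm_num) (by ring) (by ring)
  have h9 : B v (v - u) = 1 * B (0 * u + 1 * v) (1 * u + (-1) * v) :=
    A06a_one hB 1 (-1) _ _ _ _ (by norm_num) (by norm_num) (by ring) (by ring)
  have h12 : B (2 * v) (u - v) = 1 * B (0 * u + 2 * v) (1 * u + (-1) * v) :=
    A06a_one hB 1 1 _ _ _ _ (by norm_num) (by norm_num) (by ring) (by ring)
  have h13 : B v (u - v) = 1 * B (0 * u + 1 * v) (1 * u + (-1) * v) :=
    A06a_one hB 1 1 _ _ _ _ (by norm_num) (by norm_num) (by ring) (by ring)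
  have h14 : B (2 * u) (u - v) = 1 * B (2 * u + 0 * v) (1 * u + (-1) * v) :=
    A06a_one hB 1 1 _ _ _ _ (by norm_num) (by norm_num) (by ring) (by ring)
  have h15 : B u (u - v) = 1 * B (1 * u + 0 * v) (1 * u + (-1) * v) :=
    A06a_one hB 1 1 _ _ _ _ (by norm_num) (by norm_num) (by ring) (by ring)
  rw [h0, h1, h2, h3, h4, h5, h6, h7, h8, h9, h12, h13, h14, h15]
  ring

theorem E_sym_b (W : ℚ) (d : ℕ) (Q : ℚ → ℚ → ℚ) (k : ℚ) (hQ : OE Q) (u v : ℚ) :
    Eb W d Q k v u = Eb W d Q k u v := by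
  unfold Eb
  have h0 : Q v u = 1 * Q (0 * u + 1 * v) (1 * u + 0 * v) :=
    A06a_one hQ 1 1 _ _ _ _ (by norm_num) (by norm_num) (by ring) (by ring)
  have h1 : Q u v = 1 * Q (1 * u + 0 * v) (0 * u + 1 * v) :=
    A06a_one hQ 1 1 _ _ _ _ (by norm_num) (by norm_num) (by ring) (by ring)
  have h2 : Q v (2 * u) = 1 * Q (0 * u + 1 * v) (2 * u + 0 * v) :=
    A06a_one hQ 1 1 _ _ _ _ (by norm_num) (by norm_num) (by ring) (by ring)
  have h3 : Q (2 * u) v = 1 * Q (2 * u + 0 * v) (0 * u + 1 * v) :=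
    A06a_one hQ 1 1 _ _ _ _ (by norm_num) (by norm_num) (by ring) (by ring)
  have h4 : Q (2 * v) u = 1 * Q (0 * u + 2 * v) (1 * u + 0 * v) :=
    A06a_one hQ 1 1 _ _ _ _ (by norm_num) (by norm_num) (by ring) (by ring)
  have h5 : Q u (2 * v) = 1 * Q (1 * u + 0 * v) (0 * u + 2 * v) :=
    A06a_one hQ 1 1 _ _ _ _ (by norm_num) (by norm_num) (by ring) (by ring)
  have h6 : Q (2 * u) (v - u) = 1 * Q (2 * u + 0 * v) (1 * u + (-1) * v) :=
    A06a_one hQ 1 (-1) _ _ _ _ (by norm_num) (by norm_num) (by ring) (by ring)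
  have h7 : Q (v - u) (2 * u) = (-1) * Q (1 * u + (-1) * v) (2 * u + 0 * v) :=
    A06a_one hQ (-1) 1 _ _ _ _ (by norm_num) (by norm_num) (by ring) (by ring)
  have h8 : Q u (v - u) = 1 * Q (1 * u + 0 * v) (1 * u + (-1) * v) :=
    A06a_one hQ 1 (-1) _ _ _ _ (by norm_num) (by norm_num) (by ring) (by ring)
  have h9 : Q (v - u) u = (-1) * Q (1 * u + (-1) * v) (1 * u + 0 * v) :=
    A06a_one hQ (-1) 1 _ _ _ _ (by norm_num) (by norm_num) (by ring) (by ring)
  have h10 : Q (v - u) (2 * v) = (-1) * Q (1 * u + (-1) * v) (0 * u + 2 * v) :=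
    A06a_one hQ (-1) 1 _ _ _ _ (by norm_num) (by norm_num) (by ring) (by ring)
  have h11 : Q (2 * v) (v - u) = 1 * Q (0 * u + 2 * v) (1 * u + (-1) * v) :=
    A06a_one hQ 1 (-1) _ _ _ _ (by norm_num) (by norm_num) (by ring) (by ring)
  have h12 : Q (v - u) v = (-1) * Q (1 * u + (-1) * v) (0 * u + 1 * v) :=
    A06a_one hQ (-1) 1 _ _ _ _ (by norm_num) (by norm_num) (by ring) (by ring)
  have h13 : Q v (v - u) = 1 * Q (0 * u + 1 * v) (1 * u + (-1) * v) :=
    A06a_one hQ 1 (-1) _ _ _ _ (by norm_num) (by norm_num) (by ring) (by ring)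
  have h16 : Q (2 * v) (u - v) = 1 * Q (0 * u + 2 * v) (1 * u + (-1) * v) :=
    A06a_one hQ 1 1 _ _ _ _ (by norm_num) (by norm_num) (by ring) (by ring)
  have h17 : Q (u - v) (2 * v) = 1 * Q (1 * u + (-1) * v) (0 * u + 2 * v) :=
    A06a_one hQ 1 1 _ _ _ _ (by norm_num) (by norm_num) (by ring) (by ring)
  have h18 : Q v (u - v) = 1 * Q (0 * u + 1 * v) (1 * u + (-1) * v) :=
    A06a_one hQ 1 1 _ _ _ _ (by norm_num) (by norm_num) (by ring) (by ring)
  have h19 : Q (u - v) v = 1 * Q (1 * u + (-1) * v) (0 * u + 1 * v) :=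
    A06a_one hQ 1 1 _ _ _ _ (by norm_num) (by norm_num) (by ring) (by ring)
  have h20 : Q (u - v) (2 * u) = 1 * Q (1 * u + (-1) * v) (2 * u + 0 * v) :=
    A06a_one hQ 1 1 _ _ _ _ (by norm_num) (by norm_num) (by ring) (by ring)
  have h21 : Q (2 * u) (u - v) = 1 * Q (2 * u + 0 * v) (1 * u + (-1) * v) :=
    A06a_one hQ 1 1 _ _ _ _ (by norm_num) (by norm_num) (by ring) (by ring)
  have h22 : Q (u - v) u = 1 * Q (1 * u + (-1) * v) (1 * u + 0 * v) :=
    A06a_one hQ 1 1 _ _ _ _ (by norm_num) (by norm_num) (by ring) (by ring)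
  have h23 : Q u (u - v) = 1 * Q (1 * u + 0 * v) (1 * u + (-1) * v) :=
    A06a_one hQ 1 1 _ _ _ _ (by norm_num) (by norm_num) (by ring) (by ring)
  rw [h0, h1, h2, h3, h4, h5, h6, h7, h8, h9, h10, h11, h12, h13, h16, h17, h18, h19, h20, h21, h22, h23]
  ring

/-- sum over the orbit of `U`, component `b` -/
theorem E_Nb (K : ℕ) (hK : 1 ≤ K) (Q : ℚ → ℚ → ℚ) (k : ℚ) (hQ : OE Q)
    (hQh : Hom (2 * K - 1) Q) (u v : ℚ) :
    Eb (2 ^ (2 * K + 1)) (2 * K - 1) Q k u v + Eb (2 ^ (2 * K + 1)) (2 * K - 1) Q k (-v) (u - v)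
      + Eb (2 ^ (2 * K + 1)) (2 * K - 1) Q k (v - u) (-u) = (2 ^ (2 * K + 1) + 1) * Xb Q u v := by
  unfold Eb Xb
  have h0 : Q u v = 1 * Q (1 * u + 0 * v) (0 * u + 1 * v) :=
    A06a_one hQ 1 1 _ _ _ _ (by norm_num) (by norm_num) (by ring) (by ring)
  have h1 : Q v u = 1 * Q (0 * u + 1 * v) (1 * u + 0 * v) :=
    A06a_one hQ 1 1 _ _ _ _ (by norm_num) (by norm_num) (by ring) (by ring)
  have h2 : Q u (2 * v) = 1 * Q (1 * u + 0 * v) (0 * u + 2 * v) :=
    A06a_one hQ 1 1 _ _ _ _ (by norm_num) (by norm_num) (by ring) (by ring)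
  have h3 : Q (2 * v) u = 1 * Q (0 * u + 2 * v) (1 * u + 0 * v) :=
    A06a_one hQ 1 1 _ _ _ _ (by norm_num) (by norm_num) (by ring) (by ring)
  have h4 : Q (2 * u) v = 1 * Q (2 * u + 0 * v) (0 * u + 1 * v) :=
    A06a_one hQ 1 1 _ _ _ _ (by norm_num) (by norm_num) (by ring) (by ring)
  have h5 : Q v (2 * u) = 1 * Q (0 * u + 1 * v) (2 * u + 0 * v) :=
    A06a_one hQ 1 1 _ _ _ _ (by norm_num) (by norm_num) (by ring) (by ring)
  have h6 : Q (2 * v) (u - v) = 1 * Q (0 * u + 2 * v) (1 * u + (-1) * v) :=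
    A06a_one hQ 1 1 _ _ _ _ (by norm_num) (by norm_num) (by ring) (by ring)
  have h7 : Q (u - v) (2 * v) = 1 * Q (1 * u + (-1) * v) (0 * u + 2 * v) :=
    A06a_one hQ 1 1 _ _ _ _ (by norm_num) (by norm_num) (by ring) (by ring)
  have h8 : Q v (u - v) = 1 * Q (0 * u + 1 * v) (1 * u + (-1) * v) :=
    A06a_one hQ 1 1 _ _ _ _ (by norm_num) (by norm_num) (by ring) (by ring)
  have h9 : Q (u - v) v = 1 * Q (1 * u + (-1) * v) (0 * u + 1 * v) :=
    A06a_one hQ 1 1 _ _ _ _ (by norm_num) (by norm_num) (by ring) (by ring)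
  have h10 : Q (u - v) (2 * u) = 1 * Q (1 * u + (-1) * v) (2 * u + 0 * v) :=
    A06a_one hQ 1 1 _ _ _ _ (by norm_num) (by norm_num) (by ring) (by ring)
  have h11 : Q (2 * u) (u - v) = 1 * Q (2 * u + 0 * v) (1 * u + (-1) * v) :=
    A06a_one hQ 1 1 _ _ _ _ (by norm_num) (by norm_num) (by ring) (by ring)
  have h12 : Q (u - v) u = 1 * Q (1 * u + (-1) * v) (1 * u + 0 * v) :=
    A06a_one hQ 1 1 _ _ _ _ (by norm_num) (by norm_num) (by ring) (by ring)
  have h13 : Q u (u - v) = 1 * Q (1 * u + 0 * v) (1 * u + (-1) * v) :=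
    A06a_one hQ 1 1 _ _ _ _ (by norm_num) (by norm_num) (by ring) (by ring)
  have h14 : u ^ (2 * K - 1) = 1 * 1 ^ (2 * K - 1) * (1 * u + 0 * v) ^ (2 * K - 1) :=
    A06a_pow K hK 1 1 _ _ (by norm_num) (by ring)
  have h15 : v ^ (2 * K - 1) = 1 * 1 ^ (2 * K - 1) * (0 * u + 1 * v) ^ (2 * K - 1) :=
    A06a_pow K hK 1 1 _ _ (by norm_num) (by ring)
  have h16 : Q (-v) (u - v) = (-1) * Q (0 * u + 1 * v) (1 * u + (-1) * v) :=
    A06a_one hQ (-1) 1 _ _ _ _ (by norm_num) (by norm_num) (by ring) (by ring)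
  have h17 : Q (u - v) (-v) = 1 * Q (1 * u + (-1) * v) (0 * u + 1 * v) :=
    A06a_one hQ 1 (-1) _ _ _ _ (by norm_num) (by norm_num) (by ring) (by ring)
  have h18 : Q (-v) (2 * (u - v)) = (-1) * Q (0 * u + 1 * v) (2 * u + (-2) * v) :=
    A06a_one hQ (-1) 1 _ _ _ _ (by norm_num) (by norm_num) (by ring) (by ring)
  have h19 : Q (2 * (u - v)) (-v) = 1 * Q (2 * u + (-2) * v) (0 * u + 1 * v) :=
    A06a_one hQ 1 (-1) _ _ _ _ (by norm_num) (by norm_num) (by ring) (by ring)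
  have h20 : Q (2 * (-v)) (u - v) = (-1) * Q (0 * u + 2 * v) (1 * u + (-1) * v) :=
    A06a_one hQ (-1) 1 _ _ _ _ (by norm_num) (by norm_num) (by ring) (by ring)
  have h21 : Q (u - v) (2 * (-v)) = 1 * Q (1 * u + (-1) * v) (0 * u + 2 * v) :=
    A06a_one hQ 1 (-1) _ _ _ _ (by norm_num) (by norm_num) (by ring) (by ring)
  have h22 : Q (2 * (u - v)) ((-v) - (u - v)) = 1 * Q (2 * u + (-2) * v) (1 * u + 0 * v) :=
    A06a_one hQ 1 (-1) _ _ _ _ (by norm_num) (by norm_num) (by ring) (by ring)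
  have h23 : Q ((-v) - (u - v)) (2 * (u - v)) = (-1) * Q (1 * u + 0 * v) (2 * u + (-2) * v) :=
    A06a_one hQ (-1) 1 _ _ _ _ (by norm_num) (by norm_num) (by ring) (by ring)
  have h24 : Q (u - v) ((-v) - (u - v)) = 1 * Q (1 * u + (-1) * v) (1 * u + 0 * v) :=
    A06a_one hQ 1 (-1) _ _ _ _ (by norm_num) (by norm_num) (by ring) (by ring)
  have h25 : Q ((-v) - (u - v)) (u - v) = (-1) * Q (1 * u + 0 * v) (1 * u + (-1) * v) :=
    A06a_one hQ (-1) 1 _ _ _ _ (by norm_num) (by norm_num) (by ring) (by ring)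
  have h26 : Q ((-v) - (u - v)) (2 * (-v)) = (-1) * Q (1 * u + 0 * v) (0 * u + 2 * v) :=
    A06a_one hQ (-1) (-1) _ _ _ _ (by norm_num) (by norm_num) (by ring) (by ring)
  have h27 : Q (2 * (-v)) ((-v) - (u - v)) = (-1) * Q (0 * u + 2 * v) (1 * u + 0 * v) :=
    A06a_one hQ (-1) (-1) _ _ _ _ (by norm_num) (by norm_num) (by ring) (by ring)
  have h28 : Q ((-v) - (u - v)) (-v) = (-1) * Q (1 * u + 0 * v) (0 * u + 1 * v) :=
    A06a_one hQ (-1) (-1) _ _ _ _ (by norm_num) (by norm_num) (by ring) (by ring)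
  have h29 : Q (-v) ((-v) - (u - v)) = (-1) * Q (0 * u + 1 * v) (1 * u + 0 * v) :=
    A06a_one hQ (-1) (-1) _ _ _ _ (by norm_num) (by norm_num) (by ring) (by ring)
  have h30 : (-v) ^ (2 * K - 1) = (-1) * 1 ^ (2 * K - 1) * (0 * u + 1 * v) ^ (2 * K - 1) :=
    A06a_pow K hK (-1) 1 _ _ (by norm_num) (by ring)
  have h31 : (u - v) ^ (2 * K - 1) = 1 * 1 ^ (2 * K - 1) * (1 * u + (-1) * v) ^ (2 * K - 1) :=
    A06a_pow K hK 1 1 _ _ (by norm_num) (by ring)
  have h32 : Q (v - u) (-u) = (-1) * Q (1 * u + (-1) * v) (1 * u + 0 * v) :=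
    A06a_one hQ (-1) (-1) _ _ _ _ (by norm_num) (by norm_num) (by ring) (by ring)
  have h33 : Q (-u) (v - u) = (-1) * Q (1 * u + 0 * v) (1 * u + (-1) * v) :=
    A06a_one hQ (-1) (-1) _ _ _ _ (by norm_num) (by norm_num) (by ring) (by ring)
  have h34 : Q (v - u) (2 * (-u)) = (-1) * Q (1 * u + (-1) * v) (2 * u + 0 * v) :=
    A06a_one hQ (-1) (-1) _ _ _ _ (by norm_num) (by norm_num) (by ring) (by ring)
  have h35 : Q (2 * (-u)) (v - u) = (-1) * Q (2 * u + 0 * v) (1 * u + (-1) * v) :=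
    A06a_one hQ (-1) (-1) _ _ _ _ (by norm_num) (by norm_num) (by ring) (by ring)
  have h36 : Q (2 * (v - u)) (-u) = (-1) * Q (2 * u + (-2) * v) (1 * u + 0 * v) :=
    A06a_one hQ (-1) (-1) _ _ _ _ (by norm_num) (by norm_num) (by ring) (by ring)
  have h37 : Q (-u) (2 * (v - u)) = (-1) * Q (1 * u + 0 * v) (2 * u + (-2) * v) :=
    A06a_one hQ (-1) (-1) _ _ _ _ (by norm_num) (by norm_num) (by ring) (by ring)
  have h38 : Q (2 * (-u)) ((v - u) - (-u)) = (-1) * Q (2 * u + 0 * v) (0 * u + 1 * v) :=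
    A06a_one hQ (-1) 1 _ _ _ _ (by norm_num) (by norm_num) (by ring) (by ring)
  have h39 : Q ((v - u) - (-u)) (2 * (-u)) = 1 * Q (0 * u + 1 * v) (2 * u + 0 * v) :=
    A06a_one hQ 1 (-1) _ _ _ _ (by norm_num) (by norm_num) (by ring) (by ring)
  have h40 : Q (-u) ((v - u) - (-u)) = (-1) * Q (1 * u + 0 * v) (0 * u + 1 * v) :=
    A06a_one hQ (-1) 1 _ _ _ _ (by norm_num) (by norm_num) (by ring) (by ring)
  have h41 : Q ((v - u) - (-u)) (-u) = 1 * Q (0 * u + 1 * v) (1 * u + 0 * v) :=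
    A06a_one hQ 1 (-1) _ _ _ _ (by norm_num) (by norm_num) (by ring) (by ring)
  have h42 : Q ((v - u) - (-u)) (2 * (v - u)) = 1 * Q (0 * u + 1 * v) (2 * u + (-2) * v) :=
    A06a_one hQ 1 (-1) _ _ _ _ (by norm_num) (by norm_num) (by ring) (by ring)
  have h43 : Q (2 * (v - u)) ((v - u) - (-u)) = (-1) * Q (2 * u + (-2) * v) (0 * u + 1 * v) :=
    A06a_one hQ (-1) 1 _ _ _ _ (by norm_num) (by norm_num) (by ring) (by ring)
  have h44 : Q ((v - u) - (-u)) (v - u) = 1 * Q (0 * u + 1 * v) (1 * u + (-1) * v) :=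
    A06a_one hQ 1 (-1) _ _ _ _ (by norm_num) (by norm_num) (by ring) (by ring)
  have h45 : Q (v - u) ((v - u) - (-u)) = (-1) * Q (1 * u + (-1) * v) (0 * u + 1 * v) :=
    A06a_one hQ (-1) 1 _ _ _ _ (by norm_num) (by norm_num) (by ring) (by ring)
  have h46 : (v - u) ^ (2 * K - 1) = (-1) * 1 ^ (2 * K - 1) * (1 * u + (-1) * v) ^ (2 * K - 1) :=
    A06a_pow K hK (-1) 1 _ _ (by norm_num) (by ring)
  have h47 : (-u) ^ (2 * K - 1) = (-1) * 1 ^ (2 * K - 1) * (1 * u + 0 * v) ^ (2 * K - 1) :=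
    A06a_pow K hK (-1) 1 _ _ (by norm_num) (by ring)
  rw [h0, h1, h2, h3, h4, h5, h6, h7, h8, h9, h10, h11, h12, h13, h14, h15, h16, h17, h18, h19, h20, h21, h22, h23, h24, h25, h26, h27, h28, h29, h30, h31, h32, h33, h34, h35, h36, h37, h38, h39, h40, h41, h42, h43, h44, h45, h46, h47]
  have hW : (2 : ℚ) ^ (2 * K + 1) = 4 * 2 ^ (2 * K - 1) := by
    have e : 2 * K + 1 = (2 * K - 1) + 2 := by omega
    rw [e, pow_add]; ring
  rw [hW]
  simp only [one_pow]
  ring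

end Pool.MP0eb725
end

section

set_option autoImplicit false

namespace Pool.MP0eb725

theorem A06b_zero {B : ℚ → ℚ → ℚ} (hB : OE B) (y : ℚ) : B 0 y = 0 := by
  have h := hB.1 0 y
  rw [neg_zero] at h
  linarith

theorem A06b_one {B : ℚ → ℚ → ℚ} (hB : OE B) (s1 s2 x' y' x y : ℚ) (h1 : s1 = 1 ∨ s1 = -1)
    (h2 : s2 = 1 ∨ s2 = -1) (hx : x = s1 * x') (hy : y = s2 * y') : B x y = s1 * B x' y' := by
  subst hx hy
  have h3 : B (s1 * x') (s2 * y') = B (s1 * x') y' := by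
    rcases h2 with rfl | rfl
    · rw [one_mul]
    · rw [neg_one_mul, hB.2]
  rw [h3]
  rcases h1 with rfl | rfl
  · rw [one_mul, one_mul]
  · rw [neg_one_mul, hB.1, neg_one_mul]

theorem A06b_two {d : ℕ} {B : ℚ → ℚ → ℚ} (hB : OE B) (hBh : Hom d B) (s1 s2 c x' y' x y : ℚ)
    (h1 : s1 = 1 ∨ s1 = -1) (h2 : s2 = 1 ∨ s2 = -1) (hx : x = s1 * (c * x')) (hy : y = s2 * (c * y')) :
    B x y = s1 * c ^ d * B x' y' := by
  rw [A06b_one hB s1 s2 (c * x') (c * y') x y h1 h2 hx hy, hBh]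
  ring

theorem A06b_pow (K : ℕ) (hK : 1 ≤ K) (s1 c x' x : ℚ) (h1 : s1 = 1 ∨ s1 = -1)
    (hx : x = s1 * (c * x')) : x ^ (2 * K - 1) = s1 * c ^ (2 * K - 1) * x' ^ (2 * K - 1) := by
  have hodd : Odd (2 * K - 1) := ⟨K - 1, by omega⟩
  subst hx
  rw [mul_pow, mul_pow]
  rcases h1 with rfl | rfl
  · rw [one_pow]; ring
  · rw [hodd.neg_one_pow]; ring


/-! Explicit solutions.  All statements are polynomial identities in the values of `B`, `Q`: unfold `Ec, Ea, Eb`,
rewrite the arguments by parity (`hB, hQ`) and homogeneity (`hBh, hQh` with `c = 2`), then `ring`/`linear_combination`.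
(The identities were tested numerically.)  Tip: normalise every term to `B x y` with `x, y` among
`u, v, u+v, u-v` (up to factors 2) and sign. -/

theorem E_R2A (K : ℕ) (hK : 1 ≤ K) (B Q : ℚ → ℚ → ℚ) (k : ℚ) (hB : OE B) (hQ : OE Q)
    (hBh : Hom (2 * K - 1) B) (hQh : Hom (2 * K - 1) Q) :
    R2A (Ec (2 ^ (2 * K + 1)) (2 * K - 1) B Q k) (Ea (2 ^ (2 * K + 1)) (2 * K - 1) B Q k)
      (Eb (2 ^ (2 * K + 1)) (2 * K - 1) Q k) := by
  intro u v
  unfold Ec Ea Eb
  have h0 : B (u + v) v = 1 * B (1 * u + 1 * v) (0 * u + 1 * v) :=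
    A06b_one hB 1 1 _ _ _ _ (by norm_num) (by norm_num) (by ring) (by ring)
  have h1 : B (u + v) (2 * v) = 1 * B (1 * u + 1 * v) (0 * u + 2 * v) :=
    A06b_one hB 1 1 _ _ _ _ (by norm_num) (by norm_num) (by ring) (by ring)
  have h2 : B (2 * (u + v)) v = 1 * B (2 * u + 2 * v) (0 * u + 1 * v) :=
    A06b_one hB 1 1 _ _ _ _ (by norm_num) (by norm_num) (by ring) (by ring)
  have h3 : B ((u + v) - v) (2 * v) = 1 * B (1 * u + 0 * v) (0 * u + 2 * v) :=
    A06b_one hB 1 1 _ _ _ _ (by norm_num) (by norm_num) (by ring) (by ring)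
  have h4 : B ((u + v) - v) v = 1 * B (1 * u + 0 * v) (0 * u + 1 * v) :=
    A06b_one hB 1 1 _ _ _ _ (by norm_num) (by norm_num) (by ring) (by ring)
  have h5 : Q ((u + v) - v) (2 * (u + v)) = 1 * Q (1 * u + 0 * v) (2 * u + 2 * v) :=
    A06b_one hQ 1 1 _ _ _ _ (by norm_num) (by norm_num) (by ring) (by ring)
  have h6 : Q (2 * (u + v)) ((u + v) - v) = 1 * Q (2 * u + 2 * v) (1 * u + 0 * v) :=
    A06b_one hQ 1 1 _ _ _ _ (by norm_num) (by norm_num) (by ring) (by ring)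
  have h7 : Q ((u + v) - v) (u + v) = 1 * Q (1 * u + 0 * v) (1 * u + 1 * v) :=
    A06b_one hQ 1 1 _ _ _ _ (by norm_num) (by norm_num) (by ring) (by ring)
  have h8 : Q (u + v) ((u + v) - v) = 1 * Q (1 * u + 1 * v) (1 * u + 0 * v) :=
    A06b_one hQ 1 1 _ _ _ _ (by norm_num) (by norm_num) (by ring) (by ring)
  have h9 : (u + v) ^ (2 * K - 1) = 1 * 1 ^ (2 * K - 1) * (1 * u + 1 * v) ^ (2 * K - 1) :=
    A06b_pow K hK 1 1 _ _ (by norm_num) (by ring)
  have h10 : B (u - v) (-v) = 1 * B (1 * u + (-1) * v) (0 * u + 1 * v) :=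
    A06b_one hB 1 (-1) _ _ _ _ (by norm_num) (by norm_num) (by ring) (by ring)
  have h11 : B (u - v) (2 * (-v)) = 1 * B (1 * u + (-1) * v) (0 * u + 2 * v) :=
    A06b_one hB 1 (-1) _ _ _ _ (by norm_num) (by norm_num) (by ring) (by ring)
  have h12 : B (2 * (u - v)) (-v) = 1 * B (2 * u + (-2) * v) (0 * u + 1 * v) :=
    A06b_one hB 1 (-1) _ _ _ _ (by norm_num) (by norm_num) (by ring) (by ring)
  have h13 : B ((u - v) - (-v)) (2 * (-v)) = 1 * B (1 * u + 0 * v) (0 * u + 2 * v) :=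
    A06b_one hB 1 (-1) _ _ _ _ (by norm_num) (by norm_num) (by ring) (by ring)
  have h14 : B ((u - v) - (-v)) (-v) = 1 * B (1 * u + 0 * v) (0 * u + 1 * v) :=
    A06b_one hB 1 (-1) _ _ _ _ (by norm_num) (by norm_num) (by ring) (by ring)
  have h15 : Q ((u - v) - (-v)) (2 * (u - v)) = 1 * Q (1 * u + 0 * v) (2 * u + (-2) * v) :=
    A06b_one hQ 1 1 _ _ _ _ (by norm_num) (by norm_num) (by ring) (by ring)
  have h16 : Q (2 * (u - v)) ((u - v) - (-v)) = 1 * Q (2 * u + (-2) * v) (1 * u + 0 * v) :=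
    A06b_one hQ 1 1 _ _ _ _ (by norm_num) (by norm_num) (by ring) (by ring)
  have h17 : Q ((u - v) - (-v)) (u - v) = 1 * Q (1 * u + 0 * v) (1 * u + (-1) * v) :=
    A06b_one hQ 1 1 _ _ _ _ (by norm_num) (by norm_num) (by ring) (by ring)
  have h18 : Q (u - v) ((u - v) - (-v)) = 1 * Q (1 * u + (-1) * v) (1 * u + 0 * v) :=
    A06b_one hQ 1 1 _ _ _ _ (by norm_num) (by norm_num) (by ring) (by ring)
  have h19 : (u - v) ^ (2 * K - 1) = 1 * 1 ^ (2 * K - 1) * (1 * u + (-1) * v) ^ (2 * K - 1) :=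
    A06b_pow K hK 1 1 _ _ (by norm_num) (by ring)
  have h20 : Q u (u + v) = 1 * Q (1 * u + 0 * v) (1 * u + 1 * v) :=
    A06b_one hQ 1 1 _ _ _ _ (by norm_num) (by norm_num) (by ring) (by ring)
  have h21 : Q (u + v) u = 1 * Q (1 * u + 1 * v) (1 * u + 0 * v) :=
    A06b_one hQ 1 1 _ _ _ _ (by norm_num) (by norm_num) (by ring) (by ring)
  have h22 : Q u (2 * (u + v)) = 1 * Q (1 * u + 0 * v) (2 * u + 2 * v) :=
    A06b_one hQ 1 1 _ _ _ _ (by norm_num) (by norm_num) (by ring) (by ring)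
  have h23 : Q (2 * (u + v)) u = 1 * Q (2 * u + 2 * v) (1 * u + 0 * v) :=
    A06b_one hQ 1 1 _ _ _ _ (by norm_num) (by norm_num) (by ring) (by ring)
  have h24 : Q (2 * u) (u + v) = 1 * Q (2 * u + 0 * v) (1 * u + 1 * v) :=
    A06b_one hQ 1 1 _ _ _ _ (by norm_num) (by norm_num) (by ring) (by ring)
  have h25 : Q (u + v) (2 * u) = 1 * Q (1 * u + 1 * v) (2 * u + 0 * v) :=
    A06b_one hQ 1 1 _ _ _ _ (by norm_num) (by norm_num) (by ring) (by ring)
  have h26 : B (2 * (u + v)) (u - (u + v)) = 1 * B (2 * u + 2 * v) (0 * u + 1 * v) :=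
    A06b_one hB 1 (-1) _ _ _ _ (by norm_num) (by norm_num) (by ring) (by ring)
  have h27 : B (u + v) (u - (u + v)) = 1 * B (1 * u + 1 * v) (0 * u + 1 * v) :=
    A06b_one hB 1 (-1) _ _ _ _ (by norm_num) (by norm_num) (by ring) (by ring)
  have h28 : B (2 * u) (u - (u + v)) = 1 * B (2 * u + 0 * v) (0 * u + 1 * v) :=
    A06b_one hB 1 (-1) _ _ _ _ (by norm_num) (by norm_num) (by ring) (by ring)
  have h29 : B u (u - (u + v)) = 1 * B (1 * u + 0 * v) (0 * u + 1 * v) :=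
    A06b_one hB 1 (-1) _ _ _ _ (by norm_num) (by norm_num) (by ring) (by ring)
  have h30 : u ^ (2 * K - 1) = 1 * 1 ^ (2 * K - 1) * (1 * u + 0 * v) ^ (2 * K - 1) :=
    A06b_pow K hK 1 1 _ _ (by norm_num) (by ring)
  have h31 : Q u (u - v) = 1 * Q (1 * u + 0 * v) (1 * u + (-1) * v) :=
    A06b_one hQ 1 1 _ _ _ _ (by norm_num) (by norm_num) (by ring) (by ring)
  have h32 : Q (u - v) u = 1 * Q (1 * u + (-1) * v) (1 * u + 0 * v) :=
    A06b_one hQ 1 1 _ _ _ _ (by norm_num) (by norm_num) (by ring) (by ring)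
  have h33 : Q u (2 * (u - v)) = 1 * Q (1 * u + 0 * v) (2 * u + (-2) * v) :=
    A06b_one hQ 1 1 _ _ _ _ (by norm_num) (by norm_num) (by ring) (by ring)
  have h34 : Q (2 * (u - v)) u = 1 * Q (2 * u + (-2) * v) (1 * u + 0 * v) :=
    A06b_one hQ 1 1 _ _ _ _ (by norm_num) (by norm_num) (by ring) (by ring)
  have h35 : Q (2 * u) (u - v) = 1 * Q (2 * u + 0 * v) (1 * u + (-1) * v) :=
    A06b_one hQ 1 1 _ _ _ _ (by norm_num) (by norm_num) (by ring) (by ring)
  have h36 : Q (u - v) (2 * u) = 1 * Q (1 * u + (-1) * v) (2 * u + 0 * v) :=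
    A06b_one hQ 1 1 _ _ _ _ (by norm_num) (by norm_num) (by ring) (by ring)
  have h37 : B (2 * (u - v)) (u - (u - v)) = 1 * B (2 * u + (-2) * v) (0 * u + 1 * v) :=
    A06b_one hB 1 1 _ _ _ _ (by norm_num) (by norm_num) (by ring) (by ring)
  have h38 : B (u - v) (u - (u - v)) = 1 * B (1 * u + (-1) * v) (0 * u + 1 * v) :=
    A06b_one hB 1 1 _ _ _ _ (by norm_num) (by norm_num) (by ring) (by ring)
  have h39 : B (2 * u) (u - (u - v)) = 1 * B (2 * u + 0 * v) (0 * u + 1 * v) :=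
    A06b_one hB 1 1 _ _ _ _ (by norm_num) (by norm_num) (by ring) (by ring)
  have h40 : B u (u - (u - v)) = 1 * B (1 * u + 0 * v) (0 * u + 1 * v) :=
    A06b_one hB 1 1 _ _ _ _ (by norm_num) (by norm_num) (by ring) (by ring)
  have h41 : Q (u + v) (u - v) = 1 * Q (1 * u + 1 * v) (1 * u + (-1) * v) :=
    A06b_one hQ 1 1 _ _ _ _ (by norm_num) (by norm_num) (by ring) (by ring)
  have h42 : Q (u - v) (u + v) = 1 * Q (1 * u + (-1) * v) (1 * u + 1 * v) :=
    A06b_one hQ 1 1 _ _ _ _ (by norm_num) (by norm_num) (by ring) (by ring)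
  have h43 : Q (u + v) (2 * (u - v)) = 1 * Q (1 * u + 1 * v) (2 * u + (-2) * v) :=
    A06b_one hQ 1 1 _ _ _ _ (by norm_num) (by norm_num) (by ring) (by ring)
  have h44 : Q (2 * (u - v)) (u + v) = 1 * Q (2 * u + (-2) * v) (1 * u + 1 * v) :=
    A06b_one hQ 1 1 _ _ _ _ (by norm_num) (by norm_num) (by ring) (by ring)
  have h45 : Q (2 * (u + v)) (u - v) = 1 * Q (2 * u + 2 * v) (1 * u + (-1) * v) :=
    A06b_one hQ 1 1 _ _ _ _ (by norm_num) (by norm_num) (by ring) (by ring)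
  have h46 : Q (u - v) (2 * (u + v)) = 1 * Q (1 * u + (-1) * v) (2 * u + 2 * v) :=
    A06b_one hQ 1 1 _ _ _ _ (by norm_num) (by norm_num) (by ring) (by ring)
  have h47 : B (2 * (u - v)) ((u + v) - (u - v)) = 1 * 2 ^ (2 * K - 1) * B (1 * u + (-1) * v) (0 * u + 1 * v) :=
    A06b_two hB hBh 1 1 2 _ _ _ _ (by norm_num) (by norm_num) (by ring) (by ring)
  have h48 : B (u - v) ((u + v) - (u - v)) = 1 * B (1 * u + (-1) * v) (0 * u + 2 * v) :=
    A06b_one hB 1 1 _ _ _ _ (by norm_num) (by norm_num) (by ring) (by ring)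
  have h49 : B (2 * (u + v)) ((u + v) - (u - v)) = 1 * 2 ^ (2 * K - 1) * B (1 * u + 1 * v) (0 * u + 1 * v) :=
    A06b_two hB hBh 1 1 2 _ _ _ _ (by norm_num) (by norm_num) (by ring) (by ring)
  have h50 : B (u + v) ((u + v) - (u - v)) = 1 * B (1 * u + 1 * v) (0 * u + 2 * v) :=
    A06b_one hB 1 1 _ _ _ _ (by norm_num) (by norm_num) (by ring) (by ring)
  have h51 : Q (u + v) (v - u) = 1 * Q (1 * u + 1 * v) (1 * u + (-1) * v) :=
    A06b_one hQ 1 (-1) _ _ _ _ (by norm_num) (by norm_num) (by ring) (by ring)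
  have h52 : Q (v - u) (u + v) = (-1) * Q (1 * u + (-1) * v) (1 * u + 1 * v) :=
    A06b_one hQ (-1) 1 _ _ _ _ (by norm_num) (by norm_num) (by ring) (by ring)
  have h53 : Q (u + v) (2 * (v - u)) = 1 * Q (1 * u + 1 * v) (2 * u + (-2) * v) :=
    A06b_one hQ 1 (-1) _ _ _ _ (by norm_num) (by norm_num) (by ring) (by ring)
  have h54 : Q (2 * (v - u)) (u + v) = (-1) * Q (2 * u + (-2) * v) (1 * u + 1 * v) :=
    A06b_one hQ (-1) 1 _ _ _ _ (by norm_num) (by norm_num) (by ring) (by ring)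
  have h55 : Q (2 * (u + v)) (v - u) = 1 * Q (2 * u + 2 * v) (1 * u + (-1) * v) :=
    A06b_one hQ 1 (-1) _ _ _ _ (by norm_num) (by norm_num) (by ring) (by ring)
  have h56 : Q (v - u) (2 * (u + v)) = (-1) * Q (1 * u + (-1) * v) (2 * u + 2 * v) :=
    A06b_one hQ (-1) 1 _ _ _ _ (by norm_num) (by norm_num) (by ring) (by ring)
  have h57 : Q (2 * (v - u)) ((u + v) - (v - u)) = (-1) * 2 ^ (2 * K - 1) * Q (1 * u + (-1) * v) (1 * u + 0 * v) :=
    A06b_two hQ hQh (-1) 1 2 _ _ _ _ (by norm_num) (by norm_num) (by ring) (by ring)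
  have h58 : Q ((u + v) - (v - u)) (2 * (v - u)) = 1 * 2 ^ (2 * K - 1) * Q (1 * u + 0 * v) (1 * u + (-1) * v) :=
    A06b_two hQ hQh 1 (-1) 2 _ _ _ _ (by norm_num) (by norm_num) (by ring) (by ring)
  have h59 : Q (v - u) ((u + v) - (v - u)) = (-1) * Q (1 * u + (-1) * v) (2 * u + 0 * v) :=
    A06b_one hQ (-1) 1 _ _ _ _ (by norm_num) (by norm_num) (by ring) (by ring)
  have h60 : Q ((u + v) - (v - u)) (v - u) = 1 * Q (2 * u + 0 * v) (1 * u + (-1) * v) :=
    A06b_one hQ 1 (-1) _ _ _ _ (by norm_num) (by norm_num) (by ring) (by ring)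
  have h61 : Q ((u + v) - (v - u)) (2 * (u + v)) = 1 * 2 ^ (2 * K - 1) * Q (1 * u + 0 * v) (1 * u + 1 * v) :=
    A06b_two hQ hQh 1 1 2 _ _ _ _ (by norm_num) (by norm_num) (by ring) (by ring)
  have h62 : Q (2 * (u + v)) ((u + v) - (v - u)) = 1 * 2 ^ (2 * K - 1) * Q (1 * u + 1 * v) (1 * u + 0 * v) :=
    A06b_two hQ hQh 1 1 2 _ _ _ _ (by norm_num) (by norm_num) (by ring) (by ring)
  have h63 : Q ((u + v) - (v - u)) (u + v) = 1 * Q (2 * u + 0 * v) (1 * u + 1 * v) :=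
    A06b_one hQ 1 1 _ _ _ _ (by norm_num) (by norm_num) (by ring) (by ring)
  have h64 : Q (u + v) ((u + v) - (v - u)) = 1 * Q (1 * u + 1 * v) (2 * u + 0 * v) :=
    A06b_one hQ 1 1 _ _ _ _ (by norm_num) (by norm_num) (by ring) (by ring)
  have h65 : (v - u) ^ (2 * K - 1) = (-1) * 1 ^ (2 * K - 1) * (1 * u + (-1) * v) ^ (2 * K - 1) :=
    A06b_pow K hK (-1) 1 _ _ (by norm_num) (by ring)
  rw [h0, h1, h2, h3, h4, h5, h6, h7, h8, h9, h10, h11, h12, h13, h14, h15, h16, h17, h18, h19, h20, h21, h22, h23, h24, h25, h26, h27, h28, h29, h30, h31, h32, h33, h34, h35, h36, h37, h38, h39, h40, h41, h42, h43, h44, h45, h46, h47, h48, h49, h50, h51, h52, h53, h54, h55, h56, h57, h58, h59, h60, h61, h62, h63, h64, h65]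
  have hW : (2 : ℚ) ^ (2 * K + 1) = 4 * 2 ^ (2 * K - 1) := by
    have e : 2 * K + 1 = (2 * K - 1) + 2 := by omega
    rw [e, pow_add]; ring
  rw [hW]
  simp only [one_pow]
  ring

end Pool.MP0eb725
end

section

set_option autoImplicit false

namespace Pool.MP0eb725

theorem A06c_zero {B : ℚ → ℚ → ℚ} (hB : OE B) (y : ℚ) : B 0 y = 0 := by
  have h := hB.1 0 y
  rw [neg_zero] at h
  linarith

theorem A06c_one {B : ℚ → ℚ → ℚ} (hB : OE B) (s1 s2 x' y' x y : ℚ) (h1 : s1 = 1 ∨ s1 = -1)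
    (h2 : s2 = 1 ∨ s2 = -1) (hx : x = s1 * x') (hy : y = s2 * y') : B x y = s1 * B x' y' := by
  subst hx hy
  have h3 : B (s1 * x') (s2 * y') = B (s1 * x') y' := by
    rcases h2 with rfl | rfl
    · rw [one_mul]
    · rw [neg_one_mul, hB.2]
  rw [h3]
  rcases h1 with rfl | rfl
  · rw [one_mul, one_mul]
  · rw [neg_one_mul, hB.1, neg_one_mul]

theorem A06c_two {d : ℕ} {B : ℚ → ℚ → ℚ} (hB : OE B) (hBh : Hom d B) (s1 s2 c x' y' x y : ℚ)
    (h1 : s1 = 1 ∨ s1 = -1) (h2 : s2 = 1 ∨ s2 = -1) (hx : x = s1 * (c * x')) (hy : y = s2 * (c * y')) :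
    B x y = s1 * c ^ d * B x' y' := by
  rw [A06c_one hB s1 s2 (c * x') (c * y') x y h1 h2 hx hy, hBh]
  ring

theorem A06c_pow (K : ℕ) (hK : 1 ≤ K) (s1 c x' x : ℚ) (h1 : s1 = 1 ∨ s1 = -1)
    (hx : x = s1 * (c * x')) : x ^ (2 * K - 1) = s1 * c ^ (2 * K - 1) * x' ^ (2 * K - 1) := by
  have hodd : Odd (2 * K - 1) := ⟨K - 1, by omega⟩
  subst hx
  rw [mul_pow, mul_pow]
  rcases h1 with rfl | rfl
  · rw [one_pow]; ring
  · rw [hodd.neg_one_pow]; ring


/-! Explicit solutions.  All statements are polynomial identities in the values of `B`, `Q`: unfold `Ec, Ea, Eb`,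
rewrite the arguments by parity (`hB, hQ`) and homogeneity (`hBh, hQh` with `c = 2`), then `ring`/`linear_combination`.
(The identities were tested numerically.)  Tip: normalise every term to `B x y` with `x, y` among
`u, v, u+v, u-v` (up to factors 2) and sign. -/

theorem E_R2B (K : ℕ) (hK : 1 ≤ K) (B Q : ℚ → ℚ → ℚ) (k : ℚ) (hB : OE B) (hQ : OE Q)
    (hBh : Hom (2 * K - 1) B) (hQh : Hom (2 * K - 1) Q) :
    R2B (Ec (2 ^ (2 * K + 1)) (2 * K - 1) B Q k) (Eb (2 ^ (2 * K + 1)) (2 * K - 1) Q k) := by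
  intro u v
  unfold Ec Eb
  have h0 : B (-v) (u - v) = (-1) * B (0 * u + 1 * v) (1 * u + (-1) * v) :=
    A06c_one hB (-1) 1 _ _ _ _ (by norm_num) (by norm_num) (by ring) (by ring)
  have h1 : B (-v) (2 * (u - v)) = (-1) * B (0 * u + 1 * v) (2 * u + (-2) * v) :=
    A06c_one hB (-1) 1 _ _ _ _ (by norm_num) (by norm_num) (by ring) (by ring)
  have h2 : B (2 * (-v)) (u - v) = (-1) * B (0 * u + 2 * v) (1 * u + (-1) * v) :=
    A06c_one hB (-1) 1 _ _ _ _ (by norm_num) (by norm_num) (by ring) (by ring)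
  have h3 : B ((-v) - (u - v)) (2 * (u - v)) = (-1) * B (1 * u + 0 * v) (2 * u + (-2) * v) :=
    A06c_one hB (-1) 1 _ _ _ _ (by norm_num) (by norm_num) (by ring) (by ring)
  have h4 : B ((-v) - (u - v)) (u - v) = (-1) * B (1 * u + 0 * v) (1 * u + (-1) * v) :=
    A06c_one hB (-1) 1 _ _ _ _ (by norm_num) (by norm_num) (by ring) (by ring)
  have h5 : Q ((-v) - (u - v)) (2 * (-v)) = (-1) * Q (1 * u + 0 * v) (0 * u + 2 * v) :=
    A06c_one hQ (-1) (-1) _ _ _ _ (by norm_num) (by norm_num) (by ring) (by ring)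
  have h6 : Q (2 * (-v)) ((-v) - (u - v)) = (-1) * Q (0 * u + 2 * v) (1 * u + 0 * v) :=
    A06c_one hQ (-1) (-1) _ _ _ _ (by norm_num) (by norm_num) (by ring) (by ring)
  have h7 : Q ((-v) - (u - v)) (-v) = (-1) * Q (1 * u + 0 * v) (0 * u + 1 * v) :=
    A06c_one hQ (-1) (-1) _ _ _ _ (by norm_num) (by norm_num) (by ring) (by ring)
  have h8 : Q (-v) ((-v) - (u - v)) = (-1) * Q (0 * u + 1 * v) (1 * u + 0 * v) :=
    A06c_one hQ (-1) (-1) _ _ _ _ (by norm_num) (by norm_num) (by ring) (by ring)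
  have h9 : (-v) ^ (2 * K - 1) = (-1) * 1 ^ (2 * K - 1) * (0 * u + 1 * v) ^ (2 * K - 1) :=
    A06c_pow K hK (-1) 1 _ _ (by norm_num) (by ring)
  have h10 : B (-u) (v - u) = (-1) * B (1 * u + 0 * v) (1 * u + (-1) * v) :=
    A06c_one hB (-1) (-1) _ _ _ _ (by norm_num) (by norm_num) (by ring) (by ring)
  have h11 : B (-u) (2 * (v - u)) = (-1) * B (1 * u + 0 * v) (2 * u + (-2) * v) :=
    A06c_one hB (-1) (-1) _ _ _ _ (by norm_num) (by norm_num) (by ring) (by ring)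
  have h12 : B (2 * (-u)) (v - u) = (-1) * B (2 * u + 0 * v) (1 * u + (-1) * v) :=
    A06c_one hB (-1) (-1) _ _ _ _ (by norm_num) (by norm_num) (by ring) (by ring)
  have h13 : B ((-u) - (v - u)) (2 * (v - u)) = (-1) * B (0 * u + 1 * v) (2 * u + (-2) * v) :=
    A06c_one hB (-1) (-1) _ _ _ _ (by norm_num) (by norm_num) (by ring) (by ring)
  have h14 : B ((-u) - (v - u)) (v - u) = (-1) * B (0 * u + 1 * v) (1 * u + (-1) * v) :=
    A06c_one hB (-1) (-1) _ _ _ _ (by norm_num) (by norm_num) (by ring) (by ring)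
  have h15 : Q ((-u) - (v - u)) (2 * (-u)) = (-1) * Q (0 * u + 1 * v) (2 * u + 0 * v) :=
    A06c_one hQ (-1) (-1) _ _ _ _ (by norm_num) (by norm_num) (by ring) (by ring)
  have h16 : Q (2 * (-u)) ((-u) - (v - u)) = (-1) * Q (2 * u + 0 * v) (0 * u + 1 * v) :=
    A06c_one hQ (-1) (-1) _ _ _ _ (by norm_num) (by norm_num) (by ring) (by ring)
  have h17 : Q ((-u) - (v - u)) (-u) = (-1) * Q (0 * u + 1 * v) (1 * u + 0 * v) :=
    A06c_one hQ (-1) (-1) _ _ _ _ (by norm_num) (by norm_num) (by ring) (by ring)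
  have h18 : Q (-u) ((-u) - (v - u)) = (-1) * Q (1 * u + 0 * v) (0 * u + 1 * v) :=
    A06c_one hQ (-1) (-1) _ _ _ _ (by norm_num) (by norm_num) (by ring) (by ring)
  have h19 : (-u) ^ (2 * K - 1) = (-1) * 1 ^ (2 * K - 1) * (1 * u + 0 * v) ^ (2 * K - 1) :=
    A06c_pow K hK (-1) 1 _ _ (by norm_num) (by ring)
  have h20 : Q v (u + v) = 1 * Q (0 * u + 1 * v) (1 * u + 1 * v) :=
    A06c_one hQ 1 1 _ _ _ _ (by norm_num) (by norm_num) (by ring) (by ring)
  have h21 : Q (u + v) v = 1 * Q (1 * u + 1 * v) (0 * u + 1 * v) :=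
    A06c_one hQ 1 1 _ _ _ _ (by norm_num) (by norm_num) (by ring) (by ring)
  have h22 : Q v (2 * (u + v)) = 1 * Q (0 * u + 1 * v) (2 * u + 2 * v) :=
    A06c_one hQ 1 1 _ _ _ _ (by norm_num) (by norm_num) (by ring) (by ring)
  have h23 : Q (2 * (u + v)) v = 1 * Q (2 * u + 2 * v) (0 * u + 1 * v) :=
    A06c_one hQ 1 1 _ _ _ _ (by norm_num) (by norm_num) (by ring) (by ring)
  have h24 : Q (2 * v) (u + v) = 1 * Q (0 * u + 2 * v) (1 * u + 1 * v) :=
    A06c_one hQ 1 1 _ _ _ _ (by norm_num) (by norm_num) (by ring) (by ring)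
  have h25 : Q (u + v) (2 * v) = 1 * Q (1 * u + 1 * v) (0 * u + 2 * v) :=
    A06c_one hQ 1 1 _ _ _ _ (by norm_num) (by norm_num) (by ring) (by ring)
  have h26 : Q (2 * (u + v)) (v - (u + v)) = 1 * Q (2 * u + 2 * v) (1 * u + 0 * v) :=
    A06c_one hQ 1 (-1) _ _ _ _ (by norm_num) (by norm_num) (by ring) (by ring)
  have h27 : Q (v - (u + v)) (2 * (u + v)) = (-1) * Q (1 * u + 0 * v) (2 * u + 2 * v) :=
    A06c_one hQ (-1) 1 _ _ _ _ (by norm_num) (by norm_num) (by ring) (by ring)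
  have h28 : Q (u + v) (v - (u + v)) = 1 * Q (1 * u + 1 * v) (1 * u + 0 * v) :=
    A06c_one hQ 1 (-1) _ _ _ _ (by norm_num) (by norm_num) (by ring) (by ring)
  have h29 : Q (v - (u + v)) (u + v) = (-1) * Q (1 * u + 0 * v) (1 * u + 1 * v) :=
    A06c_one hQ (-1) 1 _ _ _ _ (by norm_num) (by norm_num) (by ring) (by ring)
  have h30 : Q (v - (u + v)) (2 * v) = (-1) * Q (1 * u + 0 * v) (0 * u + 2 * v) :=
    A06c_one hQ (-1) 1 _ _ _ _ (by norm_num) (by norm_num) (by ring) (by ring)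
  have h31 : Q (2 * v) (v - (u + v)) = 1 * Q (0 * u + 2 * v) (1 * u + 0 * v) :=
    A06c_one hQ 1 (-1) _ _ _ _ (by norm_num) (by norm_num) (by ring) (by ring)
  have h32 : Q (v - (u + v)) v = (-1) * Q (1 * u + 0 * v) (0 * u + 1 * v) :=
    A06c_one hQ (-1) 1 _ _ _ _ (by norm_num) (by norm_num) (by ring) (by ring)
  have h33 : Q v (v - (u + v)) = 1 * Q (0 * u + 1 * v) (1 * u + 0 * v) :=
    A06c_one hQ 1 (-1) _ _ _ _ (by norm_num) (by norm_num) (by ring) (by ring)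
  have h34 : v ^ (2 * K - 1) = 1 * 1 ^ (2 * K - 1) * (0 * u + 1 * v) ^ (2 * K - 1) :=
    A06c_pow K hK 1 1 _ _ (by norm_num) (by ring)
  have h35 : (u + v) ^ (2 * K - 1) = 1 * 1 ^ (2 * K - 1) * (1 * u + 1 * v) ^ (2 * K - 1) :=
    A06c_pow K hK 1 1 _ _ (by norm_num) (by ring)
  have h36 : Q u (u + v) = 1 * Q (1 * u + 0 * v) (1 * u + 1 * v) :=
    A06c_one hQ 1 1 _ _ _ _ (by norm_num) (by norm_num) (by ring) (by ring)
  have h37 : Q (u + v) u = 1 * Q (1 * u + 1 * v) (1 * u + 0 * v) :=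
    A06c_one hQ 1 1 _ _ _ _ (by norm_num) (by norm_num) (by ring) (by ring)
  have h38 : Q u (2 * (u + v)) = 1 * Q (1 * u + 0 * v) (2 * u + 2 * v) :=
    A06c_one hQ 1 1 _ _ _ _ (by norm_num) (by norm_num) (by ring) (by ring)
  have h39 : Q (2 * (u + v)) u = 1 * Q (2 * u + 2 * v) (1 * u + 0 * v) :=
    A06c_one hQ 1 1 _ _ _ _ (by norm_num) (by norm_num) (by ring) (by ring)
  have h40 : Q (2 * u) (u + v) = 1 * Q (2 * u + 0 * v) (1 * u + 1 * v) :=
    A06c_one hQ 1 1 _ _ _ _ (by norm_num) (by norm_num) (by ring) (by ring)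
  have h41 : Q (u + v) (2 * u) = 1 * Q (1 * u + 1 * v) (2 * u + 0 * v) :=
    A06c_one hQ 1 1 _ _ _ _ (by norm_num) (by norm_num) (by ring) (by ring)
  have h42 : Q (2 * (u + v)) (u - (u + v)) = 1 * Q (2 * u + 2 * v) (0 * u + 1 * v) :=
    A06c_one hQ 1 (-1) _ _ _ _ (by norm_num) (by norm_num) (by ring) (by ring)
  have h43 : Q (u - (u + v)) (2 * (u + v)) = (-1) * Q (0 * u + 1 * v) (2 * u + 2 * v) :=
    A06c_one hQ (-1) 1 _ _ _ _ (by norm_num) (by norm_num) (by ring) (by ring)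
  have h44 : Q (u + v) (u - (u + v)) = 1 * Q (1 * u + 1 * v) (0 * u + 1 * v) :=
    A06c_one hQ 1 (-1) _ _ _ _ (by norm_num) (by norm_num) (by ring) (by ring)
  have h45 : Q (u - (u + v)) (u + v) = (-1) * Q (0 * u + 1 * v) (1 * u + 1 * v) :=
    A06c_one hQ (-1) 1 _ _ _ _ (by norm_num) (by norm_num) (by ring) (by ring)
  have h46 : Q (u - (u + v)) (2 * u) = (-1) * Q (0 * u + 1 * v) (2 * u + 0 * v) :=
    A06c_one hQ (-1) 1 _ _ _ _ (by norm_num) (by norm_num) (by ring) (by ring)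
  have h47 : Q (2 * u) (u - (u + v)) = 1 * Q (2 * u + 0 * v) (0 * u + 1 * v) :=
    A06c_one hQ 1 (-1) _ _ _ _ (by norm_num) (by norm_num) (by ring) (by ring)
  have h48 : Q (u - (u + v)) u = (-1) * Q (0 * u + 1 * v) (1 * u + 0 * v) :=
    A06c_one hQ (-1) 1 _ _ _ _ (by norm_num) (by norm_num) (by ring) (by ring)
  have h49 : Q u (u - (u + v)) = 1 * Q (1 * u + 0 * v) (0 * u + 1 * v) :=
    A06c_one hQ 1 (-1) _ _ _ _ (by norm_num) (by norm_num) (by ring) (by ring)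
  have h50 : u ^ (2 * K - 1) = 1 * 1 ^ (2 * K - 1) * (1 * u + 0 * v) ^ (2 * K - 1) :=
    A06c_pow K hK 1 1 _ _ (by norm_num) (by ring)
  have h51 : B (u + v) (u - v) = 1 * B (1 * u + 1 * v) (1 * u + (-1) * v) :=
    A06c_one hB 1 1 _ _ _ _ (by norm_num) (by norm_num) (by ring) (by ring)
  have h52 : B (u + v) (2 * (u - v)) = 1 * B (1 * u + 1 * v) (2 * u + (-2) * v) :=
    A06c_one hB 1 1 _ _ _ _ (by norm_num) (by norm_num) (by ring) (by ring)
  have h53 : B (2 * (u + v)) (u - v) = 1 * B (2 * u + 2 * v) (1 * u + (-1) * v) :=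
    A06c_one hB 1 1 _ _ _ _ (by norm_num) (by norm_num) (by ring) (by ring)
  have h54 : B ((u + v) - (u - v)) (2 * (u - v)) = 1 * 2 ^ (2 * K - 1) * B (0 * u + 1 * v) (1 * u + (-1) * v) :=
    A06c_two hB hBh 1 1 2 _ _ _ _ (by norm_num) (by norm_num) (by ring) (by ring)
  have h55 : B ((u + v) - (u - v)) (u - v) = 1 * B (0 * u + 2 * v) (1 * u + (-1) * v) :=
    A06c_one hB 1 1 _ _ _ _ (by norm_num) (by norm_num) (by ring) (by ring)
  have h56 : Q ((u + v) - (u - v)) (2 * (u + v)) = 1 * 2 ^ (2 * K - 1) * Q (0 * u + 1 * v) (1 * u + 1 * v) :=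
    A06c_two hQ hQh 1 1 2 _ _ _ _ (by norm_num) (by norm_num) (by ring) (by ring)
  have h57 : Q (2 * (u + v)) ((u + v) - (u - v)) = 1 * 2 ^ (2 * K - 1) * Q (1 * u + 1 * v) (0 * u + 1 * v) :=
    A06c_two hQ hQh 1 1 2 _ _ _ _ (by norm_num) (by norm_num) (by ring) (by ring)
  have h58 : Q ((u + v) - (u - v)) (u + v) = 1 * Q (0 * u + 2 * v) (1 * u + 1 * v) :=
    A06c_one hQ 1 1 _ _ _ _ (by norm_num) (by norm_num) (by ring) (by ring)
  have h59 : Q (u + v) ((u + v) - (u - v)) = 1 * Q (1 * u + 1 * v) (0 * u + 2 * v) :=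
    A06c_one hQ 1 1 _ _ _ _ (by norm_num) (by norm_num) (by ring) (by ring)
  have h60 : B (u + v) (v - u) = 1 * B (1 * u + 1 * v) (1 * u + (-1) * v) :=
    A06c_one hB 1 (-1) _ _ _ _ (by norm_num) (by norm_num) (by ring) (by ring)
  have h61 : B (u + v) (2 * (v - u)) = 1 * B (1 * u + 1 * v) (2 * u + (-2) * v) :=
    A06c_one hB 1 (-1) _ _ _ _ (by norm_num) (by norm_num) (by ring) (by ring)
  have h62 : B (2 * (u + v)) (v - u) = 1 * B (2 * u + 2 * v) (1 * u + (-1) * v) :=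
    A06c_one hB 1 (-1) _ _ _ _ (by norm_num) (by norm_num) (by ring) (by ring)
  have h63 : B ((u + v) - (v - u)) (2 * (v - u)) = 1 * 2 ^ (2 * K - 1) * B (1 * u + 0 * v) (1 * u + (-1) * v) :=
    A06c_two hB hBh 1 (-1) 2 _ _ _ _ (by norm_num) (by norm_num) (by ring) (by ring)
  have h64 : B ((u + v) - (v - u)) (v - u) = 1 * B (2 * u + 0 * v) (1 * u + (-1) * v) :=
    A06c_one hB 1 (-1) _ _ _ _ (by norm_num) (by norm_num) (by ring) (by ring)
  have h65 : Q ((u + v) - (v - u)) (2 * (u + v)) = 1 * 2 ^ (2 * K - 1) * Q (1 * u + 0 * v) (1 * u + 1 * v) :=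
    A06c_two hQ hQh 1 1 2 _ _ _ _ (by norm_num) (by norm_num) (by ring) (by ring)
  have h66 : Q (2 * (u + v)) ((u + v) - (v - u)) = 1 * 2 ^ (2 * K - 1) * Q (1 * u + 1 * v) (1 * u + 0 * v) :=
    A06c_two hQ hQh 1 1 2 _ _ _ _ (by norm_num) (by norm_num) (by ring) (by ring)
  have h67 : Q ((u + v) - (v - u)) (u + v) = 1 * Q (2 * u + 0 * v) (1 * u + 1 * v) :=
    A06c_one hQ 1 1 _ _ _ _ (by norm_num) (by norm_num) (by ring) (by ring)
  have h68 : Q (u + v) ((u + v) - (v - u)) = 1 * Q (1 * u + 1 * v) (2 * u + 0 * v) :=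
    A06c_one hQ 1 1 _ _ _ _ (by norm_num) (by norm_num) (by ring) (by ring)
  rw [h0, h1, h2, h3, h4, h5, h6, h7, h8, h9, h10, h11, h12, h13, h14, h15, h16, h17, h18, h19, h20, h21, h22, h23, h24, h25, h26, h27, h28, h29, h30, h31, h32, h33, h34, h35, h36, h37, h38, h39, h40, h41, h42, h43, h44, h45, h46, h47, h48, h49, h50, h51, h52, h53, h54, h55, h56, h57, h58, h59, h60, h61, h62, h63, h64, h65, h66, h67, h68]
  have hW : (2 : ℚ) ^ (2 * K + 1) = 4 * 2 ^ (2 * K - 1) := by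
    have e : 2 * K + 1 = (2 * K - 1) + 2 := by omega
    rw [e, pow_add]; ring
  rw [hW]
  simp only [one_pow]
  ring

end Pool.MP0eb725
end

section

set_option autoImplicit false

namespace Pool.MP0eb725

theorem A06d_zero {B : ℚ → ℚ → ℚ} (hB : OE B) (y : ℚ) : B 0 y = 0 := by
  have h := hB.1 0 y
  rw [neg_zero] at h
  linarith

theorem A06d_one {B : ℚ → ℚ → ℚ} (hB : OE B) (s1 s2 x' y' x y : ℚ) (h1 : s1 = 1 ∨ s1 = -1)
    (h2 : s2 = 1 ∨ s2 = -1) (hx : x = s1 * x') (hy : y = s2 * y') : B x y = s1 * B x' y' := by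
  subst hx hy
  have h3 : B (s1 * x') (s2 * y') = B (s1 * x') y' := by
    rcases h2 with rfl | rfl
    · rw [one_mul]
    · rw [neg_one_mul, hB.2]
  rw [h3]
  rcases h1 with rfl | rfl
  · rw [one_mul, one_mul]
  · rw [neg_one_mul, hB.1, neg_one_mul]

theorem A06d_two {d : ℕ} {B : ℚ → ℚ → ℚ} (hB : OE B) (hBh : Hom d B) (s1 s2 c x' y' x y : ℚ)
    (h1 : s1 = 1 ∨ s1 = -1) (h2 : s2 = 1 ∨ s2 = -1) (hx : x = s1 * (c * x')) (hy : y = s2 * (c * y')) :
    B x y = s1 * c ^ d * B x' y' := by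
  rw [A06d_one hB s1 s2 (c * x') (c * y') x y h1 h2 hx hy, hBh]
  ring

theorem A06d_pow (K : ℕ) (hK : 1 ≤ K) (s1 c x' x : ℚ) (h1 : s1 = 1 ∨ s1 = -1)
    (hx : x = s1 * (c * x')) : x ^ (2 * K - 1) = s1 * c ^ (2 * K - 1) * x' ^ (2 * K - 1) := by
  have hodd : Odd (2 * K - 1) := ⟨K - 1, by omega⟩
  subst hx
  rw [mul_pow, mul_pow]
  rcases h1 with rfl | rfl
  · rw [one_pow]; ring
  · rw [hodd.neg_one_pow]; ring


/-! Explicit solutions.  All statements are polynomial identities in the values of `B`, `Q`: unfold `Ec, Ea, Eb`,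
rewrite the arguments by parity (`hB, hQ`) and homogeneity (`hBh, hQh` with `c = 2`), then `ring`/`linear_combination`.
(The identities were tested numerically.)  Tip: normalise every term to `B x y` with `x, y` among
`u, v, u+v, u-v` (up to factors 2) and sign. -/

/-- sum over the orbit of `U`, component `c` -/
theorem E_Nc (K : ℕ) (hK : 1 ≤ K) (B Q : ℚ → ℚ → ℚ) (k : ℚ) (hB : OE B) (hQ : OE Q)
    (hBh : Hom (2 * K - 1) B) (hQh : Hom (2 * K - 1) Q) (u v : ℚ) :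
    Ec (2 ^ (2 * K + 1)) (2 * K - 1) B Q k u v - Ec (2 ^ (2 * K + 1)) (2 * K - 1) B Q k (u - v) (-v)
      - Ea (2 ^ (2 * K + 1)) (2 * K - 1) B Q k u (u - v) = (2 ^ (2 * K + 1) + 1) * Xc B Q u v := by
  unfold Ec Ea Xc
  have h0 : B u v = 1 * B (1 * u + 0 * v) (0 * u + 1 * v) :=
    A06d_one hB 1 1 _ _ _ _ (by norm_num) (by norm_num) (by ring) (by ring)
  have h1 : B u (2 * v) = 1 * B (1 * u + 0 * v) (0 * u + 2 * v) :=
    A06d_one hB 1 1 _ _ _ _ (by norm_num) (by norm_num) (by ring) (by ring)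
  have h2 : B (2 * u) v = 1 * B (2 * u + 0 * v) (0 * u + 1 * v) :=
    A06d_one hB 1 1 _ _ _ _ (by norm_num) (by norm_num) (by ring) (by ring)
  have h3 : B (u - v) (2 * v) = 1 * B (1 * u + (-1) * v) (0 * u + 2 * v) :=
    A06d_one hB 1 1 _ _ _ _ (by norm_num) (by norm_num) (by ring) (by ring)
  have h4 : B (u - v) v = 1 * B (1 * u + (-1) * v) (0 * u + 1 * v) :=
    A06d_one hB 1 1 _ _ _ _ (by norm_num) (by norm_num) (by ring) (by ring)
  have h5 : Q (u - v) (2 * u) = 1 * Q (1 * u + (-1) * v) (2 * u + 0 * v) :=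
    A06d_one hQ 1 1 _ _ _ _ (by norm_num) (by norm_num) (by ring) (by ring)
  have h6 : Q (2 * u) (u - v) = 1 * Q (2 * u + 0 * v) (1 * u + (-1) * v) :=
    A06d_one hQ 1 1 _ _ _ _ (by norm_num) (by norm_num) (by ring) (by ring)
  have h7 : Q (u - v) u = 1 * Q (1 * u + (-1) * v) (1 * u + 0 * v) :=
    A06d_one hQ 1 1 _ _ _ _ (by norm_num) (by norm_num) (by ring) (by ring)
  have h8 : Q u (u - v) = 1 * Q (1 * u + 0 * v) (1 * u + (-1) * v) :=
    A06d_one hQ 1 1 _ _ _ _ (by norm_num) (by norm_num) (by ring) (by ring)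
  have h9 : u ^ (2 * K - 1) = 1 * 1 ^ (2 * K - 1) * (1 * u + 0 * v) ^ (2 * K - 1) :=
    A06d_pow K hK 1 1 _ _ (by norm_num) (by ring)
  have h10 : B (u - v) (-v) = 1 * B (1 * u + (-1) * v) (0 * u + 1 * v) :=
    A06d_one hB 1 (-1) _ _ _ _ (by norm_num) (by norm_num) (by ring) (by ring)
  have h11 : B (u - v) (2 * (-v)) = 1 * B (1 * u + (-1) * v) (0 * u + 2 * v) :=
    A06d_one hB 1 (-1) _ _ _ _ (by norm_num) (by norm_num) (by ring) (by ring)
  have h12 : B (2 * (u - v)) (-v) = 1 * B (2 * u + (-2) * v) (0 * u + 1 * v) :=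
    A06d_one hB 1 (-1) _ _ _ _ (by norm_num) (by norm_num) (by ring) (by ring)
  have h13 : B ((u - v) - (-v)) (2 * (-v)) = 1 * B (1 * u + 0 * v) (0 * u + 2 * v) :=
    A06d_one hB 1 (-1) _ _ _ _ (by norm_num) (by norm_num) (by ring) (by ring)
  have h14 : B ((u - v) - (-v)) (-v) = 1 * B (1 * u + 0 * v) (0 * u + 1 * v) :=
    A06d_one hB 1 (-1) _ _ _ _ (by norm_num) (by norm_num) (by ring) (by ring)
  have h15 : Q ((u - v) - (-v)) (2 * (u - v)) = 1 * Q (1 * u + 0 * v) (2 * u + (-2) * v) :=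
    A06d_one hQ 1 1 _ _ _ _ (by norm_num) (by norm_num) (by ring) (by ring)
  have h16 : Q (2 * (u - v)) ((u - v) - (-v)) = 1 * Q (2 * u + (-2) * v) (1 * u + 0 * v) :=
    A06d_one hQ 1 1 _ _ _ _ (by norm_num) (by norm_num) (by ring) (by ring)
  have h17 : Q ((u - v) - (-v)) (u - v) = 1 * Q (1 * u + 0 * v) (1 * u + (-1) * v) :=
    A06d_one hQ 1 1 _ _ _ _ (by norm_num) (by norm_num) (by ring) (by ring)
  have h18 : Q (u - v) ((u - v) - (-v)) = 1 * Q (1 * u + (-1) * v) (1 * u + 0 * v) :=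
    A06d_one hQ 1 1 _ _ _ _ (by norm_num) (by norm_num) (by ring) (by ring)
  have h19 : (u - v) ^ (2 * K - 1) = 1 * 1 ^ (2 * K - 1) * (1 * u + (-1) * v) ^ (2 * K - 1) :=
    A06d_pow K hK 1 1 _ _ (by norm_num) (by ring)
  have h20 : Q u (2 * (u - v)) = 1 * Q (1 * u + 0 * v) (2 * u + (-2) * v) :=
    A06d_one hQ 1 1 _ _ _ _ (by norm_num) (by norm_num) (by ring) (by ring)
  have h21 : Q (2 * (u - v)) u = 1 * Q (2 * u + (-2) * v) (1 * u + 0 * v) :=
    A06d_one hQ 1 1 _ _ _ _ (by norm_num) (by norm_num) (by ring) (by ring)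
  have h22 : B (2 * (u - v)) (u - (u - v)) = 1 * B (2 * u + (-2) * v) (0 * u + 1 * v) :=
    A06d_one hB 1 1 _ _ _ _ (by norm_num) (by norm_num) (by ring) (by ring)
  have h23 : B (u - v) (u - (u - v)) = 1 * B (1 * u + (-1) * v) (0 * u + 1 * v) :=
    A06d_one hB 1 1 _ _ _ _ (by norm_num) (by norm_num) (by ring) (by ring)
  have h24 : B (2 * u) (u - (u - v)) = 1 * B (2 * u + 0 * v) (0 * u + 1 * v) :=
    A06d_one hB 1 1 _ _ _ _ (by norm_num) (by norm_num) (by ring) (by ring)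
  have h25 : B u (u - (u - v)) = 1 * B (1 * u + 0 * v) (0 * u + 1 * v) :=
    A06d_one hB 1 1 _ _ _ _ (by norm_num) (by norm_num) (by ring) (by ring)
  rw [h0, h1, h2, h3, h4, h5, h6, h7, h8, h9, h10, h11, h12, h13, h14, h15, h16, h17, h18, h19, h20, h21, h22, h23, h24, h25]
  have hW : (2 : ℚ) ^ (2 * K + 1) = 4 * 2 ^ (2 * K - 1) := by
    have e : 2 * K + 1 = (2 * K - 1) + 2 := by omega
    rw [e, pow_add]; ring
  rw [hW]
  simp only [one_pow]
  ring

/-- sum over the orbit of `U`, component `a` -/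
theorem E_Na (K : ℕ) (hK : 1 ≤ K) (B Q : ℚ → ℚ → ℚ) (k : ℚ) (hB : OE B) (hQ : OE Q)
    (hBh : Hom (2 * K - 1) B) (hQh : Hom (2 * K - 1) Q) (u v : ℚ) :
    Ea (2 ^ (2 * K + 1)) (2 * K - 1) B Q k u v - Ec (2 ^ (2 * K + 1)) (2 * K - 1) B Q k (-v) (u - v)
      + Ec (2 ^ (2 * K + 1)) (2 * K - 1) B Q k (-u) (v - u) = (2 ^ (2 * K + 1) + 1) * Xa B Q u v := by
  unfold Ec Ea Xa
  have h0 : Q u v = 1 * Q (1 * u + 0 * v) (0 * u + 1 * v) :=
    A06d_one hQ 1 1 _ _ _ _ (by norm_num) (by norm_num) (by ring) (by ring)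
  have h1 : Q v u = 1 * Q (0 * u + 1 * v) (1 * u + 0 * v) :=
    A06d_one hQ 1 1 _ _ _ _ (by norm_num) (by norm_num) (by ring) (by ring)
  have h2 : Q u (2 * v) = 1 * Q (1 * u + 0 * v) (0 * u + 2 * v) :=
    A06d_one hQ 1 1 _ _ _ _ (by norm_num) (by norm_num) (by ring) (by ring)
  have h3 : Q (2 * v) u = 1 * Q (0 * u + 2 * v) (1 * u + 0 * v) :=
    A06d_one hQ 1 1 _ _ _ _ (by norm_num) (by norm_num) (by ring) (by ring)
  have h4 : Q (2 * u) v = 1 * Q (2 * u + 0 * v) (0 * u + 1 * v) :=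
    A06d_one hQ 1 1 _ _ _ _ (by norm_num) (by norm_num) (by ring) (by ring)
  have h5 : Q v (2 * u) = 1 * Q (0 * u + 1 * v) (2 * u + 0 * v) :=
    A06d_one hQ 1 1 _ _ _ _ (by norm_num) (by norm_num) (by ring) (by ring)
  have h6 : B (2 * v) (u - v) = 1 * B (0 * u + 2 * v) (1 * u + (-1) * v) :=
    A06d_one hB 1 1 _ _ _ _ (by norm_num) (by norm_num) (by ring) (by ring)
  have h7 : B v (u - v) = 1 * B (0 * u + 1 * v) (1 * u + (-1) * v) :=
    A06d_one hB 1 1 _ _ _ _ (by norm_num) (by norm_num) (by ring) (by ring)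
  have h8 : B (2 * u) (u - v) = 1 * B (2 * u + 0 * v) (1 * u + (-1) * v) :=
    A06d_one hB 1 1 _ _ _ _ (by norm_num) (by norm_num) (by ring) (by ring)
  have h9 : B u (u - v) = 1 * B (1 * u + 0 * v) (1 * u + (-1) * v) :=
    A06d_one hB 1 1 _ _ _ _ (by norm_num) (by norm_num) (by ring) (by ring)
  have h10 : u ^ (2 * K - 1) = 1 * 1 ^ (2 * K - 1) * (1 * u + 0 * v) ^ (2 * K - 1) :=
    A06d_pow K hK 1 1 _ _ (by norm_num) (by ring)
  have h11 : v ^ (2 * K - 1) = 1 * 1 ^ (2 * K - 1) * (0 * u + 1 * v) ^ (2 * K - 1) :=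
    A06d_pow K hK 1 1 _ _ (by norm_num) (by ring)
  have h12 : B (-v) (u - v) = (-1) * B (0 * u + 1 * v) (1 * u + (-1) * v) :=
    A06d_one hB (-1) 1 _ _ _ _ (by norm_num) (by norm_num) (by ring) (by ring)
  have h13 : B (-v) (2 * (u - v)) = (-1) * B (0 * u + 1 * v) (2 * u + (-2) * v) :=
    A06d_one hB (-1) 1 _ _ _ _ (by norm_num) (by norm_num) (by ring) (by ring)
  have h14 : B (2 * (-v)) (u - v) = (-1) * B (0 * u + 2 * v) (1 * u + (-1) * v) :=
    A06d_one hB (-1) 1 _ _ _ _ (by norm_num) (by norm_num) (by ring) (by ring)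
  have h15 : B ((-v) - (u - v)) (2 * (u - v)) = (-1) * B (1 * u + 0 * v) (2 * u + (-2) * v) :=
    A06d_one hB (-1) 1 _ _ _ _ (by norm_num) (by norm_num) (by ring) (by ring)
  have h16 : B ((-v) - (u - v)) (u - v) = (-1) * B (1 * u + 0 * v) (1 * u + (-1) * v) :=
    A06d_one hB (-1) 1 _ _ _ _ (by norm_num) (by norm_num) (by ring) (by ring)
  have h17 : Q ((-v) - (u - v)) (2 * (-v)) = (-1) * Q (1 * u + 0 * v) (0 * u + 2 * v) :=
    A06d_one hQ (-1) (-1) _ _ _ _ (by norm_num) (by norm_num) (by ring) (by ring)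
  have h18 : Q (2 * (-v)) ((-v) - (u - v)) = (-1) * Q (0 * u + 2 * v) (1 * u + 0 * v) :=
    A06d_one hQ (-1) (-1) _ _ _ _ (by norm_num) (by norm_num) (by ring) (by ring)
  have h19 : Q ((-v) - (u - v)) (-v) = (-1) * Q (1 * u + 0 * v) (0 * u + 1 * v) :=
    A06d_one hQ (-1) (-1) _ _ _ _ (by norm_num) (by norm_num) (by ring) (by ring)
  have h20 : Q (-v) ((-v) - (u - v)) = (-1) * Q (0 * u + 1 * v) (1 * u + 0 * v) :=
    A06d_one hQ (-1) (-1) _ _ _ _ (by norm_num) (by norm_num) (by ring) (by ring)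
  have h21 : (-v) ^ (2 * K - 1) = (-1) * 1 ^ (2 * K - 1) * (0 * u + 1 * v) ^ (2 * K - 1) :=
    A06d_pow K hK (-1) 1 _ _ (by norm_num) (by ring)
  have h22 : B (-u) (v - u) = (-1) * B (1 * u + 0 * v) (1 * u + (-1) * v) :=
    A06d_one hB (-1) (-1) _ _ _ _ (by norm_num) (by norm_num) (by ring) (by ring)
  have h23 : B (-u) (2 * (v - u)) = (-1) * B (1 * u + 0 * v) (2 * u + (-2) * v) :=
    A06d_one hB (-1) (-1) _ _ _ _ (by norm_num) (by norm_num) (by ring) (by ring)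
  have h24 : B (2 * (-u)) (v - u) = (-1) * B (2 * u + 0 * v) (1 * u + (-1) * v) :=
    A06d_one hB (-1) (-1) _ _ _ _ (by norm_num) (by norm_num) (by ring) (by ring)
  have h25 : B ((-u) - (v - u)) (2 * (v - u)) = (-1) * B (0 * u + 1 * v) (2 * u + (-2) * v) :=
    A06d_one hB (-1) (-1) _ _ _ _ (by norm_num) (by norm_num) (by ring) (by ring)
  have h26 : B ((-u) - (v - u)) (v - u) = (-1) * B (0 * u + 1 * v) (1 * u + (-1) * v) :=
    A06d_one hB (-1) (-1) _ _ _ _ (by norm_num) (by norm_num) (by ring) (by ring)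
  have h27 : Q ((-u) - (v - u)) (2 * (-u)) = (-1) * Q (0 * u + 1 * v) (2 * u + 0 * v) :=
    A06d_one hQ (-1) (-1) _ _ _ _ (by norm_num) (by norm_num) (by ring) (by ring)
  have h28 : Q (2 * (-u)) ((-u) - (v - u)) = (-1) * Q (2 * u + 0 * v) (0 * u + 1 * v) :=
    A06d_one hQ (-1) (-1) _ _ _ _ (by norm_num) (by norm_num) (by ring) (by ring)
  have h29 : Q ((-u) - (v - u)) (-u) = (-1) * Q (0 * u + 1 * v) (1 * u + 0 * v) :=
    A06d_one hQ (-1) (-1) _ _ _ _ (by norm_num) (by norm_num) (by ring) (by ring)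
  have h30 : Q (-u) ((-u) - (v - u)) = (-1) * Q (1 * u + 0 * v) (0 * u + 1 * v) :=
    A06d_one hQ (-1) (-1) _ _ _ _ (by norm_num) (by norm_num) (by ring) (by ring)
  have h31 : (-u) ^ (2 * K - 1) = (-1) * 1 ^ (2 * K - 1) * (1 * u + 0 * v) ^ (2 * K - 1) :=
    A06d_pow K hK (-1) 1 _ _ (by norm_num) (by ring)
  rw [h0, h1, h2, h3, h4, h5, h6, h7, h8, h9, h10, h11, h12, h13, h14, h15, h16, h17, h18, h19, h20, h21, h22, h23, h24, h25, h26, h27, h28, h29, h30, h31]
  have hW : (2 : ℚ) ^ (2 * K + 1) = 4 * 2 ^ (2 * K - 1) := by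
    have e : 2 * K + 1 = (2 * K - 1) + 2 := by omega
    rw [e, pow_add]; ring
  rw [hW]
  simp only [one_pow]
  ring

end Pool.MP0eb725
end
end

section

section

set_option autoImplicit false

namespace Pool.MP0eb725

/-- coefficient vectors of binary forms of degree `d` -/
abbrev Ar (d : ℕ) := Fin (d + 1) → ℚ

/-- the form with coefficient vector `a` -/
def evA (d : ℕ) (a : Ar d) (u v : ℚ) : ℚ := ∑ i : Fin (d + 1), a i * u ^ (i : ℕ) * v ^ (d - (i : ℕ))

/-- the form `(u s + v t)^d` (in `s, t`) -/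
def pw (d : ℕ) (u v : ℚ) : Ar d := fun i => (d.choose i : ℚ) * u ^ (i : ℕ) * v ^ (d - (i : ℕ))

/-- the invariant pairing of forms -/
def bil (d : ℕ) (q x : Ar d) : ℚ := ∑ i : Fin (d + 1), q i * x i / (d.choose i : ℚ)

end Pool.MP0eb725
end

section

set_option autoImplicit false

namespace Pool.MP0eb725

open Polynomial in
/-- `fm` with integral coefficients in `ℤ[X]` -/
theorem A04a_eval (d : ℕ) (a : ℕ → ℤ) (s t : ℤ[X]) (x : ℤ) :
    (fm d (fun i => ((a i : ℤ) : ℤ[X])) s t).eval x = fm d a (s.eval x) (t.eval x) := by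
  unfold fm
  simp [Polynomial.eval_finsetSum]

open Polynomial in
theorem A04a_zero {P : ℤ[X]} (h : ∀ x : ℤ, P.eval x = 0) : P = 0 := by
  apply Polynomial.funext
  intro x; rw [h x, Polynomial.eval_zero]

theorem A04a_congr {A : Type*} [CommRing A] (d : ℕ) (a : ℕ → A) (n : A) {s s' t t' : A}
    (hs : n ∣ s - s') (ht : n ∣ t - t') : n ∣ fm d a s t - fm d a s' t' := by
  unfold fm
  rw [← Finset.sum_sub_distrib]
  refine Finset.dvd_sum fun j _ => ?_
  have h1 : n ∣ s ^ j - s' ^ j := hs.trans (sub_dvd_pow_sub_pow _ _ _)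
  have h2 : n ∣ t ^ (d - j) - t' ^ (d - j) := ht.trans (sub_dvd_pow_sub_pow _ _ _)
  have h3 : a j * s ^ j * t ^ (d - j) - a j * s' ^ j * t' ^ (d - j) =
      (s ^ j - s' ^ j) * (a j * t ^ (d - j)) + (t ^ (d - j) - t' ^ (d - j)) * (a j * s' ^ j) := by
    ring
  rw [h3]
  exact dvd_add (h1.mul_right _) (h2.mul_right _)

theorem A04a_neg {A : Type*} [CommRing A] (K : ℕ) (hK : 1 ≤ K) (a : ℕ → A) (s t : A) :
    fm (2 * K - 1) a (-s) (-t) = - fm (2 * K - 1) a s t := by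
  unfold fm
  rw [← Finset.sum_neg_distrib]
  refine Finset.sum_congr rfl fun j hj => ?_
  have hj' := Finset.mem_range.mp hj
  have h1 : (-s) ^ j = (-1) ^ j * s ^ j := by rw [neg_pow]
  have h2 : (-t) ^ (2 * K - 1 - j) = (-1) ^ (2 * K - 1 - j) * t ^ (2 * K - 1 - j) := by
    rw [neg_pow]
  have h3 : (-1 : A) ^ j * (-1) ^ (2 * K - 1 - j) = -1 := by
    rw [← pow_add, show j + (2 * K - 1 - j) = 2 * (K - 1) + 1 by omega]
    exact Odd.neg_one_pow ⟨K - 1, rfl⟩
  rw [h1, h2]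
  calc a j * ((-1) ^ j * s ^ j) * ((-1) ^ (2 * K - 1 - j) * t ^ (2 * K - 1 - j))
      = ((-1 : A) ^ j * (-1) ^ (2 * K - 1 - j)) * (a j * s ^ j * t ^ (2 * K - 1 - j)) := by ring
    _ = _ := by rw [h3]; ring

open Polynomial in
theorem A04a_coeff (d : ℕ) (a : ℕ → ℤ) (i : ℕ) (hi : i ≤ d) :
    (fm d (fun j => ((a j : ℤ) : ℤ[X])) X 1).coeff i = a i := by
  unfold fm
  rw [Polynomial.finsetSum_coeff, Finset.sum_eq_single i]
  · simp only [one_pow, mul_one]
    rw [← Polynomial.C_eq_intCast, Polynomial.coeff_C_mul, Polynomial.coeff_X_pow, if_pos rfl,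
      mul_one]
    rfl
  · intro b _ hb
    simp only [one_pow, mul_one]
    rw [← Polynomial.C_eq_intCast, Polynomial.coeff_C_mul, Polynomial.coeff_X_pow,
      if_neg (Ne.symm hb), mul_zero]
  · intro h
    exact absurd (Finset.mem_range.mpr (Nat.lt_succ_of_le hi)) h

open Polynomial in
theorem A04a_two_dvd_coeff {p : ℤ[X]} (h : (2 : ℤ[X]) ∣ p) (i : ℕ) : (2 : ℤ) ∣ p.coeff i := by
  obtain ⟨q, rfl⟩ := h
  have : (2 : ℤ[X]) = C (2 : ℤ) := rfl
  rw [this, Polynomial.coeff_C_mul]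
  exact dvd_mul_right _ _

/-- LEMMA L1, integral step.  Write `q1 = fm d a1`, `q3 = fm d a3` (`d` odd).  By `poly_transfer` the three
identities hold in every commutative ring (write each of them as `aeval` of an integral polynomial in
`X 0, X 1`, `fm_map`).
(1) In a commutative ring of characteristic 2:  `hc` gives `q1(s,s+t) = q3(t,s+t)` (as `-s-t = s+t` and the last term
has a factor 2), `hb` gives `q3(t,s+t) = q3(s,s+t)`.  So `q1(s,s+t)=q3(s,s+t)`, i.e. `q1(x,y)=q3(x,y)` for all `x,y`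
(put `s=x`, `t=y-x`).  To get `q3(z,z)=0` in characteristic 2 use the integral identity: `h3` with `s=t`
gives `2 q3(z,z)=0` over `ℤ[X]`, so `q3(z,z)=0` in `ℤ[X]`-form (i.e. `poly_transfer` for `fm d a3 (X 0) (X 0)`), so
`q3(z,z)=0` in every commutative ring.  Hence `q1(z,z)=0` in characteristic 2.
(2) Consider `P = fm d a1 (X 0 - X 1) (X 0 + X 1)` over `ℤ` (polynomials in 2 variables).  Its image mod 2 is
`q1(s-t,s+t)=q1(s+t,s+t)=0`, so `P = 2 P'` (all coefficients are even, `MvPolynomial.C_dvd_iff_map_hom_eq_zero` or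
similar).  Hence `hb` reads `q3(t,s+t)+q3(s,s+t)-4P'=0`; in a commutative ring with `4=0`:
`q3(t,s+t) = -q3(s,s+t)`, i.e. `q3(y-x,y) = -q3(x,y)` for all `x,y` (put `s=x,t=y-x`).
(3) With `q3(y,x)=-q3(x,y)`: `q3(y,y-x) = -q3(y-x,y) = q3(x,y)` when `4=0`.  Iterating three times
(`(x,y) -> (y,y-x) -> (y-x,-x) -> (-x,-y)`): `q3(-x,-y)=q3(x,y)`.  As `d` is odd `q3(-x,-y)=-q3(x,y)`.  So
`2 q3(x,y)=0` in `(ZMod 4)[X]` at `x=X,y=1`; `fm_even4` gives `a3` even.  Then `q1(X,1)=q3(X,1)=0` in `(ZMod 2)[X]`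
and `fm_even` gives `a1` even. -/
theorem L1_even (K : ℕ) (hK : 1 ≤ K) (a1 a3 : ℕ → ℤ)
    (h3 : ∀ s t : ℤ, fm (2 * K - 1) a3 t s = - fm (2 * K - 1) a3 s t)
    (hb : ∀ s t : ℤ, fm (2 * K - 1) a3 t (s + t) + fm (2 * K - 1) a3 s (s + t)
      - 2 * fm (2 * K - 1) a1 (s - t) (s + t) = 0)
    (hc : ∀ s t : ℤ, fm (2 * K - 1) a3 t (- s - t) + fm (2 * K - 1) a1 s (s + t)
      + 2 * fm (2 * K - 1) a3 (s + t) (s - t) = 0) :
    ∀ i ≤ 2 * K - 1, (2 : ℤ) ∣ a1 i ∧ (2 : ℤ) ∣ a3 i := by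
  classical
  have hf : ∀ (a : ℕ → ℤ) (s t : Polynomial ℤ) (x : ℤ),
      (fm (2 * K - 1) (fun i => ((a i : ℤ) : Polynomial ℤ)) s t).eval x =
        fm (2 * K - 1) a (s.eval x) (t.eval x) := fun a s t x => A04a_eval _ a s t x
  obtain ⟨q1, q1def⟩ : ∃ q : Polynomial ℤ → Polynomial ℤ → Polynomial ℤ,
      ∀ s t, q s t = fm (2 * K - 1) (fun i => ((a1 i : ℤ) : Polynomial ℤ)) s t := ⟨_, fun _ _ => rfl⟩
  obtain ⟨q3, q3def⟩ : ∃ q : Polynomial ℤ → Polynomial ℤ → Polynomial ℤ,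
      ∀ s t, q s t = fm (2 * K - 1) (fun i => ((a3 i : ℤ) : Polynomial ℤ)) s t := ⟨_, fun _ _ => rfl⟩
  have q3anti : ∀ s t, q3 t s = - q3 s t := by
    intro s t
    have : q3 t s + q3 s t = 0 := by
      apply A04a_zero
      intro x
      rw [q3def, q3def, Polynomial.eval_add, hf, hf, h3 (s.eval x) (t.eval x)]
      ring
    linear_combination this
  have hB : ∀ s t, q3 t (s + t) + q3 s (s + t) - 2 * q1 (s - t) (s + t) = 0 := by
    intro s t
    apply A04a_zero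
    intro x
    have := hb (s.eval x) (t.eval x)
    simp only [q3def, q1def, Polynomial.eval_add, Polynomial.eval_sub, Polynomial.eval_mul, hf,
      Polynomial.eval_ofNat]
    exact this
  have hC : ∀ s t, q3 t (- s - t) + q1 s (s + t) + 2 * q3 (s + t) (s - t) = 0 := by
    intro s t
    apply A04a_zero
    intro x
    have := hc (s.eval x) (t.eval x)
    simp only [q3def, q1def, Polynomial.eval_add, Polynomial.eval_sub, Polynomial.eval_mul, hf,
      Polynomial.eval_ofNat, Polynomial.eval_neg]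
    exact this
  have q3neg : ∀ x y, q3 (-x) (-y) = -q3 x y := by
    intro x y
    rw [q3def, q3def]
    exact A04a_neg K hK _ x y
  have q3congr : ∀ n s s' t t' : Polynomial ℤ, n ∣ s - s' → n ∣ t - t' →
      n ∣ q3 s t - q3 s' t' := by
    intro n s s' t t' hs ht
    rw [q3def, q3def]
    exact A04a_congr _ _ n hs ht
  have q1congr : ∀ n s s' t t' : Polynomial ℤ, n ∣ s - s' → n ∣ t - t' →
      n ∣ q1 s t - q1 s' t' := by
    intro n s s' t t' hs ht
    rw [q1def, q1def]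
    exact A04a_congr _ _ n hs ht
  have hb' : ∀ x y, q3 (y - x) y + q3 x y = 2 * q1 (2 * x - y) y := by
    intro x y
    have h := hB x (y - x)
    have e1 : x + (y - x) = y := by ring
    have e2 : x - (y - x) = 2 * x - y := by ring
    rw [e1, e2] at h
    linear_combination h
  have hc' : ∀ x y, q3 (y - x) (-y) + q1 x y + 2 * q3 y (2 * x - y) = 0 := by
    intro x y
    have h := hC x (y - x)
    have e1 : x + (y - x) = y := by ring
    have e2 : x - (y - x) = 2 * x - y := by ring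
    have e3 : -x - (y - x) = -y := by ring
    rw [e1, e2, e3] at h
    linear_combination h
  -- step i : q1 = q3 mod 2
  have h1 : ∀ x y : Polynomial ℤ, (2 : Polynomial ℤ) ∣ q1 x y - q3 x y := by
    intro x y
    have h2 : (2 : Polynomial ℤ) ∣ q3 (y - x) (-y) - q3 (y - x) y := by
      apply q3congr
      · simp
      · exact ⟨-y, by ring⟩
    have h3 : q1 x y - q3 x y = -(q3 (y - x) (-y) - q3 (y - x) y) - 2 * q3 y (2 * x - y)
        - 2 * q1 (2 * x - y) y := by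
      linear_combination (hc' x y) - (hb' x y)
    rw [h3]
    exact dvd_sub (dvd_sub (dvd_neg.mpr h2) (dvd_mul_right _ _)) (dvd_mul_right _ _)
  -- step ii
  have h2 : ∀ x y : Polynomial ℤ, (2 : Polynomial ℤ) ∣ q1 (2 * x - y) y := by
    intro x y
    have h3 : (2 : Polynomial ℤ) ∣ q1 (2 * x - y) y - q1 y y := by
      apply q1congr
      · exact ⟨x - y, by ring⟩
      · simp
    have h4 : (2 : Polynomial ℤ) ∣ q1 y y := by
      have := h1 y y
      have e : q3 y y = 0 := by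
        have h5 := q3anti y y
        have h6 : (2 : Polynomial ℤ) * q3 y y = 0 := by linear_combination h5
        rcases mul_eq_zero.mp h6 with h7 | h7
        · exact absurd h7 two_ne_zero
        · exact h7
      rwa [e, sub_zero] at this
    have := dvd_add h3 h4
    rwa [sub_add_cancel] at this
  -- step iii
  have h3' : ∀ x y : Polynomial ℤ, (4 : Polynomial ℤ) ∣ q3 (y - x) y + q3 x y := by
    intro x y
    rw [hb' x y]
    obtain ⟨c, hc⟩ := h2 x y
    exact ⟨c, by rw [hc]; ring⟩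
  have h4 : ∀ x y : Polynomial ℤ, (4 : Polynomial ℤ) ∣ q3 x y - q3 y (y - x) := by
    intro x y
    have := h3' x y
    have e : q3 x y - q3 y (y - x) = q3 (y - x) y + q3 x y := by
      rw [q3anti (y - x) y]; ring
    rwa [e]
  have h5 : ∀ x y : Polynomial ℤ, (4 : Polynomial ℤ) ∣ q3 x y - q3 (-x) (-y) := by
    intro x y
    have a1 := h4 x y
    have a2 := h4 y (y - x)
    have a3 := h4 (y - x) (y - x - y)
    have e : q3 x y - q3 (-x) (-y) = (q3 x y - q3 y (y - x)) +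
        (q3 y (y - x) - q3 (y - x) (y - x - y)) +
        (q3 (y - x) (y - x - y) - q3 (y - x - y) (y - x - y - (y - x))) := by
      have e1 : y - x - y = -x := by ring
      have e2 : -x - (y - x) = -y := by ring
      rw [e1, e2]; ring
    rw [e]
    exact dvd_add (dvd_add a1 a2) a3
  have h6 : ∀ x y : Polynomial ℤ, (2 : Polynomial ℤ) ∣ q3 x y := by
    intro x y
    have := h5 x y
    rw [q3neg] at this
    obtain ⟨c, hc⟩ := this
    refine ⟨c, ?_⟩
    have h7 : (2 : Polynomial ℤ) * q3 x y = 2 * (2 * c) := by linear_combination hc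
    have h8 : (2 : Polynomial ℤ) ≠ 0 := two_ne_zero
    exact mul_left_cancel₀ h8 h7
  have h7 : ∀ x y : Polynomial ℤ, (2 : Polynomial ℤ) ∣ q1 x y := by
    intro x y
    have := dvd_add (h1 x y) (h6 x y)
    rwa [sub_add_cancel] at this
  intro i hi
  constructor
  · have := A04a_two_dvd_coeff (h7 Polynomial.X 1) i
    rw [q1def, A04a_coeff _ _ _ hi] at this
    exact this
  · have := A04a_two_dvd_coeff (h6 Polynomial.X 1) i
    rw [q3def, A04a_coeff _ _ _ hi] at this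
    exact this

end Pool.MP0eb725
end

section

set_option autoImplicit false

namespace Pool.MP0eb725

/-- extension by zero -/
def A04b_ext {A : Type*} [Zero A] (n : ℕ) (x : Fin n → A) (i : ℕ) : A :=
  if h : i < n then x ⟨i, h⟩ else 0

theorem A04b_fm_congr {A : Type*} [CommRing A] (d : ℕ) (a b : ℕ → A) (h : ∀ i ≤ d, a i = b i)
    (s t : A) : fm d a s t = fm d b s t := by
  unfold fm
  refine Finset.sum_congr rfl fun i hi => ?_
  rw [h i (Nat.lt_succ_iff.mp (Finset.mem_range.mp hi))]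

theorem A04b_fm_smul {A : Type*} [CommRing A] (d : ℕ) (c : A) (a : ℕ → A) (s t : A) :
    fm d (fun i => c * a i) s t = c * fm d a s t := by
  unfold fm
  rw [Finset.mul_sum]
  refine Finset.sum_congr rfl fun i _ => ?_
  ring

theorem A04b_fm_cast (d : ℕ) (a : ℕ → ℤ) (s t : ℤ) :
    ((fm d a s t : ℤ) : ℚ) = fm d (fun i => (a i : ℚ)) (s : ℚ) (t : ℚ) := by
  unfold fm
  push_cast
  rfl

/-- LEMMA L1 (from `L1_even` by `descent` on the pair of coefficient vectors). -/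
theorem L1 (K : ℕ) (hK : 1 ≤ K) (a1 a3 : ℕ → ℚ)
    (h3 : ∀ s t : ℚ, fm (2 * K - 1) a3 t s = - fm (2 * K - 1) a3 s t)
    (hb : ∀ s t : ℚ, fm (2 * K - 1) a3 t (s + t) + fm (2 * K - 1) a3 s (s + t)
      - 2 * fm (2 * K - 1) a1 (s - t) (s + t) = 0)
    (hc : ∀ s t : ℚ, fm (2 * K - 1) a3 t (- s - t) + fm (2 * K - 1) a1 s (s + t)
      + 2 * fm (2 * K - 1) a3 (s + t) (s - t) = 0) :
    ∀ i ≤ 2 * K - 1, a1 i = 0 ∧ a3 i = 0 := by
  classical
  let R : (Fin (2 * K) ⊕ Fin (2 * K) → ℚ) → Prop := fun x =>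
    (∀ s t : ℚ, fm (2 * K - 1) (A04b_ext (2 * K) (fun i => x (Sum.inr i))) t s =
      - fm (2 * K - 1) (A04b_ext (2 * K) (fun i => x (Sum.inr i))) s t) ∧
    (∀ s t : ℚ, fm (2 * K - 1) (A04b_ext (2 * K) (fun i => x (Sum.inr i))) t (s + t) +
      fm (2 * K - 1) (A04b_ext (2 * K) (fun i => x (Sum.inr i))) s (s + t)
      - 2 * fm (2 * K - 1) (A04b_ext (2 * K) (fun i => x (Sum.inl i))) (s - t) (s + t) = 0) ∧
    (∀ s t : ℚ, fm (2 * K - 1) (A04b_ext (2 * K) (fun i => x (Sum.inr i))) t (- s - t) +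
      fm (2 * K - 1) (A04b_ext (2 * K) (fun i => x (Sum.inl i))) s (s + t)
      + 2 * fm (2 * K - 1) (A04b_ext (2 * K) (fun i => x (Sum.inr i))) (s + t) (s - t) = 0)
  have key := descent R ?_ ?_ (Sum.elim (fun i => a1 i) (fun i => a3 i)) ?_
  · intro i hi
    exact ⟨key (Sum.inl ⟨i, by omega⟩), key (Sum.inr ⟨i, by omega⟩)⟩
  · -- scaling
    rintro c x ⟨r1, r2, r3⟩
    have e1 : ∀ s t : ℚ, fm (2 * K - 1) (A04b_ext (2 * K) (fun i => c * x (Sum.inl i))) s t =
        c * fm (2 * K - 1) (A04b_ext (2 * K) (fun i => x (Sum.inl i))) s t := by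
      intro s t
      rw [← A04b_fm_smul]
      refine A04b_fm_congr _ _ _ (fun i hi => ?_) s t
      have : i < 2 * K := by omega
      simp only [A04b_ext, dif_pos this]
    have e2 : ∀ s t : ℚ, fm (2 * K - 1) (A04b_ext (2 * K) (fun i => c * x (Sum.inr i))) s t =
        c * fm (2 * K - 1) (A04b_ext (2 * K) (fun i => x (Sum.inr i))) s t := by
      intro s t
      rw [← A04b_fm_smul]
      refine A04b_fm_congr _ _ _ (fun i hi => ?_) s t
      have : i < 2 * K := by omega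
      simp only [A04b_ext, dif_pos this]
    refine ⟨fun s t => ?_, fun s t => ?_, fun s t => ?_⟩
    · rw [e2, e2]
      linear_combination c * r1 s t
    · rw [e2, e2, e1]
      linear_combination c * r2 s t
    · rw [e2, e2, e1]
      linear_combination c * r3 s t
  · -- integral step
    rintro x ⟨r1, r2, r3⟩
    have e1 : ∀ s t : ℤ, fm (2 * K - 1) (A04b_ext (2 * K) (fun i => ((x (Sum.inl i) : ℤ) : ℚ)))
        (s : ℚ) (t : ℚ) =
        ((fm (2 * K - 1) (A04b_ext (2 * K) (fun i => x (Sum.inl i))) s t : ℤ) : ℚ) := by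
      intro s t
      rw [A04b_fm_cast]
      refine A04b_fm_congr _ _ _ (fun i hi => ?_) _ _
      have : i < 2 * K := by omega
      simp only [A04b_ext, dif_pos this]
    have e2 : ∀ s t : ℤ, fm (2 * K - 1) (A04b_ext (2 * K) (fun i => ((x (Sum.inr i) : ℤ) : ℚ)))
        (s : ℚ) (t : ℚ) =
        ((fm (2 * K - 1) (A04b_ext (2 * K) (fun i => x (Sum.inr i))) s t : ℤ) : ℚ) := by
      intro s t
      rw [A04b_fm_cast]
      refine A04b_fm_congr _ _ _ (fun i hi => ?_) _ _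
      have : i < 2 * K := by omega
      simp only [A04b_ext, dif_pos this]
    have key := L1_even K hK (A04b_ext (2 * K) (fun i => x (Sum.inl i)))
      (A04b_ext (2 * K) (fun i => x (Sum.inr i))) ?_ ?_ ?_
    · rintro (i | i)
      · have := (key i (by have := i.2; omega)).1
        simpa only [A04b_ext, dif_pos i.2] using this
      · have := (key i (by have := i.2; omega)).2
        simpa only [A04b_ext, dif_pos i.2] using this
    · intro s t
      have h := r1 s t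
      rw [e2, e2] at h
      exact_mod_cast h
    · intro s t
      have h := r2 s t
      have h' : ((fm (2 * K - 1) (A04b_ext (2 * K) (fun i => x (Sum.inr i))) t (s + t) +
        fm (2 * K - 1) (A04b_ext (2 * K) (fun i => x (Sum.inr i))) s (s + t)
        - 2 * fm (2 * K - 1) (A04b_ext (2 * K) (fun i => x (Sum.inl i))) (s - t) (s + t) : ℤ) : ℚ)
          = 0 := by
        push_cast
        rw [← e2, ← e2, ← e1]
        push_cast
        exact h
      exact_mod_cast h'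
    · intro s t
      have h := r3 s t
      have h' : ((fm (2 * K - 1) (A04b_ext (2 * K) (fun i => x (Sum.inr i))) t (- s - t) +
        fm (2 * K - 1) (A04b_ext (2 * K) (fun i => x (Sum.inl i))) s (s + t)
        + 2 * fm (2 * K - 1) (A04b_ext (2 * K) (fun i => x (Sum.inr i))) (s + t) (s - t) : ℤ) : ℚ)
          = 0 := by
        push_cast
        rw [← e2, ← e2, ← e1]
        push_cast
        exact h
      exact_mod_cast h'
  · -- the given vector
    have e1 : ∀ s t : ℚ, fm (2 * K - 1) (A04b_ext (2 * K) (fun i : Fin (2 * K) => a1 i)) s t =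
        fm (2 * K - 1) a1 s t := by
      intro s t
      refine A04b_fm_congr _ _ _ (fun i hi => ?_) s t
      have : i < 2 * K := by omega
      simp only [A04b_ext, dif_pos this]
    have e2 : ∀ s t : ℚ, fm (2 * K - 1) (A04b_ext (2 * K) (fun i : Fin (2 * K) => a3 i)) s t =
        fm (2 * K - 1) a3 s t := by
      intro s t
      refine A04b_fm_congr _ _ _ (fun i hi => ?_) s t
      have : i < 2 * K := by omega
      simp only [A04b_ext, dif_pos this]
    refine ⟨fun s t => ?_, fun s t => ?_, fun s t => ?_⟩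
    · simp only [Sum.elim_inr, e2]
      exact h3 s t
    · simp only [Sum.elim_inr, Sum.elim_inl, e1, e2]
      exact hb s t
    · simp only [Sum.elim_inr, Sum.elim_inl, e1, e2]
      exact hc s t

end Pool.MP0eb725
end

section

end

section

set_option autoImplicit false

namespace Pool.MP0eb725

/-- evaluation determines the coefficient vector -/
theorem evA_inj (d : ℕ) (a b : Ar d) (h : ∀ u v : ℚ, evA d a u v = evA d b u v) : a = b := by
  have key : ∀ c : Ar d, (∀ u : ℚ, evA d c u 1 = 0) → c = 0 := by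
    intro c hc
    have h0 : (∑ i : Fin (d + 1), Polynomial.C (c i) * Polynomial.X ^ (i : ℕ) : Polynomial ℚ) = 0 := by
      apply Polynomial.funext
      intro u
      have := hc u
      unfold evA at this
      simp only [one_pow, mul_one] at this
      rw [Polynomial.eval_finsetSum]
      simpa using this
    funext i
    have h1 := congrArg (fun p : Polynomial ℚ => p.coeff (i : ℕ)) h0
    simp only [Polynomial.finsetSum_coeff, Polynomial.coeff_C_mul, Polynomial.coeff_X_pow,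
      Polynomial.coeff_zero] at h1
    rw [Finset.sum_eq_single i] at h1
    · simpa using h1
    · intro j _ hj
      rw [if_neg (fun h => hj (Fin.ext h.symm)), mul_zero]
    · intro h; exact absurd (Finset.mem_univ i) h
  have h1 := key (a - b) (fun u => by
    have := h u 1
    unfold evA at this ⊢
    simp only [Pi.sub_apply, sub_mul, Finset.sum_sub_distrib]
    rw [this, sub_self])
  exact sub_eq_zero.mp h1

theorem A05a_add (d : ℕ) (a b : Ar d) (u v : ℚ) : evA d (a + b) u v = evA d a u v + evA d b u v := by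
  unfold evA
  simp only [Pi.add_apply, add_mul, Finset.sum_add_distrib]

theorem A05a_smul (d : ℕ) (c : ℚ) (a : Ar d) (u v : ℚ) : evA d (c • a) u v = c * evA d a u v := by
  unfold evA
  simp only [Pi.smul_apply, smul_eq_mul, Finset.mul_sum, mul_assoc]

theorem A05a_sum {ι : Type*} (d : ℕ) (S : Finset ι) (f : ι → Ar d) (u v : ℚ) :
    evA d (∑ i ∈ S, f i) u v = ∑ i ∈ S, evA d (f i) u v := by
  unfold evA
  simp only [Finset.sum_apply, Finset.sum_mul]
  rw [Finset.sum_comm]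

theorem A05a_form (d : ℕ) (a : Ar d) : IsForm d (evA d a) := by
  refine ⟨fun i => if h : i < d + 1 then a ⟨i, h⟩ else 0, fun u v => ?_⟩
  unfold evA
  rw [Finset.sum_range]
  refine Finset.sum_congr rfl fun i _ => ?_
  simp only [dif_pos i.2]

theorem A05a_exists (d : ℕ) (g : ℚ → ℚ → ℚ) (hg : IsForm d g) : ∃ a : Ar d, evA d a = g := by
  obtain ⟨a, ha⟩ := hg
  refine ⟨fun i => a i, ?_⟩
  funext u v
  rw [ha]
  unfold evA
  rw [Finset.sum_range]

/-- linear substitution `q(s,t) -> q(a s + b t, c s + e t)` on coefficient vectors.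
Proof: the image of each monomial is a form (`IsForm.comp_lin`), choose its coefficient vector and extend linearly
(`Fintype.linearCombination` or `∑ i, y i • M i`). -/
theorem exists_sb (d : ℕ) : ∃ sb : ℚ → ℚ → ℚ → ℚ → (Ar d →ₗ[ℚ] Ar d),
    ∀ (a b c e : ℚ) (y : Ar d) (s t : ℚ),
      evA d (sb a b c e y) s t = evA d y (a * s + b * t) (c * s + e * t) := by
  classical
  have h1 : ∀ (a b c e : ℚ) (y : Ar d), ∃ z : Ar d,
      evA d z = fun s t => evA d y (a * s + b * t) (c * s + e * t) := fun a b c e y =>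
    A05a_exists d _ ((A05a_form d y).comp_lin a b c e)
  choose f hf using h1
  refine ⟨fun a b c e =>
    { toFun := f a b c e
      map_add' := fun x y => ?_
      map_smul' := fun r x => ?_ }, fun a b c e y s t => ?_⟩
  · apply evA_inj
    intro u v
    rw [A05a_add, hf, hf, hf]
    exact A05a_add _ _ _ _ _
  · apply evA_inj
    intro u v
    rw [RingHom.id_apply, A05a_smul, hf, hf]
    exact A05a_smul _ _ _ _ _
  · show evA d (f a b c e y) s t = _
    rw [hf]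

theorem evA_pw (d : ℕ) (u v s t : ℚ) : evA d (pw d u v) s t = (u * s + v * t) ^ d := by
  unfold evA pw
  rw [add_pow, Finset.sum_range]
  refine Finset.sum_congr rfl fun i _ => ?_
  rw [mul_pow, mul_pow]
  ring

theorem bil_pw (d : ℕ) (u v : ℚ) (x : Ar d) : bil d (pw d u v) x = evA d x u v := by
  unfold bil evA pw
  refine Finset.sum_congr rfl fun i _ => ?_
  have h : ((d.choose (i : ℕ) : ℕ) : ℚ) ≠ 0 := by
    have := Nat.choose_pos (Nat.lt_succ_iff.mp i.2)
    exact_mod_cast this.ne'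
  field_simp

/-- the `d`-th powers of linear forms span.  Proof: `lam q = ∑ i, lam_i q_i`; `lam (pw u 1)` is the polynomial
`∑ i, lam_i C(d,i) u^i` in `u`, zero for all `u`. -/
theorem pw_span (d : ℕ) (lam : Ar d →ₗ[ℚ] ℚ) (h : ∀ u v : ℚ, lam (pw d u v) = 0) : lam = 0 := by
  classical
  have h1 : ∀ q : Ar d, lam q = ∑ i, q i * lam (Pi.single i 1) := by
    intro q
    conv_lhs => rw [pi_eq_sum_univ' q]
    rw [map_sum]
    refine Finset.sum_congr rfl fun i _ => ?_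
    rw [map_smul, smul_eq_mul]
  have h2 : (fun i : Fin (d + 1) => (d.choose (i : ℕ) : ℚ) * lam (Pi.single i 1) : Ar d) = 0 := by
    apply evA_inj
    intro u v
    have h3 := h u v
    rw [h1] at h3
    have h4 : evA d (0 : Ar d) u v = 0 := by unfold evA; simp
    rw [h4, ← h3]
    unfold evA pw
    refine Finset.sum_congr rfl fun i _ => ?_
    ring
  apply LinearMap.ext
  intro q
  rw [h1, LinearMap.zero_apply]
  refine Finset.sum_eq_zero fun i _ => ?_
  have h5 := congrFun h2 i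
  have h : ((d.choose (i : ℕ) : ℕ) : ℚ) ≠ 0 := by
    have := Nat.choose_pos (Nat.lt_succ_iff.mp i.2)
    exact_mod_cast this.ne'
  simp only [Pi.zero_apply, mul_eq_zero] at h5
  rcases h5 with h5 | h5
  · exact absurd h5 h
  · rw [h5, mul_zero]

/-- the pairing is non-degenerate -/
theorem bil_nondeg (d : ℕ) (q : Ar d) (h : ∀ x : Ar d, bil d q x = 0) : q = 0 := by
  classical
  funext i
  have h1 := h (Pi.single i 1)
  unfold bil at h1
  rw [Finset.sum_eq_single i] at h1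
  · have h : ((d.choose (i : ℕ) : ℕ) : ℚ) ≠ 0 := by
      have := Nat.choose_pos (Nat.lt_succ_iff.mp i.2)
      exact_mod_cast this.ne'
    rw [Pi.single_eq_same, mul_one, div_eq_zero_iff] at h1
    rcases h1 with h1 | h1
    · exact h1
    · exact absurd h1 h
  · intro j _ hj
    rw [Pi.single_eq_of_ne hj, mul_zero, zero_div]
  · intro h; exact absurd (Finset.mem_univ i) h

/-- linear algebra: if `J : P → Dual M` is injective and kills `S ≤ M` then `dim S + dim P ≤ dim M`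
(`range J ≤ S.dualAnnihilator`, `Subspace.finrank_add_finrank_dualAnnihilator_eq`). -/
theorem dim_ann {M P : Type*} [AddCommGroup M] [Module ℚ M] [FiniteDimensional ℚ M]
    [AddCommGroup P] [Module ℚ P] [FiniteDimensional ℚ P] (S : Submodule ℚ M)
    (J : P →ₗ[ℚ] Module.Dual ℚ M) (hJ : ∀ p, (∀ x : M, J p x = 0) → p = 0)
    (hS : ∀ p, ∀ x ∈ S, J p x = 0) :
    Module.finrank ℚ S + Module.finrank ℚ P ≤ Module.finrank ℚ M := by
  have hinj : Function.Injective J := by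
    rw [injective_iff_map_eq_zero]
    intro p hp
    refine hJ p fun x => ?_
    rw [hp]; rfl
  have h1 : LinearMap.range J ≤ S.dualAnnihilator := by
    rintro _ ⟨p, rfl⟩
    rw [Submodule.mem_dualAnnihilator]
    exact fun x hx => hS p x hx
  have h2 := Submodule.finrank_mono h1
  rw [LinearMap.finrank_range_of_inj hinj] at h2
  have h3 := Subspace.finrank_add_finrank_dualAnnihilator_eq S
  omega

end Pool.MP0eb725
end

section

set_option autoImplicit false

namespace Pool.MP0eb725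

/-- independence of the `4K` vectors of the annihilator (paper, STEP 1).
Write `Sy(s,t)=fo K z1 s t + fo K z1 t s`, `An(s,t)=fo K z2 s t - fo K z2 t s`, `q1(s,t)=fo K z3 t s` (even in `s`, odd
in `t`), `q3(s,t)=fo K z4 s t - fo K z4 t s`.
Proof: in `hb` exchange `s,t` and add: `-q1(s-t,s+t)-q1(t-s,s+t)+q3(t,s+t)+q3(s,s+t)=0`, `q1` even in the first variable,
so this is the hypothesis `hb` of `L1`; `hc` is the hypothesis `hc` of `L1`.  `q1`, `q3` are `fm (2K-1)` of suitable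
coefficient sequences (`fo_form`).  So `q1=q3=0`, hence `z3=0` (`fo_unique`), and `z4=0`: the monomials of
`fo K z4 s t` (odd exponent of `s`) and of `fo K z4 t s` (even exponent of `s`) are distinct.  Then `Sy=0`, `An=0` give
`z1=z2=0` in the same way. -/
theorem J_indep (K : ℕ) (hK : 1 ≤ K) (z1 z2 z3 z4 : ℕ → ℚ)
    (ha : ∀ s t : ℚ, (fo K z1 s t + fo K z1 t s) + fo K z3 t (s + t) + fo K z3 (s - t) (s + t) = 0)
    (hb : ∀ s t : ℚ, (fo K z2 s t - fo K z2 t s) - fo K z3 (s + t) (s - t)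
      + (fo K z4 t (s + t) - fo K z4 (s + t) t) = 0)
    (hc : ∀ s t : ℚ, fo K z3 (s + t) s + (fo K z4 t (- s - t) - fo K z4 (- s - t) t)
      + 2 * (fo K z4 (s + t) (s - t) - fo K z4 (s - t) (s + t)) = 0) :
    ∀ j < K, z1 j = 0 ∧ z2 j = 0 ∧ z3 j = 0 ∧ z4 j = 0 := by
  have hz0 : ∀ s t : ℚ, fo K (fun _ => (0 : ℚ)) s t = 0 := by
    intro s t
    unfold fo
    refine Finset.sum_eq_zero fun j _ => ?_
    ring
  have hzero : ∀ z : ℕ → ℚ, (∀ s t : ℚ, fo K z s t = 0) → ∀ j < K, z j = 0 := by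
    intro z hz
    exact fo_unique K z (fun _ => 0) (fun s t => by rw [hz, hz0])
  obtain ⟨o1, e1⟩ := fo_OE K z1
  obtain ⟨o2, e2⟩ := fo_OE K z2
  obtain ⟨o3, e3⟩ := fo_OE K z3
  obtain ⟨o4, e4⟩ := fo_OE K z4
  obtain ⟨a1, ha1⟩ := (fo_form K hK z3).comp_lin 0 1 1 0
  obtain ⟨a3, ha3⟩ := ((fo_form K hK z4).add' (((fo_form K hK z4).comp_lin 0 1 1 0).smul' (-1)))
  have f1 : ∀ s t : ℚ, fm (2 * K - 1) a1 s t = fo K z3 t s := by
    intro s t
    have := ha1 s t
    simp only [zero_mul, one_mul, zero_add, add_zero] at this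
    rw [this, fm]
  have f3 : ∀ s t : ℚ, fm (2 * K - 1) a3 s t = fo K z4 s t - fo K z4 t s := by
    intro s t
    have := ha3 s t
    simp only [zero_mul, one_mul, zero_add, add_zero] at this
    rw [fm, ← this]
    ring
  have key := L1 K hK a1 a3 (fun s t => by rw [f3, f3]; ring) (fun s t => by
    rw [f3, f3, f1]
    have h1 := hb s t
    have h2 := hb t s
    have h3 : fo K z3 (t + s) (t - s) = fo K z3 (s + t) (s - t) := by
      rw [add_comm t s, ← neg_sub s t, e3]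
    rw [h3, add_comm t s] at h2
    linear_combination h1 + h2) (fun s t => by
    rw [f3, f3, f1]
    linear_combination hc s t)
  have fmz : ∀ (a : ℕ → ℚ), (∀ i ≤ 2 * K - 1, a i = 0) → ∀ s t : ℚ, fm (2 * K - 1) a s t = 0 := by
    intro a h s t
    unfold fm
    refine Finset.sum_eq_zero fun j hj => ?_
    rw [h j (Nat.lt_succ_iff.mp (Finset.mem_range.mp hj)), zero_mul, zero_mul]
  have g3 : ∀ s t : ℚ, fo K z3 s t = 0 := by
    intro s t
    rw [← f1]
    exact fmz a1 (fun i hi => (key i hi).1) _ _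
  have g4' : ∀ s t : ℚ, fo K z4 s t - fo K z4 t s = 0 := by
    intro s t
    rw [← f3]
    exact fmz a3 (fun i hi => (key i hi).2) _ _
  have g4 : ∀ s t : ℚ, fo K z4 s t = 0 := by
    intro s t
    have h1 := g4' s t
    have h2 := g4' (-s) t
    rw [o4, e4] at h2
    linarith
  have g1 : ∀ s t : ℚ, fo K z1 s t = 0 := by
    intro s t
    have h1 := ha s t
    have h2 := ha (-s) t
    rw [g3, g3] at h1 h2
    rw [o1, e1] at h2
    linarith
  have g2 : ∀ s t : ℚ, fo K z2 s t = 0 := by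
    intro s t
    have h1 := hb s t
    have h2 := hb (-s) t
    rw [g3, g4, g4] at h1 h2
    rw [o2, e2] at h2
    linarith
  exact fun j hj => ⟨hzero z1 g1 j hj, hzero z2 g2 j hj, hzero z3 g3 j hj, hzero z4 g4 j hj⟩

end Pool.MP0eb725
end

section

set_option autoImplicit false

namespace Pool.MP0eb725

/-- the pairing as a linear map in the first variable -/
def A05c_bilL (d : ℕ) (x : Ar d) : Ar d →ₗ[ℚ] ℚ where
  toFun q := bil d q x
  map_add' p q := by
    unfold bil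
    rw [← Finset.sum_add_distrib]
    refine Finset.sum_congr rfl fun i _ => ?_
    rw [Pi.add_apply]
    ring
  map_smul' c p := by
    unfold bil
    rw [RingHom.id_apply, smul_eq_mul, Finset.mul_sum]
    refine Finset.sum_congr rfl fun i _ => ?_
    rw [Pi.smul_apply, smul_eq_mul]
    ring

/-- R2A and R2B on the dual side, for all forms `q` (paper, STEP 1).  Proof: both sides are linear in `q`, by `pw_span`
it is enough to take `q = pw u v`; `sb a b c e (pw u v) = pw (a u + c v) (b u + e v)` (`evA_inj`, `evA_pw`), and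
`bil (pw u v) x = evA x u v`. -/
theorem dual_rel (d : ℕ) (sb : ℚ → ℚ → ℚ → ℚ → (Ar d →ₗ[ℚ] Ar d))
    (hsb : ∀ (a b c e : ℚ) (y : Ar d) (s t : ℚ),
      evA d (sb a b c e y) s t = evA d y (a * s + b * t) (c * s + e * t))
    (xc xa xb : Ar d) (h1 : R2A (evA d xc) (evA d xa) (evA d xb)) (h2 : R2B (evA d xc) (evA d xb)) (q : Ar d) :
    (bil d (sb 1 0 1 1 q - sb 1 0 (-1) (-1) q) xc
      + bil d (sb 1 1 0 1 q - sb 1 1 0 (-1) q + (2 : ℚ) • sb 1 1 1 (-1) q) xa
      - 2 * bil d (sb 1 (-1) 1 1 q) xb = 0) ∧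
    (bil d (sb 0 1 (-1) (-1) q - sb (-1) (-1) 0 1 q + (2 : ℚ) • sb 1 1 1 (-1) q - (2 : ℚ) • sb 1 (-1) 1 1 q) xc
      + bil d (sb 0 1 1 1 q - sb 1 1 0 1 q) xb = 0) := by
  have hpw : ∀ a b c e u v : ℚ, sb a b c e (pw d u v) = pw d (a * u + c * v) (b * u + e * v) := by
    intro a b c e u v
    apply evA_inj
    intro s t
    rw [hsb, evA_pw, evA_pw]
    congr 1
    ring
  have hL : ∀ (x : Ar d) (u v : ℚ), A05c_bilL d x (pw d u v) = evA d x u v := fun x u v =>
    bil_pw d u v x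
  have k1 : A05c_bilL d xc ∘ₗ (sb 1 0 1 1 - sb 1 0 (-1) (-1))
      + A05c_bilL d xa ∘ₗ (sb 1 1 0 1 - sb 1 1 0 (-1) + (2 : ℚ) • sb 1 1 1 (-1))
      - (2 : ℚ) • (A05c_bilL d xb ∘ₗ (sb 1 (-1) 1 1)) = 0 := by
    apply pw_span
    intro u v
    simp only [LinearMap.sub_apply, LinearMap.add_apply, LinearMap.comp_apply, LinearMap.smul_apply,
      map_add, map_sub, map_smul, hpw, hL, smul_eq_mul]
    have := h1 u v
    rw [show (1 : ℚ) * u + 1 * v = u + v by ring, show (0 : ℚ) * u + 1 * v = v by ring,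
      show (1 : ℚ) * u + -1 * v = u - v by ring, show (0 : ℚ) * u + -1 * v = -v by ring,
      show (1 : ℚ) * u + 0 * v = u by ring, show (-1 : ℚ) * u + 1 * v = v - u by ring]
    linear_combination this
  have k2 : A05c_bilL d xc ∘ₗ (sb 0 1 (-1) (-1) - sb (-1) (-1) 0 1 + (2 : ℚ) • sb 1 1 1 (-1)
        - (2 : ℚ) • sb 1 (-1) 1 1)
      + A05c_bilL d xb ∘ₗ (sb 0 1 1 1 - sb 1 1 0 1) = 0 := by
    apply pw_span
    intro u v
    simp only [LinearMap.sub_apply, LinearMap.add_apply, LinearMap.comp_apply, LinearMap.smul_apply,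
      map_add, map_sub, map_smul, hpw, hL, smul_eq_mul]
    have := h2 u v
    rw [show (1 : ℚ) * u + 1 * v = u + v by ring, show (0 : ℚ) * u + 1 * v = v by ring,
      show (1 : ℚ) * u + -1 * v = u - v by ring, show (0 : ℚ) * u + -1 * v = -v by ring,
      show (1 : ℚ) * u + 0 * v = u by ring, show (-1 : ℚ) * u + 1 * v = v - u by ring,
      show (-1 : ℚ) * u + 0 * v = -u by ring]
    linear_combination this
  constructor
  · have := LinearMap.congr_fun k1 q
    simp only [LinearMap.sub_apply, LinearMap.add_apply, LinearMap.comp_apply,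
      LinearMap.smul_apply, LinearMap.zero_apply] at this
    exact this
  · have := LinearMap.congr_fun k2 q
    simp only [LinearMap.sub_apply, LinearMap.add_apply, LinearMap.comp_apply,
      LinearMap.smul_apply, LinearMap.zero_apply] at this
    exact this

end Pool.MP0eb725
end
end
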