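import Mathlib
import Pool.Agent.Lib.MP_0eb725_nt.A05c
import Pool.Agent.Lib.MP_0eb725_nt.AlgDefs
import Pool.Agent.Lib.MP_0eb725_nt.B06_Parity

section

end

section

set_option autoImplicit false

namespace Pool.MP0eb725

/-- From `Ec = 0`, `Ea = 0`: by `E_Nc`, `E_Na` also `Xc = Xa = 0`; subtract `Xc` from `Ec` and divide by 2, similarly
for `a`.  (`B = fo K b`, `Q = fo K y`.) -/
theorem E_zero_half (K : ℕ) (hK : 1 ≤ K) (b y : ℕ → ℚ) (k : ℚ)
    (hc : ∀ u v : ℚ, Ec (2 ^ (2 * K + 1)) (2 * K - 1) (fo K b) (fo K y) k u v = 0)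
    (ha : ∀ u v : ℚ, Ea (2 ^ (2 * K + 1)) (2 * K - 1) (fo K b) (fo K y) k u v = 0) (u v : ℚ) :
    ((2 ^ (2 * K) - 1) * fo K b u v + fo K b u (2 * v) - fo K b (2 * u) v + fo K b (u - v) (2 * v)
      - fo K y (u - v) (2 * u) - fo K y (2 * u) (u - v) + k * u ^ (2 * K - 1) = 0) ∧
    ((2 ^ (2 * K) - 1) * (fo K y u v - fo K y v u) + fo K y u (2 * v) + fo K y (2 * v) u
      - fo K y (2 * u) v - fo K y v (2 * u) + fo K b (2 * v) (u - v) - fo K b (2 * u) (u - v)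
      + k * (u ^ (2 * K - 1) - v ^ (2 * K - 1)) = 0) := by
  have hp : (2 : ℚ) ^ (2 * K + 1) = 2 * 2 ^ (2 * K) := by ring
  have hW : (2 : ℚ) ^ (2 * K + 1) + 1 ≠ 0 := by positivity
  have hXc : Xc (fo K b) (fo K y) u v = 0 := by
    have h := E_Nc K hK (fo K b) (fo K y) k (fo_OE K b) (fo_OE K y) (fo_hom K hK b) (fo_hom K hK y) u v
    rw [hc, hc, ha] at h
    have h2 : ((2 : ℚ) ^ (2 * K + 1) + 1) * Xc (fo K b) (fo K y) u v = 0 := by
      rw [← h]
      norm_num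
    exact (mul_eq_zero.1 h2).resolve_left hW
  have hXa : Xa (fo K b) (fo K y) u v = 0 := by
    have h := E_Na K hK (fo K b) (fo K y) k (fo_OE K b) (fo_OE K y) (fo_hom K hK b) (fo_hom K hK y) u v
    rw [hc, hc, ha] at h
    have h2 : ((2 : ℚ) ^ (2 * K + 1) + 1) * Xa (fo K b) (fo K y) u v = 0 := by
      rw [← h]
      norm_num
    exact (mul_eq_zero.1 h2).resolve_left hW
  have h1 := hc u v
  have h2 := ha u v
  unfold Xc at hXc
  unfold Xa at hXa
  unfold Ec at h1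
  unfold Ea at h2
  rw [hp] at h1 h2
  constructor
  · linear_combination (1 / 2 : ℚ) * h1 - (1 / 2 : ℚ) * hXc
  · linear_combination (1 / 2 : ℚ) * h2 - (1 / 2 : ℚ) * hXa

end Pool.MP0eb725
end

section

set_option autoImplicit false

namespace Pool.MP0eb725

/-- the left side of the first identity in a commutative ring -/
private def A07b_E1 {R : Type*} [CommRing R] (K : ℕ) (b y : ℕ → R) (k u v : R) : R :=
  (2 ^ (2 * K) - 1) * fo K b u v + fo K b u (2 * v) - fo K b (2 * u) v + fo K b (u - v) (2 * v)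
    - fo K y (u - v) (2 * u) - fo K y (2 * u) (u - v) + k * u ^ (2 * K - 1)

/-- the left side of the second identity in a commutative ring -/
private def A07b_E2 {R : Type*} [CommRing R] (K : ℕ) (b y : ℕ → R) (k u v : R) : R :=
  (2 ^ (2 * K) - 1) * (fo K y u v - fo K y v u) + fo K y u (2 * v) + fo K y (2 * v) u
    - fo K y (2 * u) v - fo K y v (2 * u) + fo K b (2 * v) (u - v) - fo K b (2 * u) (u - v)
    + k * (u ^ (2 * K - 1) - v ^ (2 * K - 1))

private theorem A07b_E1_map {R S : Type*} [CommRing R] [CommRing S] (φ : R →+* S) (K : ℕ) (b y : ℕ → R)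
    (k u v : R) :
    φ (A07b_E1 K b y k u v) = A07b_E1 K (fun i => φ (b i)) (fun i => φ (y i)) (φ k) (φ u) (φ v) := by
  simp only [A07b_E1, map_add, map_sub, map_mul, map_pow, map_one, map_ofNat, fo_map]

private theorem A07b_E2_map {R S : Type*} [CommRing R] [CommRing S] (φ : R →+* S) (K : ℕ) (b y : ℕ → R)
    (k u v : R) :
    φ (A07b_E2 K b y k u v) = A07b_E2 K (fun i => φ (b i)) (fun i => φ (y i)) (φ k) (φ u) (φ v) := by
  simp only [A07b_E2, map_add, map_sub, map_mul, map_pow, map_one, map_ofNat, fo_map]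

open MvPolynomial in
private theorem A07b_E1_key {B : Type*} [CommRing B] (K : ℕ) (b y : ℕ → ℤ) (k : ℤ) (x z : B) :
    (aeval ![x, z] (A07b_E1 K
      (fun i => ((b i : ℤ) : MvPolynomial (Fin 2) ℤ)) (fun i => ((y i : ℤ) : MvPolynomial (Fin 2) ℤ))
      ((k : ℤ) : MvPolynomial (Fin 2) ℤ) (X 0) (X 1)) : B) =
      A07b_E1 K (fun i => ((b i : ℤ) : B)) (fun i => ((y i : ℤ) : B)) (k : B) x z := by
  have h1 := A07b_E1_map ((aeval ![x, z] : MvPolynomial (Fin 2) ℤ →ₐ[ℤ] B) : MvPolynomial (Fin 2) ℤ →+* B)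
    K (fun i => ((b i : ℤ) : MvPolynomial (Fin 2) ℤ)) (fun i => ((y i : ℤ) : MvPolynomial (Fin 2) ℤ))
    ((k : ℤ) : MvPolynomial (Fin 2) ℤ) (X 0) (X 1)
  simpa using h1

open MvPolynomial in
private theorem A07b_E1_transfer (K : ℕ) (b y : ℕ → ℤ) (k : ℤ)
    (h : ∀ u v : ℤ, A07b_E1 K b y k u v = 0) {A : Type*} [CommRing A] (u v : A) :
    A07b_E1 K (fun i => ((b i : ℤ) : A)) (fun i => ((y i : ℤ) : A)) (k : A) u v = 0 := by
  rw [← A07b_E1_key]
  refine poly_transfer _ (fun u v => ?_) u v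
  rw [A07b_E1_key]
  simpa using h u v

open MvPolynomial in
private theorem A07b_E2_key {B : Type*} [CommRing B] (K : ℕ) (b y : ℕ → ℤ) (k : ℤ) (x z : B) :
    (aeval ![x, z] (A07b_E2 K
      (fun i => ((b i : ℤ) : MvPolynomial (Fin 2) ℤ)) (fun i => ((y i : ℤ) : MvPolynomial (Fin 2) ℤ))
      ((k : ℤ) : MvPolynomial (Fin 2) ℤ) (X 0) (X 1)) : B) =
      A07b_E2 K (fun i => ((b i : ℤ) : B)) (fun i => ((y i : ℤ) : B)) (k : B) x z := by
  have h1 := A07b_E2_map ((aeval ![x, z] : MvPolynomial (Fin 2) ℤ →ₐ[ℤ] B) : MvPolynomial (Fin 2) ℤ →+* B)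
    K (fun i => ((b i : ℤ) : MvPolynomial (Fin 2) ℤ)) (fun i => ((y i : ℤ) : MvPolynomial (Fin 2) ℤ))
    ((k : ℤ) : MvPolynomial (Fin 2) ℤ) (X 0) (X 1)
  simpa using h1

open MvPolynomial in
private theorem A07b_E2_transfer (K : ℕ) (b y : ℕ → ℤ) (k : ℤ)
    (h : ∀ u v : ℤ, A07b_E2 K b y k u v = 0) {A : Type*} [CommRing A] (u v : A) :
    A07b_E2 K (fun i => ((b i : ℤ) : A)) (fun i => ((y i : ℤ) : A)) (k : A) u v = 0 := by
  rw [← A07b_E2_key]
  refine poly_transfer _ (fun u v => ?_) u v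
  rw [A07b_E2_key]
  simpa using h u v

private theorem A07b_fo_zero_left {A : Type*} [CommRing A] (K : ℕ) (b : ℕ → A) (v : A) : fo K b 0 v = 0 := by
  unfold fo
  exact Finset.sum_eq_zero fun j _ => by simp

private theorem A07b_fo_zero_right {A : Type*} [CommRing A] (K : ℕ) (hK : 1 ≤ K) (b : ℕ → A) (u : A) :
    fo K b u 0 = b (K - 1) * u ^ (2 * K - 1) := by
  unfold fo
  rw [Finset.sum_eq_single (K - 1)]
  · have h1 : 2 * (K - 1) + 1 = 2 * K - 1 := by omega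
    rw [h1]
    simp
  · intro j hj hne
    rw [Finset.mem_range] at hj
    have h1 : 2 * (K - 1 - j) ≠ 0 := by omega
    rw [zero_pow h1, mul_zero]
  · intro h
    exact absurd (Finset.mem_range.2 (by omega)) h

open Polynomial in
private theorem A07b_even_of_mul_pow {g : ℤ} {d : ℕ} (h : ((g : ℤ) : (ZMod 2)[X]) * X ^ d = 0) : (2 : ℤ) ∣ g := by
  have h1 := congrArg (fun p : (ZMod 2)[X] => p.coeff d) h
  simp only [coeff_zero] at h1
  rw [← C_eq_intCast, coeff_C_mul, coeff_X_pow, if_pos rfl, mul_one] at h1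
  exact_mod_cast (ZMod.intCast_zmod_eq_zero_iff_dvd g 2).1 h1

open Polynomial in
/-- The integral step: transfer the two identities to commutative rings of characteristic 2 (`poly_transfer`).
There `2x = 0`, `fo K b x 0 = b (K-1) x^(2K-1) = 0` (as `b (K-1) = 0`), `fo K _ 0 y = 0`,
`fo K y x 0 = y (K-1) x^(2K-1)`, so with `g = y (K-1)`:
first identity: `B(u,v) + g (u+v)^d + k u^d = 0`; in `(ZMod 2)[X]`: `u=0,v=X`: `g X^d=0`, so `g` is even; `u=X,v=0`: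
`k X^d = 0`, so `k` is even; `u=X,v=1`: `B(X,1)=0`, so all `b j` are even (`fo_even`).
second identity: `Q(u,v)-Q(v,u) + g(u^d - v^d) + k(u^d-v^d) = 0`, so `Q(X,1) = Q(1,X)`; the left side has only odd, the
right side only even powers of `X`, so `Q(X,1)=0` and `y` is even. -/
theorem L3_even (K : ℕ) (hK : 1 ≤ K) (b y : ℕ → ℤ) (k : ℤ) (hb : b (K - 1) = 0)
    (h : ∀ u v : ℤ,
      ((2 ^ (2 * K) - 1) * fo K b u v + fo K b u (2 * v) - fo K b (2 * u) v + fo K b (u - v) (2 * v)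
        - fo K y (u - v) (2 * u) - fo K y (2 * u) (u - v) + k * u ^ (2 * K - 1) = 0) ∧
      ((2 ^ (2 * K) - 1) * (fo K y u v - fo K y v u) + fo K y u (2 * v) + fo K y (2 * v) u
        - fo K y (2 * u) v - fo K y v (2 * u) + fo K b (2 * v) (u - v) - fo K b (2 * u) (u - v)
        + k * (u ^ (2 * K - 1) - v ^ (2 * K - 1)) = 0)) :
    (∀ j < K, (2 : ℤ) ∣ b j) ∧ (∀ j < K, (2 : ℤ) ∣ y j) ∧ (2 : ℤ) ∣ k := by
  have hd : 2 * K - 1 ≠ 0 := by omega
  have h20 : (2 : (ZMod 2)[X]) = 0 := by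
    have : ((2 : ℕ) : (ZMod 2)[X]) = 0 := CharP.cast_eq_zero _ 2
    exact_mod_cast this
  have hW : ((2 : (ZMod 2)[X]) ^ (2 * K) - 1) = -1 := by
    rw [h20, zero_pow (by omega), zero_sub]
  have hb0 : ((b (K - 1) : ℤ) : (ZMod 2)[X]) = 0 := by rw [hb]; simp
  have e1 : ∀ u v : (ZMod 2)[X], - fo K (fun i => ((b i : ℤ) : (ZMod 2)[X])) u v
      - ((y (K - 1) : ℤ) : (ZMod 2)[X]) * (u - v) ^ (2 * K - 1) + (k : (ZMod 2)[X]) * u ^ (2 * K - 1) = 0 := by
    intro u v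
    have h1 := A07b_E1_transfer K b y k (fun u v => (h u v).1) u v
    unfold A07b_E1 at h1
    rw [hW, h20, zero_mul, zero_mul, A07b_fo_zero_left, A07b_fo_zero_left, A07b_fo_zero_right K hK,
      A07b_fo_zero_right K hK, A07b_fo_zero_right K hK, hb0] at h1
    linear_combination h1
  have e2 : ∀ u v : (ZMod 2)[X], - (fo K (fun i => ((y i : ℤ) : (ZMod 2)[X])) u v
      - fo K (fun i => ((y i : ℤ) : (ZMod 2)[X])) v u)
      + ((y (K - 1) : ℤ) : (ZMod 2)[X]) * (u ^ (2 * K - 1) - v ^ (2 * K - 1))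
      + (k : (ZMod 2)[X]) * (u ^ (2 * K - 1) - v ^ (2 * K - 1)) = 0 := by
    intro u v
    have h1 := A07b_E2_transfer K b y k (fun u v => (h u v).2) u v
    unfold A07b_E2 at h1
    rw [hW, h20, zero_mul, zero_mul] at h1
    simp only [A07b_fo_zero_left, A07b_fo_zero_right K hK] at h1
    linear_combination h1
  have hg : ((y (K - 1) : ℤ) : (ZMod 2)[X]) * X ^ (2 * K - 1) = 0 := by
    have h1 := e1 0 (-X)
    rw [A07b_fo_zero_left, zero_pow hd, zero_sub, neg_neg] at h1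
    linear_combination -h1
  have hg0 : ((y (K - 1) : ℤ) : (ZMod 2)[X]) = 0 := by
    obtain ⟨c, hc⟩ := A07b_even_of_mul_pow hg
    rw [hc]
    push_cast
    rw [h20, zero_mul]
  have hk : ((k : ℤ) : (ZMod 2)[X]) * X ^ (2 * K - 1) = 0 := by
    have h1 := e1 X 0
    rw [A07b_fo_zero_right K hK, hb0, hg0] at h1
    linear_combination h1
  have hk2 : (2 : ℤ) ∣ k := A07b_even_of_mul_pow hk
  have hk0 : ((k : ℤ) : (ZMod 2)[X]) = 0 := by
    obtain ⟨c, hc⟩ := hk2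
    rw [hc]
    push_cast
    rw [h20, zero_mul]
  refine ⟨?_, ?_, hk2⟩
  · refine fo_even K b ?_
    have h1 := e1 X 1
    rw [hg0, hk0] at h1
    linear_combination -h1
  · refine fo_even K y ?_
    have h1 := e2 X 1
    rw [hg0, hk0] at h1
    have h2 : fo K (fun i => ((y i : ℤ) : (ZMod 2)[X])) X 1 = fo K (fun i => ((y i : ℤ) : (ZMod 2)[X])) 1 X := by
      linear_combination -h1
    have hL : ∀ m : ℕ, (fo K (fun i => ((y i : ℤ) : (ZMod 2)[X])) X 1).coeff (2 * m) = 0 := by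
      intro m
      unfold fo
      rw [finsetSum_coeff]
      refine Finset.sum_eq_zero fun j _ => ?_
      change ((((y j : ℤ) : (ZMod 2)[X]) * X ^ (2 * j + 1)) * 1 ^ (2 * (K - 1 - j))).coeff (2 * m) = 0
      rw [one_pow, mul_one, ← C_eq_intCast, coeff_C_mul, coeff_X_pow, if_neg (by omega), mul_zero]
    have hR : ∀ m : ℕ, (fo K (fun i => ((y i : ℤ) : (ZMod 2)[X])) 1 X).coeff (2 * m + 1) = 0 := by
      intro m
      unfold fo
      rw [finsetSum_coeff]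
      refine Finset.sum_eq_zero fun j _ => ?_
      change ((((y j : ℤ) : (ZMod 2)[X]) * 1 ^ (2 * j + 1)) * X ^ (2 * (K - 1 - j))).coeff (2 * m + 1) = 0
      rw [one_pow, mul_one, ← C_eq_intCast, coeff_C_mul, coeff_X_pow, if_neg (by omega), mul_zero]
    ext n
    rw [coeff_zero]
    rcases Nat.even_or_odd' n with ⟨m, rfl | rfl⟩
    · exact hL m
    · rw [h2]
      exact hR m

end Pool.MP0eb725
end

section

set_option autoImplicit false

namespace Pool.MP0eb725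

/-- extension by zero of a vector -/
def A05d_ext (K : ℕ) (z : Fin K → ℚ) (j : ℕ) : ℚ := if h : j < K then z ⟨j, h⟩ else 0

theorem A05d_ext_add (K : ℕ) (z w : Fin K → ℚ) (u v : ℚ) :
    fo K (A05d_ext K (z + w)) u v = fo K (A05d_ext K z) u v + fo K (A05d_ext K w) u v := by
  unfold fo
  rw [← Finset.sum_add_distrib]
  refine Finset.sum_congr rfl fun j hj => ?_
  simp only [A05d_ext, dif_pos (Finset.mem_range.mp hj), Pi.add_apply]
  ring

theorem A05d_ext_smul (K : ℕ) (c : ℚ) (z : Fin K → ℚ) (u v : ℚ) :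
    fo K (A05d_ext K (c • z)) u v = c * fo K (A05d_ext K z) u v := by
  unfold fo
  rw [Finset.mul_sum]
  refine Finset.sum_congr rfl fun j hj => ?_
  simp only [A05d_ext, dif_pos (Finset.mem_range.mp hj), Pi.smul_apply, smul_eq_mul]
  ring

/-- coefficient vector of `fo K z`, linear in `z` -/
theorem A05d_foA (K : ℕ) (hK : 1 ≤ K) : ∃ F : (Fin K → ℚ) →ₗ[ℚ] Ar (2 * K - 1),
    ∀ (z : Fin K → ℚ) (u v : ℚ), evA (2 * K - 1) (F z) u v = fo K (A05d_ext K z) u v := by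
  have h1 : ∀ z : Fin K → ℚ, ∃ a : Ar (2 * K - 1), evA (2 * K - 1) a = fo K (A05d_ext K z) :=
    fun z => A05a_exists _ _ (fo_form K hK _)
  choose f hf using h1
  refine ⟨{ toFun := f
            map_add' := fun x y => ?_
            map_smul' := fun r x => ?_ }, fun z u v => ?_⟩
  · apply evA_inj
    intro u v
    rw [A05a_add, hf, hf, hf, A05d_ext_add]
  · apply evA_inj
    intro u v
    rw [RingHom.id_apply, A05a_smul, hf, hf, A05d_ext_smul]
  · show evA _ (f z) u v = _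
    rw [hf]

theorem A05d_bil_add_left (d : ℕ) (p q x : Ar d) : bil d (p + q) x = bil d p x + bil d q x :=
  (A05c_bilL d x).map_add p q

theorem A05d_bil_smul_left (d : ℕ) (c : ℚ) (q x : Ar d) : bil d (c • q) x = c * bil d q x :=
  (A05c_bilL d x).map_smul c q

theorem A05d_bil_sub_left (d : ℕ) (p q x : Ar d) : bil d (p - q) x = bil d p x - bil d q x :=
  (A05c_bilL d x).map_sub p q

theorem A05d_bil_neg_left (d : ℕ) (p x : Ar d) : bil d (-p) x = - bil d p x :=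
  (A05c_bilL d x).map_neg p

theorem A05d_bil_zero_left (d : ℕ) (x : Ar d) : bil d 0 x = 0 :=
  (A05c_bilL d x).map_zero

theorem A05d_bil_add_right (d : ℕ) (q x y : Ar d) : bil d q (x + y) = bil d q x + bil d q y := by
  unfold bil
  rw [← Finset.sum_add_distrib]
  refine Finset.sum_congr rfl fun i _ => ?_
  rw [Pi.add_apply]
  ring

theorem A05d_bil_smul_right (d : ℕ) (c : ℚ) (q x : Ar d) : bil d q (c • x) = c * bil d q x := by
  unfold bil
  rw [Finset.mul_sum]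
  refine Finset.sum_congr rfl fun i _ => ?_
  rw [Pi.smul_apply, smul_eq_mul]
  ring

theorem A05d_bil_zero_right (d : ℕ) (q : Ar d) : bil d q 0 = 0 := by
  have := A05d_bil_smul_right d 0 q 0
  simpa using this

theorem A05d_neg (d : ℕ) (a : Ar d) (u v : ℚ) : evA d (-a) u v = - evA d a u v := by
  have := A05a_smul d (-1) a u v
  rw [neg_one_smul] at this
  rw [this]; ring

theorem A05d_sub (d : ℕ) (a b : Ar d) (u v : ℚ) :
    evA d (a - b) u v = evA d a u v - evA d b u v := by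
  rw [sub_eq_add_neg, A05a_add, A05d_neg]; ring

/-- dimension count for coefficient vectors (order of components `c, a, b`).
Proof: `P = (Fin K → ℚ)^4`, `foA z : Ar d` the coefficient vector of `fo K z`, `sw = sb 0 1 1 0`, `q1 = sw (foA z3)`,
`q3 = foA z4 - sw (foA z4)`,
`J (z1,z2,z3,z4) x = bil (foA z1 + sw (foA z1) + sb 1 1 0 1 q1 + sb 1 1 1 (-1) q1) xa
   + bil (foA z2 - sw (foA z2) - sb 1 (-1) 1 1 q1 + sb 0 1 1 1 q3) xb
   + bil (sb 1 0 1 1 q1 + sb 0 1 (-1) (-1) q3 + 2 sb 1 1 1 (-1) q3) xc`.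
`J` is injective by `bil_nondeg` and `J_indep`.  `J` kills `S`: the `z1`-part because `xa` is antisymmetric
(`xa i = - xa (d-i)`) and the vector is symmetric, the `z2`-part similarly; the `z3`-part is 1/2 of the first relation
of `dual_rel` for `q = q1` (even in `s`, odd in `t`: `sb 1 0 (-1) (-1) q1 = - sb 1 0 1 1 q1`,
`sb 1 1 0 (-1) q1 = - sb 1 1 0 1 q1`); the `z4`-part is 1/2 of the second one for the antisymmetric `q = q3`
(`sb (-1) (-1) 0 1 q3 = - sb 0 1 (-1) (-1) q3`, `sb 1 1 0 1 q3 = - sb 0 1 1 1 q3`, `sb 1 (-1) 1 1 q3 = - sb 1 1 1 (-1) q3`).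
`dim_ann` with `finrank M = 3 (d + 1) = 6 K`, `finrank P = 4 K`. -/
theorem dim_core (K : ℕ) (hK : 1 ≤ K)
    (S : Submodule ℚ (Ar (2 * K - 1) × Ar (2 * K - 1) × Ar (2 * K - 1)))
    (hS : ∀ x ∈ S, (∀ u v : ℚ, evA (2 * K - 1) x.2.1 v u = - evA (2 * K - 1) x.2.1 u v) ∧
      (∀ u v : ℚ, evA (2 * K - 1) x.2.2 v u = evA (2 * K - 1) x.2.2 u v) ∧
      R2A (evA (2 * K - 1) x.1) (evA (2 * K - 1) x.2.1) (evA (2 * K - 1) x.2.2) ∧
      R2B (evA (2 * K - 1) x.1) (evA (2 * K - 1) x.2.2)) :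
    Module.finrank ℚ S ≤ 2 * K := by
  classical
  obtain ⟨sb, hsb⟩ := exists_sb (2 * K - 1)
  obtain ⟨F, hF⟩ := A05d_foA K hK
  -- the two auxiliary forms
  let q1 : (Fin K → ℚ) →ₗ[ℚ] Ar (2 * K - 1) := sb 0 1 1 0 ∘ₗ F
  let q3 : (Fin K → ℚ) →ₗ[ℚ] Ar (2 * K - 1) := F - sb 0 1 1 0 ∘ₗ F
  have hq1 : ∀ (z : Fin K → ℚ) (s t : ℚ), evA (2 * K - 1) (q1 z) s t = fo K (A05d_ext K z) t s := by
    intro z s t
    show evA (2 * K - 1) (sb 0 1 1 0 (F z)) s t = _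
    rw [hsb, hF]
    congr 1 <;> ring
  have hsw : ∀ (z : Fin K → ℚ) (s t : ℚ), evA (2 * K - 1) (sb 0 1 1 0 (F z)) s t =
      fo K (A05d_ext K z) t s := hq1
  have hq3 : ∀ (z : Fin K → ℚ) (s t : ℚ), evA (2 * K - 1) (q3 z) s t =
      fo K (A05d_ext K z) s t - fo K (A05d_ext K z) t s := by
    intro z s t
    show evA (2 * K - 1) (F z - sb 0 1 1 0 (F z)) s t = _
    rw [A05d_sub, hF, hsw]
  let P := (Fin K → ℚ) × (Fin K → ℚ) × (Fin K → ℚ) × (Fin K → ℚ)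
  let p1 : P →ₗ[ℚ] (Fin K → ℚ) := LinearMap.fst ℚ _ _
  let p2 : P →ₗ[ℚ] (Fin K → ℚ) := LinearMap.fst ℚ _ _ ∘ₗ LinearMap.snd ℚ _ _
  let p3 : P →ₗ[ℚ] (Fin K → ℚ) := LinearMap.fst ℚ _ _ ∘ₗ LinearMap.snd ℚ _ _ ∘ₗ LinearMap.snd ℚ _ _
  let p4 : P →ₗ[ℚ] (Fin K → ℚ) := LinearMap.snd ℚ _ _ ∘ₗ LinearMap.snd ℚ _ _ ∘ₗ LinearMap.snd ℚ _ _
  let Ja : P →ₗ[ℚ] Ar (2 * K - 1) :=
    F ∘ₗ p1 + sb 0 1 1 0 ∘ₗ F ∘ₗ p1 + sb 1 1 0 1 ∘ₗ q1 ∘ₗ p3 + sb 1 1 1 (-1) ∘ₗ q1 ∘ₗ p3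
  let Jb : P →ₗ[ℚ] Ar (2 * K - 1) :=
    F ∘ₗ p2 - sb 0 1 1 0 ∘ₗ F ∘ₗ p2 - sb 1 (-1) 1 1 ∘ₗ q1 ∘ₗ p3 + sb 0 1 1 1 ∘ₗ q3 ∘ₗ p4
  let Jc : P →ₗ[ℚ] Ar (2 * K - 1) :=
    sb 1 0 1 1 ∘ₗ q1 ∘ₗ p3 + sb 0 1 (-1) (-1) ∘ₗ q3 ∘ₗ p4 + (2 : ℚ) • (sb 1 1 1 (-1) ∘ₗ q3 ∘ₗ p4)
  let J : P →ₗ[ℚ] Module.Dual ℚ (Ar (2 * K - 1) × Ar (2 * K - 1) × Ar (2 * K - 1)) :=
    LinearMap.mk₂ ℚ (fun p x => bil (2 * K - 1) (Jc p) x.1 + bil (2 * K - 1) (Ja p) x.2.1 +
      bil (2 * K - 1) (Jb p) x.2.2)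
      (by
        intro p p' x
        rw [map_add, map_add, map_add, A05d_bil_add_left, A05d_bil_add_left, A05d_bil_add_left]
        ring)
      (by
        intro c p x
        rw [map_smul, map_smul, map_smul, A05d_bil_smul_left, A05d_bil_smul_left,
          A05d_bil_smul_left, smul_eq_mul]
        ring)
      (by
        intro p x y
        rw [Prod.fst_add, Prod.snd_add, Prod.fst_add, Prod.snd_add, A05d_bil_add_right,
          A05d_bil_add_right, A05d_bil_add_right]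
        ring)
      (by
        intro c p x
        rw [Prod.smul_fst, Prod.smul_snd, Prod.smul_fst, Prod.smul_snd, A05d_bil_smul_right,
          A05d_bil_smul_right, A05d_bil_smul_right, smul_eq_mul]
        ring)
  have hJ : ∀ p x, J p x = bil (2 * K - 1) (Jc p) x.1 + bil (2 * K - 1) (Ja p) x.2.1 +
      bil (2 * K - 1) (Jb p) x.2.2 := fun p x => rfl
  have hev0 : ∀ s t : ℚ, evA (2 * K - 1) (0 : Ar (2 * K - 1)) s t = 0 := by
    intro s t; unfold evA; simp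
  have hdim := dim_ann S J ?_ ?_
  · have e1 : Module.finrank ℚ (Ar (2 * K - 1) × Ar (2 * K - 1) × Ar (2 * K - 1)) = 6 * K := by
      rw [Module.finrank_prod, Module.finrank_prod, Module.finrank_fin_fun]
      omega
    have e2 : Module.finrank ℚ P = 4 * K := by
      show Module.finrank ℚ ((Fin K → ℚ) × (Fin K → ℚ) × (Fin K → ℚ) × (Fin K → ℚ)) = _
      rw [Module.finrank_prod, Module.finrank_prod, Module.finrank_prod, Module.finrank_fin_fun]
      omega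
    rw [e1, e2] at hdim
    omega
  · -- injectivity
    rintro ⟨z1, z2, z3, z4⟩ h
    have hc0 : Jc (z1, z2, z3, z4) = 0 := by
      apply bil_nondeg
      intro x
      have := h (x, 0, 0)
      rw [hJ] at this
      simpa only [A05d_bil_zero_right, add_zero] using this
    have ha0 : Ja (z1, z2, z3, z4) = 0 := by
      apply bil_nondeg
      intro x
      have := h (0, x, 0)
      rw [hJ] at this
      simpa only [A05d_bil_zero_right, add_zero, zero_add] using this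
    have hb0 : Jb (z1, z2, z3, z4) = 0 := by
      apply bil_nondeg
      intro x
      have := h (0, 0, x)
      rw [hJ] at this
      simpa only [A05d_bil_zero_right, add_zero, zero_add] using this
    have hc0' : sb 1 0 1 1 (q1 z3) + sb 0 1 (-1) (-1) (q3 z4) + (2 : ℚ) • (sb 1 1 1 (-1) (q3 z4))
        = 0 := hc0
    have ha0' : F z1 + sb 0 1 1 0 (F z1) + sb 1 1 0 1 (q1 z3) + sb 1 1 1 (-1) (q1 z3) = 0 := ha0
    have hb0' : F z2 - sb 0 1 1 0 (F z2) - sb 1 (-1) 1 1 (q1 z3) + sb 0 1 1 1 (q3 z4) = 0 := hb0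
    have key := J_indep K hK (A05d_ext K z1) (A05d_ext K z2) (A05d_ext K z3) (A05d_ext K z4)
      (by
        intro s t
        have := congrArg (fun a => evA (2 * K - 1) a s t) ha0'
        simp only [A05a_add, hsb, hF, hq1, hev0] at this
        rw [show (0 : ℚ) * s + 1 * t = t by ring, show (1 : ℚ) * s + 0 * t = s by ring,
          show (1 : ℚ) * s + 1 * t = s + t by ring, show (1 : ℚ) * s + -1 * t = s - t by ring] at this
        exact this)
      (by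
        intro s t
        have := congrArg (fun a => evA (2 * K - 1) a s t) hb0'
        simp only [A05a_add, A05d_sub, hsb, hF, hq1, hq3, hev0] at this
        rw [show (0 : ℚ) * s + 1 * t = t by ring, show (1 : ℚ) * s + 0 * t = s by ring,
          show (1 : ℚ) * s + 1 * t = s + t by ring, show (1 : ℚ) * s + -1 * t = s - t by ring] at this
        exact this)
      (by
        intro s t
        have := congrArg (fun a => evA (2 * K - 1) a s t) hc0'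
        simp only [A05a_add, A05a_smul, hsb, hq1, hq3, hev0] at this
        rw [show (0 : ℚ) * s + 1 * t = t by ring, show (1 : ℚ) * s + 0 * t = s by ring,
          show (1 : ℚ) * s + 1 * t = s + t by ring, show (1 : ℚ) * s + -1 * t = s - t by ring,
          show (-1 : ℚ) * s + -1 * t = -s - t by ring] at this
        exact this)
    have hz : ∀ z : Fin K → ℚ, (∀ j < K, A05d_ext K z j = 0) → z = 0 := by
      intro z hz
      funext j
      have := hz j j.2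
      simp only [A05d_ext, dif_pos j.2] at this
      exact this
    rw [hz z1 fun j hj => (key j hj).1, hz z2 fun j hj => (key j hj).2.1,
      hz z3 fun j hj => (key j hj).2.2.1, hz z4 fun j hj => (key j hj).2.2.2]
    rfl
  · -- `J` kills `S`
    rintro ⟨z1, z2, z3, z4⟩ ⟨xc, xa, xb⟩ hx
    obtain ⟨hsa, hsb', h2a, h2b⟩ := hS _ hx
    have hpw : ∀ a b c e u v : ℚ, sb a b c e (pw (2 * K - 1) u v) =
        pw (2 * K - 1) (a * u + c * v) (b * u + e * v) := by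
      intro a b c e u v
      apply evA_inj
      intro s t
      rw [hsb, evA_pw, evA_pw]
      congr 1
      ring
    -- symmetry parts
    have ks : ∀ q : Ar (2 * K - 1), bil (2 * K - 1) (q + sb 0 1 1 0 q) xa = 0 := by
      have : A05c_bilL (2 * K - 1) xa ∘ₗ (LinearMap.id + sb 0 1 1 0) = 0 := by
        apply pw_span
        intro u v
        show bil (2 * K - 1) (pw (2 * K - 1) u v + sb 0 1 1 0 (pw (2 * K - 1) u v)) xa = 0
        rw [hpw, A05d_bil_add_left, bil_pw, bil_pw, show (0 : ℚ) * u + 1 * v = v by ring,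
          show (1 : ℚ) * u + 0 * v = u by ring, hsa u v]
        ring
      intro q
      exact LinearMap.congr_fun this q
    have kt : ∀ q : Ar (2 * K - 1), bil (2 * K - 1) (q - sb 0 1 1 0 q) xb = 0 := by
      have : A05c_bilL (2 * K - 1) xb ∘ₗ (LinearMap.id - sb 0 1 1 0) = 0 := by
        apply pw_span
        intro u v
        show bil (2 * K - 1) (pw (2 * K - 1) u v - sb 0 1 1 0 (pw (2 * K - 1) u v)) xb = 0
        rw [hpw, A05d_bil_sub_left, bil_pw, bil_pw, show (0 : ℚ) * u + 1 * v = v by ring,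
          show (1 : ℚ) * u + 0 * v = u by ring, hsb' u v]
        ring
      intro q
      exact LinearMap.congr_fun this q
    obtain ⟨o3, e3⟩ := fo_OE K (A05d_ext K z3)
    -- first relation for `q1 z3`
    have r1 := (dual_rel (2 * K - 1) sb hsb xc xa xb h2a h2b (q1 z3)).1
    have s1 : sb 1 0 (-1) (-1) (q1 z3) = - sb 1 0 1 1 (q1 z3) := by
      apply evA_inj
      intro s t
      rw [A05d_neg, hsb, hsb, hq1, hq1, ← o3]
      congr 1
      ring
    have s2 : sb 1 1 0 (-1) (q1 z3) = - sb 1 1 0 1 (q1 z3) := by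
      apply evA_inj
      intro s t
      rw [A05d_neg, hsb, hsb, hq1, hq1, ← o3]
      congr 1
      ring
    have q3anti : ∀ s t : ℚ, evA (2 * K - 1) (q3 z4) s t = - evA (2 * K - 1) (q3 z4) t s := by
      intro s t
      rw [hq3, hq3]; ring
    have r2 := (dual_rel (2 * K - 1) sb hsb xc xa xb h2a h2b (q3 z4)).2
    have s3 : sb (-1) (-1) 0 1 (q3 z4) = - sb 0 1 (-1) (-1) (q3 z4) := by
      apply evA_inj
      intro s t
      rw [A05d_neg, hsb, hsb, q3anti]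
    have s4 : sb 1 1 0 1 (q3 z4) = - sb 0 1 1 1 (q3 z4) := by
      apply evA_inj
      intro s t
      rw [A05d_neg, hsb, hsb, q3anti]
    have s5 : sb 1 (-1) 1 1 (q3 z4) = - sb 1 1 1 (-1) (q3 z4) := by
      apply evA_inj
      intro s t
      rw [A05d_neg, hsb, hsb, q3anti]
    rw [s1, s2] at r1
    rw [s3, s4, s5] at r2
    simp only [A05d_bil_add_left, A05d_bil_sub_left, A05d_bil_neg_left, A05d_bil_smul_left] at r1 r2
    have t1 := ks (F z1)
    have t2 := kt (F z2)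
    rw [A05d_bil_add_left] at t1
    rw [A05d_bil_sub_left] at t2
    rw [hJ]
    show bil (2 * K - 1) (sb 1 0 1 1 (q1 z3) + sb 0 1 (-1) (-1) (q3 z4) +
        (2 : ℚ) • (sb 1 1 1 (-1) (q3 z4))) xc
      + bil (2 * K - 1) (F z1 + sb 0 1 1 0 (F z1) + sb 1 1 0 1 (q1 z3) + sb 1 1 1 (-1) (q1 z3)) xa
      + bil (2 * K - 1) (F z2 - sb 0 1 1 0 (F z2) - sb 1 (-1) 1 1 (q1 z3) + sb 0 1 1 1 (q3 z4)) xb
      = 0
    simp only [A05d_bil_add_left, A05d_bil_sub_left, A05d_bil_smul_left]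
    linear_combination t1 + t2 + (1 / 2 : ℚ) * r1 + (1 / 2 : ℚ) * r2

end Pool.MP0eb725
end

section

set_option autoImplicit false

namespace Pool.MP0eb725

/-- the two halved identities -/
def A07c_H (K : ℕ) (b y : ℕ → ℚ) (k : ℚ) : Prop :=
  b (K - 1) = 0 ∧ ∀ u v : ℚ,
    ((2 ^ (2 * K) - 1) * fo K b u v + fo K b u (2 * v) - fo K b (2 * u) v + fo K b (u - v) (2 * v)
      - fo K y (u - v) (2 * u) - fo K y (2 * u) (u - v) + k * u ^ (2 * K - 1) = 0) ∧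
    ((2 ^ (2 * K) - 1) * (fo K y u v - fo K y v u) + fo K y u (2 * v) + fo K y (2 * v) u
      - fo K y (2 * u) v - fo K y v (2 * u) + fo K b (2 * v) (u - v) - fo K b (2 * u) (u - v)
      + k * (u ^ (2 * K - 1) - v ^ (2 * K - 1)) = 0)

/-- extension of a finite vector by zero -/
def A07c_ext {A : Type*} [Zero A] (K : ℕ) (a : Fin K → A) (j : ℕ) : A :=
  if h : j < K then a ⟨j, h⟩ else 0

theorem A07c_ext_of_lt {A : Type*} [Zero A] (K : ℕ) (a : Fin K → A) (j : ℕ) (h : j < K) :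
    A07c_ext K a j = a ⟨j, h⟩ := by
  unfold A07c_ext
  rw [dif_pos h]

theorem A07c_ext_smul (K : ℕ) (c : ℚ) (a : Fin K → ℚ) :
    A07c_ext K (fun i => c * a i) = fun j => c * A07c_ext K a j := by
  funext j
  unfold A07c_ext
  split_ifs with h
  · rfl
  · simp

theorem A07c_ext_cast (K : ℕ) (a : Fin K → ℤ) :
    A07c_ext K (fun i => (a i : ℚ)) = fun j => ((A07c_ext K a j : ℤ) : ℚ) := by
  funext j
  unfold A07c_ext
  split_ifs with h
  · rfl
  · simp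

theorem A07c_fo_smul (K : ℕ) (c : ℚ) (b : ℕ → ℚ) (u v : ℚ) :
    fo K (fun j => c * b j) u v = c * fo K b u v := by
  unfold fo
  rw [Finset.mul_sum]
  exact Finset.sum_congr rfl fun j _ => by ring

theorem A07c_fo_cast (K : ℕ) (b : ℕ → ℤ) (u v : ℤ) :
    fo K (fun j => (b j : ℚ)) (u : ℚ) (v : ℚ) = ((fo K b u v : ℤ) : ℚ) := by
  unfold fo
  push_cast
  rfl

theorem A07c_fo_congr (K : ℕ) (b c : ℕ → ℚ) (h : ∀ j < K, b j = c j) : fo K b = fo K c := by
  funext u v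
  unfold fo
  exact Finset.sum_congr rfl fun j hj => by rw [h j (Finset.mem_range.mp hj)]

theorem A07c_H_smul (K : ℕ) (b y : ℕ → ℚ) (k c : ℚ) (h : A07c_H K b y k) :
    A07c_H K (fun j => c * b j) (fun j => c * y j) (c * k) := by
  obtain ⟨h0, h1⟩ := h
  refine ⟨by simp only [h0, mul_zero], fun u v => ?_⟩
  obtain ⟨h2, h3⟩ := h1 u v
  simp only [A07c_fo_smul]
  constructor
  · linear_combination c * h2
  · linear_combination c * h3

theorem A07c_H_even (K : ℕ) (hK : 1 ≤ K) (b y : ℕ → ℤ) (k : ℤ)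
    (h : A07c_H K (fun j => (b j : ℚ)) (fun j => (y j : ℚ)) (k : ℚ)) :
    (∀ j < K, (2 : ℤ) ∣ b j) ∧ (∀ j < K, (2 : ℤ) ∣ y j) ∧ (2 : ℤ) ∣ k := by
  obtain ⟨h0, h1⟩ := h
  refine L3_even K hK b y k ?_ ?_
  · have h0' : ((b (K - 1) : ℤ) : ℚ) = 0 := h0
    exact_mod_cast h0'
  · intro u v
    have e1 : (2 : ℚ) * (v : ℚ) = ((2 * v : ℤ) : ℚ) := by push_cast; ring
    have e2 : (2 : ℚ) * (u : ℚ) = ((2 * u : ℤ) : ℚ) := by push_cast; ring
    have e3 : (u : ℚ) - (v : ℚ) = ((u - v : ℤ) : ℚ) := by push_cast; ring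
    obtain ⟨h2, h3⟩ := h1 (u : ℚ) (v : ℚ)
    rw [e1, e2, e3] at h2 h3
    simp only [A07c_fo_cast] at h2 h3
    constructor
    · exact_mod_cast h2
    · exact_mod_cast h3

/-- Injectivity of the parametrization (`E_zero_half`, `L3_even` and `descent` on the vector `(b, y, k)`). -/
theorem E_inj (K : ℕ) (hK : 1 ≤ K) (b y : ℕ → ℚ) (k : ℚ) (hb : b (K - 1) = 0)
    (hc : ∀ u v : ℚ, Ec (2 ^ (2 * K + 1)) (2 * K - 1) (fo K b) (fo K y) k u v = 0)
    (ha : ∀ u v : ℚ, Ea (2 ^ (2 * K + 1)) (2 * K - 1) (fo K b) (fo K y) k u v = 0) :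
    (∀ j < K, b j = 0) ∧ (∀ j < K, y j = 0) ∧ k = 0 := by
  have hH : A07c_H K b y k := ⟨hb, fun u v => E_zero_half K hK b y k hc ha u v⟩
  have key := descent (ι := Fin K ⊕ (Fin K ⊕ Unit))
    (fun a => A07c_H K (A07c_ext K (fun i => a (Sum.inl i)))
      (A07c_ext K (fun i => a (Sum.inr (Sum.inl i)))) (a (Sum.inr (Sum.inr ()))))
    (by
      intro c a h
      have h' := A07c_H_smul K _ _ _ c h
      rw [← A07c_ext_smul, ← A07c_ext_smul] at h'
      exact h')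
    (by
      intro a h
      have h' : A07c_H K (A07c_ext K (fun i => ((a (Sum.inl i) : ℤ) : ℚ)))
        (A07c_ext K (fun i => ((a (Sum.inr (Sum.inl i)) : ℤ) : ℚ)))
        ((a (Sum.inr (Sum.inr ())) : ℤ) : ℚ) := h
      rw [A07c_ext_cast K (fun i => a (Sum.inl i)),
        A07c_ext_cast K (fun i => a (Sum.inr (Sum.inl i)))] at h'
      obtain ⟨g1, g2, g3⟩ := A07c_H_even K hK _ _ _ h'
      rintro (i | i | i)
      · have := g1 i.1 i.2
        rwa [A07c_ext_of_lt K _ i.1 i.2] at this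
      · have := g2 i.1 i.2
        rwa [A07c_ext_of_lt K _ i.1 i.2] at this
      · exact g3)
    (Sum.elim (fun i => b i.1) (Sum.elim (fun i => y i.1) (fun _ => k)))
    (by
      obtain ⟨h0, h1⟩ := hH
      have eb : fo K (A07c_ext K (fun i : Fin K => b i.1)) = fo K b :=
        A07c_fo_congr K _ _ fun j hj => A07c_ext_of_lt K _ j hj
      have ey : fo K (A07c_ext K (fun i : Fin K => y i.1)) = fo K y :=
        A07c_fo_congr K _ _ fun j hj => A07c_ext_of_lt K _ j hj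
      have e0 : A07c_ext K (fun i : Fin K => b i.1) (K - 1) = 0 := by
        rw [A07c_ext_of_lt K _ (K - 1) (by omega)]
        exact h0
      show A07c_H K (A07c_ext K (fun i : Fin K => b i.1)) (A07c_ext K (fun i : Fin K => y i.1)) k
      refine ⟨e0, fun u v => ?_⟩
      rw [eb, ey]
      exact h1 u v)
  refine ⟨fun j hj => key (Sum.inl ⟨j, hj⟩), fun j hj => key (Sum.inr (Sum.inl ⟨j, hj⟩)),
    key (Sum.inr (Sum.inr ()))⟩

end Pool.MP0eb725
end

section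

set_option autoImplicit false

namespace Pool.MP0eb725

/-- evaluation of triples of coefficient vectors -/
def A05e_Phi (d : ℕ) : (Ar d × Ar d × Ar d) →ₗ[ℚ] ((ℚ → ℚ → ℚ) × (ℚ → ℚ → ℚ) × (ℚ → ℚ → ℚ)) where
  toFun x := (evA d x.1, evA d x.2.1, evA d x.2.2)
  map_add' x y := by
    refine Prod.ext ?_ (Prod.ext ?_ ?_) <;> funext u v <;> exact A05a_add _ _ _ _ _
  map_smul' c x := by
    refine Prod.ext ?_ (Prod.ext ?_ ?_) <;> funext u v <;> exact A05a_smul _ _ _ _ _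

theorem A05e_Phi_inj (d : ℕ) : Function.Injective (A05e_Phi d) := by
  intro x y h
  have h' : (evA d x.1, evA d x.2.1, evA d x.2.2) = (evA d y.1, evA d y.2.1, evA d y.2.2) := h
  have h1 := congrArg Prod.fst h'
  have h2 := congrArg (fun z => z.2.1) h'
  have h3 := congrArg (fun z => z.2.2) h'
  refine Prod.ext ?_ (Prod.ext ?_ ?_)
  · exact evA_inj d _ _ fun u v => congrFun (congrFun h1 u) v
  · exact evA_inj d _ _ fun u v => congrFun (congrFun h2 u) v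
  · exact evA_inj d _ _ fun u v => congrFun (congrFun h3 u) v

/-- `dim S ≤ 2K` (from `dim_core`: `Sfun K` is the isomorphic image of a subspace of coefficient vectors). -/
theorem finrank_S_le (K : ℕ) (hK : 1 ≤ K) :
    FiniteDimensional ℚ (Sfun K) ∧ Module.finrank ℚ (Sfun K) ≤ 2 * K := by
  have h1 : (Submodule.comap (A05e_Phi (2 * K - 1)) (Sfun K)).map (A05e_Phi (2 * K - 1)) = Sfun K := by
    rw [Submodule.map_comap_eq, inf_eq_right]
    rintro ⟨c, a, b⟩ ⟨hc, ha, hb, -⟩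
    obtain ⟨xc, hxc⟩ := A05a_exists _ _ hc
    obtain ⟨xa, hxa⟩ := A05a_exists _ _ ha
    obtain ⟨xb, hxb⟩ := A05a_exists _ _ hb
    exact ⟨(xc, xa, xb), Prod.ext hxc (Prod.ext hxa hxb)⟩
  have h2 := dim_core K hK (Submodule.comap (A05e_Phi (2 * K - 1)) (Sfun K)) (by
    intro x hx
    have hx' : A05e_Phi (2 * K - 1) x ∈ Sfun K := hx
    obtain ⟨-, -, -, h4, h5, h6, h7⟩ := hx'
    exact ⟨h4, h5, h6, h7⟩)
  have e := Submodule.equivMapOfInjective (A05e_Phi (2 * K - 1)) (A05e_Phi_inj _)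
    (Submodule.comap (A05e_Phi (2 * K - 1)) (Sfun K))
  rw [h1] at e
  refine ⟨Module.Finite.equiv e, ?_⟩
  rw [← e.finrank_eq]
  exact h2

end Pool.MP0eb725
end

section

end

section

end

section

set_option autoImplicit false

namespace Pool.MP0eb725

/-- extension of a finite vector by zero -/
def A08_ext (n : ℕ) (b : Fin n → ℚ) (j : ℕ) : ℚ := if h : j < n then b ⟨j, h⟩ else 0

theorem A08_ext_add (n : ℕ) (b c : Fin n → ℚ) (j : ℕ) :
    A08_ext n (b + c) j = A08_ext n b j + A08_ext n c j := by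
  unfold A08_ext
  split_ifs <;> simp

theorem A08_ext_smul (n : ℕ) (r : ℚ) (b : Fin n → ℚ) (j : ℕ) :
    A08_ext n (r • b) j = r * A08_ext n b j := by
  unfold A08_ext
  split_ifs <;> simp

theorem A08_fo_add (K n : ℕ) (b c : Fin n → ℚ) (u v : ℚ) :
    fo K (A08_ext n (b + c)) u v = fo K (A08_ext n b) u v + fo K (A08_ext n c) u v := by
  unfold fo
  rw [← Finset.sum_add_distrib]
  refine Finset.sum_congr rfl fun j _ => ?_
  rw [A08_ext_add]
  ring

theorem A08_fo_smul (K n : ℕ) (r : ℚ) (b : Fin n → ℚ) (u v : ℚ) :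
    fo K (A08_ext n (r • b)) u v = r * fo K (A08_ext n b) u v := by
  unfold fo
  rw [Finset.mul_sum]
  refine Finset.sum_congr rfl fun j _ => ?_
  rw [A08_ext_smul]
  ring

/-- the parametrization as a linear map -/
def A08_map (K : ℕ) : ((Fin (K - 1) → ℚ) × (Fin K → ℚ) × ℚ) →ₗ[ℚ]
    ((ℚ → ℚ → ℚ) × (ℚ → ℚ → ℚ) × (ℚ → ℚ → ℚ)) where
  toFun p := (fun u v => Ec (2 ^ (2 * K + 1)) (2 * K - 1) (fo K (A08_ext _ p.1)) (fo K (A08_ext _ p.2.1)) p.2.2 u v,
    fun u v => Ea (2 ^ (2 * K + 1)) (2 * K - 1) (fo K (A08_ext _ p.1)) (fo K (A08_ext _ p.2.1)) p.2.2 u v,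
    fun u v => Eb (2 ^ (2 * K + 1)) (2 * K - 1) (fo K (A08_ext _ p.2.1)) p.2.2 u v)
  map_add' := by
    intro p q
    refine Prod.ext ?_ (Prod.ext ?_ ?_)
    · funext u v
      simp only [Prod.fst_add, Prod.snd_add, Pi.add_apply, Ec, A08_fo_add]
      ring
    · funext u v
      simp only [Prod.fst_add, Prod.snd_add, Pi.add_apply, Ea, A08_fo_add]
      ring
    · funext u v
      simp only [Prod.fst_add, Prod.snd_add, Pi.add_apply, Eb, A08_fo_add]
      ring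
  map_smul' := by
    intro r p
    refine Prod.ext ?_ (Prod.ext ?_ ?_)
    · funext u v
      simp only [Prod.smul_fst, Prod.smul_snd, Pi.smul_apply, smul_eq_mul, RingHom.id_apply, Ec, A08_fo_smul]
      ring
    · funext u v
      simp only [Prod.smul_fst, Prod.smul_snd, Pi.smul_apply, smul_eq_mul, RingHom.id_apply, Ea, A08_fo_smul]
      ring
    · funext u v
      simp only [Prod.smul_fst, Prod.smul_snd, Pi.smul_apply, smul_eq_mul, RingHom.id_apply, Eb, A08_fo_smul]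
      ring

theorem A08_congr {d : ℕ} {g h : ℚ → ℚ → ℚ} (hg : IsForm d g) (e : ∀ u v : ℚ, h u v = g u v) : IsForm d h := by
  obtain ⟨a, ha⟩ := hg
  exact ⟨a, fun u v => by rw [e, ha]⟩

theorem A08_pow (d : ℕ) : IsForm d (fun u _ => u ^ d) := by
  refine ⟨fun i => if i = d then 1 else 0, fun u v => ?_⟩
  rw [Finset.sum_eq_single d]
  · simp
  · intro i _ hi
    simp [hi]
  · intro h
    exact absurd (Finset.mem_range.2 (Nat.lt_succ_self d)) h

theorem A08_powv (d : ℕ) : IsForm d (fun _ v => v ^ d) := by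
  refine ⟨fun i => if i = 0 then 1 else 0, fun u v => ?_⟩
  rw [Finset.sum_eq_single 0]
  · simp
  · intro i _ hi
    simp [hi]
  · intro h
    exact absurd (Finset.mem_range.2 (Nat.succ_pos d)) h

theorem A08_term {d : ℕ} {g : ℚ → ℚ → ℚ} (hg : IsForm d g) (r a b c e : ℚ) :
    IsForm d (fun u v => r * g (a * u + b * v) (c * u + e * v)) :=
  (hg.comp_lin a b c e).smul' r

theorem A08_Ec_form (W : ℚ) (d : ℕ) (B Q : ℚ → ℚ → ℚ) (k : ℚ) (hB : IsForm d B) (hQ : IsForm d Q) :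
    IsForm d (fun u v => Ec W d B Q k u v) := by
  have h := (((((((((A08_term hB (W - 1) 1 0 0 1).add' (A08_term hB 2 1 0 0 2)).add'
    (A08_term hB (-2) 2 0 0 1)).add' (A08_term hB 2 1 (-1) 0 2)).add' (A08_term hB (-1) 1 (-1) 0 1)).add'
    (A08_term hQ (-2) 1 (-1) 2 0)).add' (A08_term hQ (-2) 2 0 1 (-1))).add'
    (A08_term hQ 1 1 (-1) 1 0)).add' (A08_term hQ (-1) 1 0 1 (-1))).add' ((A08_pow d).smul' (2 * k))
  refine A08_congr h fun u v => ?_
  simp only [one_mul, zero_mul, add_zero, zero_add, neg_mul, ← sub_eq_add_neg, Ec]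

theorem A08_Ea_form (W : ℚ) (d : ℕ) (B Q : ℚ → ℚ → ℚ) (k : ℚ) (hB : IsForm d B) (hQ : IsForm d Q) :
    IsForm d (fun u v => Ea W d B Q k u v) := by
  have h := (((((((((((A08_term hQ (W - 1) 1 0 0 1).add' (A08_term hQ (-(W - 1)) 0 1 1 0)).add'
    (A08_term hQ 2 1 0 0 2)).add' (A08_term hQ 2 0 2 1 0)).add' (A08_term hQ (-2) 2 0 0 1)).add'
    (A08_term hQ (-2) 0 1 2 0)).add' (A08_term hB 2 0 2 1 (-1))).add' (A08_term hB 1 0 1 1 (-1))).add'
    (A08_term hB (-2) 2 0 1 (-1))).add' (A08_term hB (-1) 1 0 1 (-1))).add'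
    ((A08_pow d).smul' (2 * k))).add' ((A08_powv d).smul' (-(2 * k)))
  refine A08_congr h fun u v => ?_
  simp only [one_mul, zero_mul, add_zero, zero_add, neg_mul, ← sub_eq_add_neg, Ea]
  ring

theorem A08_Eb_form (W : ℚ) (d : ℕ) (Q : ℚ → ℚ → ℚ) (k : ℚ) (hQ : IsForm d Q) :
    IsForm d (fun u v => Eb W d Q k u v) := by
  have h := (((((((((((((((A08_term hQ (W - 1) 1 0 0 1).add' (A08_term hQ (W - 1) 0 1 1 0)).add'
    (A08_term hQ 2 1 0 0 2)).add' (A08_term hQ (-2) 0 2 1 0)).add' (A08_term hQ (-2) 2 0 0 1)).add'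
    (A08_term hQ 2 0 1 2 0)).add' (A08_term hQ (-2) 0 2 1 (-1))).add' (A08_term hQ (-2) 1 (-1) 0 2)).add'
    (A08_term hQ (-1) 0 1 1 (-1))).add' (A08_term hQ 1 1 (-1) 0 1)).add'
    (A08_term hQ 2 1 (-1) 2 0)).add' (A08_term hQ (-2) 2 0 1 (-1))).add'
    (A08_term hQ (-1) 1 (-1) 1 0)).add' (A08_term hQ (-1) 1 0 1 (-1))).add'
    ((A08_pow d).smul' (2 * k))).add' ((A08_powv d).smul' (2 * k))
  refine A08_congr h fun u v => ?_
  simp only [one_mul, zero_mul, add_zero, zero_add, neg_mul, ← sub_eq_add_neg, Eb]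
  ring

theorem A08_ext_top (K : ℕ) (b : Fin (K - 1) → ℚ) : A08_ext (K - 1) b (K - 1) = 0 := by
  unfold A08_ext
  simp

theorem A08_mem (K : ℕ) (hK : 1 ≤ K) (p : (Fin (K - 1) → ℚ) × (Fin K → ℚ) × ℚ) :
    A08_map K p ∈ Sfun K := by
  have hB := fo_OE K (A08_ext _ p.1)
  have hQ := fo_OE K (A08_ext _ p.2.1)
  have hBh := fo_hom K hK (A08_ext _ p.1)
  have hQh := fo_hom K hK (A08_ext _ p.2.1)
  have hBf := fo_form K hK (A08_ext _ p.1)
  have hQf := fo_form K hK (A08_ext _ p.2.1)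
  refine ⟨A08_Ec_form _ _ _ _ _ hBf hQf, A08_Ea_form _ _ _ _ _ hBf hQf, A08_Eb_form _ _ _ _ hQf,
    fun u v => E_sym_a _ _ _ _ _ hB hQ u v, fun u v => E_sym_b _ _ _ _ hQ u v, ?_, ?_⟩
  · exact E_R2A K hK _ _ _ hB hQ hBh hQh
  · exact E_R2B K hK _ _ _ hB hQ hBh hQh

theorem A08_inj (K : ℕ) (hK : 1 ≤ K) : Function.Injective (A08_map K) := by
  rw [injective_iff_map_eq_zero]
  rintro ⟨b, y, k⟩ h
  have h1 : ∀ u v : ℚ, Ec (2 ^ (2 * K + 1)) (2 * K - 1) (fo K (A08_ext _ b)) (fo K (A08_ext _ y)) k u v = 0 := by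
    intro u v
    have := congrFun (congrFun (congrArg Prod.fst h) u) v
    exact this
  have h2 : ∀ u v : ℚ, Ea (2 ^ (2 * K + 1)) (2 * K - 1) (fo K (A08_ext _ b)) (fo K (A08_ext _ y)) k u v = 0 := by
    intro u v
    have := congrFun (congrFun (congrArg (fun z => z.2.1) h) u) v
    exact this
  obtain ⟨hb, hy, hk⟩ := E_inj K hK _ _ k (A08_ext_top K b) h1 h2
  have e1 : b = 0 := by
    funext j
    have := hb j (by have := j.2; omega)
    unfold A08_ext at this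
    rw [dif_pos j.2] at this
    exact this
  have e2 : y = 0 := by
    funext j
    have := hy j j.2
    unfold A08_ext at this
    rw [dif_pos j.2] at this
    exact this
  rw [e1, e2, hk]
  rfl

/-- STRUCTURE THEOREM.  Proof: the map `(b, y, k) -> (Ec, Ea, Eb)` from
`(Fin (K-1) → ℚ) × (Fin K → ℚ) × ℚ` (extend `b` by 0 to all `j ≥ K-1`) to triples of functions is linear, injective
(`E_inj`) with values in `Sfun K` (`E_sym_a`, `E_sym_b`, `E_R2A`, `E_R2B`; forms by `IsForm.comp_lin`, `fo_form`), its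
source has dimension `(K-1) + K + 1 = 2K`, and `finrank (Sfun K) ≤ 2K`: so the range is all of `Sfun K`
(`Submodule.eq_of_le_of_finrank_le`). -/
theorem structure_thm (K : ℕ) (hK : 1 ≤ K) (c a b : ℚ → ℚ → ℚ)
    (hc : IsForm (2 * K - 1) c) (ha : IsForm (2 * K - 1) a) (hb : IsForm (2 * K - 1) b)
    (hsa : ∀ u v : ℚ, a v u = - a u v) (hsb : ∀ u v : ℚ, b v u = b u v)
    (h1 : R2A c a b) (h2 : R2B c b) :
    ∃ (β y : ℕ → ℚ) (k : ℚ), β (K - 1) = 0 ∧
      (∀ u v : ℚ, c u v = Ec (2 ^ (2 * K + 1)) (2 * K - 1) (fo K β) (fo K y) k u v) ∧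
      (∀ u v : ℚ, a u v = Ea (2 ^ (2 * K + 1)) (2 * K - 1) (fo K β) (fo K y) k u v) ∧
      (∀ u v : ℚ, b u v = Eb (2 ^ (2 * K + 1)) (2 * K - 1) (fo K y) k u v) := by
  obtain ⟨hfd, hle⟩ := finrank_S_le K hK
  have hr : LinearMap.range (A08_map K) ≤ Sfun K := by
    rintro _ ⟨p, rfl⟩
    exact A08_mem K hK p
  have hdim : Module.finrank ℚ (LinearMap.range (A08_map K)) = 2 * K := by
    rw [LinearMap.finrank_range_of_inj (A08_inj K hK)]
    rw [Module.finrank_prod, Module.finrank_prod, Module.finrank_fin_fun, Module.finrank_fin_fun,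
      Module.finrank_self]
    omega
  have heq : LinearMap.range (A08_map K) = Sfun K :=
    Submodule.eq_of_le_of_finrank_le hr (by rw [hdim]; exact hle)
  have hmem : (c, a, b) ∈ Sfun K := ⟨hc, ha, hb, hsa, hsb, h1, h2⟩
  rw [← heq] at hmem
  obtain ⟨p, hp⟩ := hmem
  refine ⟨A08_ext _ p.1, A08_ext _ p.2.1, p.2.2, A08_ext_top K p.1, fun u v => ?_, fun u v => ?_,
    fun u v => ?_⟩
  · exact (congrFun (congrFun (congrArg Prod.fst hp) u) v).symm
  · exact (congrFun (congrFun (congrArg (fun z => z.2.1) hp) u) v).symm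
  · exact (congrFun (congrFun (congrArg (fun z => z.2.2) hp) u) v).symm

end Pool.MP0eb725
end

section

end

section

set_option autoImplicit false

namespace Pool.MP0eb725

theorem A09a_zero {B : ℚ → ℚ → ℚ} (hB : OE B) (y : ℚ) : B 0 y = 0 := by
  have h := hB.1 0 y
  rw [neg_zero] at h
  linarith

theorem A09a_one {B : ℚ → ℚ → ℚ} (hB : OE B) (s1 s2 x' y' x y : ℚ) (h1 : s1 = 1 ∨ s1 = -1)
    (h2 : s2 = 1 ∨ s2 = -1) (hx : x = s1 * x') (hy : y = s2 * y') : B x y = s1 * B x' y' := by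
  subst hx hy
  have h3 : B (s1 * x') (s2 * y') = B (s1 * x') y' := by
    rcases h2 with rfl | rfl
    · rw [one_mul]
    · rw [neg_one_mul, hB.2]
  rw [h3]
  rcases h1 with rfl | rfl
  · rw [one_mul, one_mul]
  · rw [neg_one_mul, hB.1, neg_one_mul]

theorem A09a_two {d : ℕ} {B : ℚ → ℚ → ℚ} (hB : OE B) (hBh : Hom d B) (s1 s2 c x' y' x y : ℚ)
    (h1 : s1 = 1 ∨ s1 = -1) (h2 : s2 = 1 ∨ s2 = -1) (hx : x = s1 * (c * x')) (hy : y = s2 * (c * y')) :
    B x y = s1 * c ^ d * B x' y' := by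
  rw [A09a_one hB s1 s2 (c * x') (c * y') x y h1 h2 hx hy, hBh]
  ring

theorem A09a_pow (K : ℕ) (hK : 1 ≤ K) (s1 c x' x : ℚ) (h1 : s1 = 1 ∨ s1 = -1)
    (hx : x = s1 * (c * x')) : x ^ (2 * K - 1) = s1 * c ^ (2 * K - 1) * x' ^ (2 * K - 1) := by
  have hodd : Odd (2 * K - 1) := ⟨K - 1, by omega⟩
  subst hx
  rw [mul_pow, mul_pow]
  rcases h1 with rfl | rfl
  · rw [one_pow]; ring
  · rw [hodd.neg_one_pow]; ring


/-- F1 from R5 for the explicit solution (`theta = E / W`, `tau = X N`): with `D(u,v) = 3 B(u,3v) - B(u,v) - 2 Q(u,v)`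
the left side of R5 at `(u,v)` equals
`D(u-v,u) - D(u-v,v) + D(2u+v,u) - 2(1-2e) D(2u+v,v) + D(2u+v,v/2) - 4e D(2u+v,2v)`
(identity checked numerically; parity + homogeneity + ring); apply it at `(u, 2v)` and use homogeneity:
`4e D(2u+2v,4v) = D(u+v,2v)`, `4e D(2u+2v,2v)=D(u+v,v)` where `4 e 2^(2K-1) = 1`, `e = 2^{-(2K+1)}`. -/
theorem F1_of_R5 (K : ℕ) (hK : 1 ≤ K) (B Q : ℚ → ℚ → ℚ) (k : ℚ) (hB : OE B) (hQ : OE Q)
    (hBh : Hom (2 * K - 1) B) (hQh : Hom (2 * K - 1) Q)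
    (h : R5 (1 / 2 ^ (2 * K + 1)) (Xc B Q) (Xb Q)
      (fun u v => Ec (2 ^ (2 * K + 1)) (2 * K - 1) B Q k u v / 2 ^ (2 * K + 1))
      (fun u v => Ea (2 ^ (2 * K + 1)) (2 * K - 1) B Q k u v / 2 ^ (2 * K + 1))
      (fun u v => Eb (2 ^ (2 * K + 1)) (2 * K - 1) Q k u v / 2 ^ (2 * K + 1))) :
    F1 (fun u v => 3 * B u (3 * v) - B u v - 2 * Q u v) := by
  intro u v
  have h' := h u (2 * v)
  unfold Xc Xb Ec Ea Eb at h'
  beta_reduce at h' ⊢
  have h0 : B u (2 * v) = 1 * B (1 * u + 0 * v) (0 * u + 2 * v) :=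
    A09a_one hB 1 1 _ _ _ _ (by norm_num) (by norm_num) (by ring) (by ring)
  have h1 : B (u - (2 * v)) (2 * v) = 1 * B (1 * u + (-2) * v) (0 * u + 2 * v) :=
    A09a_one hB 1 1 _ _ _ _ (by norm_num) (by norm_num) (by ring) (by ring)
  have h2 : Q (u - (2 * v)) u = 1 * Q (1 * u + (-2) * v) (1 * u + 0 * v) :=
    A09a_one hQ 1 1 _ _ _ _ (by norm_num) (by norm_num) (by ring) (by ring)
  have h3 : Q u (u - (2 * v)) = 1 * Q (1 * u + 0 * v) (1 * u + (-2) * v) :=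
    A09a_one hQ 1 1 _ _ _ _ (by norm_num) (by norm_num) (by ring) (by ring)
  have h4 : B (2 * v) u = 1 * B (0 * u + 2 * v) (1 * u + 0 * v) :=
    A09a_one hB 1 1 _ _ _ _ (by norm_num) (by norm_num) (by ring) (by ring)
  have h5 : B ((2 * v) - u) u = (-1) * B (1 * u + (-2) * v) (1 * u + 0 * v) :=
    A09a_one hB (-1) 1 _ _ _ _ (by norm_num) (by norm_num) (by ring) (by ring)
  have h6 : Q ((2 * v) - u) (2 * v) = (-1) * Q (1 * u + (-2) * v) (0 * u + 2 * v) :=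
    A09a_one hQ (-1) 1 _ _ _ _ (by norm_num) (by norm_num) (by ring) (by ring)
  have h7 : Q (2 * v) ((2 * v) - u) = 1 * Q (0 * u + 2 * v) (1 * u + (-2) * v) :=
    A09a_one hQ 1 (-1) _ _ _ _ (by norm_num) (by norm_num) (by ring) (by ring)
  have h8 : Q u (2 * v) = 1 * Q (1 * u + 0 * v) (0 * u + 2 * v) :=
    A09a_one hQ 1 1 _ _ _ _ (by norm_num) (by norm_num) (by ring) (by ring)
  have h9 : Q (2 * v) u = 1 * Q (0 * u + 2 * v) (1 * u + 0 * v) :=
    A09a_one hQ 1 1 _ _ _ _ (by norm_num) (by norm_num) (by ring) (by ring)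
  have h10 : Q (2 * v) (u - (2 * v)) = 1 * Q (0 * u + 2 * v) (1 * u + (-2) * v) :=
    A09a_one hQ 1 1 _ _ _ _ (by norm_num) (by norm_num) (by ring) (by ring)
  have h11 : Q (u - (2 * v)) (2 * v) = 1 * Q (1 * u + (-2) * v) (0 * u + 2 * v) :=
    A09a_one hQ 1 1 _ _ _ _ (by norm_num) (by norm_num) (by ring) (by ring)
  have h12 : B ((2 * u) + (2 * v)) (2 * v) = 1 * 2 ^ (2 * K - 1) * B (1 * u + 1 * v) (0 * u + 1 * v) :=
    A09a_two hB hBh 1 1 2 _ _ _ _ (by norm_num) (by norm_num) (by ring) (by ring)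
  have h13 : B ((2 * u) + (2 * v)) (2 * (2 * v)) = 1 * 2 ^ (2 * K - 1) * B (1 * u + 1 * v) (0 * u + 2 * v) :=
    A09a_two hB hBh 1 1 2 _ _ _ _ (by norm_num) (by norm_num) (by ring) (by ring)
  have h14 : B (2 * ((2 * u) + (2 * v))) (2 * v) = 1 * 2 ^ (2 * K - 1) * B (2 * u + 2 * v) (0 * u + 1 * v) :=
    A09a_two hB hBh 1 1 2 _ _ _ _ (by norm_num) (by norm_num) (by ring) (by ring)
  have h15 : B (((2 * u) + (2 * v)) - (2 * v)) (2 * (2 * v)) = 1 * 2 ^ (2 * K - 1) * B (1 * u + 0 * v) (0 * u + 2 * v) :=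
    A09a_two hB hBh 1 1 2 _ _ _ _ (by norm_num) (by norm_num) (by ring) (by ring)
  have h16 : B (((2 * u) + (2 * v)) - (2 * v)) (2 * v) = 1 * 2 ^ (2 * K - 1) * B (1 * u + 0 * v) (0 * u + 1 * v) :=
    A09a_two hB hBh 1 1 2 _ _ _ _ (by norm_num) (by norm_num) (by ring) (by ring)
  have h17 : Q (((2 * u) + (2 * v)) - (2 * v)) (2 * ((2 * u) + (2 * v))) = 1 * 2 ^ (2 * K - 1) * Q (1 * u + 0 * v) (2 * u + 2 * v) :=
    A09a_two hQ hQh 1 1 2 _ _ _ _ (by norm_num) (by norm_num) (by ring) (by ring)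
  have h18 : Q (2 * ((2 * u) + (2 * v))) (((2 * u) + (2 * v)) - (2 * v)) = 1 * 2 ^ (2 * K - 1) * Q (2 * u + 2 * v) (1 * u + 0 * v) :=
    A09a_two hQ hQh 1 1 2 _ _ _ _ (by norm_num) (by norm_num) (by ring) (by ring)
  have h19 : Q (((2 * u) + (2 * v)) - (2 * v)) ((2 * u) + (2 * v)) = 1 * 2 ^ (2 * K - 1) * Q (1 * u + 0 * v) (1 * u + 1 * v) :=
    A09a_two hQ hQh 1 1 2 _ _ _ _ (by norm_num) (by norm_num) (by ring) (by ring)
  have h20 : Q ((2 * u) + (2 * v)) (((2 * u) + (2 * v)) - (2 * v)) = 1 * 2 ^ (2 * K - 1) * Q (1 * u + 1 * v) (1 * u + 0 * v) :=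
    A09a_two hQ hQh 1 1 2 _ _ _ _ (by norm_num) (by norm_num) (by ring) (by ring)
  have h21 : ((2 * u) + (2 * v)) ^ (2 * K - 1) = 1 * 2 ^ (2 * K - 1) * (1 * u + 1 * v) ^ (2 * K - 1) :=
    A09a_pow K hK 1 2 _ _ (by norm_num) (by ring)
  have h22 : Q (2 * v) ((2 * u) + (2 * v)) = 1 * 2 ^ (2 * K - 1) * Q (0 * u + 1 * v) (1 * u + 1 * v) :=
    A09a_two hQ hQh 1 1 2 _ _ _ _ (by norm_num) (by norm_num) (by ring) (by ring)
  have h23 : Q ((2 * u) + (2 * v)) (2 * v) = 1 * 2 ^ (2 * K - 1) * Q (1 * u + 1 * v) (0 * u + 1 * v) :=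
    A09a_two hQ hQh 1 1 2 _ _ _ _ (by norm_num) (by norm_num) (by ring) (by ring)
  have h24 : Q (2 * v) (2 * ((2 * u) + (2 * v))) = 1 * 2 ^ (2 * K - 1) * Q (0 * u + 1 * v) (2 * u + 2 * v) :=
    A09a_two hQ hQh 1 1 2 _ _ _ _ (by norm_num) (by norm_num) (by ring) (by ring)
  have h25 : Q (2 * ((2 * u) + (2 * v))) (2 * v) = 1 * 2 ^ (2 * K - 1) * Q (2 * u + 2 * v) (0 * u + 1 * v) :=
    A09a_two hQ hQh 1 1 2 _ _ _ _ (by norm_num) (by norm_num) (by ring) (by ring)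
  have h26 : Q (2 * (2 * v)) ((2 * u) + (2 * v)) = 1 * 2 ^ (2 * K - 1) * Q (0 * u + 2 * v) (1 * u + 1 * v) :=
    A09a_two hQ hQh 1 1 2 _ _ _ _ (by norm_num) (by norm_num) (by ring) (by ring)
  have h27 : Q ((2 * u) + (2 * v)) (2 * (2 * v)) = 1 * 2 ^ (2 * K - 1) * Q (1 * u + 1 * v) (0 * u + 2 * v) :=
    A09a_two hQ hQh 1 1 2 _ _ _ _ (by norm_num) (by norm_num) (by ring) (by ring)
  have h28 : B (2 * ((2 * u) + (2 * v))) ((2 * v) - ((2 * u) + (2 * v))) = 1 * 2 ^ (2 * K - 1) * B (2 * u + 2 * v) (1 * u + 0 * v) :=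
    A09a_two hB hBh 1 (-1) 2 _ _ _ _ (by norm_num) (by norm_num) (by ring) (by ring)
  have h29 : B ((2 * u) + (2 * v)) ((2 * v) - ((2 * u) + (2 * v))) = 1 * 2 ^ (2 * K - 1) * B (1 * u + 1 * v) (1 * u + 0 * v) :=
    A09a_two hB hBh 1 (-1) 2 _ _ _ _ (by norm_num) (by norm_num) (by ring) (by ring)
  have h30 : B (2 * (2 * v)) ((2 * v) - ((2 * u) + (2 * v))) = 1 * 2 ^ (2 * K - 1) * B (0 * u + 2 * v) (1 * u + 0 * v) :=
    A09a_two hB hBh 1 (-1) 2 _ _ _ _ (by norm_num) (by norm_num) (by ring) (by ring)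
  have h31 : B (2 * v) ((2 * v) - ((2 * u) + (2 * v))) = 1 * 2 ^ (2 * K - 1) * B (0 * u + 1 * v) (1 * u + 0 * v) :=
    A09a_two hB hBh 1 (-1) 2 _ _ _ _ (by norm_num) (by norm_num) (by ring) (by ring)
  have h32 : (2 * v) ^ (2 * K - 1) = 1 * 2 ^ (2 * K - 1) * (0 * u + 1 * v) ^ (2 * K - 1) :=
    A09a_pow K hK 1 2 _ _ (by norm_num) (by ring)
  have h33 : Q (2 * ((2 * u) + (2 * v))) ((2 * v) - ((2 * u) + (2 * v))) = 1 * 2 ^ (2 * K - 1) * Q (2 * u + 2 * v) (1 * u + 0 * v) :=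
    A09a_two hQ hQh 1 (-1) 2 _ _ _ _ (by norm_num) (by norm_num) (by ring) (by ring)
  have h34 : Q ((2 * v) - ((2 * u) + (2 * v))) (2 * ((2 * u) + (2 * v))) = (-1) * 2 ^ (2 * K - 1) * Q (1 * u + 0 * v) (2 * u + 2 * v) :=
    A09a_two hQ hQh (-1) 1 2 _ _ _ _ (by norm_num) (by norm_num) (by ring) (by ring)
  have h35 : Q ((2 * u) + (2 * v)) ((2 * v) - ((2 * u) + (2 * v))) = 1 * 2 ^ (2 * K - 1) * Q (1 * u + 1 * v) (1 * u + 0 * v) :=
    A09a_two hQ hQh 1 (-1) 2 _ _ _ _ (by norm_num) (by norm_num) (by ring) (by ring)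
  have h36 : Q ((2 * v) - ((2 * u) + (2 * v))) ((2 * u) + (2 * v)) = (-1) * 2 ^ (2 * K - 1) * Q (1 * u + 0 * v) (1 * u + 1 * v) :=
    A09a_two hQ hQh (-1) 1 2 _ _ _ _ (by norm_num) (by norm_num) (by ring) (by ring)
  have h37 : Q ((2 * v) - ((2 * u) + (2 * v))) (2 * (2 * v)) = (-1) * 2 ^ (2 * K - 1) * Q (1 * u + 0 * v) (0 * u + 2 * v) :=
    A09a_two hQ hQh (-1) 1 2 _ _ _ _ (by norm_num) (by norm_num) (by ring) (by ring)
  have h38 : Q (2 * (2 * v)) ((2 * v) - ((2 * u) + (2 * v))) = 1 * 2 ^ (2 * K - 1) * Q (0 * u + 2 * v) (1 * u + 0 * v) :=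
    A09a_two hQ hQh 1 (-1) 2 _ _ _ _ (by norm_num) (by norm_num) (by ring) (by ring)
  have h39 : Q ((2 * v) - ((2 * u) + (2 * v))) (2 * v) = (-1) * 2 ^ (2 * K - 1) * Q (1 * u + 0 * v) (0 * u + 1 * v) :=
    A09a_two hQ hQh (-1) 1 2 _ _ _ _ (by norm_num) (by norm_num) (by ring) (by ring)
  have h40 : Q (2 * v) ((2 * v) - ((2 * u) + (2 * v))) = 1 * 2 ^ (2 * K - 1) * Q (0 * u + 1 * v) (1 * u + 0 * v) :=
    A09a_two hQ hQh 1 (-1) 2 _ _ _ _ (by norm_num) (by norm_num) (by ring) (by ring)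
  have h41 : B (2 * u) (-(2 * v)) = 1 * 2 ^ (2 * K - 1) * B (1 * u + 0 * v) (0 * u + 1 * v) :=
    A09a_two hB hBh 1 (-1) 2 _ _ _ _ (by norm_num) (by norm_num) (by ring) (by ring)
  have h42 : B ((2 * u) - (-(2 * v))) (-(2 * v)) = 1 * 2 ^ (2 * K - 1) * B (1 * u + 1 * v) (0 * u + 1 * v) :=
    A09a_two hB hBh 1 (-1) 2 _ _ _ _ (by norm_num) (by norm_num) (by ring) (by ring)
  have h43 : Q ((2 * u) - (-(2 * v))) (2 * u) = 1 * 2 ^ (2 * K - 1) * Q (1 * u + 1 * v) (1 * u + 0 * v) :=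
    A09a_two hQ hQh 1 1 2 _ _ _ _ (by norm_num) (by norm_num) (by ring) (by ring)
  have h44 : Q (2 * u) ((2 * u) - (-(2 * v))) = 1 * 2 ^ (2 * K - 1) * Q (1 * u + 0 * v) (1 * u + 1 * v) :=
    A09a_two hQ hQh 1 1 2 _ _ _ _ (by norm_num) (by norm_num) (by ring) (by ring)
  have h45 : B (-(2 * v)) (2 * u) = (-1) * 2 ^ (2 * K - 1) * B (0 * u + 1 * v) (1 * u + 0 * v) :=
    A09a_two hB hBh (-1) 1 2 _ _ _ _ (by norm_num) (by norm_num) (by ring) (by ring)
  have h46 : B ((-(2 * v)) - (2 * u)) (2 * u) = (-1) * 2 ^ (2 * K - 1) * B (1 * u + 1 * v) (1 * u + 0 * v) :=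
    A09a_two hB hBh (-1) 1 2 _ _ _ _ (by norm_num) (by norm_num) (by ring) (by ring)
  have h47 : Q ((-(2 * v)) - (2 * u)) (-(2 * v)) = (-1) * 2 ^ (2 * K - 1) * Q (1 * u + 1 * v) (0 * u + 1 * v) :=
    A09a_two hQ hQh (-1) (-1) 2 _ _ _ _ (by norm_num) (by norm_num) (by ring) (by ring)
  have h48 : Q (-(2 * v)) ((-(2 * v)) - (2 * u)) = (-1) * 2 ^ (2 * K - 1) * Q (0 * u + 1 * v) (1 * u + 1 * v) :=
    A09a_two hQ hQh (-1) (-1) 2 _ _ _ _ (by norm_num) (by norm_num) (by ring) (by ring)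
  have h49 : Q (2 * u) (-(2 * v)) = 1 * 2 ^ (2 * K - 1) * Q (1 * u + 0 * v) (0 * u + 1 * v) :=
    A09a_two hQ hQh 1 (-1) 2 _ _ _ _ (by norm_num) (by norm_num) (by ring) (by ring)
  have h50 : Q (-(2 * v)) (2 * u) = (-1) * 2 ^ (2 * K - 1) * Q (0 * u + 1 * v) (1 * u + 0 * v) :=
    A09a_two hQ hQh (-1) 1 2 _ _ _ _ (by norm_num) (by norm_num) (by ring) (by ring)
  have h51 : Q (-(2 * v)) ((2 * u) - (-(2 * v))) = (-1) * 2 ^ (2 * K - 1) * Q (0 * u + 1 * v) (1 * u + 1 * v) :=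
    A09a_two hQ hQh (-1) 1 2 _ _ _ _ (by norm_num) (by norm_num) (by ring) (by ring)
  have h52 : Q ((2 * u) - (-(2 * v))) (-(2 * v)) = 1 * 2 ^ (2 * K - 1) * Q (1 * u + 1 * v) (0 * u + 1 * v) :=
    A09a_two hQ hQh 1 (-1) 2 _ _ _ _ (by norm_num) (by norm_num) (by ring) (by ring)
  have h53 : B ((2 * u) + (2 * v)) (3 * (2 * v)) = 1 * 2 ^ (2 * K - 1) * B (1 * u + 1 * v) (0 * u + 3 * v) :=
    A09a_two hB hBh 1 1 2 _ _ _ _ (by norm_num) (by norm_num) (by ring) (by ring)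
  have h54 : B ((2 * u) + (2 * v)) (2 * (3 * (2 * v))) = 1 * 2 ^ (2 * K - 1) * B (1 * u + 1 * v) (0 * u + 6 * v) :=
    A09a_two hB hBh 1 1 2 _ _ _ _ (by norm_num) (by norm_num) (by ring) (by ring)
  have h55 : B (2 * ((2 * u) + (2 * v))) (3 * (2 * v)) = 1 * 2 ^ (2 * K - 1) * B (2 * u + 2 * v) (0 * u + 3 * v) :=
    A09a_two hB hBh 1 1 2 _ _ _ _ (by norm_num) (by norm_num) (by ring) (by ring)
  have h56 : B (((2 * u) + (2 * v)) - (3 * (2 * v))) (2 * (3 * (2 * v))) = 1 * 2 ^ (2 * K - 1) * B (1 * u + (-2) * v) (0 * u + 6 * v) :=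
    A09a_two hB hBh 1 1 2 _ _ _ _ (by norm_num) (by norm_num) (by ring) (by ring)
  have h57 : B (((2 * u) + (2 * v)) - (3 * (2 * v))) (3 * (2 * v)) = 1 * 2 ^ (2 * K - 1) * B (1 * u + (-2) * v) (0 * u + 3 * v) :=
    A09a_two hB hBh 1 1 2 _ _ _ _ (by norm_num) (by norm_num) (by ring) (by ring)
  have h58 : Q (((2 * u) + (2 * v)) - (3 * (2 * v))) (2 * ((2 * u) + (2 * v))) = 1 * 2 ^ (2 * K - 1) * Q (1 * u + (-2) * v) (2 * u + 2 * v) :=
    A09a_two hQ hQh 1 1 2 _ _ _ _ (by norm_num) (by norm_num) (by ring) (by ring)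
  have h59 : Q (2 * ((2 * u) + (2 * v))) (((2 * u) + (2 * v)) - (3 * (2 * v))) = 1 * 2 ^ (2 * K - 1) * Q (2 * u + 2 * v) (1 * u + (-2) * v) :=
    A09a_two hQ hQh 1 1 2 _ _ _ _ (by norm_num) (by norm_num) (by ring) (by ring)
  have h60 : Q (((2 * u) + (2 * v)) - (3 * (2 * v))) ((2 * u) + (2 * v)) = 1 * 2 ^ (2 * K - 1) * Q (1 * u + (-2) * v) (1 * u + 1 * v) :=
    A09a_two hQ hQh 1 1 2 _ _ _ _ (by norm_num) (by norm_num) (by ring) (by ring)
  have h61 : Q ((2 * u) + (2 * v)) (((2 * u) + (2 * v)) - (3 * (2 * v))) = 1 * 2 ^ (2 * K - 1) * Q (1 * u + 1 * v) (1 * u + (-2) * v) :=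
    A09a_two hQ hQh 1 1 2 _ _ _ _ (by norm_num) (by norm_num) (by ring) (by ring)
  have h62 : B ((2 * u) - (2 * (2 * v))) (-3 * (2 * v)) = 1 * 2 ^ (2 * K - 1) * B (1 * u + (-2) * v) (0 * u + 3 * v) :=
    A09a_two hB hBh 1 (-1) 2 _ _ _ _ (by norm_num) (by norm_num) (by ring) (by ring)
  have h63 : B (((2 * u) - (2 * (2 * v))) - (-3 * (2 * v))) (-3 * (2 * v)) = 1 * 2 ^ (2 * K - 1) * B (1 * u + 1 * v) (0 * u + 3 * v) :=
    A09a_two hB hBh 1 (-1) 2 _ _ _ _ (by norm_num) (by norm_num) (by ring) (by ring)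
  have h64 : Q (((2 * u) - (2 * (2 * v))) - (-3 * (2 * v))) ((2 * u) - (2 * (2 * v))) = 1 * 2 ^ (2 * K - 1) * Q (1 * u + 1 * v) (1 * u + (-2) * v) :=
    A09a_two hQ hQh 1 1 2 _ _ _ _ (by norm_num) (by norm_num) (by ring) (by ring)
  have h65 : Q ((2 * u) - (2 * (2 * v))) (((2 * u) - (2 * (2 * v))) - (-3 * (2 * v))) = 1 * 2 ^ (2 * K - 1) * Q (1 * u + (-2) * v) (1 * u + 1 * v) :=
    A09a_two hQ hQh 1 1 2 _ _ _ _ (by norm_num) (by norm_num) (by ring) (by ring)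
  have h66 : B (u - (2 * v)) (3 * u) = 1 * B (1 * u + (-2) * v) (3 * u + 0 * v) :=
    A09a_one hB 1 1 _ _ _ _ (by norm_num) (by norm_num) (by ring) (by ring)
  have h67 : B ((u - (2 * v)) - (3 * u)) (3 * u) = (-1) * B (2 * u + 2 * v) (3 * u + 0 * v) :=
    A09a_one hB (-1) 1 _ _ _ _ (by norm_num) (by norm_num) (by ring) (by ring)
  have h68 : Q ((u - (2 * v)) - (3 * u)) (u - (2 * v)) = (-1) * Q (2 * u + 2 * v) (1 * u + (-2) * v) :=
    A09a_one hQ (-1) 1 _ _ _ _ (by norm_num) (by norm_num) (by ring) (by ring)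
  have h69 : Q (u - (2 * v)) ((u - (2 * v)) - (3 * u)) = 1 * Q (1 * u + (-2) * v) (2 * u + 2 * v) :=
    A09a_one hQ 1 (-1) _ _ _ _ (by norm_num) (by norm_num) (by ring) (by ring)
  have h70 : B (u - (2 * v)) u = 1 * B (1 * u + (-2) * v) (1 * u + 0 * v) :=
    A09a_one hB 1 1 _ _ _ _ (by norm_num) (by norm_num) (by ring) (by ring)
  have h71 : B (u - (2 * v)) (3 * (2 * v)) = 1 * B (1 * u + (-2) * v) (0 * u + 6 * v) :=
    A09a_one hB 1 1 _ _ _ _ (by norm_num) (by norm_num) (by ring) (by ring)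
  have h72 : B ((2 * u) + (2 * v)) (3 * u) = 1 * B (2 * u + 2 * v) (3 * u + 0 * v) :=
    A09a_one hB 1 1 _ _ _ _ (by norm_num) (by norm_num) (by ring) (by ring)
  have h73 : B ((2 * u) + (2 * v)) u = 1 * B (2 * u + 2 * v) (1 * u + 0 * v) :=
    A09a_one hB 1 1 _ _ _ _ (by norm_num) (by norm_num) (by ring) (by ring)
  have h74 : Q ((2 * u) + (2 * v)) u = 1 * Q (2 * u + 2 * v) (1 * u + 0 * v) :=
    A09a_one hQ 1 1 _ _ _ _ (by norm_num) (by norm_num) (by ring) (by ring)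
  have h75 : B ((2 * u) + (2 * v)) (3 * v) = 1 * B (2 * u + 2 * v) (0 * u + 3 * v) :=
    A09a_one hB 1 1 _ _ _ _ (by norm_num) (by norm_num) (by ring) (by ring)
  have h76 : B ((2 * u) + (2 * v)) v = 1 * B (2 * u + 2 * v) (0 * u + 1 * v) :=
    A09a_one hB 1 1 _ _ _ _ (by norm_num) (by norm_num) (by ring) (by ring)
  have h77 : Q ((2 * u) + (2 * v)) v = 1 * Q (2 * u + 2 * v) (0 * u + 1 * v) :=
    A09a_one hQ 1 1 _ _ _ _ (by norm_num) (by norm_num) (by ring) (by ring)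
  have h78 : B (u + v) (3 * v) = 1 * B (1 * u + 1 * v) (0 * u + 3 * v) :=
    A09a_one hB 1 1 _ _ _ _ (by norm_num) (by norm_num) (by ring) (by ring)
  have h79 : B (u + v) v = 1 * B (1 * u + 1 * v) (0 * u + 1 * v) :=
    A09a_one hB 1 1 _ _ _ _ (by norm_num) (by norm_num) (by ring) (by ring)
  have h80 : Q (u + v) v = 1 * Q (1 * u + 1 * v) (0 * u + 1 * v) :=
    A09a_one hQ 1 1 _ _ _ _ (by norm_num) (by norm_num) (by ring) (by ring)
  have h81 : B (u + v) (3 * (2 * v)) = 1 * B (1 * u + 1 * v) (0 * u + 6 * v) :=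
    A09a_one hB 1 1 _ _ _ _ (by norm_num) (by norm_num) (by ring) (by ring)
  have h82 : B (u + v) (2 * v) = 1 * B (1 * u + 1 * v) (0 * u + 2 * v) :=
    A09a_one hB 1 1 _ _ _ _ (by norm_num) (by norm_num) (by ring) (by ring)
  have h83 : Q (u + v) (2 * v) = 1 * Q (1 * u + 1 * v) (0 * u + 2 * v) :=
    A09a_one hQ 1 1 _ _ _ _ (by norm_num) (by norm_num) (by ring) (by ring)
  simp only [h0, h1, h2, h3, h4, h5, h6, h7, h8, h9, h10, h11, h12, h13, h14, h15, h16, h17, h18, h19, h20, h21, h22, h23, h24, h25, h26, h27, h28, h29, h30, h31, h32, h33, h34, h35, h36, h37, h38, h39, h40, h41, h42, h43, h44, h45, h46, h47, h48, h49, h50, h51, h52, h53, h54, h55, h56, h57, h58, h59, h60, h61, h62, h63, h64, h65, h66, h67, h68, h69, h70, h71, h72, h73, h74, h75, h76, h77, h78, h79, h80, h81, h82, h83] at h' ⊢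
  have hW : (2 : ℚ) ^ (2 * K + 1) = 4 * 2 ^ (2 * K - 1) := by
    have e : 2 * K + 1 = (2 * K - 1) + 2 := by omega
    rw [e, pow_add]; ring
  have hhalf : ((1 / 2 : ℚ)) ^ (2 * K - 1) = 1 / 2 ^ (2 * K - 1) := by
    rw [one_div, inv_pow, one_div]
  have hP0 : (2 : ℚ) ^ (2 * K - 1) ≠ 0 := by positivity
  rw [hW] at h'
  clear h0 h1 h2 h3 h4 h5 h6 h7 h8 h9 h10 h11 h12 h13 h14 h15 h16 h17 h18 h19 h20 h21 h22 h23 h24 h25 h26 h27 h28 h29 h30 h31 h32 h33 h34 h35 h36 h37 h38 h39 h40 h41 h42 h43 h44 h45 h46 h47 h48 h49 h50 h51 h52 h53 h54 h55 h56 h57 h58 h59 h60 h61 h62 h63 h64 h65 h66 h67 h68 h69 h70 h71 h72 h73 h74 h75 h76 h77 h78 h79 h80 h81 h82 h83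
  generalize B (1 * u + 0 * v) (0 * u + 2 * v) = x0 at h' ⊢
  generalize B (1 * u + (-2) * v) (0 * u + 2 * v) = x1 at h' ⊢
  generalize Q (1 * u + (-2) * v) (1 * u + 0 * v) = x2 at h' ⊢
  generalize Q (1 * u + 0 * v) (1 * u + (-2) * v) = x3 at h' ⊢
  generalize B (0 * u + 2 * v) (1 * u + 0 * v) = x4 at h' ⊢
  generalize B (1 * u + (-2) * v) (1 * u + 0 * v) = x5 at h' ⊢
  generalize Q (1 * u + (-2) * v) (0 * u + 2 * v) = x6 at h' ⊢
  generalize Q (0 * u + 2 * v) (1 * u + (-2) * v) = x7 at h' ⊢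
  generalize Q (1 * u + 0 * v) (0 * u + 2 * v) = x8 at h' ⊢
  generalize Q (0 * u + 2 * v) (1 * u + 0 * v) = x9 at h' ⊢
  generalize B (1 * u + 1 * v) (0 * u + 1 * v) = x10 at h' ⊢
  generalize B (1 * u + 1 * v) (0 * u + 2 * v) = x11 at h' ⊢
  generalize B (2 * u + 2 * v) (0 * u + 1 * v) = x12 at h' ⊢
  generalize B (1 * u + 0 * v) (0 * u + 1 * v) = x13 at h' ⊢
  generalize Q (1 * u + 0 * v) (2 * u + 2 * v) = x14 at h' ⊢
  generalize Q (2 * u + 2 * v) (1 * u + 0 * v) = x15 at h' ⊢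
  generalize Q (1 * u + 0 * v) (1 * u + 1 * v) = x16 at h' ⊢
  generalize Q (1 * u + 1 * v) (1 * u + 0 * v) = x17 at h' ⊢
  generalize (1 * u + 1 * v) ^ (2 * K - 1) = x18 at h' ⊢
  generalize Q (0 * u + 1 * v) (1 * u + 1 * v) = x19 at h' ⊢
  generalize Q (1 * u + 1 * v) (0 * u + 1 * v) = x20 at h' ⊢
  generalize Q (0 * u + 1 * v) (2 * u + 2 * v) = x21 at h' ⊢
  generalize Q (2 * u + 2 * v) (0 * u + 1 * v) = x22 at h' ⊢
  generalize Q (0 * u + 2 * v) (1 * u + 1 * v) = x23 at h' ⊢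
  generalize Q (1 * u + 1 * v) (0 * u + 2 * v) = x24 at h' ⊢
  generalize B (2 * u + 2 * v) (1 * u + 0 * v) = x25 at h' ⊢
  generalize B (1 * u + 1 * v) (1 * u + 0 * v) = x26 at h' ⊢
  generalize B (0 * u + 1 * v) (1 * u + 0 * v) = x27 at h' ⊢
  generalize (0 * u + 1 * v) ^ (2 * K - 1) = x28 at h' ⊢
  generalize Q (1 * u + 0 * v) (0 * u + 1 * v) = x29 at h' ⊢
  generalize Q (0 * u + 1 * v) (1 * u + 0 * v) = x30 at h' ⊢
  generalize B (1 * u + 1 * v) (0 * u + 3 * v) = x31 at h' ⊢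
  generalize B (1 * u + 1 * v) (0 * u + 6 * v) = x32 at h' ⊢
  generalize B (2 * u + 2 * v) (0 * u + 3 * v) = x33 at h' ⊢
  generalize B (1 * u + (-2) * v) (0 * u + 6 * v) = x34 at h' ⊢
  generalize B (1 * u + (-2) * v) (0 * u + 3 * v) = x35 at h' ⊢
  generalize Q (1 * u + (-2) * v) (2 * u + 2 * v) = x36 at h' ⊢
  generalize Q (2 * u + 2 * v) (1 * u + (-2) * v) = x37 at h' ⊢
  generalize Q (1 * u + (-2) * v) (1 * u + 1 * v) = x38 at h' ⊢
  generalize Q (1 * u + 1 * v) (1 * u + (-2) * v) = x39 at h' ⊢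
  generalize B (1 * u + (-2) * v) (3 * u + 0 * v) = x40 at h' ⊢
  generalize B (2 * u + 2 * v) (3 * u + 0 * v) = x41 at h' ⊢
  generalize (2 : ℚ) ^ (2 * K - 1) = P at hP0 h' ⊢
  field_simp at h' ⊢
  linear_combination (1 / 4) * h'

end Pool.MP0eb725
end

section

set_option autoImplicit false

namespace Pool.MP0eb725

theorem A09b_zero_left {A : Type*} [CommRing A] (K : ℕ) (b : ℕ → A) (y : A) :
    fo K b 0 y = 0 := by
  rw [fo]
  apply Finset.sum_eq_zero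
  intro j _
  rw [zero_pow (by omega), mul_zero, zero_mul]

theorem A09b_zero_right {A : Type*} [CommRing A] (K : ℕ) (b : ℕ → A) (hb : b (K - 1) = 0) (x : A) :
    fo K b x 0 = 0 := by
  rw [fo]
  apply Finset.sum_eq_zero
  intro j hj
  rw [Finset.mem_range] at hj
  by_cases h : j = K - 1
  · rw [h, hb, zero_mul, zero_mul]
  · rw [zero_pow (by omega), mul_zero]

/-- the form `fo K δ` with entries in a polynomial ring -/
noncomputable def A09b_D (K : ℕ) (δ : ℕ → ℤ) (p q : MvPolynomial (Fin 2) ℤ) :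
    MvPolynomial (Fin 2) ℤ :=
  fo K (fun j => ((δ j : ℤ) : MvPolynomial (Fin 2) ℤ)) p q

theorem A09b_aeval {B : Type*} [CommRing B] (K : ℕ) (δ : ℕ → ℤ) (a b : B)
    (p q : MvPolynomial (Fin 2) ℤ) :
    (MvPolynomial.aeval ![a, b] (A09b_D K δ p q) : B) =
      fo K (fun j => ((δ j : ℤ) : B)) (MvPolynomial.aeval ![a, b] p)
        (MvPolynomial.aeval ![a, b] q) := by
  have h1 := fo_map ((MvPolynomial.aeval ![a, b] : MvPolynomial (Fin 2) ℤ →ₐ[ℤ] B) :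
    MvPolynomial (Fin 2) ℤ →+* B) K (fun j => ((δ j : ℤ) : MvPolynomial (Fin 2) ℤ)) p q
  simp only [map_intCast] at h1
  exact h1

open MvPolynomial in
/-- the relation as a polynomial -/
noncomputable def A09b_Q (K : ℕ) (δ : ℕ → ℤ) : MvPolynomial (Fin 2) ℤ :=
  A09b_D K δ (X 0 - 2 * X 1) (X 0) - A09b_D K δ (X 0 - 2 * X 1) (2 * X 1)
      + A09b_D K δ (2 * X 0 + 2 * X 1) (X 0) + A09b_D K δ (2 * X 0 + 2 * X 1) (X 1)
      - 2 * A09b_D K δ (2 * X 0 + 2 * X 1) (2 * X 1)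
      + A09b_D K δ (X 0 + X 1) (X 1) - A09b_D K δ (X 0 + X 1) (2 * X 1)

theorem A09b_aeval_Q {B : Type*} [CommRing B] (K : ℕ) (δ : ℕ → ℤ) (a b : B) :
    (MvPolynomial.aeval ![a, b] (A09b_Q K δ) : B) =
      fo K (fun j => ((δ j : ℤ) : B)) (a - 2 * b) a - fo K (fun j => ((δ j : ℤ) : B)) (a - 2 * b) (2 * b)
      + fo K (fun j => ((δ j : ℤ) : B)) (2 * a + 2 * b) a
      + fo K (fun j => ((δ j : ℤ) : B)) (2 * a + 2 * b) b
      - 2 * fo K (fun j => ((δ j : ℤ) : B)) (2 * a + 2 * b) (2 * b)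
      + fo K (fun j => ((δ j : ℤ) : B)) (a + b) b
      - fo K (fun j => ((δ j : ℤ) : B)) (a + b) (2 * b) := by
  have e0 : (MvPolynomial.aeval ![a, b] (MvPolynomial.X 0 : MvPolynomial (Fin 2) ℤ) : B) = a := by
    simp
  have e1 : (MvPolynomial.aeval ![a, b] (MvPolynomial.X 1 : MvPolynomial (Fin 2) ℤ) : B) = b := by
    simp
  simp only [A09b_Q, map_add, map_sub, map_mul, A09b_aeval, e0, e1, map_ofNat]

/-- the relation as an identity in every commutative ring -/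
theorem A09b_transfer (K : ℕ) (δ : ℕ → ℤ)
    (h : ∀ u v : ℤ, fo K δ (u - 2 * v) u - fo K δ (u - 2 * v) (2 * v) + fo K δ (2 * u + 2 * v) u
      + fo K δ (2 * u + 2 * v) v - 2 * fo K δ (2 * u + 2 * v) (2 * v) + fo K δ (u + v) v
      - fo K δ (u + v) (2 * v) = 0) {A : Type*} [CommRing A] (x y : A) :
    fo K (fun j => ((δ j : ℤ) : A)) (x - 2 * y) x - fo K (fun j => ((δ j : ℤ) : A)) (x - 2 * y) (2 * y)
      + fo K (fun j => ((δ j : ℤ) : A)) (2 * x + 2 * y) x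
      + fo K (fun j => ((δ j : ℤ) : A)) (2 * x + 2 * y) y
      - 2 * fo K (fun j => ((δ j : ℤ) : A)) (2 * x + 2 * y) (2 * y)
      + fo K (fun j => ((δ j : ℤ) : A)) (x + y) y
      - fo K (fun j => ((δ j : ℤ) : A)) (x + y) (2 * y) = 0 := by
  have hv : ∀ u v : ℤ, (MvPolynomial.aeval ![u, v] (A09b_Q K δ) : ℤ) = 0 := by
    intro u v
    rw [A09b_aeval_Q]
    exact h u v
  rw [← A09b_aeval_Q]
  exact poly_transfer _ hv x y

/-- integral step of L5. In characteristic 2 (`poly_transfer`): `fo K δ x 0 = δ (K-1) x^(2K-1) = 0`, `fo K δ 0 y = 0`, so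
F1 becomes `H(u,u) + H(u+v,v) = 0`; `u=X, v=0`: `H(X,X)=0`; `u=X+1,v=1` : `H(X+1,X+1)=0` (substitute) hence `H(X,1)=0`. -/
theorem L5_even (K : ℕ) (hK : 1 ≤ K) (δ : ℕ → ℤ) (hδ : δ (K - 1) = 0)
    (h : ∀ u v : ℤ, fo K δ (u - 2 * v) u - fo K δ (u - 2 * v) (2 * v) + fo K δ (2 * u + 2 * v) u
      + fo K δ (2 * u + 2 * v) v - 2 * fo K δ (2 * u + 2 * v) (2 * v) + fo K δ (u + v) v
      - fo K δ (u + v) (2 * v) = 0) :
    ∀ j < K, (2 : ℤ) ∣ δ j := by
  apply fo_even K δ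
  have h2 : (2 : Polynomial (ZMod 2)) = 0 := CharTwo.two_eq_zero
  have hb : (fun j => ((δ j : ℤ) : Polynomial (ZMod 2))) (K - 1) = 0 := by
    simp [hδ]
  have key : ∀ x y : Polynomial (ZMod 2),
      fo K (fun j => ((δ j : ℤ) : Polynomial (ZMod 2))) x x +
        fo K (fun j => ((δ j : ℤ) : Polynomial (ZMod 2))) (x + y) y = 0 := by
    intro x y
    have h1 := A09b_transfer K δ h x y
    rw [h2] at h1
    simp only [zero_mul, sub_zero, add_zero] at h1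
    rw [A09b_zero_left, A09b_zero_left, A09b_zero_right K _ hb, A09b_zero_right K _ hb] at h1
    simpa using h1
  have key2 : ∀ x : Polynomial (ZMod 2),
      fo K (fun j => ((δ j : ℤ) : Polynomial (ZMod 2))) x x = 0 := by
    intro x
    have h1 := key x 0
    rw [A09b_zero_right K _ hb, add_zero] at h1
    exact h1
  have h3 := key (Polynomial.X + 1) 1
  rw [key2, zero_add] at h3
  have h4 : (Polynomial.X + 1 + 1 : Polynomial (ZMod 2)) = Polynomial.X := by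
    rw [add_assoc, one_add_one_eq_two, h2, add_zero]
  rw [h4] at h3
  exact h3

end Pool.MP0eb725
end
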