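import Mathlib
import Pool.Agent.Lib.MP_0eb725_nt.B06_Parity
import Pool.Agent.Lib.MP_0eb725_nt.AlgDefs
import Pool.Agent.Lib.MP_0eb725_nt.A05c
import Pool.Agent.Lib.MP_0eb725_nt.A09b

section

set_option autoImplicit false

namespace Pool.MP0eb725

theorem A10_odd_ite (c : ZMod 6 → ZMod 6 → Prop) [∀ m n, Decidable (c m n)]
    (hc : ∀ m n, c (-m) (-n) ↔ c m n) (F : FZ) (hF : OddZ F) :
    OddZ (fun m n => if c m n then F m n else 0) := by
  intro m n
  show (if c (-m) (-n) then F (-m) (-n) else 0) = - (if c m n then F m n else 0)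
  by_cases h : c m n
  · rw [if_pos h, if_pos ((hc m n).2 h), hF m n]
  · rw [if_neg h, if_neg (fun h' => h ((hc m n).1 h'))]
    simp

theorem A10_rh_odd (F : FZ) (hF : OddZ F) : OddZ (rh F) := by
  intro m n
  show F (- -n) (-m + -n) = - F (-n) (m + n)
  rw [← hF (-n) (m + n)]
  congr 1
  ring

theorem A10_rh2_eq (F : FZ) : rh (rh F) = rh2 F := by
  funext m n
  show F (-(m + n)) (-n + (m + n)) = F (-m - n) m
  congr 1
  · ring
  · ring

/-- `Th(-u,-v) = - Th(u,v)` (odd degree) -/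
theorem Th_neg (K : ℕ) (hK : 1 ≤ K) (Th : FZ → ℚ → ℚ → ℚ) (h : Iface (2 * K + 1) Th) (F : FZ) (hF : OddZ F)
    (u v : ℚ) : Th F (-u) (-v) = - Th F u v := by
  have h1 := (h.form F hF).hom (-1) u v
  have h2 : 2 * K + 1 - 2 = 2 * (K - 1) + 1 := by omega
  rw [h2, pow_succ, pow_mul] at h1
  simp only [neg_one_sq, one_pow] at h1
  rw [neg_one_mul, neg_one_mul] at h1
  rw [h1]
  ring

/-- `ρ²`-invariance (twice `h2`) -/
theorem Th_rh2 (K : ℕ) (hK : 1 ≤ K) (Th : FZ → ℚ → ℚ → ℚ) (h : Iface (2 * K + 1) Th) (F : FZ) (hF : OddZ F)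
    (u v : ℚ) : Th (rh2 F) v (- u - v) = Th F u v := by
  have h1 := h.h2 F hF u v
  have h2 := h.h2 (rh F) (A10_rh_odd F hF) (u + v) (-u)
  have e1 : (fun m n => rh F (-n) (m + n)) = rh2 F := A10_rh2_eq F
  have e2 : (fun m n => F (-n) (m + n)) = rh F := rfl
  rw [e1] at h2
  rw [e2] at h1
  have e3 : u + v + -u = v := by ring
  have e4 : -(u + v) = -u - v := by ring
  rw [e3, e4] at h2
  rw [h2, h1]

theorem A10_dec1 : ∀ m n : ZMod 6, (3 * (-n) ≠ 0 ∧ 3 * (m + n) = 0) ↔ (3 * m ≠ 0 ∧ 3 * n ≠ 0) := by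
  decide

theorem A10_dec2 : ∀ m n : ZMod 6, (3 * (-m - n) = 0 ∧ 3 * m ≠ 0) ↔ (3 * m ≠ 0 ∧ 3 * n ≠ 0) := by
  decide

theorem A10_sym : ∀ m : ZMod 6, 3 * (-m) = 0 ↔ 3 * m = 0 := by
  decide

theorem A10_A (K : ℕ) (Th : FZ → ℚ → ℚ → ℚ) (h : Iface (2 * K + 1) Th) (F : FZ) (hF : OddZ F)
    (u v : ℚ) : Th (fun m n => if 3 * m ≠ 0 ∧ 3 * n = 0 then F m n else 0) u v =
      Th (oo (rh F)) (u + v) (-u) := by
  have ho := A10_odd_ite (fun m n => 3 * m ≠ 0 ∧ 3 * n = 0)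
    (fun m n => and_congr (not_congr (A10_sym m)) (A10_sym n)) F hF
  have h1 := h.h2 _ ho u v
  rw [← h1]
  congr 1
  funext m n
  show (if 3 * (-n) ≠ 0 ∧ 3 * (m + n) = 0 then F (-n) (m + n) else 0) =
    (if 3 * m ≠ 0 ∧ 3 * n ≠ 0 then F (-n) (m + n) else 0)
  exact if_congr (A10_dec1 m n) rfl rfl

theorem A10_A' (K : ℕ) (hK : 1 ≤ K) (Th : FZ → ℚ → ℚ → ℚ) (h : Iface (2 * K + 1) Th) (F : FZ)
    (hF : OddZ F) (u v : ℚ) : Th (fun m n => if 3 * m = 0 ∧ 3 * n ≠ 0 then F m n else 0) u v =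
      Th (oo (rh2 F)) v (- u - v) := by
  have ho := A10_odd_ite (fun m n => 3 * m = 0 ∧ 3 * n ≠ 0)
    (fun m n => and_congr (A10_sym m) (not_congr (A10_sym n))) F hF
  have h1 := Th_rh2 K hK Th h _ ho u v
  rw [← h1]
  congr 1
  funext m n
  show (if 3 * (-m - n) = 0 ∧ 3 * m ≠ 0 then F (-m - n) m else 0) =
    (if 3 * m ≠ 0 ∧ 3 * n ≠ 0 then F (-m - n) m else 0)
  exact if_congr (A10_dec2 m n) rfl rfl

theorem A10_B (K : ℕ) (Th : FZ → ℚ → ℚ → ℚ) (h : Iface (2 * K + 1) Th) (F : FZ) (hF : OddZ F)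
    (h3 : P3 F) (u v : ℚ) : Th (fun m n => if 3 * m = 0 ∧ 3 * n = 0 then F m n else 0) u v =
      - (1 / 2 ^ (2 * K + 1) * Th F u v) := by
  have h1 := h.h3 F hF h3 u v
  have h2 : (2 : ℚ) ^ (2 * K + 1) ≠ 0 := by positivity
  field_simp
  linarith

theorem A10_oB (F : FZ) (hF : OddZ F) : OddZ (fun m n => if 3 * m = 0 ∧ 3 * n = 0 then F m n else 0) :=
  A10_odd_ite (fun m n => 3 * m = 0 ∧ 3 * n = 0)
    (fun m n => and_congr (A10_sym m) (A10_sym n)) F hF

theorem A10_oA (F : FZ) (hF : OddZ F) : OddZ (fun m n => if 3 * m ≠ 0 ∧ 3 * n = 0 then F m n else 0) :=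
  A10_odd_ite (fun m n => 3 * m ≠ 0 ∧ 3 * n = 0)
    (fun m n => and_congr (not_congr (A10_sym m)) (A10_sym n)) F hF

theorem A10_oA' (F : FZ) (hF : OddZ F) : OddZ (fun m n => if 3 * m = 0 ∧ 3 * n ≠ 0 then F m n else 0) :=
  A10_odd_ite (fun m n => 3 * m = 0 ∧ 3 * n ≠ 0)
    (fun m n => and_congr (A10_sym m) (not_congr (A10_sym n))) F hF

theorem A10_ooo (F : FZ) (hF : OddZ F) : OddZ (oo F) :=
  A10_odd_ite (fun m n => 3 * m ≠ 0 ∧ 3 * n ≠ 0)
    (fun m n => and_congr (not_congr (A10_sym m)) (not_congr (A10_sym n))) F hF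

theorem A10_oev2 (F : FZ) (hF : OddZ F) : OddZ (ev2 F) :=
  A10_odd_ite (fun _ n => 3 * n = 0) (fun _ n => A10_sym n) F hF

/-- Class decomposition for `n` even: `ev2 F = 1_{(1,0)} F + 1_{(0,0)} F`; `h3` for the class `(0,0)`; `h2` maps the
class `(1,0)` to the class `(1,1)`: `(1_{(1,0)} F)(-n, m+n) = oo (rh F)`. -/
theorem Th_ev2 (K : ℕ) (hK : 1 ≤ K) (Th : FZ → ℚ → ℚ → ℚ) (h : Iface (2 * K + 1) Th) (F : FZ) (hF : OddZ F)
    (h3 : P3 F) (u v : ℚ) :
    Th (ev2 F) u v = Th (oo (rh F)) (u + v) (-u) - 1 / 2 ^ (2 * K + 1) * Th F u v := by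
  have h1 := h.add _ _ (A10_oA F hF) (A10_oB F hF) u v
  rw [A10_A K Th h F hF, A10_B K Th h F hF h3] at h1
  rw [← sub_eq_add_neg] at h1
  rw [← h1]
  congr 1
  funext m n
  show (if 3 * n = 0 then F m n else 0) = (if 3 * m ≠ 0 ∧ 3 * n = 0 then F m n else 0) +
    (if 3 * m = 0 ∧ 3 * n = 0 then F m n else 0)
  by_cases hm : 3 * m = 0 <;> by_cases hn : 3 * n = 0 <;> simp [hm, hn]

/-- Class decomposition for `m` even: `ev1 F = 1_{(0,1)} F + 1_{(0,0)} F`, `ρ²` maps `(0,1)` to `(1,1)`. -/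
theorem Th_ev1 (K : ℕ) (hK : 1 ≤ K) (Th : FZ → ℚ → ℚ → ℚ) (h : Iface (2 * K + 1) Th) (F : FZ) (hF : OddZ F)
    (h3 : P3 F) (u v : ℚ) :
    Th (ev1 F) u v = Th (oo (rh2 F)) v (- u - v) - 1 / 2 ^ (2 * K + 1) * Th F u v := by
  have h1 := h.add _ _ (A10_oA' F hF) (A10_oB F hF) u v
  rw [A10_A' K hK Th h F hF, A10_B K Th h F hF h3] at h1
  rw [← sub_eq_add_neg] at h1
  rw [← h1]
  congr 1
  funext m n
  show (if 3 * m = 0 then F m n else 0) = (if 3 * m = 0 ∧ 3 * n ≠ 0 then F m n else 0) +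
    (if 3 * m = 0 ∧ 3 * n = 0 then F m n else 0)
  by_cases hm : 3 * m = 0 <;> by_cases hn : 3 * n = 0 <;> simp [hm, hn]

/-- All four classes: `F = 1_{(0,0)}F + 1_{(1,1)}F + 1_{(1,0)}F + 1_{(0,1)}F`. -/
theorem Th_classes (K : ℕ) (hK : 1 ≤ K) (Th : FZ → ℚ → ℚ → ℚ) (h : Iface (2 * K + 1) Th) (F : FZ) (hF : OddZ F)
    (h3 : P3 F) (u v : ℚ) :
    (1 + 1 / 2 ^ (2 * K + 1)) * Th F u v =
      Th (oo F) u v + Th (oo (rh F)) (u + v) (-u) + Th (oo (rh2 F)) v (- u - v) := by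
  have ho1 : OddZ (fun m n => oo F m n + (if 3 * m = 0 ∧ 3 * n ≠ 0 then F m n else 0)) := by
    intro m n
    show oo F (-m) (-n) + (if 3 * (-m) = 0 ∧ 3 * (-n) ≠ 0 then F (-m) (-n) else 0) =
      - (oo F m n + (if 3 * m = 0 ∧ 3 * n ≠ 0 then F m n else 0))
    have e1 := A10_ooo F hF m n
    have e2 : (if 3 * (-m) = 0 ∧ 3 * (-n) ≠ 0 then F (-m) (-n) else 0) =
      - (if 3 * m = 0 ∧ 3 * n ≠ 0 then F m n else 0) := A10_oA' F hF m n
    rw [e1, e2]
    ring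
  have h1 := h.add _ _ (A10_ooo F hF) (A10_oA' F hF) u v
  have h2 := h.add _ _ (A10_oev2 F hF) ho1 u v
  have e : (fun m n => ev2 F m n + (oo F m n + (if 3 * m = 0 ∧ 3 * n ≠ 0 then F m n else 0))) = F := by
    funext m n
    show (if 3 * n = 0 then F m n else 0) + ((if 3 * m ≠ 0 ∧ 3 * n ≠ 0 then F m n else 0) +
      (if 3 * m = 0 ∧ 3 * n ≠ 0 then F m n else 0)) = F m n
    by_cases hm : 3 * m = 0 <;> by_cases hn : 3 * n = 0 <;> simp [hm, hn]
  rw [e, h1, A10_A' K hK Th h F hF, Th_ev2 K hK Th h F hF h3] at h2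
  linarith

end Pool.MP0eb725
end

section

section

end

section

set_option autoImplicit false

namespace Pool.MP0eb725

theorem A09c_cast (K : ℕ) (b : ℕ → ℤ) (x y : ℤ) :
    fo K (fun j => (b j : ℚ)) (x : ℚ) (y : ℚ) = ((fo K b x y : ℤ) : ℚ) := by
  unfold fo
  push_cast
  rfl

theorem A09c_smul (K : ℕ) (c : ℚ) (b : ℕ → ℚ) (u v : ℚ) :
    fo K (fun j => c * b j) u v = c * fo K b u v := by
  unfold fo
  rw [Finset.mul_sum]
  refine Finset.sum_congr rfl fun j _ => ?_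
  ring

theorem A09c_top (K : ℕ) (hK : 1 ≤ K) (δ : ℕ → ℚ) (u v : ℚ) :
    fo K δ u v = δ (K - 1) * u ^ (2 * K - 1) + fo K (fun j => if j < K - 1 then δ j else 0) u v := by
  obtain ⟨k, rfl⟩ : ∃ k, K = k + 1 := ⟨K - 1, by omega⟩
  unfold fo
  rw [Finset.sum_range_succ, Finset.sum_range_succ]
  have e1 : ∀ x ∈ Finset.range k, (if x < k + 1 - 1 then δ x else 0) * u ^ (2 * x + 1) * v ^ (2 * (k + 1 - 1 - x))
      = δ x * u ^ (2 * x + 1) * v ^ (2 * (k + 1 - 1 - x)) := by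
    intro x hx
    rw [if_pos (by have := Finset.mem_range.1 hx; omega)]
  rw [Finset.sum_congr rfl e1]
  have e2 : 2 * (k + 1) - 1 = 2 * k + 1 := by omega
  have e3 : k + 1 - 1 = k := by omega
  rw [e2, e3]
  simp
  ring

/-- L5.  `D = δ_{K-1} u^(2K-1) + H`; `u^(2K-1)` satisfies F1, so `H` (coefficients `δ j`, `j < K-1`, and 0) does;
`descent` with `L5_even`. -/
theorem L5 (K : ℕ) (hK : 1 ≤ K) (δ : ℕ → ℚ) (h : F1 (fo K δ)) : ∀ j < K - 1, δ j = 0 := by
  have h' : F1 (fo K (fun j => if j < K - 1 then δ j else 0)) := by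
    intro u v
    have h0 := h u v
    simp only [A09c_top K hK δ] at h0
    linear_combination h0
  let R : (Fin K → ℚ) → Prop := fun a =>
    F1 (fo K (fun j => if hj : j < K then a ⟨j, hj⟩ else 0)) ∧ a ⟨K - 1, by omega⟩ = 0
  have key := descent R ?_ ?_ (fun i : Fin K => if (i : ℕ) < K - 1 then δ i else 0) ?_
  · intro j hj
    have := key ⟨j, by omega⟩
    simpa [hj] using this
  · rintro c a ⟨h1, h2⟩
    refine ⟨?_, by simp only [h2, mul_zero]⟩
    intro u v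
    have e : (fun j => if hj : j < K then c * a ⟨j, hj⟩ else 0) =
        fun j => c * (if hj : j < K then a ⟨j, hj⟩ else 0) := by
      funext j
      split_ifs <;> simp
    rw [e]
    simp only [A09c_smul]
    linear_combination c * h1 u v
  · rintro a ⟨h1, h2⟩ i
    have h3 := L5_even K hK (fun j => if hj : j < K then a ⟨j, hj⟩ else 0) ?_ ?_ i i.2
    · simpa using h3
    · have h2' : a ⟨K - 1, by omega⟩ = 0 := by
        have h2'' : ((a ⟨K - 1, by omega⟩ : ℤ) : ℚ) = 0 := h2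
        exact_mod_cast h2''
      have : K - 1 < K := by omega
      simp only [this, dif_pos, h2']
    · intro u v
      have h4 := h1 (u : ℚ) (v : ℚ)
      have e : (fun j => if hj : j < K then ((a ⟨j, hj⟩ : ℤ) : ℚ) else 0) =
          fun j => (((if hj : j < K then a ⟨j, hj⟩ else 0 : ℤ)) : ℚ) := by
        funext j
        split_ifs <;> simp
      rw [e] at h4
      have f1 : ((u : ℚ) - 2 * (v : ℚ)) = ((u - 2 * v : ℤ) : ℚ) := by push_cast; ring
      have f2 : (2 * (v : ℚ)) = ((2 * v : ℤ) : ℚ) := by push_cast; ring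
      have f3 : (2 * (u : ℚ) + 2 * (v : ℚ)) = ((2 * u + 2 * v : ℤ) : ℚ) := by push_cast; ring
      have f4 : ((u : ℚ) + (v : ℚ)) = ((u + v : ℤ) : ℚ) := by push_cast; ring
      rw [f3, f1, f2, f4] at h4
      simp only [A09c_cast] at h4
      exact_mod_cast h4
  · refine ⟨?_, ?_⟩
    · have e : (fun j => if hj : j < K then (fun i : Fin K => if (i : ℕ) < K - 1 then δ i else 0) ⟨j, hj⟩ else 0) =
          fun j => if j < K - 1 then δ j else 0 := by
        funext j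
        by_cases h1 : j < K
        · simp [h1]
        · have h2 : ¬ j < K - 1 := by omega
          simp [h1, h2]
      rw [e]
      exact h'
    · simp

/-- `I` vanishes for `A = a u^(2K-1)`, `B = 0` -/
theorem IAB_top (K : ℕ) (hK : 1 ≤ K) (a u v : ℚ) :
    IAB (1 / 2 ^ (2 * K + 1)) (fun u _ => a * u ^ (2 * K - 1)) (fun _ _ => 0) u v = 0 := by
  obtain ⟨k, rfl⟩ : ∃ k, K = k + 1 := ⟨K - 1, by omega⟩
  have e2 : 2 * (k + 1) - 1 = 2 * k + 1 := by omega
  have hodd : Odd (2 * k + 1) := ⟨k, rfl⟩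
  have e4 : (1 : ℚ) / 2 ^ (2 * (k + 1) + 1) = 1 / 4 * (1 / 2 ^ (2 * k + 1)) := by
    rw [show 2 * (k + 1) + 1 = (2 * k + 1) + 2 by ring, pow_add]
    field_simp
    norm_num
  unfold IAB
  simp only [e2, e4]
  have e5 : (-v) ^ (2 * k + 1) = - v ^ (2 * k + 1) := hodd.neg_pow v
  have e6 : (-v / 2) ^ (2 * k + 1) = - (v ^ (2 * k + 1) * (1 / 2 ^ (2 * k + 1))) := by
    rw [div_pow, e5]
    ring
  have e7 : (u / 2) ^ (2 * k + 1) = u ^ (2 * k + 1) * (1 / 2 ^ (2 * k + 1)) := by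
    rw [div_pow]
    ring
  rw [e5, e6, e7]
  ring

end Pool.MP0eb725
end

section

set_option autoImplicit false

namespace Pool.MP0eb725

theorem A09d_zero {B : ℚ → ℚ → ℚ} (hB : OE B) (y : ℚ) : B 0 y = 0 := by
  have h := hB.1 0 y
  rw [neg_zero] at h
  linarith

theorem A09d_one {B : ℚ → ℚ → ℚ} (hB : OE B) (s1 s2 x' y' x y : ℚ) (h1 : s1 = 1 ∨ s1 = -1)
    (h2 : s2 = 1 ∨ s2 = -1) (hx : x = s1 * x') (hy : y = s2 * y') : B x y = s1 * B x' y' := by
  subst hx hy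
  have h3 : B (s1 * x') (s2 * y') = B (s1 * x') y' := by
    rcases h2 with rfl | rfl
    · rw [one_mul]
    · rw [neg_one_mul, hB.2]
  rw [h3]
  rcases h1 with rfl | rfl
  · rw [one_mul, one_mul]
  · rw [neg_one_mul, hB.1, neg_one_mul]

theorem A09d_two {d : ℕ} {B : ℚ → ℚ → ℚ} (hB : OE B) (hBh : Hom d B) (s1 s2 c x' y' x y : ℚ)
    (h1 : s1 = 1 ∨ s1 = -1) (h2 : s2 = 1 ∨ s2 = -1) (hx : x = s1 * (c * x')) (hy : y = s2 * (c * y')) :
    B x y = s1 * c ^ d * B x' y' := by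
  rw [A09d_one hB s1 s2 (c * x') (c * y') x y h1 h2 hx hy, hBh]
  ring

theorem A09d_pow (K : ℕ) (hK : 1 ≤ K) (s1 c x' x : ℚ) (h1 : s1 = 1 ∨ s1 = -1)
    (hx : x = s1 * (c * x')) : x ^ (2 * K - 1) = s1 * c ^ (2 * K - 1) * x' ^ (2 * K - 1) := by
  have hodd : Odd (2 * K - 1) := ⟨K - 1, by omega⟩
  subst hx
  rw [mul_pow, mul_pow]
  rcases h1 with rfl | rfl
  · rw [one_pow]; ring
  · rw [hodd.neg_one_pow]; ring


/-- `I` for the explicit solution: parity, homogeneity (`c = 2` and `c = 1/2`), ring.  (Checked numerically.)  `k` drops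
out. -/
theorem Ipsi_eq (K : ℕ) (hK : 1 ≤ K) (B Q : ℚ → ℚ → ℚ) (k : ℚ) (hB : OE B) (hQ : OE Q)
    (hBh : Hom (2 * K - 1) B) (hQh : Hom (2 * K - 1) Q) (u v : ℚ) :
    Ipsi (1 / 2 ^ (2 * K + 1)) (Xc B Q) (Xb Q)
      (fun u v => Ec (2 ^ (2 * K + 1)) (2 * K - 1) B Q k u v / 2 ^ (2 * K + 1))
      (fun u v => Eb (2 ^ (2 * K + 1)) (2 * K - 1) Q k u v / 2 ^ (2 * K + 1)) u v =
    IAB (1 / 2 ^ (2 * K + 1)) (fun u v => B u v + 2 * Q u v) B u v := by
  unfold Ipsi IAB Xc Xb Ec Eb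
  have h0 : B u v = 1 * B (1 * u + 0 * v) (0 * u + 1 * v) :=
    A09d_one hB 1 1 _ _ _ _ (by norm_num) (by norm_num) (by ring) (by ring)
  have h1 : B (u - v) v = 1 * B (1 * u + (-1) * v) (0 * u + 1 * v) :=
    A09d_one hB 1 1 _ _ _ _ (by norm_num) (by norm_num) (by ring) (by ring)
  have h2 : Q (u - v) u = 1 * Q (1 * u + (-1) * v) (1 * u + 0 * v) :=
    A09d_one hQ 1 1 _ _ _ _ (by norm_num) (by norm_num) (by ring) (by ring)
  have h3 : Q u (u - v) = 1 * Q (1 * u + 0 * v) (1 * u + (-1) * v) :=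
    A09d_one hQ 1 1 _ _ _ _ (by norm_num) (by norm_num) (by ring) (by ring)
  have h4 : B v u = 1 * B (0 * u + 1 * v) (1 * u + 0 * v) :=
    A09d_one hB 1 1 _ _ _ _ (by norm_num) (by norm_num) (by ring) (by ring)
  have h5 : B (v - u) u = (-1) * B (1 * u + (-1) * v) (1 * u + 0 * v) :=
    A09d_one hB (-1) 1 _ _ _ _ (by norm_num) (by norm_num) (by ring) (by ring)
  have h6 : Q (v - u) v = (-1) * Q (1 * u + (-1) * v) (0 * u + 1 * v) :=
    A09d_one hQ (-1) 1 _ _ _ _ (by norm_num) (by norm_num) (by ring) (by ring)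
  have h7 : Q v (v - u) = 1 * Q (0 * u + 1 * v) (1 * u + (-1) * v) :=
    A09d_one hQ 1 (-1) _ _ _ _ (by norm_num) (by norm_num) (by ring) (by ring)
  have h8 : Q u v = 1 * Q (1 * u + 0 * v) (0 * u + 1 * v) :=
    A09d_one hQ 1 1 _ _ _ _ (by norm_num) (by norm_num) (by ring) (by ring)
  have h9 : Q v u = 1 * Q (0 * u + 1 * v) (1 * u + 0 * v) :=
    A09d_one hQ 1 1 _ _ _ _ (by norm_num) (by norm_num) (by ring) (by ring)
  have h10 : Q v (u - v) = 1 * Q (0 * u + 1 * v) (1 * u + (-1) * v) :=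
    A09d_one hQ 1 1 _ _ _ _ (by norm_num) (by norm_num) (by ring) (by ring)
  have h11 : Q (u - v) v = 1 * Q (1 * u + (-1) * v) (0 * u + 1 * v) :=
    A09d_one hQ 1 1 _ _ _ _ (by norm_num) (by norm_num) (by ring) (by ring)
  have h12 : B u (2 * v) = 1 * B (1 * u + 0 * v) (0 * u + 2 * v) :=
    A09d_one hB 1 1 _ _ _ _ (by norm_num) (by norm_num) (by ring) (by ring)
  have h13 : B (2 * u) v = 1 * B (2 * u + 0 * v) (0 * u + 1 * v) :=
    A09d_one hB 1 1 _ _ _ _ (by norm_num) (by norm_num) (by ring) (by ring)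
  have h14 : B (u - v) (2 * v) = 1 * B (1 * u + (-1) * v) (0 * u + 2 * v) :=
    A09d_one hB 1 1 _ _ _ _ (by norm_num) (by norm_num) (by ring) (by ring)
  have h15 : Q (u - v) (2 * u) = 1 * Q (1 * u + (-1) * v) (2 * u + 0 * v) :=
    A09d_one hQ 1 1 _ _ _ _ (by norm_num) (by norm_num) (by ring) (by ring)
  have h16 : Q (2 * u) (u - v) = 1 * Q (2 * u + 0 * v) (1 * u + (-1) * v) :=
    A09d_one hQ 1 1 _ _ _ _ (by norm_num) (by norm_num) (by ring) (by ring)
  have h17 : u ^ (2 * K - 1) = 1 * 1 ^ (2 * K - 1) * (1 * u + 0 * v) ^ (2 * K - 1) :=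
    A09d_pow K hK 1 1 _ _ (by norm_num) (by ring)
  have h18 : B v (2 * u) = 1 * B (0 * u + 1 * v) (2 * u + 0 * v) :=
    A09d_one hB 1 1 _ _ _ _ (by norm_num) (by norm_num) (by ring) (by ring)
  have h19 : B (2 * v) u = 1 * B (0 * u + 2 * v) (1 * u + 0 * v) :=
    A09d_one hB 1 1 _ _ _ _ (by norm_num) (by norm_num) (by ring) (by ring)
  have h20 : B (v - u) (2 * u) = (-1) * B (1 * u + (-1) * v) (2 * u + 0 * v) :=
    A09d_one hB (-1) 1 _ _ _ _ (by norm_num) (by norm_num) (by ring) (by ring)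
  have h21 : Q (v - u) (2 * v) = (-1) * Q (1 * u + (-1) * v) (0 * u + 2 * v) :=
    A09d_one hQ (-1) 1 _ _ _ _ (by norm_num) (by norm_num) (by ring) (by ring)
  have h22 : Q (2 * v) (v - u) = 1 * Q (0 * u + 2 * v) (1 * u + (-1) * v) :=
    A09d_one hQ 1 (-1) _ _ _ _ (by norm_num) (by norm_num) (by ring) (by ring)
  have h23 : v ^ (2 * K - 1) = 1 * 1 ^ (2 * K - 1) * (0 * u + 1 * v) ^ (2 * K - 1) :=
    A09d_pow K hK 1 1 _ _ (by norm_num) (by ring)
  have h24 : Q u (2 * v) = 1 * Q (1 * u + 0 * v) (0 * u + 2 * v) :=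
    A09d_one hQ 1 1 _ _ _ _ (by norm_num) (by norm_num) (by ring) (by ring)
  have h25 : Q (2 * v) u = 1 * Q (0 * u + 2 * v) (1 * u + 0 * v) :=
    A09d_one hQ 1 1 _ _ _ _ (by norm_num) (by norm_num) (by ring) (by ring)
  have h26 : Q (2 * u) v = 1 * Q (2 * u + 0 * v) (0 * u + 1 * v) :=
    A09d_one hQ 1 1 _ _ _ _ (by norm_num) (by norm_num) (by ring) (by ring)
  have h27 : Q v (2 * u) = 1 * Q (0 * u + 1 * v) (2 * u + 0 * v) :=
    A09d_one hQ 1 1 _ _ _ _ (by norm_num) (by norm_num) (by ring) (by ring)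
  have h28 : Q (2 * v) (u - v) = 1 * Q (0 * u + 2 * v) (1 * u + (-1) * v) :=
    A09d_one hQ 1 1 _ _ _ _ (by norm_num) (by norm_num) (by ring) (by ring)
  have h29 : Q (u - v) (2 * v) = 1 * Q (1 * u + (-1) * v) (0 * u + 2 * v) :=
    A09d_one hQ 1 1 _ _ _ _ (by norm_num) (by norm_num) (by ring) (by ring)
  have h30 : B (u - v) u = 1 * B (1 * u + (-1) * v) (1 * u + 0 * v) :=
    A09d_one hB 1 1 _ _ _ _ (by norm_num) (by norm_num) (by ring) (by ring)
  have h31 : B (u / 2) (-v) = 1 * (1/2) ^ (2 * K - 1) * B (1 * u + 0 * v) (0 * u + 2 * v) :=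
    A09d_two hB hBh 1 (-1) (1/2) _ _ _ _ (by norm_num) (by norm_num) (by ring) (by ring)
  have h32 : Q (u / 2) (-v) = 1 * (1/2) ^ (2 * K - 1) * Q (1 * u + 0 * v) (0 * u + 2 * v) :=
    A09d_two hQ hQh 1 (-1) (1/2) _ _ _ _ (by norm_num) (by norm_num) (by ring) (by ring)
  have h33 : B (-v) (u / 2) = (-1) * (1/2) ^ (2 * K - 1) * B (0 * u + 2 * v) (1 * u + 0 * v) :=
    A09d_two hB hBh (-1) 1 (1/2) _ _ _ _ (by norm_num) (by norm_num) (by ring) (by ring)
  have h34 : Q (-v) (u / 2) = (-1) * (1/2) ^ (2 * K - 1) * Q (0 * u + 2 * v) (1 * u + 0 * v) :=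
    A09d_two hQ hQh (-1) 1 (1/2) _ _ _ _ (by norm_num) (by norm_num) (by ring) (by ring)
  have h35 : B u ((-v) / 2) = 1 * (1/2) ^ (2 * K - 1) * B (2 * u + 0 * v) (0 * u + 1 * v) :=
    A09d_two hB hBh 1 (-1) (1/2) _ _ _ _ (by norm_num) (by norm_num) (by ring) (by ring)
  have h36 : Q u ((-v) / 2) = 1 * (1/2) ^ (2 * K - 1) * Q (2 * u + 0 * v) (0 * u + 1 * v) :=
    A09d_two hQ hQh 1 (-1) (1/2) _ _ _ _ (by norm_num) (by norm_num) (by ring) (by ring)
  have h37 : B ((-v) / 2) u = (-1) * (1/2) ^ (2 * K - 1) * B (0 * u + 1 * v) (2 * u + 0 * v) :=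
    A09d_two hB hBh (-1) 1 (1/2) _ _ _ _ (by norm_num) (by norm_num) (by ring) (by ring)
  have h38 : Q ((-v) / 2) u = (-1) * (1/2) ^ (2 * K - 1) * Q (0 * u + 1 * v) (2 * u + 0 * v) :=
    A09d_two hQ hQh (-1) 1 (1/2) _ _ _ _ (by norm_num) (by norm_num) (by ring) (by ring)
  have h39 : B ((u - v) / 2) u = 1 * (1/2) ^ (2 * K - 1) * B (1 * u + (-1) * v) (2 * u + 0 * v) :=
    A09d_two hB hBh 1 1 (1/2) _ _ _ _ (by norm_num) (by norm_num) (by ring) (by ring)
  have h40 : Q ((u - v) / 2) u = 1 * (1/2) ^ (2 * K - 1) * Q (1 * u + (-1) * v) (2 * u + 0 * v) :=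
    A09d_two hQ hQh 1 1 (1/2) _ _ _ _ (by norm_num) (by norm_num) (by ring) (by ring)
  have h41 : B ((u - v) / 2) v = 1 * (1/2) ^ (2 * K - 1) * B (1 * u + (-1) * v) (0 * u + 2 * v) :=
    A09d_two hB hBh 1 1 (1/2) _ _ _ _ (by norm_num) (by norm_num) (by ring) (by ring)
  have h42 : Q ((u - v) / 2) v = 1 * (1/2) ^ (2 * K - 1) * Q (1 * u + (-1) * v) (0 * u + 2 * v) :=
    A09d_two hQ hQh 1 1 (1/2) _ _ _ _ (by norm_num) (by norm_num) (by ring) (by ring)
  simp only [h0, h1, h2, h3, h4, h5, h6, h7, h8, h9, h10, h11, h12, h13, h14, h15, h16, h17, h18, h19, h20, h21, h22, h23, h24, h25, h26, h27, h28, h29, h30, h31, h32, h33, h34, h35, h36, h37, h38, h39, h40, h41, h42]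
  have hW : (2 : ℚ) ^ (2 * K + 1) = 4 * 2 ^ (2 * K - 1) := by
    have e : 2 * K + 1 = (2 * K - 1) + 2 := by omega
    rw [e, pow_add]; ring
  have hhalf : ((1 / 2 : ℚ)) ^ (2 * K - 1) = 1 / 2 ^ (2 * K - 1) := by
    rw [one_div, inv_pow, one_div]
  have hP0 : (2 : ℚ) ^ (2 * K - 1) ≠ 0 := by positivity
  rw [hW]
  simp only [one_pow, hhalf]
  generalize (2 : ℚ) ^ (2 * K - 1) = P at hP0 ⊢
  field_simp
  ring

end Pool.MP0eb725
end

section

set_option autoImplicit false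

namespace Pool.MP0eb725

theorem A09e_fo_sum (K : ℕ) (α : ℕ → ℚ) (u v : ℚ) :
    fo K α u v = ∑ j ∈ Finset.range K, α j * fo K (fun i => if i = j then 1 else 0) u v := by
  unfold fo
  refine Finset.sum_congr rfl fun j hj => ?_
  have hj' : j ∈ Finset.range K := hj
  rw [Finset.sum_eq_single_of_mem j hj' (fun b _ hb => by simp [hb])]
  simp only [if_true]
  ring

theorem A09e_bOf_sum (K : ℕ) (α : ℕ → ℚ) (u v : ℚ) :
    fo K (bOf K α) u v =
      ∑ j ∈ Finset.range K, α j * fo K (bOf K (fun i => if i = j then 1 else 0)) u v := by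
  unfold fo
  refine Finset.sum_congr rfl fun j hj => ?_
  have hj' : j ∈ Finset.range K := hj
  rw [Finset.sum_eq_single_of_mem j hj' (fun b _ hb => by simp [bOf, hb])]
  by_cases h1 : j < K - 1
  · simp only [bOf, h1, if_true]
    ring
  · simp only [bOf, h1, if_false]
    ring

theorem A09e_IAB_sum (e : ℚ) (n : ℕ) (α : ℕ → ℚ) (A B : ℕ → ℚ → ℚ → ℚ) (u v : ℚ) :
    IAB e (fun u v => ∑ j ∈ Finset.range n, α j * A j u v)
      (fun u v => ∑ j ∈ Finset.range n, α j * B j u v) u v =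
    ∑ j ∈ Finset.range n, α j * IAB e (A j) (B j) u v := by
  induction n with
  | zero => simp [IAB]
  | succ n ih =>
    rw [Finset.sum_range_succ, ← ih]
    simp only [IAB, Finset.sum_range_succ]
    ring

theorem A09e_IAB_form {d : ℕ} {A B : ℚ → ℚ → ℚ} (e : ℚ) (hA : IsForm d A) (hB : IsForm d B) :
    IsForm d (IAB e A B) := by
  have key : ∀ (G : ℚ → ℚ → ℚ), IsForm d G → ∀ (a b c f k : ℚ),
      IsForm d (fun u v => k * G (a * u + b * v) (c * u + f * v)) :=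
    fun G hG a b c f k => (hG.comp_lin a b c f).smul' k
  obtain ⟨a, ha⟩ := (((((((((((((((key A hA 1 0 0 1 ((1 - 4 * e) / 2)).add' (key A hA 0 1 1 0 ((1 - 4 * e) / 2))).add'
    (key B hB 1 0 0 1 (-(1 - 4 * e) * (3 / 2)))).add' (key B hB 0 1 1 0 (-(1 - 4 * e) * (3 / 2)))).add'
    (key A hA 1 (-1) 0 1 (-1))).add' (key A hA 1 (-1) 1 0 1)).add'
    (key A hA (1 / 2) 0 0 (-1) (1 / 2))).add' (key A hA 0 (-1) (1 / 2) 0 (1 / 2))).add'
    (key B hB (1 / 2) 0 0 (-1) (-(3 / 2)))).add' (key B hB 0 (-1) (1 / 2) 0 (-(3 / 2)))).add'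
    (key A hA 1 0 0 (-(1 / 2)) (-(1 / 2)))).add' (key A hA 0 (-(1 / 2)) 1 0 (-(1 / 2)))).add'
    (key B hB 1 0 0 (-(1 / 2)) (3 / 2))).add' (key B hB 0 (-(1 / 2)) 1 0 (3 / 2))).add'
    (key A hA (1 / 2) (-(1 / 2)) 1 0 1)).add' (key A hA (1 / 2) (-(1 / 2)) 0 1 (-1))
  refine ⟨a, fun u v => ?_⟩
  rw [← ha]
  have h1 : (1 : ℚ) * u + 0 * v = u := by ring
  have h2 : (0 : ℚ) * u + 1 * v = v := by ring
  have h3 : (1 : ℚ) * u + -1 * v = u - v := by ring
  have h4 : (1 / 2 : ℚ) * u + 0 * v = u / 2 := by ring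
  have h5 : (0 : ℚ) * u + -1 * v = -v := by ring
  have h6 : (0 : ℚ) * u + -(1 / 2) * v = -v / 2 := by ring
  have h7 : (1 / 2 : ℚ) * u + -(1 / 2) * v = (u - v) / 2 := by ring
  simp only [h1, h2, h3, h4, h5, h6, h7, IAB]
  ring

theorem A09e_top (K : ℕ) (hK : 1 ≤ K) (u v : ℚ) :
    IAB (1 / 2 ^ (2 * K + 1)) (fo K (fun i => if i = K - 1 then 1 else 0))
      (fo K (bOf K (fun i => if i = K - 1 then 1 else 0))) u v = 0 := by
  have h1 : (fo K (fun i => if i = K - 1 then (1 : ℚ) else 0)) =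
      fun u _ => 1 * u ^ (2 * K - 1) := by
    funext u v
    unfold fo
    rw [Finset.sum_eq_single_of_mem (K - 1) (Finset.mem_range.2 (by omega))
      (fun b _ hb => by simp [hb])]
    have h2 : 2 * (K - 1) + 1 = 2 * K - 1 := by omega
    simp [h2]
  have h2 : (fo K (bOf K (fun i => if i = K - 1 then (1 : ℚ) else 0))) = fun _ _ => 0 := by
    funext u v
    unfold fo
    refine Finset.sum_eq_zero fun j hj => ?_
    by_cases h3 : j < K - 1
    · have h4 : j ≠ K - 1 := by omega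
      simp [bOf, h4]
    · simp [bOf, h3]
  rw [h1, h2]
  exact IAB_top K hK 1 u v

/-- a homogeneous linear system with more unknowns than equations has a nonzero solution -/
theorem A09e_lin (K : ℕ) (hK : 1 ≤ K) (m : ℕ → ℕ → ℚ) :
    ∃ c : ℕ → ℚ, (∃ k ∈ Finset.range K, c k ≠ 0) ∧
      ∀ j < K - 1, ∑ k ∈ Finset.range K, c k * m j k = 0 := by
  let M : Matrix (Fin (K - 1)) (Fin K) ℚ := fun j k => m j k
  have hlt : Module.finrank ℚ (Fin (K - 1) → ℚ) < Module.finrank ℚ (Fin K → ℚ) := by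
    simp only [Module.finrank_fin_fun]
    omega
  have hker : LinearMap.ker M.mulVecLin ≠ ⊥ := LinearMap.ker_ne_bot_of_finrank_lt hlt
  obtain ⟨x, hx, hx0⟩ := Submodule.exists_mem_ne_zero_of_ne_bot hker
  obtain ⟨i, hi⟩ : ∃ i, x i ≠ 0 := by
    by_contra hcon
    push Not at hcon
    exact hx0 (funext hcon)
  refine ⟨fun k => if h : k < K then x ⟨k, h⟩ else 0,
    ⟨i, Finset.mem_range.2 i.2, by simpa using hi⟩, fun j hj => ?_⟩
  have h1 : M.mulVec x ⟨j, hj⟩ = 0 := by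
    have : M.mulVecLin x = 0 := hx
    rw [Matrix.mulVecLin_apply] at this
    exact congrFun this _
  rw [Finset.sum_range]
  rw [← h1]
  unfold Matrix.mulVec dotProduct
  refine Finset.sum_congr rfl fun k _ => ?_
  simp only [M, Fin.is_lt, dif_pos, Fin.eta]
  ring

/-- linear algebra: the coefficients of `u^(2k+1)`, `k < K`, of `IAB (fo K α) (fo K (bOf K α))` are linear functions of
`α 0, ..., α (K-2)` (`α (K-1)` does not contribute by `IAB_top`), so some nonzero combination of these `K` coefficients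
vanishes identically. -/
theorem exists_ker (K : ℕ) (hK : 1 ≤ K) :
    ∃ c : ℕ → ℚ, (∃ k ∈ Finset.range K, c k ≠ 0) ∧ ∀ (α a : ℕ → ℚ),
      (∀ u v : ℚ, IAB (1 / 2 ^ (2 * K + 1)) (fo K α) (fo K (bOf K α)) u v =
        ∑ i ∈ Finset.range (2 * K - 1 + 1), a i * u ^ i * v ^ (2 * K - 1 - i)) →
      ∑ k ∈ Finset.range K, c k * a (2 * k + 1) = 0 := by
  have hf : ∀ j : ℕ, ∃ m : ℕ → ℚ, ∀ u v : ℚ,
      IAB (1 / 2 ^ (2 * K + 1)) (fo K (fun i => if i = j then 1 else 0))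
        (fo K (bOf K (fun i => if i = j then 1 else 0))) u v =
      ∑ i ∈ Finset.range (2 * K - 1 + 1), m i * u ^ i * v ^ (2 * K - 1 - i) :=
    fun j => A09e_IAB_form _ (fo_form K hK _) (fo_form K hK _)
  choose m hm using hf
  obtain ⟨c, hc0, hc⟩ := A09e_lin K hK (fun j k => m j (2 * k + 1))
  refine ⟨c, hc0, fun α a ha => ?_⟩
  have h1 : ∀ i ≤ 2 * K - 1, a i = ∑ j ∈ Finset.range (K - 1), α j * m j i := by
    refine coeff_unique (2 * K - 1) a (fun i => ∑ j ∈ Finset.range (K - 1), α j * m j i)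
      fun u v => ?_
    rw [← ha]
    have e1 : fo K α = fun u v => ∑ j ∈ Finset.range K,
        α j * fo K (fun i => if i = j then 1 else 0) u v := by
      funext u v
      exact A09e_fo_sum K α u v
    have e2 : fo K (bOf K α) = fun u v => ∑ j ∈ Finset.range K,
        α j * fo K (bOf K (fun i => if i = j then 1 else 0)) u v := by
      funext u v
      exact A09e_bOf_sum K α u v
    rw [e1, e2, A09e_IAB_sum]
    obtain ⟨n, rfl⟩ : ∃ n, K = n + 1 := ⟨K - 1, by omega⟩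
    rw [Finset.sum_range_succ]
    have e3 := A09e_top (n + 1) hK u v
    simp only [Nat.add_sub_cancel] at e3
    rw [e3, mul_zero, add_zero]
    simp only [Nat.add_sub_cancel, hm, Finset.mul_sum, Finset.sum_mul]
    rw [Finset.sum_comm]
    refine Finset.sum_congr rfl fun i _ => Finset.sum_congr rfl fun j _ => ?_
    ring
  calc ∑ k ∈ Finset.range K, c k * a (2 * k + 1)
      = ∑ k ∈ Finset.range K, ∑ j ∈ Finset.range (K - 1), α j * (c k * m j (2 * k + 1)) := by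
        refine Finset.sum_congr rfl fun k hk => ?_
        rw [h1 (2 * k + 1) (by have := Finset.mem_range.1 hk; omega), Finset.mul_sum]
        refine Finset.sum_congr rfl fun j _ => ?_
        ring
    _ = ∑ j ∈ Finset.range (K - 1), α j * ∑ k ∈ Finset.range K, c k * m j (2 * k + 1) := by
        rw [Finset.sum_comm]
        refine Finset.sum_congr rfl fun j _ => ?_
        rw [Finset.mul_sum]
    _ = 0 := by
        refine Finset.sum_eq_zero fun j hj => ?_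
        rw [hc j (Finset.mem_range.1 hj), mul_zero]

end Pool.MP0eb725
end

section

set_option autoImplicit false

namespace Pool.MP0eb725

theorem A09f_fo3 (K : ℕ) (β y : ℕ → ℚ) (u v : ℚ) :
    3 * fo K β u (3 * v) - fo K β u v - 2 * fo K y u v =
      fo K (fun j => 3 ^ (2 * (K - 1 - j) + 1) * β j - (β j + 2 * y j)) u v := by
  unfold fo
  rw [Finset.mul_sum, Finset.mul_sum, ← Finset.sum_sub_distrib, ← Finset.sum_sub_distrib]
  refine Finset.sum_congr rfl fun j _ => ?_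
  rw [mul_pow, pow_succ]
  ring

theorem A09f_add (K : ℕ) (β y : ℕ → ℚ) (u v : ℚ) :
    fo K β u v + 2 * fo K y u v = fo K (fun j => β j + 2 * y j) u v := by
  unfold fo
  rw [Finset.mul_sum, ← Finset.sum_add_distrib]
  refine Finset.sum_congr rfl fun j _ => ?_
  ring

theorem A09f_congr (K : ℕ) (β γ : ℕ → ℚ) (h : ∀ j < K, β j = γ j) (u v : ℚ) : fo K β u v = fo K γ u v := by
  unfold fo
  refine Finset.sum_congr rfl fun j hj => ?_
  rw [h j (Finset.mem_range.1 hj)]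

/-- MAIN LINEAR ALGEBRA THEOREM. Proof: `structure_thm` for `W * theta` (i.e. `c = fun u v => W * thc u v` ...), so
`theta = E / W`; by R3c, R3b and `E_Nc`, `E_Nb`: `tc = Xc B Q`, `tb = Xb Q`; `F1_of_R5`; the function
`3 B(u,3v) - B - 2Q` is `fo K δ` with `δ j = 3^(2(K-1-j)+1) β j - (β j + 2 y j)`; `L5` gives, with `α j = β j + 2 y j`,
`β j = bOf K α j` for all `j < K`; `Ipsi_eq` and `exists_ker`. -/
theorem alg_two (K : ℕ) (hK : 1 ≤ K) :
    ∃ c : ℕ → ℚ, (∃ k ∈ Finset.range K, c k ≠ 0) ∧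
      ∀ (tc tb thc tha thb : ℚ → ℚ → ℚ), IsForm (2 * K - 1) thc → IsForm (2 * K - 1) tha →
        IsForm (2 * K - 1) thb → (∀ u v : ℚ, tha v u = - tha u v) → (∀ u v : ℚ, thb v u = thb u v) →
        R2A thc tha thb → R2B thc thb → R3c (2 ^ (2 * K + 1)) tc thc tha →
        R3b (2 ^ (2 * K + 1)) tb thb → R5 (1 / 2 ^ (2 * K + 1)) tc tb thc tha thb →
        ∀ a : ℕ → ℚ, (∀ u v : ℚ, Ipsi (1 / 2 ^ (2 * K + 1)) tc tb thc thb u v =
          ∑ i ∈ Finset.range (2 * K - 1 + 1), a i * u ^ i * v ^ (2 * K - 1 - i)) →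
        ∑ k ∈ Finset.range K, c k * a (2 * k + 1) = 0 := by
  obtain ⟨c, hc, hker⟩ := exists_ker K hK
  refine ⟨c, hc, fun tc tb thc tha thb h1 h2 h3 hsa hsb hA hB h3c h3b h5 a ha => ?_⟩
  have hW : (2 : ℚ) ^ (2 * K + 1) ≠ 0 := by positivity
  have hW1 : (2 : ℚ) ^ (2 * K + 1) + 1 ≠ 0 := by positivity
  obtain ⟨β, y, k, hβ, ec, ea, eb⟩ := structure_thm K hK (fun u v => 2 ^ (2 * K + 1) * thc u v)
    (fun u v => 2 ^ (2 * K + 1) * tha u v) (fun u v => 2 ^ (2 * K + 1) * thb u v)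
    (h1.smul' _) (h2.smul' _) (h3.smul' _)
    (fun u v => by simp only [hsa u v]; ring) (fun u v => by simp only [hsb u v])
    (fun u v => by linear_combination (2 : ℚ) ^ (2 * K + 1) * hA u v)
    (fun u v => by linear_combination (2 : ℚ) ^ (2 * K + 1) * hB u v)
  have hBo := fo_OE K β
  have hQo := fo_OE K y
  have hBh := fo_hom K hK β
  have hQh := fo_hom K hK y
  have f1 : tc = Xc (fo K β) (fo K y) := by
    funext u v
    have h := h3c u v
    have g := E_Nc K hK (fo K β) (fo K y) k hBo hQo hBh hQh u v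
    rw [← ec u v, ← ec (u - v) (-v), ← ea u (u - v)] at g
    apply mul_left_cancel₀ hW1
    linear_combination h + g
  have f2 : tb = Xb (fo K y) := by
    funext u v
    have h := h3b u v
    have g := E_Nb K hK (fo K y) k hQo hQh u v
    rw [← eb u v, ← eb (-v) (u - v), ← eb (v - u) (-u)] at g
    apply mul_left_cancel₀ hW1
    linear_combination h + g
  have f3 : thc = fun u v => Ec (2 ^ (2 * K + 1)) (2 * K - 1) (fo K β) (fo K y) k u v / 2 ^ (2 * K + 1) := by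
    funext u v
    rw [← ec u v]
    field_simp
  have f4 : tha = fun u v => Ea (2 ^ (2 * K + 1)) (2 * K - 1) (fo K β) (fo K y) k u v / 2 ^ (2 * K + 1) := by
    funext u v
    rw [← ea u v]
    field_simp
  have f5 : thb = fun u v => Eb (2 ^ (2 * K + 1)) (2 * K - 1) (fo K y) k u v / 2 ^ (2 * K + 1) := by
    funext u v
    rw [← eb u v]
    field_simp
  rw [f1, f2, f3, f4, f5] at h5
  have hF := F1_of_R5 K hK (fo K β) (fo K y) k hBo hQo hBh hQh h5
  have e6 : (fun u v : ℚ => 3 * fo K β u (3 * v) - fo K β u v - 2 * fo K y u v) =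
      fo K (fun j => 3 ^ (2 * (K - 1 - j) + 1) * β j - (β j + 2 * y j)) := by
    funext u v
    exact A09f_fo3 K β y u v
  rw [e6] at hF
  have hδ := L5 K hK _ hF
  have hb : ∀ j < K, β j = bOf K (fun j => β j + 2 * y j) j := by
    intro j hj
    unfold bOf
    by_cases h : j < K - 1
    · rw [if_pos h, eq_div_iff (by positivity)]
      have := hδ j h
      linear_combination this
    · rw [if_neg h, show j = K - 1 by omega, hβ]
  refine hker (fun j => β j + 2 * y j) a fun u v => ?_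
  rw [← ha u v, f1, f2, f3, f5, Ipsi_eq K hK (fo K β) (fo K y) k hBo hQo hBh hQh u v]
  have g1 : (fun u v : ℚ => fo K β u v + 2 * fo K y u v) = fo K (fun j => β j + 2 * y j) := by
    funext u v
    exact A09f_add K β y u v
  have g2 : fo K β = fo K (bOf K fun j => β j + 2 * y j) := by
    funext u v
    exact A09f_congr K _ _ hb u v
  rw [g1, ← g2]

end Pool.MP0eb725
end

section

end

section

set_option autoImplicit false

namespace Pool.MP0eb725

/-! `tau_c(u,v) = Th Cc u (-v)`, `tau_a(u,v) = Th Cb u (-v)`, `tau_b(u,v) = Th Ca u (-v)`,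
`theta_c(u,v) = Th (oo Cc) u (-v)`, `theta_a(u,v) = Th (oo Cb) u (-v)`, `theta_b(u,v) = Th (oo Ca) u (-v)`.
All identities between explicit functions on `ZMod 6` (e.g. `rh Cc = Cb`, `rh2 Cc = - Cc'`, `rh2 Ca = Ca`,
`Cc' m n = Cc n m`, `Cb n m = - Cb m n`) are `decide`-able (`funext`, `decide`/`fin_cases`). -/

private theorem A11a_odd_oCb : OddZ (oo Cb) := by unfold OddZ; decide
private theorem A11a_odd_oCa : OddZ (oo Ca) := by unfold OddZ; decide
private theorem A11a_odd_oCc : OddZ (oo Cc) := by unfold OddZ; decide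
private theorem A11a_odd_oCc' : OddZ (oo Cc') := by unfold OddZ; decide
private theorem A11a_odd_Cb : OddZ Cb := by unfold OddZ; decide
private theorem A11a_odd_Ca : OddZ Ca := by unfold OddZ; decide
private theorem A11a_odd_Cc : OddZ Cc := by unfold OddZ; decide
private theorem A11a_p3_Cb : P3 Cb := by unfold P3; decide
private theorem A11a_p3_Ca : P3 Ca := by unfold P3; decide
private theorem A11a_p3_Cc : P3 Cc := by unfold P3; decide

private theorem A11a_swb : (fun m n => oo Cb n m) = fun m n => - oo Cb m n := by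
  funext m n; revert m n; decide
private theorem A11a_swa : (fun m n => oo Ca n m) = oo Ca := by
  funext m n; revert m n; decide
private theorem A11a_swc : (fun m n => oo Cc n m) = oo Cc' := by
  funext m n; revert m n; decide
private theorem A11a_rhc : oo (rh Cc) = oo Cb := by
  funext m n; revert m n; decide
private theorem A11a_rh2c : oo (rh2 Cc) = fun m n => - oo Cc' m n := by
  funext m n; revert m n; decide
private theorem A11a_rhb : oo (rh Cb) = fun m n => - oo Cc' m n := by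
  funext m n; revert m n; decide
private theorem A11a_rh2b : oo (rh2 Cb) = fun m n => - oo Cc m n := by
  funext m n; revert m n; decide
private theorem A11a_rha : oo (rh Ca) = fun m n => - oo Ca m n := by
  funext m n; revert m n; decide
private theorem A11a_rh2a : oo (rh2 Ca) = oo Ca := by
  funext m n; revert m n; decide

/-- symmetry of `theta_a`, `theta_b`: `h1` and `Th_neg`, with `Cb n m = - Cb m n`, `Ca n m = Ca m n`. -/
theorem sym_ab (K : ℕ) (hK : 1 ≤ K) (Th : FZ → ℚ → ℚ → ℚ) (h : Iface (2 * K + 1) Th) (u v : ℚ) :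
    Th (oo Cb) v (-u) = - Th (oo Cb) u (-v) ∧ Th (oo Ca) v (-u) = Th (oo Ca) u (-v) := by
  constructor
  · have h1 := h.h1 (oo Cb) A11a_odd_oCb u (-v)
    rw [A11a_swb, h.neg _ A11a_odd_oCb] at h1
    have h2 := Th_neg K hK Th h (oo Cb) A11a_odd_oCb v (-u)
    rw [neg_neg] at h2
    linarith
  · have h1 := h.h1 (oo Ca) A11a_odd_oCa u (-v)
    rw [A11a_swa] at h1
    have h2 := Th_neg K hK Th h (oo Ca) A11a_odd_oCa v (-u)
    rw [neg_neg] at h2
    linarith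

/-- R3 for `c`, `a`, `b` (`Th_classes` for `F = Cc, Cb, Ca` at `(u, -v)`, then `h1`, `Th_neg`):
`(1+e) tau_c(u,v) = theta_c(u,v) - theta_c(u-v,-v) - theta_a(u,u-v)`,
`(1+e) tau_a(u,v) = theta_a(u,v) - theta_c(-v,u-v) + theta_c(-u,v-u)`,
`(1+e) tau_b(u,v) = theta_b(u,v) + theta_b(-v,u-v) + theta_b(v-u,-u)`. -/
theorem R3_all (K : ℕ) (hK : 1 ≤ K) (Th : FZ → ℚ → ℚ → ℚ) (h : Iface (2 * K + 1) Th) (u v : ℚ) :
    (1 + 1 / 2 ^ (2 * K + 1)) * Th Cc u (-v) =
      Th (oo Cc) u (-v) - Th (oo Cc) (u - v) v - Th (oo Cb) u (-(u - v)) ∧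
    (1 + 1 / 2 ^ (2 * K + 1)) * Th Cb u (-v) =
      Th (oo Cb) u (-v) - Th (oo Cc) (-v) (-(u - v)) + Th (oo Cc) (-u) (-(v - u)) ∧
    (1 + 1 / 2 ^ (2 * K + 1)) * Th Ca u (-v) =
      Th (oo Ca) u (-v) + Th (oo Ca) (-v) (-(u - v)) + Th (oo Ca) (v - u) u := by
  have e1 : u + -v = u - v := by ring
  have e2 : -u - -v = v - u := by ring
  have e3 : -(u - v) = v - u := by ring
  have e4 : -(v - u) = u - v := by ring
  refine ⟨?_, ?_, ?_⟩
  · have h0 := Th_classes K hK Th h Cc A11a_odd_Cc A11a_p3_Cc u (-v)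
    rw [A11a_rhc, A11a_rh2c, h.neg _ A11a_odd_oCc', e1, e2] at h0
    have h1 := h.h1 (oo Cc) A11a_odd_oCc (v - u) (-v)
    rw [A11a_swc] at h1
    have h2 := Th_neg K hK Th h (oo Cc) A11a_odd_oCc (v - u) (-v)
    rw [neg_neg, e4] at h2
    have h3 := (sym_ab K hK Th h u (u - v)).1
    linarith
  · have h0 := Th_classes K hK Th h Cb A11a_odd_Cb A11a_p3_Cb u (-v)
    rw [A11a_rhb, A11a_rh2b, h.neg _ A11a_odd_oCc', h.neg _ A11a_odd_oCc, e1, e2] at h0
    have h1 := h.h1 (oo Cc) A11a_odd_oCc (-u) (u - v)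
    rw [A11a_swc] at h1
    rw [e3, e4]
    linarith
  · have h0 := Th_classes K hK Th h Ca A11a_odd_Ca A11a_p3_Ca u (-v)
    rw [A11a_rha, A11a_rh2a, h.neg _ A11a_odd_oCa, e1, e2] at h0
    have h2 := Th_neg K hK Th h (oo Ca) A11a_odd_oCa (v - u) u
    rw [e4] at h2
    rw [e3]
    linarith

end Pool.MP0eb725
end

section

set_option autoImplicit false

namespace Pool.MP0eb725

/-! `tau_c(u,v) = Th Cc u (-v)`, `tau_a(u,v) = Th Cb u (-v)`, `tau_b(u,v) = Th Ca u (-v)`,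
`theta_c(u,v) = Th (oo Cc) u (-v)`, `theta_a(u,v) = Th (oo Cb) u (-v)`, `theta_b(u,v) = Th (oo Ca) u (-v)`.
All identities between explicit functions on `ZMod 6` (e.g. `rh Cc = Cb`, `rh2 Cc = - Cc'`, `rh2 Ca = Ca`,
`Cc' m n = Cc n m`, `Cb n m = - Cb m n`) are `decide`-able (`funext`, `decide`/`fin_cases`). -/

/-- R4 for `c`: `h4` with `F = Cc` at `(u, v)`: `Cc (m-n) (-n) = Cc m n`, `Cc (-m) (n-m) = - Ca m n`,
`Cc m (m+n) = Cb m n`; so
`Th Cc u v - 2 Th (ev2 Cc) (u-v) (2v) + 2 Th (ev1 Ca) (2u) (v-u) + Th Cb u (v-u) = 0`.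
`Th_ev2`, `Th_ev1` with `rh Cc = Cb`, `rh2 Ca = Ca`; `Th Cc (u-v) (2v) = Th Cb (u+v) (v-u)` (`h2`),
`Th Ca (2u) (v-u) = Th Ca (v-u) (-u-v)` (`Th_rh2`), `Th Cb u (v-u) = - Th Cc u (-v)` (from `h2`, `h1`, `Th_neg`:
`Th Cb u (v-u) = Th Cc (u-v)... `: apply `h2` to `Cc` at `(u', v')` with `u'+v' = u, -u' = v-u`, i.e. `u'=u-v, v'=v`:
`Th Cb u (v-u) = Th Cc (u-v) v`; and `Th Cc' ...`: `h1`, `rh2 Cc = -Cc'`).  Result:
`tau_c(u,-v) - tau_c(u,v) = 2[theta_a(u+v,u-v) + theta_b(u-v,-u-v)] - 2e[tau_a(u+v,u-v) + tau_b(u-v,-u-v)]`. -/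
theorem R4_c (K : ℕ) (hK : 1 ≤ K) (Th : FZ → ℚ → ℚ → ℚ) (h : Iface (2 * K + 1) Th) (u v : ℚ) :
    Th Cc u v - Th Cc u (-v) = 2 * (Th (oo Cb) (u + v) (-(u - v)) + Th (oo Ca) (u - v) (u + v))
      - 2 * (1 / 2 ^ (2 * K + 1)) * (Th Cb (u + v) (-(u - v)) + Th Ca (u - v) (u + v)) := by
  have e1 : (fun m n : ZMod 6 => if 3 * n = 0 then Cc (m - n) (-n) else 0) = ev2 Cc := by
    funext m n
    revert m n
    decide
  have e2 : (fun m n : ZMod 6 => if 3 * m = 0 then Cc (-m) (n - m) else 0) = fun m n => - ev1 Ca m n := by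
    funext m n
    revert m n
    decide
  have e3 : (fun m n : ZMod 6 => Cc m (m + n)) = Cb := by
    funext m n
    revert m n
    decide
  have e4 : rh Cc = Cb := by
    funext m n
    revert m n
    decide
  have e5 : rh2 Ca = Ca := by
    funext m n
    revert m n
    decide
  have e6 : rh2 Cc = fun m n => - Cc' m n := by
    funext m n
    revert m n
    decide
  have e7 : (fun m n : ZMod 6 => Cc n m) = Cc' := by
    funext m n
    revert m n
    decide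
  have e8 : (fun m n : ZMod 6 => Cc (-n) (m + n)) = Cb := e4
  have oCc : OddZ Cc := by
    unfold OddZ
    decide
  have oCc' : OddZ Cc' := by
    unfold OddZ
    decide
  have oCa : OddZ Ca := by
    unfold OddZ
    decide
  have oeCa : OddZ (ev1 Ca) := by
    unfold OddZ
    decide
  have ooCa : OddZ (oo Ca) := by
    unfold OddZ
    decide
  have pCc : P3 Cc := by
    unfold P3
    decide
  have pCa : P3 Ca := by
    unfold P3
    decide
  have h4 := h.h4 Cc oCc pCc u v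
  rw [e1, e2, e3, h.neg _ oeCa, Th_ev2 K hK Th h Cc oCc pCc, Th_ev1 K hK Th h Ca oCa pCa, e4, e5] at h4
  have h2a := h.h2 Cc oCc (u - v) (2 * v)
  rw [e8, show u - v + 2 * v = u + v by ring] at h2a
  have h2b := h.h2 Cc oCc (u - v) v
  rw [e8, show u - v + v = u by ring] at h2b
  have h3a := Th_rh2 K hK Th h Ca oCa (2 * u) (v - u)
  rw [e5, show -(2 * u) - (v - u) = -(u + v) by ring, show v - u = -(u - v) by ring,
    Th_neg K hK Th h Ca oCa] at h3a
  have h3b := Th_rh2 K hK Th h Cc oCc (u - v) v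
  rw [e6, h.neg _ oCc', show -(u - v) - v = -u by ring] at h3b
  have h1a := h.h1 Cc oCc (-u) v
  rw [e7] at h1a
  have h1b := Th_neg K hK Th h Cc oCc u (-v)
  rw [neg_neg] at h1b
  have h5a := Th_neg K hK Th h (oo Ca) ooCa (u - v) (u + v)
  rw [show -(2 * u) - (v - u) = -(u + v) by ring, show u - v + 2 * v = u + v by ring,
    show v - u = -(u - v) by ring, h5a] at h4
  linear_combination h4 - h2b + h3b + h1a - h1b + 2 * (1 / 2 ^ (2 * K + 1)) * h2a
    - 2 * (1 / 2 ^ (2 * K + 1)) * h3a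

end Pool.MP0eb725
end

section

set_option autoImplicit false

namespace Pool.MP0eb725

/-! `tau_c(u,v) = Th Cc u (-v)`, `tau_a(u,v) = Th Cb u (-v)`, `tau_b(u,v) = Th Ca u (-v)`,
`theta_c(u,v) = Th (oo Cc) u (-v)`, `theta_a(u,v) = Th (oo Cb) u (-v)`, `theta_b(u,v) = Th (oo Ca) u (-v)`.
All identities between explicit functions on `ZMod 6` (e.g. `rh Cc = Cb`, `rh2 Cc = - Cc'`, `rh2 Ca = Ca`,
`Cc' m n = Cc n m`, `Cb n m = - Cb m n`) are `decide`-able (`funext`, `decide`/`fin_cases`). -/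

private theorem A11c_oddCa : OddZ Ca := by
  unfold OddZ Ca chiZ; decide

private theorem A11c_oddCb : OddZ Cb := by
  unfold OddZ Cb chiZ; decide

private theorem A11c_oddCc : OddZ Cc := by
  unfold OddZ Cc chiZ; decide

private theorem A11c_oddCc' : OddZ Cc' := by
  unfold OddZ Cc' chiZ; decide

private theorem A11c_p3Ca : P3 Ca := by
  unfold P3 Ca chiZ; decide

private theorem A11c_p3Cc : P3 Cc := by
  unfold P3 Cc chiZ; decide

private theorem A11c_p3Cc' : P3 Cc' := by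
  unfold P3 Cc' chiZ; decide

private theorem A11c_odd_oo (F : FZ) (hF : OddZ F) : OddZ (oo F) := by
  intro m n
  unfold oo
  have e1 : (3 * -m ≠ 0 ∧ 3 * -n ≠ 0) ↔ (3 * m ≠ 0 ∧ 3 * n ≠ 0) := by
    simp [mul_neg, neg_eq_zero]
  by_cases hc : 3 * m ≠ 0 ∧ 3 * n ≠ 0
  · rw [if_pos (e1.mpr hc), if_pos hc]; exact hF m n
  · rw [if_neg (fun h => hc (e1.mp h)), if_neg hc]; simp

private theorem A11c_odd_ev2 (F : FZ) (hF : OddZ F) : OddZ (ev2 F) := by
  intro m n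
  unfold ev2
  have e1 : (3 * -n = 0) ↔ (3 * n = 0) := by simp [mul_neg, neg_eq_zero]
  by_cases hc : 3 * n = 0
  · rw [if_pos (e1.mpr hc), if_pos hc]; exact hF m n
  · rw [if_neg (fun h => hc (e1.mp h)), if_neg hc]; simp

private theorem A11c_odd_ev1 (F : FZ) (hF : OddZ F) : OddZ (ev1 F) := by
  intro m n
  unfold ev1
  have e1 : (3 * -m = 0) ↔ (3 * m = 0) := by simp [mul_neg, neg_eq_zero]
  by_cases hc : 3 * m = 0
  · rw [if_pos (e1.mpr hc), if_pos hc]; exact hF m n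
  · rw [if_neg (fun h => hc (e1.mp h)), if_neg hc]; simp

private theorem A11c_f1 : (fun m n : ZMod 6 => if 3 * n = 0 then Ca (m - n) (-n) else 0) =
    fun m n => - ev2 Cc' m n := by
  have : ∀ m n : ZMod 6, (if 3 * n = 0 then Ca (m - n) (-n) else 0) = - ev2 Cc' m n := by
    unfold ev2 Ca Cc' chiZ; decide
  funext m n; exact this m n

private theorem A11c_f2 : (fun m n : ZMod 6 => if 3 * m = 0 then Ca (-m) (n - m) else 0) =
    fun m n => - ev1 Cc m n := by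
  have : ∀ m n : ZMod 6, (if 3 * m = 0 then Ca (-m) (n - m) else 0) = - ev1 Cc m n := by
    unfold ev1 Ca Cc chiZ; decide
  funext m n; exact this m n

private theorem A11c_f3 : (fun m n : ZMod 6 => Ca m (m + n)) = Cc := by
  have : ∀ m n : ZMod 6, Ca m (m + n) = Cc m n := by
    unfold Ca Cc chiZ; decide
  funext m n; exact this m n

private theorem A11c_rhCc' : rh Cc' = Cc := by
  have : ∀ m n : ZMod 6, rh Cc' m n = Cc m n := by
    unfold rh Cc' Cc chiZ; decide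
  funext m n; exact this m n

private theorem A11c_rhCc : rh Cc = Cb := by
  have : ∀ m n : ZMod 6, rh Cc m n = Cb m n := by
    unfold rh Cb Cc chiZ; decide
  funext m n; exact this m n

private theorem A11c_rh2Cc : rh2 Cc = fun m n => - Cc' m n := by
  have : ∀ m n : ZMod 6, rh2 Cc m n = - Cc' m n := by
    unfold rh2 Cc' Cc chiZ; decide
  funext m n; exact this m n

private theorem A11c_oorh2Cc : oo (rh2 Cc) = fun m n => - oo Cc' m n := by
  have : ∀ m n : ZMod 6, oo (rh2 Cc) m n = - oo Cc' m n := by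
    unfold oo rh2 Cc' Cc chiZ; decide
  funext m n; exact this m n

private theorem A11c_swCc : (fun m n : ZMod 6 => Cc n m) = Cc' := by
  funext m n; rfl

private theorem A11c_swooCc : (fun m n : ZMod 6 => oo Cc n m) = oo Cc' := by
  have : ∀ m n : ZMod 6, oo Cc n m = oo Cc' m n := by
    unfold oo Cc' Cc chiZ; decide
  funext m n; exact this m n

private theorem A11c_swCb : (fun m n : ZMod 6 => Cb n m) = fun m n => - Cb m n := by
  have : ∀ m n : ZMod 6, Cb n m = - Cb m n := by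
    unfold Cb chiZ; decide
  funext m n; exact this m n

/-- R4 for `a`: `h4` with `F = Ca`: `Ca (m-n) (-n) = - Cc' m n`, `Ca (-m) (n-m) = - Cc m n`, `Ca m (m+n) = Cc m n`.
Result: `tau_b(u,-v) - tau_a(u,v) = 2[-theta_c(u+v,u-v) - theta_c(-u-v,u-v)] - 2e[-tau_c(u+v,u-v) - tau_c(-u-v,u-v)]`. -/
theorem R4_a (K : ℕ) (hK : 1 ≤ K) (Th : FZ → ℚ → ℚ → ℚ) (h : Iface (2 * K + 1) Th) (u v : ℚ) :
    Th Ca u v - Th Cb u (-v) =
      2 * (- Th (oo Cc) (u + v) (-(u - v)) - Th (oo Cc) (- u - v) (-(u - v)))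
      - 2 * (1 / 2 ^ (2 * K + 1)) * (- Th Cc (u + v) (-(u - v)) - Th Cc (- u - v) (-(u - v))) := by
  have q1 := h.h4 Ca A11c_oddCa A11c_p3Ca u v
  rw [A11c_f1, A11c_f2, A11c_f3, h.neg _ (A11c_odd_ev2 _ A11c_oddCc'), h.neg _ (A11c_odd_ev1 _ A11c_oddCc)] at q1
  have q2 := Th_ev2 K hK Th h Cc' A11c_oddCc' A11c_p3Cc' (u - v) (2 * v)
  have q3 := Th_ev1 K hK Th h Cc A11c_oddCc A11c_p3Cc (2 * u) (v - u)
  have q4 := h.h2 Cc' A11c_oddCc' (u - v) (2 * v)
  have q5 := Th_rh2 K hK Th h Cc A11c_oddCc (2 * u) (v - u)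
  have e1 : u - v + 2 * v = u + v := by ring
  have e2 : - (2 * u) - (v - u) = - u - v := by ring
  have e3 : v - u = -(u - v) := by ring
  rw [A11c_rhCc', e1] at q2
  rw [A11c_oorh2Cc, e2, h.neg _ (A11c_odd_oo _ A11c_oddCc')] at q3
  have q6 := h.h1 (oo Cc) (A11c_odd_oo _ A11c_oddCc) (- u - v) (v - u)
  rw [A11c_swooCc] at q6
  change Th (rh Cc') (u - v + 2 * v) (-(u - v)) = Th Cc' (u - v) (2 * v) at q4
  rw [A11c_rhCc', e1] at q4
  rw [A11c_rh2Cc, e2, h.neg _ A11c_oddCc'] at q5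
  have q7 := h.h1 Cc A11c_oddCc (- u - v) (v - u)
  rw [A11c_swCc] at q7
  have q8 := h.h2 Cc A11c_oddCc u (v - u)
  change Th (rh Cc) (u + (v - u)) (-u) = Th Cc u (v - u) at q8
  rw [A11c_rhCc, show u + (v - u) = v by ring] at q8
  have q9 := h.h1 Cb A11c_oddCb (-u) v
  rw [A11c_swCb, h.neg _ A11c_oddCb] at q9
  have q10 := Th_neg K hK Th h Cb A11c_oddCb u (-v)
  rw [neg_neg] at q10
  rw [e3] at q1 q3 q5 q6 q7 q8
  linear_combination q1 - 2 * q2 - 2 * q3 - 2 * (1 / 2 ^ (2 * K + 1)) * q4 - 2 * (1 / 2 ^ (2 * K + 1)) * q5 + 2 * q6 - 2 * (1 / 2 ^ (2 * K + 1)) * q7 + q8 + q9 - q10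

end Pool.MP0eb725
end

section

set_option autoImplicit false

namespace Pool.MP0eb725

/-! `tau_c(u,v) = Th Cc u (-v)`, `tau_a(u,v) = Th Cb u (-v)`, `tau_b(u,v) = Th Ca u (-v)`,
`theta_c(u,v) = Th (oo Cc) u (-v)`, `theta_a(u,v) = Th (oo Cb) u (-v)`, `theta_b(u,v) = Th (oo Ca) u (-v)`.
All identities between explicit functions on `ZMod 6` (e.g. `rh Cc = Cb`, `rh2 Cc = - Cc'`, `rh2 Ca = Ca`,
`Cc' m n = Cc n m`, `Cb n m = - Cb m n`) are `decide`-able (`funext`, `decide`/`fin_cases`). -/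

/-- Pure algebra: R3 (c, a, b) and R4 (c, a) imply R2A and R2B.  (`W e = 1`, `W = 2^(2K+1)`.)
R2A: use R4c at `(u,v)`, R4a at `(u+v, u-v)` with homogeneity (`(2u,2v)`: factor `2^(2K-1)`, `2 e 2^(2K-1) = 1/2`), which
give `(1+e)[tau_c(u,v)-tau_c(u,-v)] = theta_c(u,v)-theta_c(u,-v) - 2[theta_a(u+v,u-v)-theta_b(u+v,v-u)]`; then R3c at
`(u,v)` and `(u,-v)`.
R2B: R4a at `(u,v)`, R4c at `(u+v,u-v)` give
`(1+e)[tau_a(u,v)-tau_b(u,-v)] = theta_a(u,v)-theta_b(u,-v) + 2[theta_c(u+v,u-v)-theta_c(u+v,v-u)]`; R3a at `(u,v)`,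
R3b at `(u,-v)`. -/
theorem R2_of_R34 (K : ℕ) (hK : 1 ≤ K) (tc ta tb thc tha thb : ℚ → ℚ → ℚ)
    (htc : Hom (2 * K - 1) tc) (hta : Hom (2 * K - 1) ta) (htb : Hom (2 * K - 1) tb)
    (hthc : Hom (2 * K - 1) thc) (htha : Hom (2 * K - 1) tha) (hthb : Hom (2 * K - 1) thb)
    (hsa : ∀ u v : ℚ, tha v u = - tha u v) (hsb : ∀ u v : ℚ, thb v u = thb u v)
    (hsta : ∀ u v : ℚ, ta v u = - ta u v) (hstb : ∀ u v : ℚ, tb v u = tb u v)
    (r3c : ∀ u v : ℚ, (1 + 1 / 2 ^ (2 * K + 1)) * tc u v = thc u v - thc (u - v) (-v) - tha u (u - v))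
    (r3a : ∀ u v : ℚ, (1 + 1 / 2 ^ (2 * K + 1)) * ta u v = tha u v - thc (-v) (u - v) + thc (-u) (v - u))
    (r3b : ∀ u v : ℚ, (1 + 1 / 2 ^ (2 * K + 1)) * tb u v = thb u v + thb (-v) (u - v) + thb (v - u) (-u))
    (r4c : ∀ u v : ℚ, tc u (-v) - tc u v = 2 * (tha (u + v) (u - v) + thb (u - v) (- u - v))
      - 2 * (1 / 2 ^ (2 * K + 1)) * (ta (u + v) (u - v) + tb (u - v) (- u - v)))
    (r4a : ∀ u v : ℚ, tb u (-v) - ta u v = 2 * (- thc (u + v) (u - v) - thc (- u - v) (u - v))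
      - 2 * (1 / 2 ^ (2 * K + 1)) * (- tc (u + v) (u - v) - tc (- u - v) (u - v))) :
    R2A thc tha thb ∧ R2B thc thb := by
  have hodd : Odd (2 * K - 1) := ⟨K - 1, by omega⟩
  have hneg : ∀ f : ℚ → ℚ → ℚ, Hom (2 * K - 1) f → ∀ x y, f (-x) (-y) = - f x y := by
    intro f hf x y
    have h := hf (-1) x y
    rw [hodd.neg_one_pow, neg_one_mul, neg_one_mul, neg_one_mul] at h
    exact h
  have he : 4 * (2 : ℚ) ^ (2 * K - 1) * (1 / 2 ^ (2 * K + 1)) = 1 := by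
    have e : 2 * K + 1 = (2 * K - 1) + 2 := by omega
    rw [e, pow_add]
    field_simp
    norm_num
  generalize (1 : ℚ) / 2 ^ (2 * K + 1) = e at r3c r3a r3b r4c r4a he
  constructor
  · intro u v
    have e1 := r4c u v
    have e2 := r4a (u + v) (u - v)
    have e3 := r3c u v
    have e4 := r3c u (-v)
    have a1 : thb (u - v) (-u - v) = - thb (u + v) (v - u) := by
      rw [← hneg _ hthb, ← hsb]
      congr 1 <;> ring
    have a2 : tb (u - v) (-u - v) = - tb (u + v) (v - u) := by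
      rw [← hneg _ htb, ← hstb]
      congr 1 <;> ring
    have a3 : tb (u + v) (-(u - v)) = tb (u + v) (v - u) := by
      congr 1; ring
    have a4 : thc (u + v + (u - v)) (u + v - (u - v)) = 2 ^ (2 * K - 1) * thc u v := by
      rw [← hthc]
      congr 1 <;> ring
    have a5 : thc (-(u + v) - (u - v)) (u + v - (u - v)) = - (2 ^ (2 * K - 1) * thc u (-v)) := by
      rw [← hthc, ← hneg _ hthc]
      congr 1 <;> ring
    have a6 : tc (u + v + (u - v)) (u + v - (u - v)) = 2 ^ (2 * K - 1) * tc u v := by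
      rw [← htc]
      congr 1 <;> ring
    have a7 : tc (-(u + v) - (u - v)) (u + v - (u - v)) = - (2 ^ (2 * K - 1) * tc u (-v)) := by
      rw [← htc, ← hneg _ htc]
      congr 1 <;> ring
    have a8 : thc (u - -v) (- -v) = thc (u + v) v := by
      congr 1 <;> ring
    have a9 : tha u (u - -v) = tha u (u + v) := by
      congr 1; ring
    rw [a1, a2] at e1
    rw [a3, a4, a5, a6, a7] at e2
    rw [a8, a9] at e4
    linear_combination (-1) * e3 + e4 - e1 - 2 * e * e2 +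
      (thc u v - thc u (-v) - e * (tc u v - tc u (-v))) * he
  · intro u v
    have e1 := r4a u v
    have e2 := r4c (u + v) (u - v)
    have e3 := r3a u v
    have e4 := r3b u (-v)
    have b1 : thc (-u - v) (u - v) = - thc (u + v) (v - u) := by
      rw [← hneg _ hthc]
      congr 1 <;> ring
    have b2 : tc (-u - v) (u - v) = - tc (u + v) (v - u) := by
      rw [← hneg _ htc]
      congr 1 <;> ring
    have b3 : tc (u + v) (-(u - v)) = tc (u + v) (v - u) := by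
      congr 1; ring
    have b4 : tha (u + v + (u - v)) (u + v - (u - v)) = 2 ^ (2 * K - 1) * tha u v := by
      rw [← htha]
      congr 1 <;> ring
    have b5 : thb (u + v - (u - v)) (-(u + v) - (u - v)) = - (2 ^ (2 * K - 1) * thb u (-v)) := by
      rw [← hthb, ← hneg _ hthb, ← hsb]
      congr 1 <;> ring
    have b6 : ta (u + v + (u - v)) (u + v - (u - v)) = 2 ^ (2 * K - 1) * ta u v := by
      rw [← hta]
      congr 1 <;> ring
    have b7 : tb (u + v - (u - v)) (-(u + v) - (u - v)) = - (2 ^ (2 * K - 1) * tb u (-v)) := by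
      rw [← htb, ← hneg _ htb, ← hstb]
      congr 1 <;> ring
    have b8 : thb (- -v) (u - -v) = thb v (u + v) := by
      congr 1 <;> ring
    have b9 : thb (-v - u) (-u) = - thb u (u + v) := by
      rw [← hneg _ hthb, ← hsb]
      congr 1; ring
    rw [b1, b2] at e1
    rw [b3, b4, b5, b6, b7] at e2
    rw [b8, b9] at e4
    linear_combination e3 - e4 + e1 - 2 * e * e2 -
      (tha u v - thb u (-v) - e * (ta u v - tb u (-v))) * he

end Pool.MP0eb725
end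

section

set_option autoImplicit false

namespace Pool.MP0eb725

/-! `tau_c(u,v) = Th Cc u (-v)`, `tau_a(u,v) = Th Cb u (-v)`, `tau_b(u,v) = Th Ca u (-v)`,
`theta_c(u,v) = Th (oo Cc) u (-v)`, `theta_a(u,v) = Th (oo Cb) u (-v)`, `theta_b(u,v) = Th (oo Ca) u (-v)`.
All identities between explicit functions on `ZMod 6` (e.g. `rh Cc = Cb`, `rh2 Cc = - Cc'`, `rh2 Ca = Ca`,
`Cc' m n = Cc n m`, `Cb n m = - Cb m n`) are `decide`-able (`funext`, `decide`/`fin_cases`). -/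

theorem A11e_odd :
    OddZ Cc ∧ OddZ Cc' ∧ OddZ Ca ∧ OddZ Cb ∧ OddZ (oo Cc) ∧ OddZ (oo Cc') ∧ OddZ (oo Ca) ∧ OddZ (oo Cb) := by
  unfold OddZ
  decide

theorem A11e_oddG : OddZ (fun m n => chiZ (m + n)) ∧ OddZ (fun _ n => chiZ n) ∧
    OddZ (fun m _ => chiZ m) := by
  unfold OddZ
  decide

theorem A11e_p3 : P3 Cc ∧ P3 (fun m n => chiZ (m + n)) := by
  unfold P3
  decide

theorem A11e_f1 : (fun m n => if 3 * m = 0 then chiZ (m + n) else 0 : FZ) =
    ev1 (fun m n => chiZ (m + n)) := rfl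

theorem A11e_f2 : (fun m n => if 3 * m = 0 ∧ 2 * n = 0 then chiZ m else 0 : FZ) = ev1 Cc := by
  have h : ∀ m n : ZMod 6, (if 3 * m = 0 ∧ 2 * n = 0 then chiZ m else 0) = ev1 Cc m n := by
    decide
  exact funext fun m => funext fun n => h m n

theorem A11e_f4 : oo (rh2 fun m n => chiZ (m + n)) =
    fun m n => - (oo Cc' m n + (oo Ca m n + - oo Cb m n)) := by
  have h : ∀ m n : ZMod 6, oo (rh2 fun m n => chiZ (m + n)) m n =
      - (oo Cc' m n + (oo Ca m n + - oo Cb m n)) := by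
    decide
  exact funext fun m => funext fun n => h m n

theorem A11e_f5 : (fun m n => chiZ (m + n) : FZ) = fun m n => Cc m n + (Cc' m n + - Ca m n) := by
  have h : ∀ m n : ZMod 6, chiZ (m + n) = Cc m n + (Cc' m n + - Ca m n) := by
    decide
  exact funext fun m => funext fun n => h m n

theorem A11e_f6 : oo (rh2 Cc) = fun m n => - oo Cc' m n := by
  have h : ∀ m n : ZMod 6, oo (rh2 Cc) m n = - oo Cc' m n := by
    decide
  exact funext fun m => funext fun n => h m n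

theorem A11e_f7 : (fun _ n => chiZ n : FZ) = fun m n => (fun a _ : ZMod 6 => - chiZ a) (-n) (m + n) := by
  have h : ∀ m n : ZMod 6, chiZ n = (fun a _ : ZMod 6 => - chiZ a) (-n) (m + n) := by
    decide
  exact funext fun m => funext fun n => h m n

theorem A11e_f8 : (fun a _ : ZMod 6 => - chiZ a) =
    fun m n => (fun a b : ZMod 6 => - chiZ (a + b)) (-n) (m + n) := by
  have h : ∀ m n : ZMod 6, - chiZ m = (fun a b : ZMod 6 => - chiZ (a + b)) (-n) (m + n) := by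
    decide
  exact funext fun m => funext fun n => h m n

theorem A11e_on {F : FZ} (h : OddZ F) : OddZ (fun m n => - F m n) := fun m n => by
  show - F (-m) (-n) = - (- F m n)
  rw [h]

theorem A11e_oa {F G : FZ} (h : OddZ F) (h' : OddZ G) : OddZ (fun m n => F m n + G m n) := fun m n => by
  show F (-m) (-n) + G (-m) (-n) = - (F m n + G m n)
  rw [h, h']
  ring

theorem A11e_cc (K : ℕ) (hK : 1 ≤ K) (Th : FZ → ℚ → ℚ → ℚ) (h : Iface (2 * K + 1) Th) (u v : ℚ) :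
    Th Cc' u v = Th Cc (-v) (-u) := by
  rw [Th_neg K hK Th h Cc A11e_odd.1]
  exact h.h1 Cc A11e_odd.1 v u

theorem A11e_oc (K : ℕ) (hK : 1 ≤ K) (Th : FZ → ℚ → ℚ → ℚ) (h : Iface (2 * K + 1) Th) (u v : ℚ) :
    Th (oo Cc') u v = Th (oo Cc) (-v) (-u) := by
  have ho : OddZ (oo Cc) := A11e_odd.2.2.2.2.1
  rw [Th_neg K hK Th h (oo Cc) ho]
  have h2 := h.h1 (oo Cc) ho v u
  have h3 : (fun m n => oo Cc n m : FZ) = oo Cc' := by
    have h : ∀ m n : ZMod 6, oo Cc n m = oo Cc' m n := by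
      decide
    exact funext fun m => funext fun n => h m n
  rw [h3] at h2
  exact h2

theorem A11e_G (K : ℕ) (hK : 1 ≤ K) (Th : FZ → ℚ → ℚ → ℚ) (h : Iface (2 * K + 1) Th) (u v : ℚ) :
    Th (fun m n => chiZ (m + n)) u v = Th Cc u v + Th Cc (-v) (-u) - Th Ca u v := by
  obtain ⟨o1, o2, o3, o4, o5, o6, o7, o8⟩ := A11e_odd
  have oa : OddZ (fun m n => - Ca m n) := A11e_on o3
  have ob : OddZ (fun m n => Cc' m n + - Ca m n) := A11e_oa o2 oa
  rw [A11e_f5, h.add Cc (fun m n => Cc' m n + - Ca m n) o1 ob, h.add Cc' (fun m n => - Ca m n) o2 oa,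
    h.neg Ca o3, A11e_cc K hK Th h]
  ring

/-- R5 from `h5`: `(if 3m=0 then χ(m+n))` is `ev1` of `G(m,n) = χ(m+n) = Cc + Cc' - Ca` (check by `decide`),
`(if 3m=0 ∧ 2n=0 then χ m) = ev1 Cc`, `(if 2m=0 then χ n) = Cc'`, `χ n = Cc' + Ca - Cb`.
Use `Th_ev1`: `2 Th (ev1 G) (2u) v = 2 Th (oo (rh2 G)) v (-2u-v) - 2 e Th G (2u) v`, where `rh2 G (m,n) = G(-m-n,m)=χ(-n)`;
`6 Th (ev1 Cc) (2(u-v)) (3v) = 6 Th (oo (rh2 Cc)) (3v) (-2u-v) - 6 e Th Cc (2(u-v)) (3v)`, `rh2 Cc = - Cc'`.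
Then additivity, `h1`, `Th_neg` bring everything to the form R5; also `Th (χ n) u (v-u) = - tau(psi)(u,v)`,
`tau(psi)(u,v) = - tau_c(u,v) - tau_c(v,u) + tau_b(u,v)`. -/
theorem R5_of_h5 (K : ℕ) (hK : 1 ≤ K) (Th : FZ → ℚ → ℚ → ℚ) (h : Iface (2 * K + 1) Th) :
    R5 (1 / 2 ^ (2 * K + 1)) (fun u v => Th Cc u (-v)) (fun u v => Th Ca u (-v))
      (fun u v => Th (oo Cc) u (-v)) (fun u v => Th (oo Cb) u (-v)) (fun u v => Th (oo Ca) u (-v)) := by
  intro u v
  obtain ⟨o1, o2, o3, o4, o5, o6, o7, o8⟩ := A11e_odd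
  have h5 := h.h5 u v
  -- first term
  have e1 : Th (fun m n => if 3 * m = 0 then chiZ (m + n) else 0) (2 * u) v =
      - (Th (oo Cc) (2 * u + v) (-v) + Th (oo Ca) v (-(2 * u + v)) - Th (oo Cb) v (-(2 * u + v)))
        - 1 / 2 ^ (2 * K + 1) * (Th Cc (2 * u) v + Th Cc (-v) (-(2 * u)) - Th Ca (2 * u) v) := by
    have oa : OddZ (fun m n => - oo Cb m n) := A11e_on o8
    have ob : OddZ (fun m n => oo Ca m n + - oo Cb m n) := A11e_oa o7 oa
    have oc : OddZ (fun m n => oo Cc' m n + (oo Ca m n + - oo Cb m n)) := A11e_oa o6 ob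
    rw [A11e_f1, Th_ev1 K hK Th h _ A11e_oddG.1 A11e_p3.2, A11e_G K hK Th h, A11e_f4,
      h.neg (fun m n => oo Cc' m n + (oo Ca m n + - oo Cb m n)) oc,
      h.add (oo Cc') (fun m n => oo Ca m n + - oo Cb m n) o6 ob,
      h.add (oo Ca) (fun m n => - oo Cb m n) o7 oa, h.neg (oo Cb) o8, A11e_oc K hK Th h]
    rw [show -(-(2 * u) - v) = 2 * u + v by ring, show -(2 * u) - v = -(2 * u + v) by ring]
    ring
  have e2 : Th (fun m n => if 3 * m = 0 ∧ 2 * n = 0 then chiZ m else 0) (2 * (u - v)) (3 * v) =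
      - Th (oo Cc) (2 * u + v) (-(3 * v))
        - 1 / 2 ^ (2 * K + 1) * Th Cc (2 * u - 2 * v) (3 * v) := by
    rw [A11e_f2, Th_ev1 K hK Th h _ o1 A11e_p3.1, A11e_f6, h.neg (oo Cc') o6, A11e_oc K hK Th h]
    rw [show -(-(2 * (u - v)) - 3 * v) = 2 * u + v by ring, mul_sub]
  have e3 : Th (fun m n => if 2 * m = 0 then chiZ n else 0) (3 * u) (v - u) =
      Th Cc (u - v) (-(3 * u)) := by
    rw [show u - v = -(v - u) by ring]
    exact A11e_cc K hK Th h (3 * u) (v - u)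
  have e4 : Th (fun _ n => chiZ n) u (v - u) = Th Cc u (-v) + Th Cc v (-u) - Th Ca u (-v) := by
    have g0 := A11e_oddG.1
    have g1 : OddZ (fun a _ : ZMod 6 => - chiZ a) := A11e_on A11e_oddG.2.2
    have g2 : OddZ (fun a b : ZMod 6 => - chiZ (a + b)) := A11e_on g0
    have k1 := h.h2 _ g1 (u - v) v
    have k2 := h.h2 _ g2 (-v) u
    rw [← A11e_f7, sub_add_cancel, neg_sub] at k1
    rw [← A11e_f8, neg_neg, neg_add_eq_sub] at k2
    have k3 := h.neg _ g0 (-v) u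
    have k4 := h.h1 _ g0 u (-v)
    have k5 : (fun m n => (fun m n : ZMod 6 => chiZ (m + n)) n m : FZ) = fun m n => chiZ (m + n) := by
      funext m n
      show chiZ (n + m) = chiZ (m + n)
      rw [add_comm]
    rw [k5] at k4
    have k6 := A11e_G K hK Th h u (-v)
    rw [neg_neg] at k6
    linarith
  rw [e1, e2, e3, e4] at h5
  show (- Th Cc u (-v) - Th Cc v (-u) + Th Ca u (-v))
    + 2 * ((Th (oo Cc) (2 * u + v) (-v) - Th (oo Cb) v (-(2 * u + v)) + Th (oo Ca) v (-(2 * u + v)))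
        - 1 / 2 ^ (2 * K + 1) * (- Th Cc (2 * u) (- -v) - Th Cc (-v) (-(2 * u)) + Th Ca (2 * u) (- -v)))
    + 6 * (- Th (oo Cc) (2 * u + v) (-(3 * v)) - 1 / 2 ^ (2 * K + 1) * Th Cc (2 * u - 2 * v) (-(-3 * v)))
    + 3 * Th Cc (u - v) (-(3 * u)) = 0
  rw [neg_neg, show -(-3 * v) = 3 * v by ring]
  linarith

end Pool.MP0eb725
end

section

set_option autoImplicit false

namespace Pool.MP0eb725

/-! `tau_c(u,v) = Th Cc u (-v)`, `tau_a(u,v) = Th Cb u (-v)`, `tau_b(u,v) = Th Ca u (-v)`,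
`theta_c(u,v) = Th (oo Cc) u (-v)`, `theta_a(u,v) = Th (oo Cb) u (-v)`, `theta_b(u,v) = Th (oo Ca) u (-v)`.
All identities between explicit functions on `ZMod 6` (e.g. `rh Cc = Cb`, `rh2 Cc = - Cc'`, `rh2 Ca = Ca`,
`Cc' m n = Cc n m`, `Cb n m = - Cb m n`) are `decide`-able (`funext`, `decide`/`fin_cases`). -/

/-- `z (m,n) = χ(m)` -/
def A11f_z : FZ := fun m _ => chiZ m

/-- `G (m,n) = χ(m+n)` -/
def A11f_G : FZ := fun m n => chiZ (m + n)

theorem A11f_z_odd : OddZ A11f_z := by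
  unfold OddZ A11f_z chiZ
  decide

theorem A11f_G_odd : OddZ A11f_G := by
  unfold OddZ A11f_G chiZ
  decide

theorem A11f_z_P3 : P3 A11f_z := by
  unfold P3 A11f_z chiZ
  decide

theorem A11f_Cc_odd : OddZ Cc := by
  unfold OddZ Cc chiZ
  decide

theorem A11f_Cc'_odd : OddZ Cc' := by
  unfold OddZ Cc' chiZ
  decide

theorem A11f_Ca_odd : OddZ Ca := by
  unfold OddZ Ca chiZ
  decide

theorem A11f_oo_odd {F : FZ} (hF : OddZ F) : OddZ (oo F) := by
  intro m n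
  have h1 : (3 * (-m) ≠ 0 ∧ 3 * (-n) ≠ 0) ↔ (3 * m ≠ 0 ∧ 3 * n ≠ 0) := by
    simp [mul_neg]
  unfold oo
  by_cases hc : 3 * m ≠ 0 ∧ 3 * n ≠ 0
  · rw [if_pos hc, if_pos (h1.2 hc)]
    exact hF m n
  · rw [if_neg hc, if_neg (fun h => hc (h1.1 h))]
    simp

theorem A11f_ev1_odd {F : FZ} (hF : OddZ F) : OddZ (ev1 F) := by
  intro m n
  have h1 : (3 * (-m) = 0) ↔ (3 * m = 0) := by
    simp [mul_neg]
  unfold ev1
  by_cases hc : 3 * m = 0
  · rw [if_pos hc, if_pos (h1.2 hc)]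
    exact hF m n
  · rw [if_neg hc, if_neg (fun h => hc (h1.1 h))]
    simp

theorem A11f_neg_odd {F : FZ} (hF : OddZ F) : OddZ (fun m n => - F m n) := by
  intro m n
  simp only [hF m n]

theorem A11f_add_odd {F G : FZ} (hF : OddZ F) (hG : OddZ G) : OddZ (fun m n => F m n + G m n) := by
  intro m n
  simp only [hF m n, hG m n]
  ring

theorem A11f_FI_eq : FI = fun m n => (fun m n => ev1 A11f_z m n + ev1 A11f_z m n) m n
    + (fun m n => - A11f_z m n) m n := by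
  funext m n
  unfold FI ev1 A11f_z chiZ
  revert m n
  decide

theorem A11f_rh2_z : rh2 A11f_z = fun m n => - A11f_G m n := by
  funext m n
  unfold rh2 A11f_z A11f_G chiZ
  revert m n
  decide

theorem A11f_oo_rh2_z : oo (rh2 A11f_z) = fun m n => - oo A11f_G m n := by
  funext m n
  unfold oo rh2 A11f_z A11f_G chiZ
  revert m n
  decide

theorem A11f_G_eq : A11f_G = fun m n => (fun m n => Cc m n + Cc' m n) m n
    + (fun m n => - Ca m n) m n := by
  funext m n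
  unfold A11f_G Cc Cc' Ca chiZ
  revert m n
  decide

theorem A11f_ooG_eq : oo A11f_G = fun m n => (fun m n => oo Cc m n + oo Cc' m n) m n
    + (fun m n => - oo Ca m n) m n := by
  funext m n
  unfold oo A11f_G Cc Cc' Ca chiZ
  revert m n
  decide

theorem A11f_Cc'_eq : Cc' = fun m n => Cc n m := by
  funext m n
  rfl

theorem A11f_ooCc'_eq : oo Cc' = fun m n => oo Cc n m := by
  funext m n
  unfold oo Cc Cc' chiZ
  revert m n
  decide

/-- Link: `FI = (-1)^m χ(m)`: `FI = 2 ev1 z - z`, `z (m,n) = χ(m) = Cc + Ca + Cb`, `rh2 z (m,n) = - χ(m+n)`. -/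
theorem link_I (K : ℕ) (hK : 1 ≤ K) (Th : FZ → ℚ → ℚ → ℚ) (h : Iface (2 * K + 1) Th) (u v : ℚ) :
    Th FI (u - v) v = Ipsi (1 / 2 ^ (2 * K + 1)) (fun u v => Th Cc u (-v)) (fun u v => Th Ca u (-v))
      (fun u v => Th (oo Cc) u (-v)) (fun u v => Th (oo Ca) u (-v)) v u := by
  have hz := A11f_z_odd
  have hG := A11f_G_odd
  have hCc := A11f_Cc_odd
  have hCc' := A11f_Cc'_odd
  have hCa := A11f_Ca_odd
  have e0 : Th FI (u - v) v = 2 * Th (ev1 A11f_z) (u - v) v - Th A11f_z (u - v) v := by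
    rw [A11f_FI_eq, h.add _ _ (A11f_add_odd (A11f_ev1_odd hz) (A11f_ev1_odd hz)) (A11f_neg_odd hz),
      h.add _ _ (A11f_ev1_odd hz) (A11f_ev1_odd hz), h.neg _ hz]
    ring
  have e1 := Th_ev1 K hK Th h A11f_z hz A11f_z_P3 (u - v) v
  have e2 := Th_rh2 K hK Th h A11f_z hz (u - v) v
  have e3 : - (u - v) - v = - u := by ring
  rw [e3] at e1 e2
  rw [A11f_oo_rh2_z, h.neg _ (A11f_oo_odd hG)] at e1
  rw [A11f_rh2_z, h.neg _ hG] at e2
  have e4 : Th A11f_G v (-u) = Th Cc v (-u) + Th Cc' v (-u) - Th Ca v (-u) := by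
    rw [A11f_G_eq, h.add _ _ (A11f_add_odd hCc hCc') (A11f_neg_odd hCa), h.add _ _ hCc hCc',
      h.neg _ hCa]
    ring
  have e5 : Th (oo A11f_G) v (-u) = Th (oo Cc) v (-u) + Th (oo Cc') v (-u) - Th (oo Ca) v (-u) := by
    rw [A11f_ooG_eq, h.add _ _ (A11f_add_odd (A11f_oo_odd hCc) (A11f_oo_odd hCc'))
      (A11f_neg_odd (A11f_oo_odd hCa)), h.add _ _ (A11f_oo_odd hCc) (A11f_oo_odd hCc'),
      h.neg _ (A11f_oo_odd hCa)]
    ring
  have e6 : Th Cc' v (-u) = Th Cc u (-v) := by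
    have h1 := h.h1 Cc hCc (-u) v
    have h2 := Th_neg K hK Th h Cc hCc u (-v)
    rw [neg_neg] at h2
    rw [A11f_Cc'_eq, h1, h2, neg_neg]
  have e7 : Th (oo Cc') v (-u) = Th (oo Cc) u (-v) := by
    have h1 := h.h1 (oo Cc) (A11f_oo_odd hCc) (-u) v
    have h2 := Th_neg K hK Th h (oo Cc) (A11f_oo_odd hCc) u (-v)
    rw [neg_neg] at h2
    rw [A11f_ooCc'_eq, h1, h2, neg_neg]
  rw [e0, e1, ← e2, e4, e5, e6, e7]
  unfold Ipsi
  ring

end Pool.MP0eb725
end
end
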