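import Mathlib
import Pool.Agent.Lib.MP_0eb725_nt.B04_EE
import Pool.Agent.Lib.MP_0eb725_nt.B06_Parity

section

set_option autoImplicit false

open MeasureTheory Filter

namespace Pool.MP0eb725

private theorem B07a_uIcc {a b : ℝ} (ha : 0 < a) (hb : 0 < b) : Set.uIcc a b ⊆ Set.Ioi 0 := by
  intro x hx
  rw [Set.uIcc, Set.mem_Icc] at hx
  exact lt_of_lt_of_le (lt_min ha hb) hx.1

private theorem B07a_ii (w : ℕ) (hw : 3 ≤ w) {f : Fn} (hf : Per f) (u v a b : ℝ) (ha : 0 < a) (hb : 0 < b) :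
    IntervalIntegrable (fun x => (u * x + v) ^ (w - 2) * L w f x) volume a b := by
  apply ContinuousOn.intervalIntegrable
  refine ContinuousOn.mul (by fun_prop) ((L_cont w hw hf).mono (B07a_uIcc ha hb))

/-- the substitution `y = 1/x` -/
private theorem B07a_subst (w : ℕ) (hw : 3 ≤ w) {g : Fn} (hg : Per g) (u v a b : ℝ) (ha : 0 < a) (hb : 0 < b) :
    ∫ y in (1 / a)..(1 / b), (v * y + u) ^ (w - 2) * L w g y =
      - ∫ x in a..b, (u * x + v) ^ (w - 2) * L w (tr g) x := by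
  have hsub := B07a_uIcc ha hb
  have hpos : ∀ x ∈ Set.uIcc a b, (0 : ℝ) < x := fun x hx => hsub hx
  have h := intervalIntegral.integral_comp_mul_deriv'' (a := a) (b := b) (f := fun x : ℝ => 1 / x)
    (f' := fun x : ℝ => - (1 / x ^ 2)) (g := fun y => (v * y + u) ^ (w - 2) * L w g y)
    (by
      apply ContinuousOn.div continuousOn_const continuousOn_id
      intro x hx
      exact (hpos x hx).ne')
    (by
      intro x hx
      have hx0 : (0 : ℝ) < x := lt_of_le_of_lt (le_min ha.le hb.le) hx.1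
      have h1 := (hasDerivAt_inv hx0.ne')
      have e1 : (fun x : ℝ => 1 / x) = fun x => x⁻¹ := by
        funext x
        rw [one_div]
      rw [e1, one_div]
      exact h1.hasDerivWithinAt)
    (by
      apply ContinuousOn.neg
      apply ContinuousOn.div continuousOn_const (continuousOn_pow 2)
      intro x hx
      exact (pow_pos (hpos x hx) 2).ne')
    (by
      refine ContinuousOn.mul (by fun_prop) ((L_cont w hw hg).mono ?_)
      rintro y ⟨x, hx, rfl⟩
      exact one_div_pos.2 (hpos x hx))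
  rw [← h, ← intervalIntegral.integral_neg]
  refine intervalIntegral.integral_congr fun x hx => ?_
  have hx0 := hpos x hx
  have hL := L_tr w (tr g) x hx0
  have hg2 : tr (tr g) = g := rfl
  rw [hg2] at hL
  simp only [Function.comp]
  rw [hL]
  obtain ⟨d, rfl⟩ : ∃ d, w = d + 2 := ⟨w - 2, by omega⟩
  have e2 : d + 2 - 2 = d := by omega
  rw [e2]
  have e3 : v * (1 / x) + u = (u * x + v) * (1 / x) := by
    field_simp
    ring
  rw [e3, mul_pow, pow_add]
  field_simp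

/-- (A10).  `f = p1 f + tr (p1 (tr f))` (`split12`), `L_add`; for the second part substitute `x -> 1/x` and use `L_tr`:
`∫_a^b (ux+v)^d L(tr g, x) dx = ∫_{1/b}^{1/a} (vx+u)^d L(g,x) dx`. -/
theorem FF_sub (w : ℕ) (hw : 3 ≤ w) {f : Fn} (hf : Per f) (ho : Odd2 f) (u v a b : ℝ) (ha : 0 < a) (hb : 0 < b) :
    FF w f u v b - FF w f u v a = ∫ x in a..b, (u * x + v) ^ (w - 2) * L w f x := by
  have hg : Per (p1 (tr f)) := hf.tr.p1
  have h1 := EE_sub w hw (ty1_p1 hf ho) u v a b ha.le hb.le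
  have h2 := EE_sub w hw (ty1_p1 hf.tr ho.tr) v u (1 / a) (1 / b) (one_div_pos.2 ha).le
    (one_div_pos.2 hb).le
  have h3 := B07a_subst w hw hg u v a b ha hb
  have hL : ∀ x : ℝ, 0 < x → L w f x = L w (p1 f) x + L w (tr (p1 (tr f))) x := by
    intro x hx
    rw [← L_add w hw hf.p1 hg.tr x hx]
    congr 1
    funext m n
    exact split12 ho m n
  have h4 : ∫ x in a..b, (u * x + v) ^ (w - 2) * L w f x =
      (∫ x in a..b, (u * x + v) ^ (w - 2) * L w (p1 f) x) +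
      ∫ x in a..b, (u * x + v) ^ (w - 2) * L w (tr (p1 (tr f))) x := by
    rw [← intervalIntegral.integral_add (B07a_ii w hw hf.p1 u v a b ha hb)
      (B07a_ii w hw hg.tr u v a b ha hb)]
    refine intervalIntegral.integral_congr fun x hx => ?_
    change (u * x + v) ^ (w - 2) * L w f x = (u * x + v) ^ (w - 2) * L w (p1 f) x + (u * x + v) ^ (w - 2) * L w (tr (p1 (tr f))) x
    rw [hL x (B07a_uIcc ha hb hx)]
    ring
  unfold FF
  rw [h4]
  linarith

end Pool.MP0eb725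
end

section

set_option autoImplicit false

open MeasureTheory Filter

namespace Pool.MP0eb725

/-- (A11), from `EE_sc`, `sc_p1`, `sc_tr`. -/
theorem FF_sc (w : ℕ) (hw : 3 ≤ w) (p q : ℕ) (hp : 1 ≤ p) (hq : 1 ≤ q) (f : Fn) (u v a : ℝ) (ha : 0 < a) :
    ((p : ℝ) * q) ^ (w - 1) * FF w (sc p q f) u v a = FF w f (q * u) (p * v) ((p : ℝ) / q * a) := by
  unfold FF
  have e1 := EE_sc w hw p q hp hq (p1 f) u v a ha.le
  have e2 := EE_sc w hw q p hq hp (p1 (tr f)) v u (1 / a) (by positivity)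
  have h1 : p1 (sc p q f) = sc p q (p1 f) := sc_p1 p q hp hq f
  have h2 : p1 (tr (sc p q f)) = sc q p (p1 (tr f)) := by
    rw [sc_tr, sc_p1 q p hq hp]
  have hp0 : (p : ℝ) ≠ 0 := by exact_mod_cast (by omega : p ≠ 0)
  have hq0 : (q : ℝ) ≠ 0 := by exact_mod_cast (by omega : q ≠ 0)
  have h3 : 1 / ((p : ℝ) / q * a) = (q : ℝ) / p * (1 / a) := by
    field_simp
  rw [h1, h2, h3, ← e1, ← e2]
  ring

theorem FF_hom (w : ℕ) (f : Fn) (c u v a : ℝ) : FF w f (c * u) (c * v) a = c ^ (w - 2) * FF w f u v a := by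
  have key : ∀ (h : Fn) (x y Y : ℝ), EE w h (c * x) (c * y) Y = c ^ (w - 2) * EE w h x y Y := by
    intro h x y Y
    unfold EE
    rw [← intervalIntegral.integral_const_mul]
    refine intervalIntegral.integral_congr fun z _ => ?_
    have e : c * x * z + c * y = c * (x * z + y) := by ring
    simp only [e, mul_pow]
    ring
  unfold FF
  rw [key, key]
  ring

/-- the special values used in (H4), (H5): `F_{1/2}(g;u,v)=2F_1(sc 1 2 g;u,2v)`, `F_2(g;u,v)=2F_1(sc 2 1 g;2u,v)`,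
`F_{2/3}(g;u,v)=6F_1(sc 2 3 g;2u,3v)`, `F_3(g;u,v)=3F_1(sc 3 1 g;3u,v)` -/
theorem FF_half (w : ℕ) (hw : 3 ≤ w) (g : Fn) (u v : ℝ) :
    FF w g u v (1 / 2) = 2 * FF w (sc 1 2 g) u (2 * v) 1 := by
  have h := FF_sc w hw 1 2 le_rfl (by norm_num) g u (2 * v) 1 one_pos
  have h2 := FF_hom w g 2 u v (1 / 2)
  have e : w - 1 = (w - 2) + 1 := by omega
  have hP : (2 : ℝ) ^ (w - 2) ≠ 0 := by positivity
  rw [e, pow_succ] at h
  push_cast at h
  simp only [one_mul, mul_one] at h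
  rw [h2] at h
  have h3 : (2 : ℝ) ^ (w - 2) * (2 * FF w (sc 1 2 g) u (2 * v) 1 - FF w g u v (1 / 2)) = 0 := by
    linear_combination h
  rcases mul_eq_zero.mp h3 with h4 | h4
  · exact absurd h4 hP
  · linarith

theorem FF_two (w : ℕ) (hw : 3 ≤ w) (g : Fn) (u v : ℝ) :
    FF w g u v 2 = 2 * FF w (sc 2 1 g) (2 * u) v 1 := by
  have h := FF_sc w hw 2 1 (by norm_num) le_rfl g (2 * u) v 1 one_pos
  have h2 := FF_hom w g 2 u v 2
  have e : w - 1 = (w - 2) + 1 := by omega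
  have hP : (2 : ℝ) ^ (w - 2) ≠ 0 := by positivity
  rw [e, pow_succ] at h
  push_cast at h
  simp only [one_mul, mul_one, div_one] at h
  rw [h2] at h
  have h3 : (2 : ℝ) ^ (w - 2) * (2 * FF w (sc 2 1 g) (2 * u) v 1 - FF w g u v 2) = 0 := by
    linear_combination h
  rcases mul_eq_zero.mp h3 with h4 | h4
  · exact absurd h4 hP
  · linarith

theorem FF_twothird (w : ℕ) (hw : 3 ≤ w) (g : Fn) (u v : ℝ) :
    FF w g u v (2 / 3) = 6 * FF w (sc 2 3 g) (2 * u) (3 * v) 1 := by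
  have h := FF_sc w hw 2 3 (by norm_num) (by norm_num) g (2 * u) (3 * v) 1 one_pos
  have h2 := FF_hom w g 6 u v (2 / 3)
  have e : w - 1 = (w - 2) + 1 := by omega
  have hP : (6 : ℝ) ^ (w - 2) ≠ 0 := by positivity
  have e2 : (3 : ℝ) * (2 * u) = 6 * u := by ring
  have e3 : (2 : ℝ) * (3 * v) = 6 * v := by ring
  have e4 : (2 : ℝ) * 3 = 6 := by norm_num
  rw [e, pow_succ] at h
  push_cast at h
  rw [mul_one, e2, e3, e4, h2] at h
  have h3 : (6 : ℝ) ^ (w - 2) * (6 * FF w (sc 2 3 g) (2 * u) (3 * v) 1 - FF w g u v (2 / 3)) = 0 := by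
    linear_combination h
  rcases mul_eq_zero.mp h3 with h4 | h4
  · exact absurd h4 hP
  · linarith

theorem FF_three (w : ℕ) (hw : 3 ≤ w) (g : Fn) (u v : ℝ) :
    FF w g u v 3 = 3 * FF w (sc 3 1 g) (3 * u) v 1 := by
  have h := FF_sc w hw 3 1 (by norm_num) le_rfl g (3 * u) v 1 one_pos
  have h2 := FF_hom w g 3 u v 3
  have e : w - 1 = (w - 2) + 1 := by omega
  have hP : (3 : ℝ) ^ (w - 2) ≠ 0 := by positivity
  rw [e, pow_succ] at h
  push_cast at h
  simp only [one_mul, mul_one, div_one] at h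
  rw [h2] at h
  have h3 : (3 : ℝ) ^ (w - 2) * (3 * FF w (sc 3 1 g) (3 * u) v 1 - FF w g u v 3) = 0 := by
    linear_combination h
  rcases mul_eq_zero.mp h3 with h4 | h4
  · exact absurd h4 hP
  · linarith

/-- rational integrals -/
theorem int_rat (d : ℕ) (u v c : ℚ) : ∃ r : ℚ, ∫ z in (0 : ℝ)..(c : ℝ), (((u : ℝ) - v) * z + v) ^ d = r := by
  refine ⟨∑ m ∈ Finset.range (d + 1), (u - v) ^ m * v ^ (d - m) * (d.choose m : ℚ) *
    (c ^ (m + 1) / ((m : ℚ) + 1)), ?_⟩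
  have h1 : ∀ z : ℝ, (((u : ℝ) - v) * z + v) ^ d = ∑ m ∈ Finset.range (d + 1),
      (((u : ℝ) - v) ^ m * (v : ℝ) ^ (d - m) * (d.choose m : ℝ)) * z ^ m := by
    intro z
    rw [add_pow]
    refine Finset.sum_congr rfl fun m _ => ?_
    rw [mul_pow]; ring
  simp only [h1]
  rw [intervalIntegral.integral_finset_sum]
  · push_cast
    refine Finset.sum_congr rfl fun m _ => ?_
    rw [intervalIntegral.integral_const_mul, integral_pow]
    rw [zero_pow (Nat.succ_ne_zero m)]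
    ring
  · intro m _
    exact (Continuous.intervalIntegrable (by fun_prop) _ _)

end Pool.MP0eb725
end

section

set_option autoImplicit false

open MeasureTheory Filter

namespace Pool.MP0eb725

theorem B07c_pos {a b x : ℝ} (ha : 0 < a) (hb : 0 < b) (hx : x ∈ Set.uIcc a b) : 0 < x := by
  rcases Set.mem_uIcc.1 hx with h | h
  · exact ha.trans_le h.1
  · exact hb.trans_le h.1

/-- substitution `z = x / (1 + x)` -/
theorem B07c_subst (w : ℕ) (hw : 3 ≤ w) (u v a b : ℝ) (ha : 0 < a) (hb : 0 < b) (G : ℝ → ℝ)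
    (hG : ContinuousOn G (Set.Ioi 0)) :
    ∫ z in (a / (1 + a))..(b / (1 + b)), ((u - v) * z + v) ^ (w - 2) * G z =
      ∫ x in a..b, (u * x + v) ^ (w - 2) * ((1 / (1 + x)) ^ w * G (x / (1 + x))) := by
  have key := intervalIntegral.integral_comp_mul_deriv' (a := a) (b := b)
    (f := fun x : ℝ => x / (1 + x)) (f' := fun x : ℝ => 1 / (1 + x) ^ 2)
    (g := fun z : ℝ => ((u - v) * z + v) ^ (w - 2) * G z) ?_ ?_ ?_
  · rw [← key]
    apply intervalIntegral.integral_congr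
    intro x hx
    have hx0 := B07c_pos ha hb hx
    have h1 : (1 + x) ≠ 0 := by positivity
    simp only [Function.comp]
    have e : (u - v) * (x / (1 + x)) + v = (u * x + v) / (1 + x) := by
      field_simp
      ring
    obtain ⟨d, rfl⟩ : ∃ d, w = d + 2 := ⟨w - 2, by omega⟩
    rw [e, Nat.add_sub_cancel, div_pow, div_pow, one_pow, pow_add]
    field_simp
  · intro x hx
    have hx0 := B07c_pos ha hb hx
    have h1 : (1 + x) ≠ 0 := by positivity
    have h2 : HasDerivAt (fun x : ℝ => x / (1 + x)) ((1 * (1 + x) - x * 1) / (1 + x) ^ 2) x :=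
      (hasDerivAt_id' x).div ((hasDerivAt_id' x).const_add 1) h1
    exact h2.congr_deriv (by ring)
  · apply ContinuousOn.div continuousOn_const
    · fun_prop
    · intro x hx
      have hx0 := B07c_pos ha hb hx
      positivity
  · apply ContinuousOn.mul
    · fun_prop
    · apply hG.mono
      rintro _ ⟨x, hx, rfl⟩
      have hx0 := B07c_pos ha hb hx
      show 0 < x / (1 + x)
      positivity

theorem B07c_subst1 (w : ℕ) (u v a b : ℝ) (G : ℝ → ℝ) :
    ∫ z in (1 + a)..(1 + b), (u * z + (v - u)) ^ (w - 2) * G z =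
      ∫ x in a..b, (u * x + v) ^ (w - 2) * G (1 + x) := by
  have h := intervalIntegral.integral_comp_add_left (a := a) (b := b)
    (fun z : ℝ => (u * z + (v - u)) ^ (w - 2) * G z) 1
  rw [← h]
  apply intervalIntegral.integral_congr
  intro x _
  simp only
  congr 2
  ring

/-- (A12).  `FF_sub` three times, substitutions `z = x/(1+x)` (`dz = dx/(1+x)^2`,
`((u-v) z + v)^d = (u x + v)^d/(1+x)^d`) and `z = 1 + x`, and `L_three`. -/
theorem CC_const (w : ℕ) (hw : 3 ≤ w) {f : Fn} (hf : Per f) (ho : Odd2 f) (u v a b : ℝ) (ha : 0 < a) (hb : 0 < b) :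
    CC w f u v a = CC w f u v b := by
  have ha1 : 0 < a / (1 + a) := by positivity
  have hb1 : 0 < b / (1 + b) := by positivity
  have e1 := FF_sub w hw hf ho u v a b ha hb
  have e2 := FF_sub w hw hf.fu ho.fu (u - v) v (a / (1 + a)) (b / (1 + b)) ha1 hb1
  have e3 := FF_sub w hw hf.fl ho.fl u (v - u) (1 + a) (1 + b) (by positivity) (by positivity)
  rw [B07c_subst w hw u v a b ha hb _ (L_cont w hw hf.fu)] at e2
  rw [B07c_subst1] at e3
  have c0 : Continuous fun z : ℝ => ((u - v) * z + v) ^ (w - 2) := by fun_prop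
  have e4 : (∫ z in (0 : ℝ)..(b / (1 + b)), ((u - v) * z + v) ^ (w - 2)) -
      (∫ z in (0 : ℝ)..(a / (1 + a)), ((u - v) * z + v) ^ (w - 2)) =
      ∫ x in a..b, (u * x + v) ^ (w - 2) * ((1 / (1 + x)) ^ w * 1) := by
    rw [intervalIntegral.integral_interval_sub_left (c0.intervalIntegrable _ _)
      (c0.intervalIntegrable _ _)]
    rw [← B07c_subst w hw u v a b ha hb (fun _ => 1) continuousOn_const]
    simp only [mul_one]
  have i2 : IntervalIntegrable (fun x : ℝ => (u * x + v) ^ (w - 2) *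
      ((1 / (1 + x)) ^ w * L w (fu f) (x / (1 + x)))) volume a b := by
    apply ContinuousOn.intervalIntegrable
    apply ContinuousOn.mul (by fun_prop)
    apply ContinuousOn.mul
    · apply ContinuousOn.pow
      apply ContinuousOn.div continuousOn_const (by fun_prop)
      intro x hx
      have hx0 := B07c_pos ha hb hx
      positivity
    · apply (L_cont w hw hf.fu).comp (t := Set.Ioi 0)
      · apply ContinuousOn.div (by fun_prop) (by fun_prop)
        intro x hx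
        have hx0 := B07c_pos ha hb hx
        positivity
      · intro x hx
        have hx0 := B07c_pos ha hb hx
        show 0 < x / (1 + x)
        positivity
  have i3 : IntervalIntegrable (fun x : ℝ => (u * x + v) ^ (w - 2) * L w (fl f) (1 + x))
      volume a b := by
    apply ContinuousOn.intervalIntegrable
    apply ContinuousOn.mul (by fun_prop)
    apply (L_cont w hw hf.fl).comp (t := Set.Ioi 0) (by fun_prop)
    intro x hx
    have hx0 := B07c_pos ha hb hx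
    show 0 < 1 + x
    positivity
  have i4 : IntervalIntegrable (fun x : ℝ => (u * x + v) ^ (w - 2) * ((1 / (1 + x)) ^ w * 1))
      volume a b := by
    apply ContinuousOn.intervalIntegrable
    apply ContinuousOn.mul (by fun_prop)
    apply ContinuousOn.mul _ continuousOn_const
    apply ContinuousOn.pow
    apply ContinuousOn.div continuousOn_const (by fun_prop)
    intro x hx
    have hx0 := B07c_pos ha hb hx
    positivity
  have e5 : ∫ x in a..b, (u * x + v) ^ (w - 2) * L w f x =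
      (∫ x in a..b, (u * x + v) ^ (w - 2) * ((1 / (1 + x)) ^ w * L w (fu f) (x / (1 + x)))) +
      (∫ x in a..b, (u * x + v) ^ (w - 2) * L w (fl f) (1 + x)) +
      Zd w f * (∫ x in a..b, (u * x + v) ^ (w - 2) * ((1 / (1 + x)) ^ w * 1)) := by
    rw [← intervalIntegral.integral_add i2 i3, ← intervalIntegral.integral_const_mul,
      ← intervalIntegral.integral_add (i2.add i3) (i4.const_mul _)]
    apply intervalIntegral.integral_congr
    intro x hx
    have hx0 := B07c_pos ha hb hx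
    simp only
    rw [L_three w hw hf x hx0]
    ring
  unfold CC
  linear_combination (-1 : ℝ) * e1 + e2 + e3 + Zd w f * e4 - e5

end Pool.MP0eb725
end

section

set_option autoImplicit false

open MeasureTheory Filter

namespace Pool.MP0eb725

private theorem B07d_inv : Tendsto (fun Y : ℝ => 1 / Y) atTop (nhds 0) := by
  simpa only [one_div] using tendsto_inv_atTop_zero (𝕜 := ℝ)

private theorem B07d_frac : Tendsto (fun Y : ℝ => (1 / Y) / (1 + 1 / Y)) atTop (nhds 0) := by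
  have h1 : Tendsto (fun Y : ℝ => 1 + 1 / Y) atTop (nhds (1 + 0)) := B07d_inv.const_add 1
  have h2 : Tendsto (fun Y : ℝ => (1 / Y) / (1 + 1 / Y)) atTop (nhds (0 / (1 + 0))) :=
    B07d_inv.div h1 (by norm_num)
  rwa [zero_div] at h2

private theorem B07d_one : Tendsto (fun Y : ℝ => 1 + 1 / Y) atTop (nhds 1) := by
  have h1 : Tendsto (fun Y : ℝ => 1 + 1 / Y) atTop (nhds (1 + 0)) := B07d_inv.const_add 1
  simpa using h1

private theorem B07d_one' : Tendsto (fun Y : ℝ => 1 / (1 + 1 / Y)) atTop (nhds 1) := by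
  have h2 : Tendsto (fun Y : ℝ => 1 / (1 + 1 / Y)) atTop (nhds (1 / 1)) :=
    (tendsto_const_nhds (x := (1 : ℝ)) (f := atTop (α := ℝ))).div B07d_one (by norm_num)
  rwa [div_one] at h2

private theorem B07d_EE (w : ℕ) (hw : 3 ≤ w) {h : Fn} (hh : Ty1 h) (u v c : ℝ) (hc : 0 ≤ c)
    {g : ℝ → ℝ} (hg : Tendsto g atTop (nhds c)) (hg0 : ∀ᶠ Y in atTop, 0 ≤ g Y) :
    Tendsto (fun Y => EE w h u v (g Y)) atTop (nhds (EE w h u v c)) := by
  have h1 : ContinuousWithinAt (fun Y => EE w h u v Y) (Set.Ici 0) c := EE_cont w hw hh u v c hc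
  exact h1.tendsto.comp (tendsto_nhdsWithin_iff.2 ⟨hg, hg0⟩)

private theorem B07d_EE0 (w : ℕ) (h : Fn) (u v : ℝ) : EE w h u v 0 = 0 := by
  unfold EE
  simp

/-- (A13).  Let `a = 1/Y`, `Y → ∞` in `CC_const`: `FF w f u v (1/Y) = EE (p1 f) u v (1/Y) - EE (p1 (tr f)) v u Y`,
`a/(1+a) = 1/(Y+1)`; `EE → 0` at `0+` (`EE_cont`), `EE_lim`, `EE_lim_succ`, `mu` equal (`hbar_tr_fu`, `hbar_p1`, `mu_congr`),
so the limit is `ereg (p1 (tr (fu f))) v (u-v) - ereg (p1 (tr f)) v u - FF (fl f) u (v-u) 1`, which is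
`PP (fl f) u (v-u) - FF ... = - TH` by `q1_fl`, `q2_fl`. -/
theorem CC_zero (w : ℕ) (hw : 3 ≤ w) {f : Fn} (hf : Per f) (ho : Odd2 f) (u v a : ℝ) (ha : 0 < a) :
    CC w f u v a = - TH w (fl f) u (v - u) := by
  have hpos : ∀ᶠ Y : ℝ in atTop, 0 < Y := eventually_gt_atTop 0
  have hconst : ∀ᶠ Y : ℝ in atTop, CC w f u v (1 / Y) = CC w f u v a :=
    hpos.mono fun Y hY => CC_const w hw hf ho u v (1 / Y) a (by positivity) ha
  have ty : Ty1 (p1 f) := ty1_p1 hf ho
  have tyt : Ty1 (p1 (tr f)) := ty1_p1 hf.tr ho.tr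
  have tyu : Ty1 (p1 (fu f)) := ty1_p1 hf.fu ho.fu
  have tyut : Ty1 (p1 (tr (fu f))) := ty1_p1 hf.fu.tr ho.fu.tr
  have tyl : Ty1 (p1 (fl f)) := ty1_p1 hf.fl ho.fl
  have tylt : Ty1 (p1 (tr (fl f))) := ty1_p1 hf.fl.tr ho.fl.tr
  have hmu : mu w (p1 (tr (fu f))) = mu w (p1 (tr f)) := mu_congr w fun m => by
    rw [hbar_p1 hf.fu.tr, hbar_p1 hf.tr, hbar_tr_fu hf]
  -- the limits
  have l1 : Tendsto (fun Y : ℝ => EE w (p1 f) u v (1 / Y)) atTop (nhds 0) := by
    have := B07d_EE w hw ty u v 0 le_rfl B07d_inv (hpos.mono fun Y hY => by positivity)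
    rwa [B07d_EE0] at this
  have l2 : Tendsto (fun Y : ℝ => EE w (p1 (fu f)) (u - v) v ((1 / Y) / (1 + 1 / Y))) atTop
      (nhds 0) := by
    have := B07d_EE w hw tyu (u - v) v 0 le_rfl B07d_frac (hpos.mono fun Y hY => by positivity)
    rwa [B07d_EE0] at this
  have l3 : Tendsto (fun Y : ℝ => FF w (fl f) u (v - u) (1 + 1 / Y)) atTop
      (nhds (FF w (fl f) u (v - u) 1)) := by
    have h1 := B07d_EE w hw tyl u (v - u) 1 zero_le_one B07d_one
      (hpos.mono fun Y hY => by positivity)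
    have h2 := B07d_EE w hw tylt (v - u) u 1 zero_le_one B07d_one'
      (hpos.mono fun Y hY => by positivity)
    have h3 := h1.sub h2
    unfold FF
    simpa using h3
  have l4 : Tendsto (fun Y : ℝ => ∫ z in (0 : ℝ)..((1 / Y) / (1 + 1 / Y)),
      ((u - v) * z + v) ^ (w - 2)) atTop (nhds 0) := by
    have hc : Continuous fun b : ℝ => ∫ z in (0 : ℝ)..b, ((u - v) * z + v) ^ (w - 2) :=
      intervalIntegral.continuous_primitive
        (fun a b => (by fun_prop : Continuous fun z : ℝ => ((u - v) * z + v) ^ (w - 2)).intervalIntegrable a b) 0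
    have h1 : Tendsto (fun Y : ℝ => ∫ z in (0 : ℝ)..((1 / Y) / (1 + 1 / Y)),
        ((u - v) * z + v) ^ (w - 2)) atTop
        (nhds (∫ z in (0 : ℝ)..0, ((u - v) * z + v) ^ (w - 2))) := (hc.tendsto 0).comp B07d_frac
    rwa [intervalIntegral.integral_same] at h1
  have l5 := EE_lim w hw tyt v u
  have l6 := EE_lim_succ w hw tyut v (u - v)
  rw [hmu] at l6
  have hlim : Tendsto (fun Y : ℝ => EE w (p1 f) u v (1 / Y)
      - (EE w (p1 (tr f)) v u Y - v ^ (w - 2) * mu w (p1 (tr f)) * Real.log Y)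
      - EE w (p1 (fu f)) (u - v) v ((1 / Y) / (1 + 1 / Y))
      + (EE w (p1 (tr (fu f))) v (u - v) (Y + 1) - v ^ (w - 2) * mu w (p1 (tr f)) * Real.log Y)
      - FF w (fl f) u (v - u) (1 + 1 / Y)
      - Zd w f * ∫ z in (0 : ℝ)..((1 / Y) / (1 + 1 / Y)), ((u - v) * z + v) ^ (w - 2)) atTop
      (nhds (0 - ereg w (p1 (tr f)) v u - 0 + ereg w (p1 (tr (fu f))) v (u - v)
        - FF w (fl f) u (v - u) 1 - Zd w f * 0)) :=
    ((((l1.sub l5).sub l2).add l6).sub l3).sub (l4.const_mul _)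
  have heq : ∀ᶠ Y : ℝ in atTop, EE w (p1 f) u v (1 / Y)
      - (EE w (p1 (tr f)) v u Y - v ^ (w - 2) * mu w (p1 (tr f)) * Real.log Y)
      - EE w (p1 (fu f)) (u - v) v ((1 / Y) / (1 + 1 / Y))
      + (EE w (p1 (tr (fu f))) v (u - v) (Y + 1) - v ^ (w - 2) * mu w (p1 (tr f)) * Real.log Y)
      - FF w (fl f) u (v - u) (1 + 1 / Y)
      - Zd w f * (∫ z in (0 : ℝ)..((1 / Y) / (1 + 1 / Y)), ((u - v) * z + v) ^ (w - 2)) =
      CC w f u v a := by
    filter_upwards [hconst, hpos] with Y h1 hY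
    rw [← h1]
    have e1 : 1 / (1 / Y) = Y := by field_simp
    have e2 : 1 / ((1 / Y) / (1 + 1 / Y)) = Y + 1 := by field_simp
    have e3 : FF w f u v (1 / Y) = EE w (p1 f) u v (1 / Y) - EE w (p1 (tr f)) v u Y := by
      unfold FF
      rw [e1]
    have e4 : FF w (fu f) (u - v) v ((1 / Y) / (1 + 1 / Y)) =
        EE w (p1 (fu f)) (u - v) v ((1 / Y) / (1 + 1 / Y)) -
          EE w (p1 (tr (fu f))) v (u - v) (Y + 1) := by
      unfold FF
      rw [e2]
    unfold CC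
    rw [e3, e4]
    ring
  have hfin := tendsto_nhds_unique (hlim.congr' heq) tendsto_const_nhds
  rw [← hfin]
  have hPP : PP w (fl f) u (v - u) =
      ereg w (p1 (tr (fu f))) v (u - v) - ereg w (p1 (tr f)) v u := by
    unfold PP
    rw [q1_fl, q2_fl]
    have e1 : u + (v - u) = v := by ring
    have e2 : -(v - u) = u - v := by ring
    rw [e1, e2]
  unfold TH
  rw [hPP]
  ring

end Pool.MP0eb725
end

section

set_option autoImplicit false

open MeasureTheory Filter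

namespace Pool.MP0eb725

private theorem B07e_inv : Tendsto (fun Y : ℝ => 1 / Y) atTop (nhds 0) := by
  simpa only [one_div] using tendsto_inv_atTop_zero (𝕜 := ℝ)

private theorem B07e_inv1 : Tendsto (fun Y : ℝ => 1 / (1 + Y)) atTop (nhds 0) :=
  B07e_inv.comp (tendsto_atTop_add_const_left atTop (1 : ℝ) tendsto_id)

private theorem B07e_frac : Tendsto (fun Y : ℝ => Y / (1 + Y)) atTop (nhds 1) := by
  have h1 : Tendsto (fun Y : ℝ => 1 - 1 / (1 + Y)) atTop (nhds (1 - 0)) :=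
    B07e_inv1.const_sub 1
  rw [sub_zero] at h1
  refine h1.congr' ?_
  filter_upwards [eventually_gt_atTop (0 : ℝ)] with Y hY
  field_simp
  ring

private theorem B07e_frac' : Tendsto (fun Y : ℝ => 1 / (Y / (1 + Y))) atTop (nhds 1) := by
  have h2 : Tendsto (fun Y : ℝ => 1 / (Y / (1 + Y))) atTop (nhds (1 / 1)) :=
    (tendsto_const_nhds (x := (1 : ℝ)) (f := atTop (α := ℝ))).div B07e_frac (by norm_num)
  rwa [div_one] at h2

private theorem B07e_EE (w : ℕ) (hw : 3 ≤ w) {h : Fn} (hh : Ty1 h) (u v c : ℝ) (hc : 0 ≤ c)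
    {g : ℝ → ℝ} (hg : Tendsto g atTop (nhds c)) (hg0 : ∀ᶠ Y in atTop, 0 ≤ g Y) :
    Tendsto (fun Y => EE w h u v (g Y)) atTop (nhds (EE w h u v c)) := by
  have h1 : ContinuousWithinAt (fun Y => EE w h u v Y) (Set.Ici 0) c := EE_cont w hw hh u v c hc
  exact h1.tendsto.comp (tendsto_nhdsWithin_iff.2 ⟨hg, hg0⟩)

private theorem B07e_EE0 (w : ℕ) (h : Fn) (u v : ℝ) : EE w h u v 0 = 0 := by
  unfold EE
  simp

/-- (A14).  Let `a = Y → ∞` in `CC_const`. -/
theorem CC_inf (w : ℕ) (hw : 3 ≤ w) {f : Fn} (hf : Per f) (ho : Odd2 f) (u v a : ℝ) (ha : 0 < a) :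
    CC w f u v a = ereg w (p1 f) u v - ereg w (p1 (fl f)) u (v - u) - FF w (fu f) (u - v) v 1
      - Zd w f * ∫ z in (0 : ℝ)..1, ((u - v) * z + v) ^ (w - 2) := by
  have hpos : ∀ᶠ Y : ℝ in atTop, 0 < Y := eventually_gt_atTop 0
  have hconst : ∀ᶠ Y : ℝ in atTop, CC w f u v Y = CC w f u v a :=
    hpos.mono fun Y hY => CC_const w hw hf ho u v Y a hY ha
  have ty : Ty1 (p1 f) := ty1_p1 hf ho
  have tyt : Ty1 (p1 (tr f)) := ty1_p1 hf.tr ho.tr
  have tyu : Ty1 (p1 (fu f)) := ty1_p1 hf.fu ho.fu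
  have tyut : Ty1 (p1 (tr (fu f))) := ty1_p1 hf.fu.tr ho.fu.tr
  have tyl : Ty1 (p1 (fl f)) := ty1_p1 hf.fl ho.fl
  have tylt : Ty1 (p1 (tr (fl f))) := ty1_p1 hf.fl.tr ho.fl.tr
  have hmu : mu w (p1 (fl f)) = mu w (p1 f) := mu_congr w fun m => by
    rw [hbar_p1 hf.fl, hbar_p1 hf, hbar_fl hf]
  -- the limits
  have l1 : Tendsto (fun Y : ℝ => EE w (p1 (tr f)) v u (1 / Y)) atTop (nhds 0) := by
    have := B07e_EE w hw tyt v u 0 le_rfl B07e_inv (hpos.mono fun Y hY => by positivity)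
    rwa [B07e_EE0] at this
  have l2 : Tendsto (fun Y : ℝ => EE w (p1 (tr (fl f))) (v - u) u (1 / (1 + Y))) atTop
      (nhds 0) := by
    have := B07e_EE w hw tylt (v - u) u 0 le_rfl B07e_inv1 (hpos.mono fun Y hY => by positivity)
    rwa [B07e_EE0] at this
  have l3 : Tendsto (fun Y : ℝ => FF w (fu f) (u - v) v (Y / (1 + Y))) atTop
      (nhds (FF w (fu f) (u - v) v 1)) := by
    have h1 := B07e_EE w hw tyu (u - v) v 1 zero_le_one B07e_frac
      (hpos.mono fun Y hY => by positivity)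
    have h2 := B07e_EE w hw tyut v (u - v) 1 zero_le_one B07e_frac'
      (hpos.mono fun Y hY => by positivity)
    have h3 := h1.sub h2
    unfold FF
    simpa using h3
  have l4 : Tendsto (fun Y : ℝ => ∫ z in (0 : ℝ)..(Y / (1 + Y)),
      ((u - v) * z + v) ^ (w - 2)) atTop
      (nhds (∫ z in (0 : ℝ)..1, ((u - v) * z + v) ^ (w - 2))) := by
    have hc : Continuous fun b : ℝ => ∫ z in (0 : ℝ)..b, ((u - v) * z + v) ^ (w - 2) :=
      intervalIntegral.continuous_primitive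
        (fun a b => (by fun_prop : Continuous fun z : ℝ => ((u - v) * z + v) ^ (w - 2)).intervalIntegrable a b) 0
    exact (hc.tendsto 1).comp B07e_frac
  have l5 := EE_lim w hw ty u v
  have l6 := EE_lim_succ w hw tyl u (v - u)
  rw [hmu] at l6
  have hlim := (((((l5.sub l1).sub l3).sub l6).add l2).sub (l4.const_mul (Zd w f)))
  have heq : ∀ᶠ Y : ℝ in atTop, (EE w (p1 f) u v Y - u ^ (w - 2) * mu w (p1 f) * Real.log Y)
      - EE w (p1 (tr f)) v u (1 / Y) - FF w (fu f) (u - v) v (Y / (1 + Y))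
      - (EE w (p1 (fl f)) u (v - u) (Y + 1) - u ^ (w - 2) * mu w (p1 f) * Real.log Y)
      + EE w (p1 (tr (fl f))) (v - u) u (1 / (1 + Y))
      - Zd w f * (∫ z in (0 : ℝ)..(Y / (1 + Y)), ((u - v) * z + v) ^ (w - 2)) =
      CC w f u v a := by
    filter_upwards [hconst, hpos] with Y h1 hY
    rw [← h1]
    have e4 : FF w (fl f) u (v - u) (1 + Y) =
        EE w (p1 (fl f)) u (v - u) (Y + 1) - EE w (p1 (tr (fl f))) (v - u) u (1 / (1 + Y)) := by
      unfold FF
      rw [add_comm Y 1]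
    unfold CC
    rw [e4]
    unfold FF
    ring
  have hfin := tendsto_nhds_unique (hlim.congr' heq) tendsto_const_nhds
  rw [← hfin]
  ring

end Pool.MP0eb725
end

section

end

section

set_option autoImplicit false

open MeasureTheory Filter

namespace Pool.MP0eb725

/-- (H1): the FF parts are exactly opposite; `PP w (tr f) v u = ereg (p1 (q2 f)) (u+v) (-u) - ereg (p1 (q1 f)) (u+v) v`
(`p1_q1_tr`, `p1_q2_tr`), `parity` twice. -/
theorem H1 (w : ℕ) (hw : 3 ≤ w) (hodd : Odd w) {f : Fn} (hf : Per f) (ho : Odd2 f) (u v : ℚ) :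
    Eqv w (TH w (tr f) v u) (- TH w f u v) := by
  obtain ⟨q, hq⟩ := parity w hw hodd (ty1_p1 hf.q1 ho.q1) (u + v) v
  obtain ⟨r, hr⟩ := parity w hw hodd (ty1_p1 hf.q2 ho.q2) (u + v) u
  refine ⟨-(q + r), ?_⟩
  have htt : tr (tr f) = f := rfl
  unfold TH FF PP
  rw [p1_q1_tr, p1_q2_tr, htt]
  rw [div_one, add_comm (v : ℝ) (u : ℝ)]
  push_cast at hq hr ⊢
  linear_combination - hq - hr

end Pool.MP0eb725
end

section

set_option autoImplicit false

open MeasureTheory Filter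

namespace Pool.MP0eb725

/-- (H2): compare `CC_zero` and `CC_inf` (any `a`, e.g. `a = 1`): `PP w (fu f) (u-v) v = ereg (p1 f) u (-v) -
ereg (p1 (fl f)) u (u-v)` (`p1_q1_fu`, `p1_q2_fu`), `parity`, `Zd_rat`, `int_rat`. -/
theorem H2 (w : ℕ) (hw : 3 ≤ w) (hodd : Odd w) {f : Fn} (hf : Per f) (ho : Odd2 f) (u v : ℚ) :
    Eqv w (TH w (fu f) (u - v) v) (TH w (fl f) u (v - u)) := by
  have h0 := CC_zero w hw hf ho (u : ℝ) v 1 one_pos
  have h1 := CC_inf w hw hf ho (u : ℝ) v 1 one_pos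
  rw [h0] at h1
  obtain ⟨q, hq⟩ := parity w hw hodd (ty1_p1 hf ho) u v
  obtain ⟨r, hr⟩ := parity w hw hodd (ty1_p1 hf.fl ho.fl) u (v - u)
  obtain ⟨z, hz⟩ := Zd_rat w hw hodd hf ho
  obtain ⟨t, ht⟩ := int_rat (w - 2) u v 1
  rw [hz] at h1
  push_cast at ht
  rw [ht] at h1
  refine ⟨-q + r - z * t, ?_⟩
  have hPP : PP w (fu f) ((u : ℝ) - v) v = ereg w (p1 f) u (-v) - ereg w (p1 (fl f)) u (-((v : ℝ) - u)) := by
    unfold PP
    rw [p1_q1_fu, p1_q2_fu]
    rw [sub_add_cancel, neg_sub]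
  have hTH : TH w (fu f) ((u : ℝ) - v) v = FF w (fu f) ((u : ℝ) - v) v 1 - PP w (fu f) ((u : ℝ) - v) v := rfl
  rw [hTH, hPP]
  push_cast at hq hr ⊢
  linear_combination h1 - hq + hr

end Pool.MP0eb725
end

section

set_option autoImplicit false

open MeasureTheory Filter

namespace Pool.MP0eb725

theorem B08c_per {f : Fn} (hf : Per3 f) : Per f := by
  intro m n
  have h1 := fun m n => (hf m n).1
  have h2 := fun m n => (hf m n).2
  constructor
  · have : m + 6 = m + 3 + 3 := by ring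
    rw [this, h1, h1]
  · have : n + 6 = n + 3 + 3 := by ring
    rw [this, h2, h2]

theorem B08c_sc22_per {f : Fn} (hf : Per3 f) : Per (sc 2 2 f) := by
  intro m n
  have h1 := fun m n => (hf m n).1
  have h2 := fun m n => (hf m n).2
  have d1 : ∀ k : ℤ, (((2 : ℕ) : ℤ) ∣ k + 6) ↔ (((2 : ℕ) : ℤ) ∣ k) := by
    intro k; push_cast; omega
  have e1 : ∀ k : ℤ, (k + 6) / ((2 : ℕ) : ℤ) = k / ((2 : ℕ) : ℤ) + 3 := by
    intro k; push_cast; omega
  constructor
  · simp only [sc, d1, e1, h1]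
  · simp only [sc, d1, e1, h2]

theorem B08c_sc22_odd {f : Fn} (ho : Odd2 f) : Odd2 (sc 2 2 f) := by
  intro m n
  unfold sc
  by_cases hm : ((2 : ℕ) : ℤ) ∣ m
  · by_cases hn : ((2 : ℕ) : ℤ) ∣ n
    · have hm' : ((2 : ℕ) : ℤ) ∣ -m := (dvd_neg).2 hm
      have hn' : ((2 : ℕ) : ℤ) ∣ -n := (dvd_neg).2 hn
      rw [if_pos ⟨hm', hn'⟩, if_pos ⟨hm, hn⟩, Int.neg_ediv_of_dvd hm, Int.neg_ediv_of_dvd hn, ho]
    · have hn' : ¬ ((2 : ℕ) : ℤ) ∣ -n := fun h => hn ((dvd_neg).1 h)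
      rw [if_neg (fun h => hn' h.2), if_neg (fun h => hn h.2)]; simp
  · have hm' : ¬ ((2 : ℕ) : ℤ) ∣ -m := fun h => hm ((dvd_neg).1 h)
    rw [if_neg (fun h => hm' h.1), if_neg (fun h => hm h.1)]; simp

theorem B08c_q1 (f : Fn) : q1 (sc 2 2 f) = sc 2 2 (q1 f) := by
  funext m n
  unfold q1 sc
  by_cases hn : ((2 : ℕ) : ℤ) ∣ n
  · by_cases hm : ((2 : ℕ) : ℤ) ∣ m
    · have hmn : ((2 : ℕ) : ℤ) ∣ m + n := dvd_add hm hn
      have hn' : ((2 : ℕ) : ℤ) ∣ -n := (dvd_neg).2 hn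
      rw [if_pos ⟨hmn, hn'⟩, if_pos ⟨hm, hn⟩, Int.neg_ediv_of_dvd hn, Int.add_ediv_of_dvd_left hm]
    · have hmn : ¬ ((2 : ℕ) : ℤ) ∣ m + n := fun h => hm ((dvd_add_left hn).1 h)
      rw [if_neg (fun h => hmn h.1), if_neg (fun h => hm h.1)]
  · have hn' : ¬ ((2 : ℕ) : ℤ) ∣ -n := fun h => hn ((dvd_neg).1 h)
    rw [if_neg (fun h => hn' h.2), if_neg (fun h => hn h.2)]

theorem B08c_q2 (f : Fn) : q2 (sc 2 2 f) = sc 2 2 (q2 f) := by
  funext m n
  unfold q2 sc
  by_cases hn : ((2 : ℕ) : ℤ) ∣ n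
  · by_cases hm : ((2 : ℕ) : ℤ) ∣ m
    · have hmn : ((2 : ℕ) : ℤ) ∣ m - n := dvd_sub hm hn
      rw [if_pos ⟨hn, hmn⟩, if_pos ⟨hm, hn⟩, Int.sub_ediv_of_dvd m hn]
    · have hmn : ¬ ((2 : ℕ) : ℤ) ∣ m - n := by
        intro h
        have := dvd_add h hn
        rw [sub_add_cancel] at this
        exact hm this
      rw [if_neg (fun h => hmn h.2), if_neg (fun h => hm h.1)]
  · rw [if_neg (fun h => hn h.1), if_neg (fun h => hn h.2)]

theorem B08c_ereg (w : ℕ) (hw : 3 ≤ w) {h : Fn} (hh : Ty1 h) (hs : Ty1 (sc 2 2 h)) (u v : ℝ) :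
    2 ^ w * ereg w (sc 2 2 h) u v = ereg w h u v := by
  have h1 := ereg_sc w hw 2 2 (by norm_num) (by norm_num) hh hs u v
  push_cast at h1
  rw [div_self (by norm_num : (2 : ℝ) ≠ 0), Real.log_one, mul_zero, add_zero, ereg_hom w hw hh] at h1
  obtain ⟨k, rfl⟩ : ∃ k, w = k + 2 := ⟨w - 2, by omega⟩
  have e1 : k + 2 - 1 = k + 1 := by omega
  have e2 : k + 2 - 2 = k := by omega
  rw [e1, e2, mul_pow] at h1
  have h2 : (2 : ℝ) ^ k ≠ 0 := pow_ne_zero _ (by norm_num)
  apply mul_left_cancel₀ h2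
  linear_combination h1

/-- (H3), exact: `FF_sc` with `p=q=2`, `FF_hom`, `ereg_sc` with `a=b=2` (`log 1 = 0`), `ereg_hom`;
`q1 (sc 2 2 f) = sc 2 2 (q1 f)`, `q2 (sc 2 2 f) = sc 2 2 (q2 f)`; `sc 2 2 f` is 6-periodic as `f` is 3-periodic. -/
theorem H3 (w : ℕ) (hw : 3 ≤ w) {f : Fn} (hf : Per3 f) (ho : Odd2 f) (u v : ℝ) :
    2 ^ w * TH w (sc 2 2 f) u v = TH w f u v := by
  have hp := B08c_per hf
  have hsp := B08c_sc22_per hf
  have hso := B08c_sc22_odd ho
  have hFF : 2 ^ w * FF w (sc 2 2 f) u v 1 = FF w f u v 1 := by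
    have h1 := FF_sc w hw 2 2 (by norm_num) (by norm_num) f u v 1 one_pos
    push_cast at h1
    rw [div_self (by norm_num : (2 : ℝ) ≠ 0), one_mul, FF_hom] at h1
    obtain ⟨k, rfl⟩ : ∃ k, w = k + 2 := ⟨w - 2, by omega⟩
    have e1 : k + 2 - 1 = k + 1 := by omega
    have e2 : k + 2 - 2 = k := by omega
    rw [e1, e2, mul_pow] at h1
    have h2 : (2 : ℝ) ^ k ≠ 0 := pow_ne_zero _ (by norm_num)
    apply mul_left_cancel₀ h2
    linear_combination h1
  have t1 : Ty1 (p1 (q1 (sc 2 2 f))) := ty1_p1 hsp.q1 hso.q1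
  have t2 : Ty1 (p1 (q2 (sc 2 2 f))) := ty1_p1 hsp.q2 hso.q2
  rw [B08c_q1, sc_p1 2 2 (by norm_num) (by norm_num)] at t1
  rw [B08c_q2, sc_p1 2 2 (by norm_num) (by norm_num)] at t2
  have hPP : 2 ^ w * PP w (sc 2 2 f) u v = PP w f u v := by
    unfold PP
    rw [B08c_q1, B08c_q2, sc_p1 2 2 (by norm_num) (by norm_num), sc_p1 2 2 (by norm_num) (by norm_num), mul_sub,
      B08c_ereg w hw (ty1_p1 hp.q1 ho.q1) t1, B08c_ereg w hw (ty1_p1 hp.q2 ho.q2) t2]
  unfold TH
  rw [mul_sub, hFF, hPP]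

end Pool.MP0eb725
end

section

set_option autoImplicit false

open MeasureTheory Filter

namespace Pool.MP0eb725

theorem B08d_per {f : Fn} (h : Per3 f) : Per f := by
  intro m n
  constructor
  · have e : m + 6 = m + 3 + 3 := by ring
    rw [e, (h (m + 3) n).1, (h m n).1]
  · have e : n + 6 = n + 3 + 3 := by ring
    rw [e, (h m (n + 3)).2, (h m n).2]

theorem B08d_sub {f : Fn} (h : Per3 f) (m n : ℤ) : f (m - 3) n = f m n ∧ f m (n - 3) = f m n := by
  constructor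
  · have := (h (m - 3) n).1
    rw [sub_add_cancel] at this
    exact this.symm
  · have := (h m (n - 3)).2
    rw [sub_add_cancel] at this
    exact this.symm

theorem B08d_per3_q1 {f : Fn} (h : Per3 f) : Per3 (q1 f) := by
  intro m n
  unfold q1
  constructor
  · have e : m + 3 + n = m + n + 3 := by ring
    rw [e, (h (m + n) (-n)).1]
  · have e : m + (n + 3) = m + n + 3 := by ring
    have e' : -(n + 3) = -n - 3 := by ring
    rw [e, e', (h (m + n) (-n - 3)).1, (B08d_sub h (m + n) (-n)).2]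

theorem B08d_per3_q2 {f : Fn} (h : Per3 f) : Per3 (q2 f) := by
  intro m n
  unfold q2
  constructor
  · have e : m + 3 - n = m - n + 3 := by ring
    rw [e, (h n (m - n)).2]
  · have e' : m - (n + 3) = m - n - 3 := by ring
    rw [e', (h n (m - n - 3)).1, (B08d_sub h n (m - n)).2]

theorem B08d_per3_p1 {f : Fn} (h : Per3 f) : Per3 (p1 f) := by
  intro m n
  unfold p1
  constructor
  · rw [(h m n).1, (h m (-n)).1]
  · have e' : -(n + 3) = -n - 3 := by ring
    rw [e', (h m n).2, (B08d_sub h m (-n)).2]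

theorem B08d_ty1_sc {h : Fn} (hh : Ty1 h) (h3 : Per3 h) : Ty1 (sc 1 2 h) := by
  obtain ⟨_, ho, he⟩ := hh
  have hP := B08d_per h3
  refine ⟨?_, ?_, ?_⟩
  · intro m n
    unfold sc
    simp only [Nat.cast_one, Nat.cast_ofNat, one_dvd, true_and, Int.ediv_one]
    constructor
    · rw [(hP m (n / 2)).1]
    · by_cases hn : (2 : ℤ) ∣ n
      · have hn' : (2 : ℤ) ∣ n + 6 := by omega
        rw [if_pos hn, if_pos hn']
        have e : (n + 6) / 2 = n / 2 + 3 := by omega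
        rw [e, (h3 m (n / 2)).2]
      · have hn' : ¬ (2 : ℤ) ∣ n + 6 := by omega
        rw [if_neg hn, if_neg hn']
  · intro m n
    unfold sc
    simp only [Nat.cast_one, Nat.cast_ofNat, one_dvd, true_and, Int.ediv_one]
    by_cases hn : (2 : ℤ) ∣ n
    · rw [if_pos hn, if_pos hn, ho]
    · rw [if_neg hn, if_neg hn, neg_zero]
  · intro m n
    unfold sc
    simp only [Nat.cast_one, Nat.cast_ofNat, one_dvd, true_and, Int.ediv_one]
    by_cases hn : (2 : ℤ) ∣ n
    · have hn' : (2 : ℤ) ∣ -n := by omega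
      rw [if_pos hn, if_pos hn']
      have e : -n / 2 = -(n / 2) := by omega
      rw [e, he]
    · have hn' : ¬ (2 : ℤ) ∣ -n := by omega
      rw [if_neg hn, if_neg hn']

theorem B08d_q1_sc (f : Fn) : q1 (sc 1 2 (fu f)) = sc 1 2 (q1 f) := by
  funext m n
  unfold q1 sc fu
  simp only [Nat.cast_one, Nat.cast_ofNat, one_dvd, true_and, Int.ediv_one]
  by_cases hn : (2 : ℤ) ∣ n
  · have hn' : (2 : ℤ) ∣ -n := by omega
    rw [if_pos hn, if_pos hn']
    have e : -n / 2 = -(n / 2) := by omega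
    have e2 : m + n + -(n / 2) = m + n / 2 := by omega
    rw [e, e2]
  · have hn' : ¬ (2 : ℤ) ∣ -n := by omega
    rw [if_neg hn, if_neg hn']

theorem B08d_q2_sc (f : Fn) : q2 (sc 2 1 (fl f)) = sc 1 2 (q2 f) := by
  funext m n
  unfold q2 sc fl
  simp only [Nat.cast_one, Nat.cast_ofNat, one_dvd, true_and, and_true, Int.ediv_one]
  by_cases hn : (2 : ℤ) ∣ n
  · rw [if_pos hn, if_pos hn]
    have e : n / 2 + (m - n) = m - n / 2 := by omega
    rw [e]
  · rw [if_neg hn, if_neg hn]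

theorem B08d_q12_sc (f : Fn) : q2 (sc 1 2 (fu f)) = q1 (sc 2 1 (fl f)) := by
  funext m n
  unfold q1 q2 sc fl fu
  simp only [Nat.cast_one, Nat.cast_ofNat, one_dvd, true_and, and_true, Int.ediv_one]
  by_cases hn : (2 : ℤ) ∣ m - n
  · have hn' : (2 : ℤ) ∣ m + n := by omega
    rw [if_pos hn, if_pos hn']
    have e : n + (m - n) / 2 = (m + n) / 2 := by omega
    have e2 : (m + n) / 2 + -n = (m - n) / 2 := by omega
    rw [e, e2]
  · have hn' : ¬ (2 : ℤ) ∣ m + n := by omega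
    rw [if_neg hn, if_neg hn']

theorem B08d_scale (w : ℕ) (hw : 3 ≤ w) {h : Fn} (hh : Ty1 h) (h3 : Per3 h) (s y : ℝ) :
    2 * ereg w (sc 1 2 h) s (2 * y) = ereg w h s y + s ^ (w - 2) * mu w h * Real.log (1 / 2) := by
  have key := ereg_sc w hw 1 2 le_rfl (by norm_num) hh (B08d_ty1_sc hh h3) s (2 * y)
  have hhom := ereg_hom w hw hh 2 s y
  simp only [Nat.cast_one, Nat.cast_ofNat, one_mul] at key
  rw [hhom] at key
  have hw1 : w - 1 = w - 2 + 1 := by omega
  rw [hw1, pow_succ, mul_pow] at key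
  have h2 : (2 : ℝ) ^ (w - 2) ≠ 0 := by positivity
  apply mul_left_cancel₀ h2
  linear_combination key

/-- the `PP`-part of (H4), exact.  With `s = u + v`: all four `PP` are `ereg`'s with first argument `s`;
`q1 (sc 1 2 (fu f)) = sc 1 2 (q1 f)`, `q2 (sc 2 1 (fl f)) = sc 1 2 (q2 f)`, and
`q2 (sc 1 2 (fu f)) = q1 (sc 2 1 (fl f))` (both are `(M,N) ↦ f((M+N)/2,(M-N)/2)` for `M ≡ N` mod 2, else 0);
`ereg_sc` with `a=1,b=2`, `ereg_hom`: `2 ereg (sc 1 2 h) s (2y) = ereg h s y - s^(w-2) mu h log 2`;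
`mu (p1 (q1 f)) = mu (p1 (q2 f))` (`hbar_q12`, `hbar_p1`). -/
theorem PP_H4 (w : ℕ) (hw : 3 ≤ w) {f : Fn} (hf : Per3 f) (ho : Odd2 f) (u v : ℝ) :
    PP w f u v = 2 * PP w (sc 1 2 (fu f)) (u - v) (2 * v) + 2 * PP w (sc 2 1 (fl f)) (2 * u) (v - u) := by
  have hP := B08d_per hf
  have ty1a : Ty1 (p1 (q1 f)) := ty1_p1 (Per.q1 hP) (Odd2.q1 ho)
  have ty2a : Ty1 (p1 (q2 f)) := ty1_p1 (Per.q2 hP) (Odd2.q2 ho)
  have s1 := B08d_scale w hw ty1a (B08d_per3_p1 (B08d_per3_q1 hf)) (u + v) (-v)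
  have s2 := B08d_scale w hw ty2a (B08d_per3_p1 (B08d_per3_q2 hf)) (u + v) u
  have hmu : mu w (p1 (q1 f)) = mu w (p1 (q2 f)) := by
    apply mu_congr
    intro m
    rw [hbar_p1 (Per.q1 hP), hbar_p1 (Per.q2 hP), hbar_q12 hP]
  rw [hmu] at s1
  unfold PP
  rw [B08d_q1_sc, B08d_q2_sc, B08d_q12_sc, sc_p1 1 2 le_rfl (by norm_num),
    sc_p1 1 2 le_rfl (by norm_num)]
  have e1 : u - v + 2 * v = u + v := by ring
  have e2 : -(2 * v) = 2 * (-v) := by ring
  have e3 : 2 * u + (v - u) = u + v := by ring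
  have e4 : -(v - u) = u - v := by ring
  rw [e1, e2, e3, e4]
  linear_combination s2 - s1

end Pool.MP0eb725
end
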