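import Mathlib
import Pool.Agent.Lib.MP_0eb725_nt.B04_EE
import Pool.Agent.Lib.MP_0eb725_nt.B06_Parity
import Pool.Agent.Lib.MP_0eb725_nt.B08d
import Pool.Agent.Lib.MP_0eb725_nt.A11f

section

section

set_option autoImplicit false

namespace Pool.MP0eb725

/-- `m_j = ∫_0^1 x^j (1-x)^(w-2-j) L(f_I,x) dx` -/
noncomputable def mom (w j : ℕ) : ℝ :=
  ∫ x in (0 : ℝ)..1, x ^ j * (1 - x) ^ (w - 2 - j) * L w (lift FI) x

end Pool.MP0eb725
end

section

set_option autoImplicit false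

open MeasureTheory Filter

namespace Pool.MP0eb725

private theorem B10a_pos {A B : ℝ} (hA : 0 < A) (hB : 0 < B) {x : ℝ} (hx : x ∈ Set.Icc (0 : ℝ) 1) :
    0 < x * A + (1 - x) * B := by
  obtain ⟨h0, h1⟩ := hx
  rcases h0.eq_or_lt with h | h
  · rw [← h]; simpa using hB
  · have h2 := mul_pos h hA
    have h3 := mul_nonneg (sub_nonneg.2 h1) hB.le
    linarith

private theorem B10a_d (A B x : ℝ) : HasDerivAt (fun x => x * A + (1 - x) * B) (A - B) x := by
  have h1 := (hasDerivAt_id x).mul_const A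
  have h2 := ((hasDerivAt_id x).const_sub 1).mul_const B
  have h3 := h1.add h2
  refine h3.congr_deriv ?_
  ring

private theorem B10a_int {A B : ℝ} (hA : 0 < A) (hB : 0 < B) (p q r : ℕ) :
    IntervalIntegrable (fun x : ℝ => x ^ p * (1 - x) ^ q / (x * A + (1 - x) * B) ^ r)
      MeasureTheory.volume 0 1 := by
  apply ContinuousOn.intervalIntegrable
  rw [Set.uIcc_of_le zero_le_one]
  refine ContinuousOn.div (by fun_prop) (by fun_prop) fun x hx => ?_
  exact pow_ne_zero _ (B10a_pos hA hB hx).ne'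

private theorem B10a_aux {A B : ℝ} (hA : 0 < A) (hB : 0 < B) : ∀ q p : ℕ,
    ∫ x in (0 : ℝ)..1, x ^ p * (1 - x) ^ q / (x * A + (1 - x) * B) ^ (p + q + 2) =
      (Nat.factorial p * Nat.factorial q : ℝ) /
        (Nat.factorial (p + q + 1) * A ^ (p + 1) * B ^ (q + 1)) := by
  intro q
  induction q with
  | zero =>
    intro p
    have h1 : ∀ x ∈ Set.uIcc (0 : ℝ) 1, HasDerivAt
        (fun x => x ^ (p + 1) / (x * A + (1 - x) * B) ^ (p + 1) * (1 / ((p + 1) * B)))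
        (x ^ p * (1 - x) ^ 0 / (x * A + (1 - x) * B) ^ (p + 0 + 2)) x := by
      intro x hx
      rw [Set.uIcc_of_le zero_le_one] at hx
      have hD := (B10a_pos hA hB hx).ne'
      have h2 := (hasDerivAt_pow (p + 1) x).div ((B10a_d A B x).pow (p + 1)) (pow_ne_zero _ hD)
      have h3 := h2.mul_const (1 / ((p + 1) * B))
      refine h3.congr_deriv ?_
      have hp : ((p : ℝ) + 1) ≠ 0 := by positivity
      simp only [Nat.add_sub_cancel, Nat.cast_add, Nat.cast_one, pow_zero, Nat.add_zero,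
        Pi.pow_apply]
      field_simp
      ring
    rw [intervalIntegral.integral_eq_sub_of_hasDerivAt h1 (B10a_int hA hB p 0 _)]
    have hp : ((p : ℝ) + 1) ≠ 0 := by positivity
    have hf : (Nat.factorial p : ℝ) ≠ 0 := by positivity
    rw [Nat.add_zero, Nat.factorial_succ]
    push_cast
    simp
    field_simp
  | succ q ih =>
    intro p
    have h1 : ∀ x ∈ Set.uIcc (0 : ℝ) 1, HasDerivAt
        (fun x => x ^ (p + 1) * (1 - x) ^ (q + 1) / (x * A + (1 - x) * B) ^ (p + q + 2))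
        ((p + 1) * B * (x ^ p * (1 - x) ^ (q + 1) / (x * A + (1 - x) * B) ^ (p + (q + 1) + 2)) -
          (q + 1) * A * (x ^ (p + 1) * (1 - x) ^ q / (x * A + (1 - x) * B) ^ (p + 1 + q + 2)))
        x := by
      intro x hx
      rw [Set.uIcc_of_le zero_le_one] at hx
      have hD := (B10a_pos hA hB hx).ne'
      have h2 := (((hasDerivAt_pow (p + 1) x).mul
        (((hasDerivAt_id x).const_sub 1).pow (q + 1))).div
          ((B10a_d A B x).pow (p + q + 2)) (pow_ne_zero _ hD))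
      refine h2.congr_deriv ?_
      simp only [Nat.add_sub_cancel, Nat.cast_add, Nat.cast_one, id, Pi.pow_apply, Pi.mul_apply,
        Nat.cast_ofNat]
      rw [show p + (q + 1) + 2 = p + q + 3 by ring, show p + 1 + q + 2 = p + q + 3 by ring,
        show p + q + 2 - 1 = p + q + 1 by omega]
      field_simp
      ring
    have i1 := (B10a_int hA hB p (q + 1) (p + (q + 1) + 2)).const_mul ((p + 1) * B)
    have i2 := (B10a_int hA hB (p + 1) q (p + 1 + q + 2)).const_mul ((q + 1) * A)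
    have h2 := intervalIntegral.integral_eq_sub_of_hasDerivAt h1 (i1.sub i2)
    rw [intervalIntegral.integral_sub i1 i2, intervalIntegral.integral_const_mul,
      intervalIntegral.integral_const_mul, ih (p + 1)] at h2
    have h3 : (fun x => x ^ (p + 1) * (1 - x) ^ (q + 1) / (x * A + (1 - x) * B) ^ (p + q + 2))
        (1 : ℝ) - (fun x => x ^ (p + 1) * (1 - x) ^ (q + 1) /
          (x * A + (1 - x) * B) ^ (p + q + 2)) (0 : ℝ) = 0 := by
      simp
    have h4 : (1 : ℝ) ^ (p + 1) * (1 - 1) ^ (q + 1) / (1 * A + (1 - 1) * B) ^ (p + q + 2) -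
        0 ^ (p + 1) * (1 - 0) ^ (q + 1) / (0 * A + (1 - 0) * B) ^ (p + q + 2) = 0 := by
      simp
    rw [h4, sub_eq_zero] at h2
    have hp : ((p : ℝ) + 1) ≠ 0 := by positivity
    have h5 : ((p : ℝ) + 1) * B ≠ 0 := mul_ne_zero hp hB.ne'
    apply mul_left_cancel₀ h5
    rw [h2, show p + (q + 1) + 1 = p + 1 + q + 1 by ring, Nat.factorial_succ p,
      Nat.factorial_succ q]
    have hf : (Nat.factorial (p + 1 + q + 1) : ℝ) ≠ 0 := by positivity
    push_cast
    field_simp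
    ring

/-- Feynman's formula: `∫_0^1 x^(a-1) (1-x)^(b-1) / (x A + (1-x) B)^(a+b) dx = (a-1)!(b-1)!/((a+b-1)! A^a B^b)`.
(E.g. induction on `b`, or substitution `y = x A/(x A + (1-x) B)` and the Beta integral.) -/
theorem feynman (a b : ℕ) (ha : 1 ≤ a) (hb : 1 ≤ b) (A B : ℝ) (hA : 0 < A) (hB : 0 < B) :
    ∫ x in (0 : ℝ)..1, x ^ (a - 1) * (1 - x) ^ (b - 1) / (x * A + (1 - x) * B) ^ (a + b) =
      (Nat.factorial (a - 1) * Nat.factorial (b - 1) : ℝ) / (Nat.factorial (a + b - 1) * A ^ a * B ^ b) := by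
  obtain ⟨p, rfl⟩ : ∃ p, a = p + 1 := ⟨a - 1, by omega⟩
  obtain ⟨q, rfl⟩ : ∃ q, b = q + 1 := ⟨b - 1, by omega⟩
  have h := B10a_aux hA hB q p
  rw [Nat.add_sub_cancel, Nat.add_sub_cancel, show p + 1 + (q + 1) = p + q + 2 by ring,
    show p + q + 2 - 1 = p + q + 1 by omega]
  exact h

end Pool.MP0eb725
end

section

set_option autoImplicit false

open MeasureTheory Filter

namespace Pool.MP0eb725

private theorem B10b_sin (m : ℕ) (n : ℤ) :
    Real.sin ((m : ℝ) * (Real.pi / 3)) = - (Real.sqrt 3 / 2) * (lift FI (m : ℤ) n : ℝ) := by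
  obtain ⟨k, r, hr, rfl⟩ : ∃ k r : ℕ, r < 6 ∧ m = r + 6 * k :=
    ⟨m / 6, m % 6, Nat.mod_lt _ (by norm_num), (Nat.mod_add_div m 6).symm⟩
  have h1 : (((r + 6 * k : ℕ) : ℝ) * (Real.pi / 3)) = (r : ℝ) * (Real.pi / 3) + k * (2 * Real.pi) := by
    push_cast
    ring
  have h2 : (lift FI ((r + 6 * k : ℕ) : ℤ) n : ℝ) = (lift FI (r : ℤ) n : ℝ) := by
    unfold lift
    have h3 : ((((r + 6 * k : ℕ) : ℤ)) : ZMod 6) = (((r : ℕ) : ℤ) : ZMod 6) := by
      push_cast
      have h6 : (6 : ZMod 6) = 0 := by decide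
      rw [h6, zero_mul, add_zero]
    rw [h3]
  rw [h1, Real.sin_add_nat_mul_two_pi, h2]
  have s1 : Real.sin (Real.pi / 3) = Real.sqrt 3 / 2 := Real.sin_pi_div_three
  interval_cases r
  · have h3 : (lift FI ((0 : ℕ) : ℤ) n) = ((0 : ℤ) : ℚ) :=
      congrArg (Int.cast : ℤ → ℚ) (show FI (((0 : ℕ) : ℤ) : ZMod 6) 0 = 0 by decide)
    rw [h3]
    simp
  · have h3 : (lift FI ((1 : ℕ) : ℤ) n) = ((-1 : ℤ) : ℚ) :=
      congrArg (Int.cast : ℤ → ℚ) (show FI (((1 : ℕ) : ℤ) : ZMod 6) 0 = -1 by decide)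
    rw [h3]
    push_cast
    rw [one_mul, s1]
    ring
  · have h3 : (lift FI ((2 : ℕ) : ℤ) n) = ((-1 : ℤ) : ℚ) :=
      congrArg (Int.cast : ℤ → ℚ) (show FI (((2 : ℕ) : ℤ) : ZMod 6) 0 = -1 by decide)
    rw [h3]
    push_cast
    rw [show (2 : ℝ) * (Real.pi / 3) = Real.pi - Real.pi / 3 by ring, Real.sin_pi_sub, s1]
    ring
  · have h3 : (lift FI ((3 : ℕ) : ℤ) n) = ((0 : ℤ) : ℚ) :=
      congrArg (Int.cast : ℤ → ℚ) (show FI (((3 : ℕ) : ℤ) : ZMod 6) 0 = 0 by decide)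
    rw [h3]
    push_cast
    rw [show (3 : ℝ) * (Real.pi / 3) = Real.pi by ring, Real.sin_pi]
    ring
  · have h3 : (lift FI ((4 : ℕ) : ℤ) n) = ((1 : ℤ) : ℚ) :=
      congrArg (Int.cast : ℤ → ℚ) (show FI (((4 : ℕ) : ℤ) : ZMod 6) 0 = 1 by decide)
    rw [h3]
    push_cast
    rw [show (4 : ℝ) * (Real.pi / 3) = Real.pi / 3 + Real.pi by ring, Real.sin_add_pi, s1]
    ring
  · have h3 : (lift FI ((5 : ℕ) : ℤ) n) = ((1 : ℤ) : ℚ) :=
      congrArg (Int.cast : ℤ → ℚ) (show FI (((5 : ℕ) : ℤ) : ZMod 6) 0 = 1 by decide)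
    rw [h3]
    push_cast
    rw [show (5 : ℝ) * (Real.pi / 3) = 2 * Real.pi - Real.pi / 3 by ring, Real.sin_two_pi_sub, s1]
    ring

private theorem B10b_reindex (F : ℕ → ℕ → ℝ) (N : ℕ) :
    ∑ n₁ ∈ Finset.Ico 1 N, ∑ n₂ ∈ Finset.Ico 1 n₁, F n₁ n₂ =
      ∑ q ∈ Finset.range (N - 2), ∑ p ∈ Finset.range (N - 2 - q), F (p + 1 + (q + 1)) (q + 1) := by
  rw [Finset.sum_sigma', Finset.sum_sigma']
  refine Finset.sum_bij' (fun x _ => ⟨x.2 - 1, x.1 - x.2 - 1⟩)
    (fun y _ => ⟨y.2 + 1 + (y.1 + 1), y.1 + 1⟩) ?_ ?_ ?_ ?_ ?_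
  · rintro ⟨n₁, n₂⟩ h
    simp only [Finset.mem_sigma, Finset.mem_Ico, Finset.mem_range] at h ⊢
    omega
  · rintro ⟨q, p⟩ h
    simp only [Finset.mem_sigma, Finset.mem_Ico, Finset.mem_range] at h ⊢
    omega
  · rintro ⟨n₁, n₂⟩ h
    simp only [Finset.mem_sigma, Finset.mem_Ico] at h
    ext
    · simp only
      omega
    · simp only
      exact heq_of_eq (by omega)
  · rintro ⟨q, p⟩ h
    ext
    · simp only
      omega
    · simp only
      exact heq_of_eq (by omega)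
  · rintro ⟨n₁, n₂⟩ h
    simp only [Finset.mem_sigma, Finset.mem_Ico] at h
    have h1 : n₁ - n₂ - 1 + 1 + (n₂ - 1 + 1) = n₁ := by omega
    have h2 : n₂ - 1 + 1 = n₂ := by omega
    simp only
    rw [h1, h2]

private theorem B10b_term (a b p q : ℕ) :
    (Complex.exp (-((Real.pi / 3 : ℝ) : ℂ) * Complex.I * ((p + 1 + (q + 1) : ℕ) : ℂ)) *
            Complex.exp (((Real.pi / 3 : ℝ) : ℂ) * Complex.I * ((q + 1 : ℕ) : ℂ)) /
            (((p + 1 + (q + 1) : ℕ) : ℂ) ^ a * ((q + 1 : ℕ) : ℂ) ^ b)).im =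
      Real.sqrt 3 / 2 * ((lift FI ((p : ℤ) + 1) ((q : ℤ) + 1) : ℝ) /
          (((p : ℝ) + 1 + ((q : ℝ) + 1)) ^ a * ((q : ℝ) + 1) ^ b)) := by
  rw [← Complex.exp_add]
  have h1 : -((Real.pi / 3 : ℝ) : ℂ) * Complex.I * ((p + 1 + (q + 1) : ℕ) : ℂ) +
      ((Real.pi / 3 : ℝ) : ℂ) * Complex.I * ((q + 1 : ℕ) : ℂ) =
      ((-(((p + 1 : ℕ) : ℝ) * (Real.pi / 3)) : ℝ) : ℂ) * Complex.I := by
    push_cast
    ring
  have h2 : (((p + 1 + (q + 1) : ℕ) : ℂ) ^ a * ((q + 1 : ℕ) : ℂ) ^ b) =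
      (((((p : ℝ) + 1 + ((q : ℝ) + 1)) ^ a * ((q : ℝ) + 1) ^ b : ℝ)) : ℂ) := by
    push_cast
    ring
  rw [h1, h2, Complex.div_ofReal_im, Complex.exp_ofReal_mul_I_im, Real.sin_neg,
    B10b_sin (p + 1) ((q : ℤ) + 1)]
  push_cast
  ring

/-- imaginary part of the truncated double sum; `Im exp(-(π/3) i m) = (√3/2) FI(m)`, `n₁ = m + n₂`:
sum over `m, n ≥ 1`, `m + n < N`, written with `m = p+1`, `n = q+1`. -/
theorem im_trunc (w k : ℕ) (hk : 1 ≤ k) (hkw : 2 * k + 1 ≤ w) (N : ℕ) :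
    (∑ n₁ ∈ Finset.Ico 1 N, ∑ n₂ ∈ Finset.Ico 1 n₁,
          Complex.exp (-((Real.pi / 3 : ℝ) : ℂ) * Complex.I * (n₁ : ℂ)) *
            Complex.exp (((Real.pi / 3 : ℝ) : ℂ) * Complex.I * (n₂ : ℂ)) /
            ((n₁ : ℂ) ^ (w - 2 * k) * (n₂ : ℂ) ^ (2 * k))).im =
      Real.sqrt 3 / 2 * ∑ q ∈ Finset.range (N - 2), ∑ p ∈ Finset.range (N - 2 - q),
        (lift FI ((p : ℤ) + 1) ((q : ℤ) + 1) : ℝ) /
          (((p : ℝ) + 1 + ((q : ℝ) + 1)) ^ (w - 2 * k) * ((q : ℝ) + 1) ^ (2 * k)) := by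
  rw [Complex.im_sum]
  simp only [Complex.im_sum]
  rw [B10b_reindex (fun n₁ n₂ => (Complex.exp (-((Real.pi / 3 : ℝ) : ℂ) * Complex.I * (n₁ : ℂ)) *
            Complex.exp (((Real.pi / 3 : ℝ) : ℂ) * Complex.I * (n₂ : ℂ)) /
            ((n₁ : ℂ) ^ (w - 2 * k) * (n₂ : ℂ) ^ (2 * k))).im) N, Finset.mul_sum]
  refine Finset.sum_congr rfl fun q _ => ?_
  rw [Finset.mul_sum]
  refine Finset.sum_congr rfl fun p _ => ?_
  exact B10b_term _ _ p q

end Pool.MP0eb725
end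

section

set_option autoImplicit false

open MeasureTheory Filter

namespace Pool.MP0eb725

theorem B10c_perFI : Per (lift FI) := by
  intro m n
  have h6 : ∀ a : ℤ, ((a + 6 : ℤ) : ZMod 6) = (a : ZMod 6) := by
    intro a
    have : (6 : ZMod 6) = 0 := by decide
    push_cast
    rw [this, add_zero]
  constructor
  · show ((FI ((m + 6 : ℤ) : ZMod 6) (n : ZMod 6) : ℤ) : ℚ) = ((FI (m : ZMod 6) (n : ZMod 6) : ℤ) : ℚ)
    rw [h6]
  · show ((FI (m : ZMod 6) ((n + 6 : ℤ) : ZMod 6) : ℤ) : ℚ) = ((FI (m : ZMod 6) (n : ZMod 6) : ℤ) : ℚ)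
    rw [h6]

theorem B10c_oddFI : ∀ m n : ℤ, lift FI (-m) n = - lift FI m n := by
  intro m n
  have h : ∀ a b : ZMod 6, FI (-a) b = - FI a b := by decide
  show ((FI ((-m : ℤ) : ZMod 6) (n : ZMod 6) : ℤ) : ℚ) = - ((FI (m : ZMod 6) (n : ZMod 6) : ℤ) : ℚ)
  rw [Int.cast_neg, h, Int.cast_neg]

/-- the partial sums of `L` -/
noncomputable def B10c_G (w : ℕ) (N : ℕ) (x : ℝ) : ℝ :=
  ∑ q ∈ Finset.range (N - 2), ∑ p ∈ Finset.range (N - 2 - q),
    (lift FI ((p : ℤ) + 1) ((q : ℤ) + 1) : ℝ) / (((p : ℝ) + 1) * x + ((q : ℝ) + 1)) ^ w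

theorem B10c_G_cont (w N : ℕ) : ContinuousOn (B10c_G w N) (Set.Icc (0 : ℝ) 1) := by
  unfold B10c_G
  refine continuousOn_finsetSum _ (fun q _ => continuousOn_finsetSum _ (fun p _ => ?_))
  refine ContinuousOn.div continuousOn_const (by fun_prop) ?_
  intro x hx
  have : 0 < ((p : ℝ) + 1) * x + ((q : ℝ) + 1) := by
    have h0 := hx.1
    positivity
  positivity

/-- the truncated sum is an integral -/
theorem B10c_key (w k : ℕ) (hk : 1 ≤ k) (hkw : 2 * k + 1 ≤ w) (N : ℕ) :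
    (∑ q ∈ Finset.range (N - 2), ∑ p ∈ Finset.range (N - 2 - q),
        (lift FI ((p : ℤ) + 1) ((q : ℤ) + 1) : ℝ) /
          (((p : ℝ) + 1 + ((q : ℝ) + 1)) ^ (w - 2 * k) * ((q : ℝ) + 1) ^ (2 * k))) =
      (Nat.factorial (w - 1) : ℝ) / (Nat.factorial (w - 2 * k - 1) * Nat.factorial (2 * k - 1)) *
        ∫ x in (0 : ℝ)..1, x ^ (w - 2 * k - 1) * (1 - x) ^ (2 * k - 1) * B10c_G w N x := by
  have hI : ∀ p q : ℕ, IntervalIntegrable (fun x : ℝ => (lift FI ((p : ℤ) + 1) ((q : ℤ) + 1) : ℝ) *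
      (x ^ (w - 2 * k - 1) * (1 - x) ^ (2 * k - 1) /
        (x * ((p : ℝ) + 1 + ((q : ℝ) + 1)) + (1 - x) * ((q : ℝ) + 1)) ^ ((w - 2 * k) + 2 * k)))
      volume 0 1 := by
    intro p q
    apply ContinuousOn.intervalIntegrable
    rw [Set.uIcc_of_le (by norm_num : (0 : ℝ) ≤ 1)]
    refine ContinuousOn.mul continuousOn_const (ContinuousOn.div (by fun_prop) (by fun_prop) ?_)
    intro x hx
    have h0 := hx.1
    have h1 : 0 ≤ 1 - x := by linarith [hx.2]
    have : 0 < x * ((p : ℝ) + 1 + ((q : ℝ) + 1)) + (1 - x) * ((q : ℝ) + 1) := by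
      have e : x * ((p : ℝ) + 1 + ((q : ℝ) + 1)) + (1 - x) * ((q : ℝ) + 1) = x * ((p : ℝ) + 1) + ((q : ℝ) + 1) := by ring
      rw [e]; positivity
    positivity
  have e1 : ∀ x : ℝ, x ^ (w - 2 * k - 1) * (1 - x) ^ (2 * k - 1) * B10c_G w N x =
      ∑ q ∈ Finset.range (N - 2), ∑ p ∈ Finset.range (N - 2 - q),
        (lift FI ((p : ℤ) + 1) ((q : ℤ) + 1) : ℝ) * (x ^ (w - 2 * k - 1) * (1 - x) ^ (2 * k - 1) /
          (x * ((p : ℝ) + 1 + ((q : ℝ) + 1)) + (1 - x) * ((q : ℝ) + 1)) ^ ((w - 2 * k) + 2 * k)) := by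
    intro x
    unfold B10c_G
    rw [Finset.mul_sum]
    refine Finset.sum_congr rfl (fun q _ => ?_)
    rw [Finset.mul_sum]
    refine Finset.sum_congr rfl (fun p _ => ?_)
    have ew : (w - 2 * k) + 2 * k = w := by omega
    have ed : x * ((p : ℝ) + 1 + ((q : ℝ) + 1)) + (1 - x) * ((q : ℝ) + 1) =
      ((p : ℝ) + 1) * x + ((q : ℝ) + 1) := by ring
    rw [ew, ed]
    ring
  simp_rw [e1]
  rw [intervalIntegral.integral_finsetSum (fun q _ => ?_)]
  · rw [Finset.mul_sum]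
    refine Finset.sum_congr rfl (fun q _ => ?_)
    rw [intervalIntegral.integral_finsetSum (fun p _ => hI p q), Finset.mul_sum]
    refine Finset.sum_congr rfl (fun p _ => ?_)
    rw [intervalIntegral.integral_const_mul,
      feynman (w - 2 * k) (2 * k) (by omega) (by omega) ((p : ℝ) + 1 + ((q : ℝ) + 1)) ((q : ℝ) + 1)
        (by positivity) (by positivity)]
    have ew : (w - 2 * k) + 2 * k - 1 = w - 1 := by omega
    rw [ew]
    have f1 : ((w - 1).factorial : ℝ) ≠ 0 := by positivity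
    have f2 : ((w - 2 * k - 1).factorial : ℝ) ≠ 0 := by positivity
    have f3 : ((2 * k - 1).factorial : ℝ) ≠ 0 := by positivity
    have f4 : ((p : ℝ) + 1 + ((q : ℝ) + 1)) ^ (w - 2 * k) ≠ 0 := by positivity
    have f5 : ((q : ℝ) + 1) ^ (2 * k) ≠ 0 := by positivity
    field_simp
  · have h := IntervalIntegrable.sum (Finset.range (N - 2 - q)) (fun p _ => hI p q)
    rw [Finset.sum_fn] at h
    exact h

theorem B10c_G_lim (w : ℕ) (hw : 3 ≤ w) (x : ℝ) (hx : 0 < x) :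
    Tendsto (fun N : ℕ => B10c_G w N x) atTop (nhds (L w (lift FI) x)) := by
  obtain ⟨C, _, hC⟩ := per_bdd B10c_perFI
  have hS := (summL w hw (lift FI) C hC x hx).hasSum
  set g : ℕ × ℕ → ℝ := fun p => (lift FI ((p.1 : ℤ) + 1) ((p.2 : ℤ) + 1) : ℝ) /
      (((p.1 : ℝ) + 1) * x + ((p.2 : ℝ) + 1)) ^ w with hg
  let S : ℕ → Finset (ℕ × ℕ) := fun N =>
    ((Finset.range (N - 2)) ×ˢ (Finset.range (N - 2))).filter (fun z => z.1 + z.2 < N - 2)
  have hST : Tendsto S atTop atTop := by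
    apply tendsto_atTop_finset_of_monotone
    · intro M N hMN z hz
      simp only [S, Finset.mem_filter, Finset.mem_product, Finset.mem_range] at hz ⊢
      omega
    · rintro ⟨a, b⟩
      refine ⟨a + b + 3, ?_⟩
      simp only [S, Finset.mem_filter, Finset.mem_product, Finset.mem_range]
      omega
  have hSum : ∀ N, ∑ z ∈ S N, g z = B10c_G w N x := by
    intro N
    simp only [S]
    rw [Finset.sum_filter, Finset.sum_product_right]
    unfold B10c_G
    refine Finset.sum_congr rfl (fun q _ => ?_)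
    rw [← Finset.sum_filter]
    have : (Finset.range (N - 2)).filter (fun p => p + q < N - 2) = Finset.range (N - 2 - q) := by
      ext p
      simp only [Finset.mem_filter, Finset.mem_range]
      omega
    rw [this]
  have h2 : Tendsto (fun N => ∑ z ∈ S N, g z) atTop (nhds (∑' z, g z)) := hS.comp hST
  simp_rw [hSum] at h2
  exact h2

theorem B10c_G_bdd (w : ℕ) (hw : 3 ≤ w) :
    ∃ C : ℝ, ∀ (N : ℕ) (x : ℝ), 0 ≤ x → |B10c_G w N x| ≤ C := by
  obtain ⟨C, hC0, hC⟩ := row_bdd w B10c_perFI B10c_oddFI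
  have hs : Summable (fun q : ℕ => 1 / ((q : ℝ) + 1) ^ w) := by
    have h := (summable_nat_add_iff 1).2 (Real.summable_one_div_nat_pow.2 (by omega : 1 < w))
    simpa using h
  refine ⟨C * ∑' q : ℕ, 1 / ((q : ℝ) + 1) ^ w, ?_⟩
  intro N x hx
  unfold B10c_G
  calc |∑ q ∈ Finset.range (N - 2), ∑ p ∈ Finset.range (N - 2 - q),
        (lift FI ((p : ℤ) + 1) ((q : ℤ) + 1) : ℝ) / (((p : ℝ) + 1) * x + ((q : ℝ) + 1)) ^ w|
      ≤ ∑ q ∈ Finset.range (N - 2), |∑ p ∈ Finset.range (N - 2 - q),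
        (lift FI ((p : ℤ) + 1) ((q : ℤ) + 1) : ℝ) / (((p : ℝ) + 1) * x + ((q : ℝ) + 1)) ^ w| :=
        Finset.abs_sum_le_sum_abs _ _
    _ ≤ ∑ q ∈ Finset.range (N - 2), C * (1 / ((q : ℝ) + 1) ^ w) := by
        refine Finset.sum_le_sum (fun q _ => ?_)
        refine (hC x hx q (N - 2 - q)).trans ?_
        rw [mul_one_div]
        apply div_le_div_of_nonneg_left hC0 (by positivity)
        exact pow_le_pow_left₀ (by positivity) (by linarith) w
    _ = C * ∑ q ∈ Finset.range (N - 2), (1 / ((q : ℝ) + 1) ^ w) := by rw [Finset.mul_sum]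
    _ ≤ C * ∑' q : ℕ, 1 / ((q : ℝ) + 1) ^ w := by
        apply mul_le_mul_of_nonneg_left _ hC0
        exact hs.sum_le_tsum _ (fun q _ => by positivity)

/-- dominated convergence: `feynman` with `A = m + n`, `B = n` (`x A + (1-x) B = m x + n`), so the truncated sum
without the factor `√3/2` is
`(w-1)!/((w-2k-1)!(2k-1)!) ∫_0^1 x^(w-2k-1) (1-x)^(2k-1) L_N(x) dx`, `L_N(x) = ∑_{m+n<N} FI(m)/(mx+n)^w`; `L_N(x) → L(x)`
for `x > 0` (`summL`), `|L_N(x)| ≤ ∑_n C/n^w` (`row_bdd`). -/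
theorem trunc_lim (w k : ℕ) (hodd : Odd w) (hk : 1 ≤ k) (hkw : 2 * k + 1 ≤ w) :
    Tendsto (fun N : ℕ => ∑ q ∈ Finset.range (N - 2), ∑ p ∈ Finset.range (N - 2 - q),
        (lift FI ((p : ℤ) + 1) ((q : ℤ) + 1) : ℝ) /
          (((p : ℝ) + 1 + ((q : ℝ) + 1)) ^ (w - 2 * k) * ((q : ℝ) + 1) ^ (2 * k))) atTop
      (nhds ((Nat.factorial (w - 1) : ℝ) / (Nat.factorial (w - 2 * k - 1) * Nat.factorial (2 * k - 1)) *
        mom w (w - 2 * k - 1))) := by
  have hw : 3 ≤ w := by omega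
  simp_rw [B10c_key w k hk hkw]
  apply Tendsto.const_mul
  unfold mom
  have e : w - 2 - (w - 2 * k - 1) = 2 * k - 1 := by omega
  rw [e]
  obtain ⟨C, hC⟩ := B10c_G_bdd w hw
  have hu : Set.uIoc (0 : ℝ) 1 = Set.Ioc 0 1 := Set.uIoc_of_le (by norm_num)
  refine intervalIntegral.tendsto_integral_filter_of_dominated_convergence (fun _ => C) ?_ ?_ ?_ ?_
  · refine Filter.Eventually.of_forall (fun N => ?_)
    rw [hu]
    have h1 : ContinuousOn (fun x : ℝ => x ^ (w - 2 * k - 1) * (1 - x) ^ (2 * k - 1) * B10c_G w N x)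
        (Set.Ioc (0 : ℝ) 1) :=
      ContinuousOn.mul (by fun_prop) ((B10c_G_cont w N).mono Set.Ioc_subset_Icc_self)
    exact h1.aestronglyMeasurable measurableSet_Ioc
  · refine Filter.Eventually.of_forall (fun N => Filter.Eventually.of_forall (fun x hx => ?_))
    rw [hu] at hx
    have h0 : 0 ≤ x := hx.1.le
    have h1 : 0 ≤ 1 - x := by linarith [hx.2]
    have h2 : x ^ (w - 2 * k - 1) ≤ 1 := pow_le_one₀ h0 hx.2
    have h3 : (1 - x) ^ (2 * k - 1) ≤ 1 := pow_le_one₀ h1 (by linarith)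
    have h4 : 0 ≤ x ^ (w - 2 * k - 1) := pow_nonneg h0 _
    have h5 : 0 ≤ (1 - x) ^ (2 * k - 1) := pow_nonneg h1 _
    rw [Real.norm_eq_abs, abs_mul, abs_of_nonneg (mul_nonneg h4 h5)]
    calc x ^ (w - 2 * k - 1) * (1 - x) ^ (2 * k - 1) * |B10c_G w N x| ≤ 1 * |B10c_G w N x| := by
          apply mul_le_mul_of_nonneg_right _ (abs_nonneg _)
          exact mul_le_one₀ h2 h5 h3
      _ ≤ C := by rw [one_mul]; exact hC N x h0
  · exact intervalIntegrable_const
  · refine Filter.Eventually.of_forall (fun x hx => ?_)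
    rw [hu] at hx
    exact (B10c_G_lim w hw x hx.1).const_mul _

end Pool.MP0eb725
end

section

set_option autoImplicit false

open MeasureTheory Filter

namespace Pool.MP0eb725

/-- (A15) -/
theorem im_G (w k : ℕ) (hodd : Odd w) (hk : 1 ≤ k) (hkw : 2 * k + 1 ≤ w) (G : ℂ)
    (hG : Tendsto (fun N : ℕ => ∑ n₁ ∈ Finset.Ico 1 N, ∑ n₂ ∈ Finset.Ico 1 n₁,
          Complex.exp (-((Real.pi / 3 : ℝ) : ℂ) * Complex.I * (n₁ : ℂ)) *
            Complex.exp (((Real.pi / 3 : ℝ) : ℂ) * Complex.I * (n₂ : ℂ)) /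
            ((n₁ : ℂ) ^ (w - 2 * k) * (n₂ : ℂ) ^ (2 * k))) atTop (nhds G)) :
    G.im = Real.sqrt 3 / 2 * ((Nat.factorial (w - 1) : ℝ) /
      (Nat.factorial (w - 2 * k - 1) * Nat.factorial (2 * k - 1)) * mom w (w - 2 * k - 1)) := by
  have h1 := (Complex.continuous_im.tendsto G).comp hG
  have h2 := (trunc_lim w k hodd hk hkw).const_mul (Real.sqrt 3 / 2)
  refine tendsto_nhds_unique h1 (h2.congr fun N => ?_)
  exact (im_trunc w k hk hkw N).symm

end Pool.MP0eb725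
end

section

set_option autoImplicit false

open MeasureTheory Filter

namespace Pool.MP0eb725

private theorem B10e_per : Per (lift FI) := by
  intro m n
  have h6 : (6 : ZMod 6) = 0 := by decide
  constructor
  · unfold lift
    push_cast
    rw [h6, add_zero]
  · rfl

private theorem B10e_odd1 (m n : ℤ) : lift FI (-m) n = - lift FI m n := by
  unfold lift
  have h : ∀ a : ZMod 6, FI (-a) 0 = - FI a 0 := by decide
  have h1 : FI ((-m : ℤ) : ZMod 6) (n : ZMod 6) = - FI (m : ZMod 6) (n : ZMod 6) := by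
    rw [Int.cast_neg]
    exact h _
  rw [h1]
  push_cast
  rfl

private theorem B10e_snd (m n n' : ℤ) : lift FI m n = lift FI m n' := rfl

private theorem B10e_odd2 : Odd2 (lift FI) := fun m n => by
  rw [B10e_odd1]
  rfl

private theorem B10e_ty1 : Ty1 (lift FI) := ⟨B10e_per, B10e_odd1, fun _ _ => rfl⟩

private theorem B10e_p1 : p1 (lift FI) = lift FI := by
  funext m n
  unfold p1
  rw [B10e_snd m (-n) n]
  ring

private theorem B10e_p1tr : p1 (tr (lift FI)) = fun _ _ => 0 := by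
  funext m n
  unfold p1 tr
  rw [B10e_odd1]
  ring

private theorem B10e_p1q2 : p1 (q2 (lift FI)) = fun _ _ => 0 := by
  funext m n
  unfold p1 q2
  rw [B10e_odd1, B10e_snd n (m - -n) (m - n)]
  ring

private theorem B10e_L0 (w : ℕ) (x : ℝ) : L w (fun _ _ => 0) x = 0 := by
  unfold L
  simp

private theorem B10e_EE0 (w : ℕ) (u v Y : ℝ) : EE w (fun _ _ => 0) u v Y = 0 := by
  unfold EE
  simp [B10e_L0]

private theorem B10e_ereg0 (w : ℕ) (u v : ℝ) : ereg w (fun _ _ => 0) u v = 0 := by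
  have h : mu w (fun _ _ => 0) = 0 := by
    unfold mu hbar
    simp
  unfold ereg
  simp only [B10e_EE0, h, mul_zero, zero_mul, sub_zero]
  exact (tendsto_const_nhds).limUnder_eq

private theorem B10e_Lii (w : ℕ) (hw : 3 ≤ w) (j k : ℕ) :
    IntervalIntegrable (fun x : ℝ => x ^ j * (1 - x) ^ k * L w (lift FI) x) volume 0 1 := by
  have h1 := EE_ii w hw B10e_ty1 0 1 0 1 le_rfl zero_le_one
  have h2 : (fun x : ℝ => (0 * x + 1) ^ (w - 2) * L w (lift FI) x) = L w (lift FI) := by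
    funext x
    simp
  rw [h2] at h1
  exact h1.continuousOn_mul (by fun_prop)

private theorem B10e_EE (w : ℕ) (hw : 3 ≤ w) (U V : ℝ) :
    EE w (lift FI) (U - V) V 1 = ∑ j ∈ Finset.range (w - 2 + 1),
      ((w - 2).choose j : ℝ) * U ^ j * V ^ (w - 2 - j) * mom w j := by
  unfold EE
  have h1 : (fun x : ℝ => ((U - V) * x + V) ^ (w - 2) * L w (lift FI) x) = fun x =>
      ∑ j ∈ Finset.range (w - 2 + 1), (((w - 2).choose j : ℝ) * U ^ j * V ^ (w - 2 - j)) *
        (x ^ j * (1 - x) ^ (w - 2 - j) * L w (lift FI) x) := by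
    funext x
    rw [show (U - V) * x + V = U * x + V * (1 - x) by ring, add_pow, Finset.sum_mul]
    refine Finset.sum_congr rfl fun j _ => ?_
    rw [mul_pow, mul_pow]
    ring
  rw [h1, intervalIntegral.integral_finsetSum fun j _ => (B10e_Lii w hw j (w - 2 - j)).const_mul _]
  refine Finset.sum_congr rfl fun j _ => ?_
  rw [intervalIntegral.integral_const_mul]
  rfl

/-- (A15), (A16): `FF w (lift FI) (U-V) V 1 = ∫_0^1 (U x + V (1-x))^(w-2) L dx = ∑_j C(w-2,j) U^j V^(w-2-j) m_j`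
(`p1 (lift FI) = lift FI`, `p1 (tr (lift FI)) = 0`), and
`PP w (lift FI) (U-V) V = ereg (p1 (q1 (lift FI))) U (-V)` (`p1 (q2 (lift FI)) = 0`, `ereg` of 0 is 0), whose coefficients
at even powers of `U` are in `ℚ √3 π^w` (`ereg_coeff`). -/
theorem TH_FI (w : ℕ) (hw : 3 ≤ w) (hodd : Odd w) :
    ∃ a : ℕ → ℝ, (∀ U V : ℝ, TH w (lift FI) (U - V) V =
      ∑ i ∈ Finset.range (w - 2 + 1), a i * V ^ i * U ^ (w - 2 - i)) ∧
      ∀ i, Odd i → i ≤ w - 2 → ∃ q : ℚ,
        a i = ((w - 2).choose i : ℝ) * mom w (w - 2 - i) + q * (Real.sqrt 3 * Real.pi ^ w) := by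
  have hq : Ty1 (p1 (q1 (lift FI))) := ty1_p1 B10e_per.q1 B10e_odd2.q1
  obtain ⟨e, he, he2⟩ := ereg_coeff w hw hodd hq
  refine ⟨fun i => ((w - 2).choose i : ℝ) * mom w (w - 2 - i) -
    ((w - 2).choose i : ℝ) * (-1) ^ i * e (w - 2 - i), fun U V => ?_, fun i hi hiw => ?_⟩
  · unfold TH FF PP
    rw [B10e_p1, B10e_p1tr, B10e_p1q2, B10e_EE0, B10e_ereg0, B10e_EE w hw,
      show U - V + V = U by ring, he, show w - 1 = w - 2 + 1 by omega, sub_zero, sub_zero,
      ← Finset.sum_sub_distrib, ← Finset.sum_range_reflect]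
    refine Finset.sum_congr rfl fun i hi => ?_
    have hi2 : i ≤ w - 2 := by
      have := Finset.mem_range.1 hi
      omega
    rw [show w - 2 + 1 - 1 - i = w - 2 - i by omega, Nat.choose_symm hi2,
      show w - 2 - (w - 2 - i) = i by omega, neg_pow V i]
    ring
  · obtain ⟨q, hq⟩ := he2 (w - 2 - i) (by
      obtain ⟨a, ha⟩ := hodd
      obtain ⟨b, hb⟩ := hi
      exact ⟨a - b - 1, by omega⟩) (by
      have := hi.pos
      omega)
    refine ⟨((w - 2).choose i : ℚ) * q, ?_⟩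
    simp only
    rw [hq, hi.neg_one_pow]
    push_cast
    ring

end Pool.MP0eb725
end
end

section

section

end

section

set_option autoImplicit false

open MeasureTheory Filter

namespace Pool.MP0eb725

theorem B08e_per {f : Fn} (hf : Per3 f) : Per f := by
  intro m n
  have h1 := fun m n => (hf m n).1
  have h2 := fun m n => (hf m n).2
  constructor
  · have : m + 6 = m + 3 + 3 := by ring
    rw [this, h1, h1]
  · have : n + 6 = n + 3 + 3 := by ring
    rw [this, h2, h2]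

/-- (H4): `CC_zero` at `a = 1`: `CC w f u v 1 = FF f u v 1 - FF (fu f) (u-v) v (1/2) - FF (fl f) u (v-u) 2 - Zd * rational`,
`FF_half`, `FF_two`, `PP_H4`, `Zd_rat`, `int_rat`. -/
theorem H4 (w : ℕ) (hw : 3 ≤ w) (hodd : Odd w) {f : Fn} (hf : Per3 f) (ho : Odd2 f) (u v : ℚ) :
    Eqv w (TH w f u v - 2 * TH w (sc 1 2 (fu f)) (u - v) (2 * v)
      - 2 * TH w (sc 2 1 (fl f)) (2 * u) (v - u) + TH w (fl f) u (v - u)) 0 := by
  have hp := B08e_per hf
  have h0 := CC_zero w hw hp ho (u : ℝ) v 1 one_pos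
  obtain ⟨z, hz⟩ := Zd_rat w hw hodd hp ho
  obtain ⟨t, ht⟩ := int_rat (w - 2) u v (1 / 2)
  have e1 : (1 : ℝ) / (1 + 1) = 1 / 2 := by norm_num
  have e2 : (1 : ℝ) + 1 = 2 := by norm_num
  unfold CC at h0
  rw [e1, e2, FF_half w hw, FF_two w hw, hz] at h0
  push_cast at ht
  rw [ht] at h0
  have hPP := PP_H4 w hw hf ho (u : ℝ) v
  refine ⟨z * t, ?_⟩
  have T1 : TH w f (u : ℝ) v = FF w f u v 1 - PP w f u v := rfl
  have T2 : TH w (sc 1 2 (fu f)) ((u : ℝ) - v) (2 * v) =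
    FF w (sc 1 2 (fu f)) ((u : ℝ) - v) (2 * v) 1 - PP w (sc 1 2 (fu f)) ((u : ℝ) - v) (2 * v) := rfl
  have T3 : TH w (sc 2 1 (fl f)) (2 * (u : ℝ)) (v - u) =
    FF w (sc 2 1 (fl f)) (2 * (u : ℝ)) (v - u) 1 - PP w (sc 2 1 (fl f)) (2 * (u : ℝ)) (v - u) := rfl
  rw [T1, T2, T3]
  push_cast
  linear_combination h0 - hPP

end Pool.MP0eb725
end

section

set_option autoImplicit false

open MeasureTheory Filter

namespace Pool.MP0eb725

private theorem B08f_chi_congr {a b : ℤ} (h : (a - b) % 3 = 0) : chiI a = chiI b := by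
  have : a % 3 = b % 3 := by omega
  simp only [chiI, this]

private theorem B08f_chi_neg {a b : ℤ} (h : (a + b) % 3 = 0) : chiI a = - chiI b := by
  simp only [chiI]
  split_ifs <;> first | (exfalso; omega) | norm_num

private theorem B08f_chi_zero {a : ℤ} (h : a % 3 = 0) : chiI a = 0 := by
  simp only [chiI, h]
  norm_num

/-- `h = χ(M)` -/
private def B08f_h : Fn := fun m _ => chiI m

/-- `h' = 1_{2 ∣ M+N} χ(M)` -/
private def B08f_h1 : Fn := fun m n => if (m + n) % 2 = 0 then chiI m else 0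

/-- `h'' = χ(M)(1_{3∣M+N}+1_{3∣M-N})/2` -/
private def B08f_h2 : Fn := fun m n =>
  ((if (m + n) % 3 = 0 then chiI m else 0) + (if (m - n) % 3 = 0 then chiI m else 0)) / 2

private theorem B08f_ty0 : Ty1 B08f_h := by
  refine ⟨fun m n => ⟨B08f_chi_congr (by omega), rfl⟩, fun m n => B08f_chi_neg (by omega),
    fun m n => rfl⟩

private theorem B08f_ty1 : Ty1 B08f_h1 := by
  have c1 : ∀ m : ℤ, chiI (m + 6) = chiI m := fun m => B08f_chi_congr (by omega)
  have c2 : ∀ m : ℤ, chiI (-m) = - chiI m := fun m => B08f_chi_neg (by omega)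
  refine ⟨fun m n => ⟨?_, ?_⟩, fun m n => ?_, fun m n => ?_⟩ <;>
  · simp only [B08f_h1, c1, c2]
    split_ifs <;> first | rfl | (exfalso; omega) | norm_num

private theorem B08f_ty2 : Ty1 B08f_h2 := by
  have c1 : ∀ m : ℤ, chiI (m + 6) = chiI m := fun m => B08f_chi_congr (by omega)
  have c2 : ∀ m : ℤ, chiI (-m) = - chiI m := fun m => B08f_chi_neg (by omega)
  refine ⟨fun m n => ⟨?_, ?_⟩, fun m n => ?_, fun m n => ?_⟩ <;>
  · simp only [B08f_h2, c1, c2]
    split_ifs <;> first | rfl | (exfalso; omega) | ring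

private theorem B08f_sc12 (f : Fn) (m n : ℤ) :
    sc 1 2 f m n = if n % 2 = 0 then f m (n / 2) else 0 := by
  unfold sc
  have h : (((1 : ℕ) : ℤ) ∣ m ∧ ((2 : ℕ) : ℤ) ∣ n) ↔ n % 2 = 0 := by
    constructor
    · rintro ⟨_, h⟩
      omega
    · intro h
      exact ⟨by simp, by omega⟩
  simp only [h]
  simp

private theorem B08f_sc13 (f : Fn) (m n : ℤ) :
    sc 1 3 f m n = if n % 3 = 0 then f m (n / 3) else 0 := by
  unfold sc
  have h : (((1 : ℕ) : ℤ) ∣ m ∧ ((3 : ℕ) : ℤ) ∣ n) ↔ n % 3 = 0 := by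
    constructor
    · rintro ⟨_, h⟩
      omega
    · intro h
      exact ⟨by simp, by omega⟩
  simp only [h]
  simp

private theorem B08f_sc21 (f : Fn) (m n : ℤ) :
    sc 2 1 f m n = if m % 2 = 0 then f (m / 2) n else 0 := by
  unfold sc
  have h : (((2 : ℕ) : ℤ) ∣ m ∧ ((1 : ℕ) : ℤ) ∣ n) ↔ m % 2 = 0 := by
    constructor
    · rintro ⟨h, _⟩
      omega
    · intro h
      exact ⟨by omega, by simp⟩
  simp only [h]
  simp

private theorem B08f_sc31 (f : Fn) (m n : ℤ) :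
    sc 3 1 f m n = if m % 3 = 0 then f (m / 3) n else 0 := by
  unfold sc
  have h : (((3 : ℕ) : ℤ) ∣ m ∧ ((1 : ℕ) : ℤ) ∣ n) ↔ m % 3 = 0 := by
    constructor
    · rintro ⟨h, _⟩
      omega
    · intro h
      exact ⟨by omega, by simp⟩
  simp only [h]
  simp

private theorem B08f_sc23 (f : Fn) (m n : ℤ) :
    sc 2 3 f m n = if m % 2 = 0 ∧ n % 3 = 0 then f (m / 2) (n / 3) else 0 := by
  unfold sc
  have h : (((2 : ℕ) : ℤ) ∣ m ∧ ((3 : ℕ) : ℤ) ∣ n) ↔ (m % 2 = 0 ∧ n % 3 = 0) := by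
    constructor
    · rintro ⟨h, h'⟩
      omega
    · rintro ⟨h, h'⟩
      exact ⟨by omega, by omega⟩
  simp only [h]
  simp

private theorem B08f_ts0 : Ty1 (sc 1 2 B08f_h) := by
  have c1 : ∀ m : ℤ, chiI (m + 6) = chiI m := fun m => B08f_chi_congr (by omega)
  have c2 : ∀ m : ℤ, chiI (-m) = - chiI m := fun m => B08f_chi_neg (by omega)
  refine ⟨fun m n => ⟨?_, ?_⟩, fun m n => ?_, fun m n => ?_⟩
  · simp only [B08f_sc12, B08f_h, c1]
  · simp only [B08f_sc12, B08f_h]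
    split_ifs <;> first | rfl | (exfalso; omega)
  · simp only [B08f_sc12, B08f_h, c2]
    split_ifs <;> ring
  · simp only [B08f_sc12, B08f_h]
    split_ifs <;> first | rfl | (exfalso; omega)

private theorem B08f_ts3 : Ty1 (sc 1 3 B08f_h) := by
  have c1 : ∀ m : ℤ, chiI (m + 6) = chiI m := fun m => B08f_chi_congr (by omega)
  have c2 : ∀ m : ℤ, chiI (-m) = - chiI m := fun m => B08f_chi_neg (by omega)
  refine ⟨fun m n => ⟨?_, ?_⟩, fun m n => ?_, fun m n => ?_⟩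
  · simp only [B08f_sc13, B08f_h, c1]
  · simp only [B08f_sc13, B08f_h]
    split_ifs <;> first | rfl | (exfalso; omega)
  · simp only [B08f_sc13, B08f_h, c2]
    split_ifs <;> ring
  · simp only [B08f_sc13, B08f_h]
    split_ifs <;> first | rfl | (exfalso; omega)

private theorem B08f_ts1 : Ty1 (sc 1 3 B08f_h1) := by
  have c1 : ∀ m : ℤ, chiI (m + 6) = chiI m := fun m => B08f_chi_congr (by omega)
  have c2 : ∀ m : ℤ, chiI (-m) = - chiI m := fun m => B08f_chi_neg (by omega)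
  refine ⟨fun m n => ⟨?_, ?_⟩, fun m n => ?_, fun m n => ?_⟩ <;>
  · simp only [B08f_sc13, B08f_h1, c1, c2]
    split_ifs <;> first | rfl | (exfalso; omega) | ring

private theorem B08f_ts2 : Ty1 (sc 1 2 B08f_h2) := by
  have c1 : ∀ m : ℤ, chiI (m + 6) = chiI m := fun m => B08f_chi_congr (by omega)
  have c2 : ∀ m : ℤ, chiI (-m) = - chiI m := fun m => B08f_chi_neg (by omega)
  refine ⟨fun m n => ⟨?_, ?_⟩, fun m n => ?_, fun m n => ?_⟩ <;>
  · simp only [B08f_sc12, B08f_h2, c1, c2]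
    split_ifs <;> first | rfl | (exfalso; omega) | ring

private theorem B08f_p1 {f : Fn} (h : ∀ m n : ℤ, f m (-n) = f m n) : p1 f = f := by
  funext m n
  simp only [p1, h]
  ring

private theorem B08f_A1 : p1 (q1 (sc 2 1 psiF)) = B08f_h1 := by
  have e : q1 (sc 2 1 psiF) = B08f_h1 := by
    funext m n
    simp only [q1, B08f_sc21, psiF, B08f_h1]
    split_ifs with h1
    · exact B08f_chi_congr (by omega)
    · rfl
  rw [e]
  exact B08f_p1 B08f_ty1.2.2

private theorem B08f_A2 : p1 (q2 (sc 2 1 psiF)) = sc 1 2 B08f_h := by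
  have e : q2 (sc 2 1 psiF) = sc 1 2 B08f_h := by
    funext m n
    simp only [q2, B08f_sc21, B08f_sc12, psiF, B08f_h]
    split_ifs with h1
    · exact B08f_chi_congr (by omega)
    · rfl
  rw [e]
  exact B08f_p1 B08f_ts0.2.2

private theorem B08f_B1 : p1 (q1 (sc 2 3 (fu psiF))) = sc 1 3 B08f_h1 := by
  have e : q1 (sc 2 3 (fu psiF)) = sc 1 3 B08f_h1 := by
    funext m n
    simp only [q1, B08f_sc23, B08f_sc13, fu, psiF, B08f_h1]
    split_ifs <;> first | rfl | (exfalso; omega) | exact B08f_chi_congr (by omega)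
  rw [e]
  exact B08f_p1 B08f_ts1.2.2

private theorem B08f_B2 : p1 (q2 (sc 2 3 (fu psiF))) = sc 1 2 B08f_h2 := by
  have e : q2 (sc 2 3 (fu psiF)) = fun m n => if n % 2 = 0 ∧ (m - n) % 3 = 0 then chiI m else 0 := by
    funext m n
    simp only [q2, B08f_sc23, fu, psiF]
    split_ifs
    · exact B08f_chi_congr (by omega)
    · rfl
  rw [e]
  funext m n
  simp only [p1, B08f_sc12, B08f_h2]
  split_ifs <;> first | rfl | (exfalso; omega) | ring

private theorem B08f_C1 : p1 (q1 (sc 3 1 (fl psiF))) = B08f_h2 := by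
  have e : q1 (sc 3 1 (fl psiF)) = fun m n => if (m + n) % 3 = 0 then chiI m else 0 := by
    funext m n
    simp only [q1, B08f_sc31, fl, psiF]
    split_ifs
    · exact B08f_chi_congr (by omega)
    · rfl
  rw [e]
  funext m n
  simp only [p1, B08f_h2]
  split_ifs <;> first | rfl | (exfalso; omega) | ring

private theorem B08f_C2 : p1 (q2 (sc 3 1 (fl psiF))) = sc 1 3 B08f_h := by
  have e : q2 (sc 3 1 (fl psiF)) = sc 1 3 B08f_h := by
    funext m n
    simp only [q2, B08f_sc31, B08f_sc13, fl, psiF, B08f_h]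
    split_ifs
    · exact B08f_chi_congr (by omega)
    · rfl
  rw [e]
  exact B08f_p1 B08f_ts3.2.2

private theorem B08f_mu (w : ℕ) {f g : Fn} (c : ℚ) (h : ∀ m, hbar f m = c * hbar g m) :
    mu w f = c * mu w g := by
  unfold mu
  have e : (fun m : ℕ => (hbar f ((m : ℤ) + 1) : ℝ) / ((m : ℝ) + 1) ^ (w - 1)) =
      fun m : ℕ => (c : ℝ) * ((hbar g ((m : ℤ) + 1) : ℝ) / ((m : ℝ) + 1) ^ (w - 1)) := by
    funext m
    rw [h]
    push_cast
    ring
  rw [e, tsum_mul_left]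
  ring

private theorem B08f_mu1 (w : ℕ) : mu w B08f_h1 = (1 / 2 : ℝ) * mu w B08f_h := by
  have := B08f_mu w (f := B08f_h1) (g := B08f_h) (1 / 2) (fun m => by
    simp only [hbar, Finset.sum_range_succ, Finset.sum_range_zero, B08f_h1, B08f_h]
    push_cast
    split_ifs <;> first | (exfalso; omega) | ring)
  rw [this]
  push_cast
  ring

private theorem B08f_mu2 (w : ℕ) : mu w B08f_h2 = (1 / 3 : ℝ) * mu w B08f_h := by
  have := B08f_mu w (f := B08f_h2) (g := B08f_h) (1 / 3) (fun m => by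
    have hm : m % 3 = 0 ∨ m % 3 = 1 ∨ m % 3 = 2 := by omega
    simp only [hbar, Finset.sum_range_succ, Finset.sum_range_zero, B08f_h2, B08f_h]
    push_cast
    rcases hm with hm | hm | hm
    · rw [B08f_chi_zero hm]
      simp
    · have k1 : ∀ j : ℤ, (m + j) % 3 = (1 + j) % 3 := fun j => by omega
      have k2 : ∀ j : ℤ, (m - j) % 3 = (1 - j) % 3 := fun j => by omega
      simp only [k1, k2]
      norm_num
      ring
    · have k1 : ∀ j : ℤ, (m + j) % 3 = (2 + j) % 3 := fun j => by omega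
      have k2 : ∀ j : ℤ, (m - j) % 3 = (2 - j) % 3 := fun j => by omega
      simp only [k1, k2]
      norm_num
      ring)
  rw [this]
  push_cast
  ring

private theorem B08f_pow (w : ℕ) (hw : 3 ≤ w) (c : ℝ) : c ^ (w - 1) = c ^ (w - 2) * c := by
  rw [← pow_succ]
  congr 1
  omega

private theorem B08f_e2 (w : ℕ) (hw : 3 ≤ w) {k : Fn} (hk : Ty1 k) (hs : Ty1 (sc 1 2 k)) (s y : ℝ) :
    2 * ereg w (sc 1 2 k) s (2 * y) = ereg w k s y - s ^ (w - 2) * mu w k * Real.log 2 := by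
  have h1 := ereg_sc w hw 1 2 le_rfl (by norm_num) hk hs s (2 * y)
  have h2 := ereg_hom w hw hk 2 s y
  push_cast at h1
  rw [one_mul, one_mul, h2, B08f_pow w hw, mul_pow, one_div, Real.log_inv] at h1
  have h3 : (2 : ℝ) ^ (w - 2) ≠ 0 := by positivity
  apply mul_left_cancel₀ h3
  linarith

private theorem B08f_e3 (w : ℕ) (hw : 3 ≤ w) {k : Fn} (hk : Ty1 k) (hs : Ty1 (sc 1 3 k)) (s y : ℝ) :
    3 * ereg w (sc 1 3 k) s (3 * y) = ereg w k s y - s ^ (w - 2) * mu w k * Real.log 3 := by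
  have h1 := ereg_sc w hw 1 3 le_rfl (by norm_num) hk hs s (3 * y)
  have h2 := ereg_hom w hw hk 3 s y
  push_cast at h1
  rw [one_mul, one_mul, h2, B08f_pow w hw, mul_pow, one_div, Real.log_inv] at h1
  have h3 : (3 : ℝ) ^ (w - 2) ≠ 0 := by positivity
  apply mul_left_cancel₀ h3
  linarith

/-- the `PP`-part of (H5), exact.  With `s = 2u+v` all first arguments are `s`.
`A = sc 2 1 ψ`: `q1 A = 1_{2 ∣ M+N} χ(M) =: h'`, `q2 A = sc 1 2 h`, `h = χ(M)`;
`B = sc 2 3 (fu ψ) = 1_{2∣m} 1_{3∣n} χ(m)`: `q1 B = sc 1 3 h'`, `p1 (q2 B) = sc 1 2 h''`, `h'' = χ(M)(1_{3∣M+N}+1_{3∣M-N})/2`;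
`C = sc 3 1 (fl ψ) = 1_{3∣m} χ(n)`: `p1 (q1 C) = h''`, `q2 C = sc 1 3 h`.
`ereg_sc`, `ereg_hom`: `2 ereg(sc 1 2 k) s (2y) = ereg k s y - s^d mu(k) log 2`,
`3 ereg(sc 1 3 k) s (3y) = ereg k s y - s^d mu(k) log 3`.  The sum is
`s^d [2 mu(h') log 3 + mu(h)(log 2 - log 3) - 3 mu(h'') log 2] = 0`, `mu(h') = mu(h)/2`, `mu(h'') = mu(h)/3`
(take type-1 parts `p1` everywhere). -/
theorem PP_H5 (w : ℕ) (hw : 3 ≤ w) (u v : ℝ) :
    2 * PP w (sc 2 1 psiF) (2 * u) v - 6 * PP w (sc 2 3 (fu psiF)) (2 * (u - v)) (3 * v)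
      - 3 * PP w (sc 3 1 (fl psiF)) (3 * u) (v - u) = 0 := by
  unfold PP
  rw [B08f_A1, B08f_A2, B08f_B1, B08f_B2, B08f_C1, B08f_C2]
  have s1 : 2 * (u - v) + 3 * v = 2 * u + v := by ring
  have s2 : 3 * u + (v - u) = 2 * u + v := by ring
  rw [s1, s2]
  have a1 := B08f_e2 w hw B08f_ty0 B08f_ts0 (2 * u + v) u
  have a2 := B08f_e3 w hw B08f_ty1 B08f_ts1 (2 * u + v) (-v)
  have a3 := B08f_e2 w hw B08f_ty2 B08f_ts2 (2 * u + v) (u - v)
  have a4 := B08f_e3 w hw B08f_ty0 B08f_ts3 (2 * u + v) u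
  rw [B08f_mu1] at a2
  rw [B08f_mu2] at a3
  have t1 : -(3 * v) = 3 * (-v) := by ring
  have t2 : -(v - u) = u - v := by ring
  rw [t1, t2]
  linear_combination -a1 - 2 * a2 + 3 * a3 + a4

end Pool.MP0eb725
end

section

set_option autoImplicit false

namespace Pool.MP0eb725

/-! `tau_c(u,v) = Th Cc u (-v)`, `tau_a(u,v) = Th Cb u (-v)`, `tau_b(u,v) = Th Ca u (-v)`,
`theta_c(u,v) = Th (oo Cc) u (-v)`, `theta_a(u,v) = Th (oo Cb) u (-v)`, `theta_b(u,v) = Th (oo Ca) u (-v)`.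
All identities between explicit functions on `ZMod 6` (e.g. `rh Cc = Cb`, `rh2 Cc = - Cc'`, `rh2 Ca = Ca`,
`Cc' m n = Cc n m`, `Cb n m = - Cb m n`) are `decide`-able (`funext`, `decide`/`fin_cases`). -/

private theorem A11g_oddCc : OddZ Cc := by unfold OddZ; decide
private theorem A11g_oddCa : OddZ Ca := by unfold OddZ; decide
private theorem A11g_oddCb : OddZ Cb := by unfold OddZ; decide
private theorem A11g_oddoCc : OddZ (oo Cc) := by unfold OddZ; decide
private theorem A11g_oddoCa : OddZ (oo Ca) := by unfold OddZ; decide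
private theorem A11g_oddoCb : OddZ (oo Cb) := by unfold OddZ; decide

private theorem A11g_form (K : ℕ) (hK : 1 ≤ K) (Th : FZ → ℚ → ℚ → ℚ) (h : Iface (2 * K + 1) Th) (F : FZ)
    (hF : OddZ F) : IsForm (2 * K - 1) (fun u v => Th F u (-v)) := by
  have h1 := h.form F hF
  rw [show 2 * K + 1 - 2 = 2 * K - 1 by omega] at h1
  have h2 := h1.comp_lin 1 0 0 (-1)
  simpa using h2

private theorem A11g_symCb (K : ℕ) (hK : 1 ≤ K) (Th : FZ → ℚ → ℚ → ℚ) (h : Iface (2 * K + 1) Th) (u v : ℚ) :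
    Th Cb v (-u) = - Th Cb u (-v) := by
  have h1 := h.h1 Cb A11g_oddCb (-u) v
  have h2 : (fun m n : ZMod 6 => Cb n m) = fun m n => - Cb m n := by
    funext m n
    revert m n
    decide
  rw [h2, h.neg Cb A11g_oddCb] at h1
  have h3 := h.form Cb A11g_oddCb
  rw [show 2 * K + 1 - 2 = 2 * K - 1 by omega] at h3
  have h4 := h3.hom (-1) u (-v)
  rw [Odd.neg_one_pow ⟨K - 1, by omega⟩] at h4
  simp only [neg_mul, one_mul, neg_neg] at h4
  linarith

private theorem A11g_symCa (K : ℕ) (hK : 1 ≤ K) (Th : FZ → ℚ → ℚ → ℚ) (h : Iface (2 * K + 1) Th) (u v : ℚ) :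
    Th Ca v (-u) = Th Ca u (-v) := by
  have h1 := h.h1 Ca A11g_oddCa (-u) v
  have h2 : (fun m n : ZMod 6 => Ca n m) = Ca := by
    funext m n
    revert m n
    decide
  rw [h2] at h1
  have h3 := h.form Ca A11g_oddCa
  rw [show 2 * K + 1 - 2 = 2 * K - 1 by omega] at h3
  have h4 := h3.hom (-1) u (-v)
  rw [Odd.neg_one_pow ⟨K - 1, by omega⟩] at h4
  simp only [neg_mul, one_mul, neg_neg] at h4
  linarith

/-- ALGEBRA THEOREM.  From `sym_ab`, `R3_all`, `R4_c`, `R4_a`, `R2_of_R34`, `R5_of_h5`, `link_I`, `alg_two`.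
The coefficient of `V^(2k+1) U^(2K-2-2k)` of `Th FI (U-V) V`, `k = 0..K-1`. -/
theorem alg_main (K : ℕ) (hK : 1 ≤ K) :
    ∃ c : ℕ → ℚ, (∃ k ∈ Finset.range K, c k ≠ 0) ∧
      ∀ Th : FZ → ℚ → ℚ → ℚ, Iface (2 * K + 1) Th → ∀ a : ℕ → ℚ,
        (∀ U V : ℚ, Th FI (U - V) V =
          ∑ i ∈ Finset.range (2 * K - 1 + 1), a i * V ^ i * U ^ (2 * K - 1 - i)) →
        ∑ k ∈ Finset.range K, c k * a (2 * k + 1) = 0 := by
  obtain ⟨c, hc, H⟩ := alg_two K hK
  refine ⟨c, hc, fun Th h a ha => ?_⟩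
  have hW : (2 : ℚ) ^ (2 * K + 1) ≠ 0 := by positivity
  have r3c : ∀ u v : ℚ, (1 + 1 / 2 ^ (2 * K + 1)) * Th Cc u (-v) =
      Th (oo Cc) u (-v) - Th (oo Cc) (u - v) (-(-v)) - Th (oo Cb) u (-(u - v)) := fun u v => by
    rw [neg_neg]
    exact (R3_all K hK Th h u v).1
  have r3a : ∀ u v : ℚ, (1 + 1 / 2 ^ (2 * K + 1)) * Th Cb u (-v) =
      Th (oo Cb) u (-v) - Th (oo Cc) (-v) (-(u - v)) + Th (oo Cc) (-u) (-(v - u)) := fun u v =>
    (R3_all K hK Th h u v).2.1
  have r3b : ∀ u v : ℚ, (1 + 1 / 2 ^ (2 * K + 1)) * Th Ca u (-v) =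
      Th (oo Ca) u (-v) + Th (oo Ca) (-v) (-(u - v)) + Th (oo Ca) (v - u) (-(-u)) := fun u v => by
    rw [neg_neg]
    exact (R3_all K hK Th h u v).2.2
  have r4c : ∀ u v : ℚ, Th Cc u (-(-v)) - Th Cc u (-v) =
      2 * (Th (oo Cb) (u + v) (-(u - v)) + Th (oo Ca) (u - v) (-(-u - v)))
      - 2 * (1 / 2 ^ (2 * K + 1)) * (Th Cb (u + v) (-(u - v)) + Th Ca (u - v) (-(-u - v))) :=
    fun u v => by
    have h1 := R4_c K hK Th h u v
    rw [neg_neg, show -(-u - v) = u + v by ring]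
    exact h1
  have r4a : ∀ u v : ℚ, Th Ca u (-(-v)) - Th Cb u (-v) =
      2 * (- Th (oo Cc) (u + v) (-(u - v)) - Th (oo Cc) (- u - v) (-(u - v)))
      - 2 * (1 / 2 ^ (2 * K + 1)) * (- Th Cc (u + v) (-(u - v)) - Th Cc (- u - v) (-(u - v))) :=
    fun u v => by
    rw [neg_neg]
    exact R4_a K hK Th h u v
  have fc := A11g_form K hK Th h Cc A11g_oddCc
  have fa := A11g_form K hK Th h Cb A11g_oddCb
  have fb := A11g_form K hK Th h Ca A11g_oddCa
  have gc := A11g_form K hK Th h (oo Cc) A11g_oddoCc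
  have ga := A11g_form K hK Th h (oo Cb) A11g_oddoCb
  have gb := A11g_form K hK Th h (oo Ca) A11g_oddoCa
  have hsa : ∀ u v : ℚ, Th (oo Cb) v (-u) = - Th (oo Cb) u (-v) := fun u v =>
    (sym_ab K hK Th h u v).1
  have hsb : ∀ u v : ℚ, Th (oo Ca) v (-u) = Th (oo Ca) u (-v) := fun u v =>
    (sym_ab K hK Th h u v).2
  have hR2 := R2_of_R34 K hK (fun u v => Th Cc u (-v)) (fun u v => Th Cb u (-v))
    (fun u v => Th Ca u (-v)) (fun u v => Th (oo Cc) u (-v)) (fun u v => Th (oo Cb) u (-v))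
    (fun u v => Th (oo Ca) u (-v)) fc.hom fa.hom fb.hom gc.hom ga.hom gb.hom hsa hsb
    (A11g_symCb K hK Th h) (A11g_symCa K hK Th h) r3c r3a r3b r4c r4a
  refine H (fun u v => Th Cc u (-v)) (fun u v => Th Ca u (-v)) (fun u v => Th (oo Cc) u (-v))
    (fun u v => Th (oo Cb) u (-v)) (fun u v => Th (oo Ca) u (-v)) gc ga gb hsa hsb hR2.1 hR2.2
    ?_ ?_ (R5_of_h5 K hK Th h) a ?_
  · intro u v
    have h1 := r3c u v
    field_simp at h1
    beta_reduce
    rw [neg_neg]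
    linarith
  · intro u v
    have h1 := r3b u v
    field_simp at h1
    beta_reduce
    rw [neg_neg]
    linarith
  · intro u v
    rw [← link_I K hK Th h v u]
    exact ha v u

end Pool.MP0eb725
end

section

set_option autoImplicit false

open MeasureTheory Filter

namespace Pool.MP0eb725

theorem B08g_per : Per psiF := by
  intro m n
  unfold psiF chiI
  constructor
  · have e : (n - (m + 6)) % 3 = (n - m) % 3 := by omega
    rw [e]
  · have e : (n + 6 - m) % 3 = (n - m) % 3 := by omega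
    rw [e]

theorem B08g_odd : Odd2 psiF := by
  intro m n
  unfold psiF chiI
  split_ifs <;> first | omega | norm_num

/-- (H5): `CC_zero` at `a = 2` with `FF_two`, `FF_twothird`, `FF_three`, `PP_H5`, `Zd_rat`, `int_rat`. -/
theorem H5 (w : ℕ) (hw : 3 ≤ w) (hodd : Odd w) (u v : ℚ) :
    Eqv w (2 * TH w (sc 2 1 psiF) (2 * u) v - 6 * TH w (sc 2 3 (fu psiF)) (2 * (u - v)) (3 * v)
      - 3 * TH w (sc 3 1 (fl psiF)) (3 * u) (v - u) + TH w (fl psiF) u (v - u)) 0 := by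
  obtain ⟨q, hq⟩ := Zd_rat w hw hodd B08g_per B08g_odd
  obtain ⟨r, hr⟩ := int_rat (w - 2) u v (2 / 3)
  have e3 : ((2 / 3 : ℚ) : ℝ) = 2 / 3 := by norm_num
  rw [e3] at hr
  have hC := CC_zero w hw B08g_per B08g_odd (u : ℝ) v 2 (by norm_num)
  have hP := PP_H5 w hw (u : ℝ) v
  have h1 := FF_two w hw psiF u v
  have h2 := FF_twothird w hw (fu psiF) (u - v) v
  have h3 := FF_three w hw (fl psiF) u (v - u)
  unfold CC at hC
  have e1 : (2 : ℝ) / (1 + 2) = 2 / 3 := by norm_num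
  have e2 : (1 : ℝ) + 2 = 3 := by norm_num
  rw [e1, e2, h1, h2, h3, hq, hr] at hC
  refine ⟨q * r, ?_⟩
  have t1 : TH w (sc 2 1 psiF) (2 * u) v = FF w (sc 2 1 psiF) (2 * u) v 1 - PP w (sc 2 1 psiF) (2 * u) v := rfl
  have t2 : TH w (sc 2 3 (fu psiF)) (2 * (u - v)) (3 * v) =
    FF w (sc 2 3 (fu psiF)) (2 * (u - v)) (3 * v) 1 - PP w (sc 2 3 (fu psiF)) (2 * (u - v)) (3 * v) := rfl
  have t3 : TH w (sc 3 1 (fl psiF)) (3 * u) (v - u) =
    FF w (sc 3 1 (fl psiF)) (3 * u) (v - u) 1 - PP w (sc 3 1 (fl psiF)) (3 * u) (v - u) := rfl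
  rw [t1, t2, t3]
  push_cast
  linear_combination hC - hP

end Pool.MP0eb725
end

section

end

section

end

section

set_option autoImplicit false

open MeasureTheory Filter

namespace Pool.MP0eb725

theorem B09a_mono (d i : ℕ) (hi : i ≤ d) (c : ℝ) :
    RF d (fun u v => c * (u : ℝ) ^ i * (v : ℝ) ^ (d - i)) := by
  refine ⟨fun k => if k = i then c else 0, fun u v => ?_⟩
  rw [Finset.sum_eq_single i]
  · simp
  · intro b _ hb
    simp [hb]
  · intro h
    exact absurd (Finset.mem_range.mpr (by omega)) h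

theorem B09a_add {d : ℕ} {g h : ℚ → ℚ → ℝ} (hg : RF d g) (hh : RF d h) :
    RF d (fun u v => g u v + h u v) := by
  obtain ⟨a, ha⟩ := hg
  obtain ⟨b, hb⟩ := hh
  refine ⟨fun i => a i + b i, fun u v => ?_⟩
  simp only [ha, hb, ← Finset.sum_add_distrib]
  exact Finset.sum_congr rfl fun i _ => by ring

theorem B09a_zero (d : ℕ) : RF d (fun _ _ => 0) :=
  ⟨fun _ => 0, fun u v => by simp⟩

theorem B09a_smul {d : ℕ} {g : ℚ → ℚ → ℝ} (c : ℝ) (hg : RF d g) :
    RF d (fun u v => c * g u v) := by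
  obtain ⟨a, ha⟩ := hg
  refine ⟨fun i => c * a i, fun u v => ?_⟩
  simp only [ha, Finset.mul_sum]
  exact Finset.sum_congr rfl fun i _ => by ring

theorem B09a_sum {ι : Type*} (s : Finset ι) (d : ℕ) (g : ι → ℚ → ℚ → ℝ)
    (h : ∀ i ∈ s, RF d (g i)) : RF d (fun u v => ∑ i ∈ s, g i u v) := by
  classical
  induction s using Finset.induction_on with
  | empty => simpa using B09a_zero d
  | insert a s ha ih =>
    have h1 := h a (Finset.mem_insert_self a s)
    have h2 := ih fun i hi => h i (Finset.mem_insert_of_mem hi)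
    have h3 := B09a_add h1 h2
    refine (show RF d (fun u v => ∑ i ∈ insert a s, g i u v) from ?_)
    simpa only [Finset.sum_insert ha] using h3

theorem B09a_mul {d e : ℕ} {g h : ℚ → ℚ → ℝ} (hg : RF d g) (hh : RF e h) :
    RF (d + e) (fun u v => g u v * h u v) := by
  obtain ⟨a, ha⟩ := hg
  obtain ⟨b, hb⟩ := hh
  have key : RF (d + e) (fun u v => ∑ i ∈ Finset.range (d + 1), ∑ j ∈ Finset.range (e + 1),
      (a i * b j) * (u : ℝ) ^ (i + j) * (v : ℝ) ^ (d + e - (i + j))) := by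
    refine B09a_sum _ _ _ fun i hi => B09a_sum _ _ _ fun j hj => ?_
    have hi' := Finset.mem_range.mp hi
    have hj' := Finset.mem_range.mp hj
    exact B09a_mono (d + e) (i + j) (by omega) _
  obtain ⟨c, hc⟩ := key
  refine ⟨c, fun u v => ?_⟩
  rw [← hc u v]
  beta_reduce
  rw [ha, hb, Finset.sum_mul_sum]
  refine Finset.sum_congr rfl fun i hi => Finset.sum_congr rfl fun j hj => ?_
  have hi' := Finset.mem_range.mp hi
  have hj' := Finset.mem_range.mp hj
  have e1 : d + e - (i + j) = (d - i) + (e - j) := by omega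
  rw [e1, pow_add, pow_add]
  ring

theorem B09a_one : RF 0 (fun _ _ => 1) := ⟨fun _ => 1, fun u v => by simp⟩

theorem B09a_pow {d : ℕ} {g : ℚ → ℚ → ℝ} (hg : RF d g) (n : ℕ) :
    RF (n * d) (fun u v => g u v ^ n) := by
  induction n with
  | zero => simpa using B09a_one
  | succ n ih =>
    have h := B09a_mul ih hg
    have e1 : n * d + d = (n + 1) * d := by ring
    rw [e1] at h
    simpa only [pow_succ] using h

theorem B09a_lin (a b : ℚ) : RF 1 (fun u v => ((a * u + b * v : ℚ) : ℝ)) := by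
  refine ⟨fun i => if i = 0 then (b : ℝ) else (a : ℝ), fun u v => ?_⟩
  simp [Finset.sum_range_succ]
  ring

theorem RF.comp_lin {d : ℕ} {g : ℚ → ℚ → ℝ} (hg : RF d g) (a b c e : ℚ) :
    RF d (fun u v => g (a * u + b * v) (c * u + e * v)) := by
  obtain ⟨α, hα⟩ := hg
  have key : RF d (fun u v => ∑ i ∈ Finset.range (d + 1),
      α i * ((((a * u + b * v : ℚ) : ℝ)) ^ i * (((c * u + e * v : ℚ) : ℝ)) ^ (d - i))) := by
    refine B09a_sum _ _ _ fun i hi => B09a_smul _ ?_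
    have hi' := Finset.mem_range.mp hi
    have h := B09a_mul (B09a_pow (B09a_lin a b) i) (B09a_pow (B09a_lin c e) (d - i))
    have e1 : i * 1 + (d - i) * 1 = d := by omega
    rw [e1] at h
    exact h
  obtain ⟨β, hβ⟩ := key
  refine ⟨β, fun u v => ?_⟩
  rw [← hβ u v]
  beta_reduce
  rw [hα]
  exact Finset.sum_congr rfl fun i _ => by ring

theorem RF.sub' {d : ℕ} {g h : ℚ → ℚ → ℝ} (hg : RF d g) (hh : RF d h) : RF d (fun u v => g u v - h u v) := by
  obtain ⟨a, ha⟩ := hg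
  obtain ⟨b, hb⟩ := hh
  refine ⟨fun i => a i - b i, fun u v => ?_⟩
  simp only [ha, hb, ← Finset.sum_sub_distrib]
  exact Finset.sum_congr rfl fun i _ => by ring

/-- a `ℚ`-linear functional of a real form is a rational form -/
theorem RF.ell {d : ℕ} {g : ℚ → ℚ → ℝ} (hg : RF d g) (l : ℝ →ₗ[ℚ] ℚ) : IsForm d (fun u v => l (g u v)) := by
  obtain ⟨a, ha⟩ := hg
  refine ⟨fun i => l (a i), fun u v => ?_⟩
  simp only [ha, map_sum]
  refine Finset.sum_congr rfl fun i _ => ?_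
  have e1 : a i * (u : ℝ) ^ i * (v : ℝ) ^ (d - i) = (u ^ i * v ^ (d - i) : ℚ) • a i := by
    rw [Rat.smul_def]
    push_cast
    ring
  rw [e1, map_smul, smul_eq_mul]
  ring

/-- an integral `∫_0^Y (u x + v)^(w-2) L` is a form -/
theorem B09a_EE (w : ℕ) (hw : 3 ≤ w) {h : Fn} (hh : Ty1 h) (Y : ℝ) (hY : 0 ≤ Y) :
    RF (w - 2) (fun u v => EE w h u v Y) := by
  have hL : IntervalIntegrable (fun x => L w h x) volume 0 Y := by
    have h1 := EE_ii w hw hh 0 1 0 Y le_rfl hY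
    simpa using h1
  refine ⟨fun i => ((w - 2).choose i : ℝ) * ∫ x in (0 : ℝ)..Y, x ^ i * L w h x, fun u v => ?_⟩
  unfold EE
  have e1 : ∀ x : ℝ, ((u : ℝ) * x + (v : ℝ)) ^ (w - 2) * L w h x =
      ∑ i ∈ Finset.range (w - 2 + 1), (((w - 2).choose i : ℝ) * (u : ℝ) ^ i * (v : ℝ) ^ (w - 2 - i)) *
        (x ^ i * L w h x) := by
    intro x
    rw [add_pow, Finset.sum_mul]
    refine Finset.sum_congr rfl fun i _ => ?_
    rw [mul_pow]
    ring
  simp only [e1]
  rw [intervalIntegral.integral_finsetSum]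
  · refine Finset.sum_congr rfl fun i _ => ?_
    rw [intervalIntegral.integral_const_mul]
    ring
  · intro i _
    refine IntervalIntegrable.const_mul ?_ _
    exact hL.continuousOn_mul (by fun_prop)

theorem B09a_swap {d : ℕ} {g : ℚ → ℚ → ℝ} (hg : RF d g) : RF d (fun u v => g v u) := by
  have h := hg.comp_lin 0 1 1 0
  simpa using h

theorem B09a_ereg (w : ℕ) (hw : 3 ≤ w) (hodd : Odd w) {h : Fn} (hh : Ty1 h) :
    RF (w - 2) (fun u v => ereg w h u v) := by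
  obtain ⟨e, he, -⟩ := ereg_coeff w hw hodd hh
  refine ⟨fun i => ((w - 2).choose i : ℝ) * e i, fun u v => ?_⟩
  beta_reduce
  rw [he]
  have e1 : w - 2 + 1 = w - 1 := by omega
  rw [e1]
  exact Finset.sum_congr rfl fun i _ => by ring

/-- `TH` is a real form of degree `w - 2`: `EE` by binomial expansion (`EE_ii`), `ereg_coeff`, `RF.comp_lin`. -/
theorem TH_form (w : ℕ) (hw : 3 ≤ w) (hodd : Odd w) {f : Fn} (hf : Per f) (ho : Odd2 f) :
    RF (w - 2) (fun u v => TH w f u v) := by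
  have h1 := B09a_EE w hw (ty1_p1 hf ho) 1 zero_le_one
  have h2 := B09a_swap (B09a_EE w hw (ty1_p1 hf.tr ho.tr) 1 zero_le_one)
  have h3 := (B09a_ereg w hw hodd (ty1_p1 hf.q1 ho.q1)).comp_lin 1 1 0 (-1)
  have h4 := (B09a_ereg w hw hodd (ty1_p1 hf.q2 ho.q2)).comp_lin 1 1 1 0
  have h5 := (h1.sub' h2).sub' (h3.sub' h4)
  obtain ⟨a, ha⟩ := h5
  refine ⟨a, fun u v => ?_⟩
  rw [← ha u v]
  unfold TH FF PP
  push_cast
  simp

end Pool.MP0eb725
end

section

set_option autoImplicit false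

open MeasureTheory Filter

namespace Pool.MP0eb725

theorem B09b_p1_add (f g : Fn) :
    p1 (fun m n => f m n + g m n) = fun m n => p1 f m n + p1 g m n := by
  funext m n
  simp only [p1]
  ring

theorem B09b_p1_neg (f : Fn) : p1 (fun m n => - f m n) = fun m n => - p1 f m n := by
  funext m n
  simp only [p1]
  ring

theorem TH_add (w : ℕ) (hw : 3 ≤ w) {f g : Fn} (hf : Per f) (hof : Odd2 f) (hg : Per g) (hog : Odd2 g) (u v : ℝ) :
    TH w (fun m n => f m n + g m n) u v = TH w f u v + TH w g u v := by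
  have t1 : tr (fun m n => f m n + g m n) = fun m n => tr f m n + tr g m n := rfl
  have t2 : q1 (fun m n => f m n + g m n) = fun m n => q1 f m n + q1 g m n := rfl
  have t3 : q2 (fun m n => f m n + g m n) = fun m n => q2 f m n + q2 g m n := rfl
  simp only [TH, FF, PP, t1, t2, t3, B09b_p1_add]
  rw [EE_add w hw (ty1_p1 hf hof) (ty1_p1 hg hog) u v 1 (by norm_num),
    EE_add w hw (ty1_p1 hf.tr hof.tr) (ty1_p1 hg.tr hog.tr) v u (1 / 1) (by norm_num),
    ereg_add w hw (ty1_p1 hf.q1 hof.q1) (ty1_p1 hg.q1 hog.q1) (u + v) (-v),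
    ereg_add w hw (ty1_p1 hf.q2 hof.q2) (ty1_p1 hg.q2 hog.q2) (u + v) u]
  ring

theorem TH_neg (w : ℕ) (hw : 3 ≤ w) {f : Fn} (hf : Per f) (ho : Odd2 f) (u v : ℝ) :
    TH w (fun m n => - f m n) u v = - TH w f u v := by
  have t1 : tr (fun m n => - f m n) = fun m n => - tr f m n := rfl
  have t2 : q1 (fun m n => - f m n) = fun m n => - q1 f m n := rfl
  have t3 : q2 (fun m n => - f m n) = fun m n => - q2 f m n := rfl
  simp only [TH, FF, PP, t1, t2, t3, B09b_p1_neg]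
  rw [EE_neg, EE_neg, ereg_neg w hw (ty1_p1 hf.q1 ho.q1) (u + v) (-v),
    ereg_neg w hw (ty1_p1 hf.q2 ho.q2) (u + v) u]
  ring

end Pool.MP0eb725
end

section

set_option autoImplicit false

open MeasureTheory Filter

namespace Pool.MP0eb725

theorem B09c_even (m : ℤ) : (3 * (m : ZMod 6) = 0) ↔ (2 : ℤ) ∣ m := by
  have h : (3 * (m : ZMod 6)) = ((3 * m : ℤ) : ZMod 6) := by push_cast; ring
  rw [h, ZMod.intCast_zmod_eq_zero_iff_dvd]
  constructor
  · intro h; push_cast at h; omega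
  · intro h; push_cast; omega

theorem B09c_three (m : ℤ) : (2 * (m : ZMod 6) = 0) ↔ (3 : ℤ) ∣ m := by
  have h : (2 * (m : ZMod 6)) = ((2 * m : ℤ) : ZMod 6) := by push_cast; ring
  rw [h, ZMod.intCast_zmod_eq_zero_iff_dvd]
  constructor
  · intro h; push_cast at h; omega
  · intro h; push_cast; omega

theorem B09c_c3 : ∀ x : ZMod 6, 3 * x = 0 ∨ 3 * x = 3 := by decide

theorem B09c_p3l {F : FZ} (h3 : P3 F) (x y : ZMod 6) (z : ZMod 6) : F (x + 3 * z) y = F x y := by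
  rcases B09c_c3 z with h | h
  · rw [h, add_zero]
  · rw [h, (h3 x y).1]

theorem B09c_p3r {F : FZ} (h3 : P3 F) (x y : ZMod 6) (z : ZMod 6) : F x (y + 3 * z) = F x y := by
  rcases B09c_c3 z with h | h
  · rw [h, add_zero]
  · rw [h, (h3 x y).2]

theorem B09c_chi (m : ℤ) : chiI m = ((chiZ (m : ZMod 6) : ℤ) : ℚ) := by
  have h : (m : ZMod 6) = ((m % 6 : ℤ) : ZMod 6) := by
    have := (ZMod.intCast_mod m 6).symm
    exact_mod_cast this
  rw [h]
  have h6 : m % 6 = 0 ∨ m % 6 = 1 ∨ m % 6 = 2 ∨ m % 6 = 3 ∨ m % 6 = 4 ∨ m % 6 = 5 := by omega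
  unfold chiI
  rcases h6 with h6 | h6 | h6 | h6 | h6 | h6
  · rw [h6, if_neg (by omega), if_neg (by omega)]; simp [chiZ]; decide
  · rw [h6, if_pos (by omega)]; simp [chiZ]
  · rw [h6, if_neg (by omega), if_pos (by omega)]
    have : chiZ ((2 : ℤ) : ZMod 6) = -1 := by decide
    rw [this]; norm_num
  · rw [h6, if_neg (by omega), if_neg (by omega)]
    have : chiZ ((3 : ℤ) : ZMod 6) = 0 := by decide
    rw [this]; norm_num
  · rw [h6, if_pos (by omega)]
    have : chiZ ((4 : ℤ) : ZMod 6) = 1 := by decide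
    rw [this]; norm_num
  · rw [h6, if_neg (by omega), if_pos (by omega)]
    have : chiZ ((5 : ℤ) : ZMod 6) = -1 := by decide
    rw [this]; norm_num

theorem B09c_chi_neg : ∀ x : ZMod 6, chiZ (-x) = - chiZ x := by decide
theorem B09c_chi_two : ∀ x : ZMod 6, chiZ (2 * x) = chiZ (-x) := by decide
theorem B09c_chi_add : ∀ x y : ZMod 6, chiZ (2 * x + y) = chiZ (y - x) := by decide

theorem lift_per (F : FZ) : Per (lift F) := by
  have h6 : (6 : ZMod 6) = 0 := by decide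
  intro m n
  unfold lift
  constructor
  · push_cast
    rw [h6, add_zero]
  · push_cast
    rw [h6, add_zero]

theorem lift_odd {F : FZ} (h : OddZ F) : Odd2 (lift F) := by
  intro m n
  unfold lift
  push_cast
  rw [h]
  push_cast
  ring

theorem lift_per3 {F : FZ} (h : P3 F) : Per3 (lift F) := by
  intro m n
  unfold lift
  constructor
  · push_cast
    rw [(h _ _).1]
  · push_cast
    rw [(h _ _).2]

/-- For 3-periodic odd `F`: `m/2 ≡ -m` mod 3, so `sc 2 2 (lift F) = lift (if 3m=0 ∧ 3n=0 then - F m n)`. -/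
theorem sc22_lift {F : FZ} (h : OddZ F) (h3 : P3 F) :
    sc 2 2 (lift F) = lift (fun m n => if 3 * m = 0 ∧ 3 * n = 0 then - F m n else 0) := by
  funext m n
  unfold sc lift
  beta_reduce
  by_cases h2 : (2 : ℤ) ∣ m ∧ (2 : ℤ) ∣ n
  · obtain ⟨⟨m', rfl⟩, n', rfl⟩ := h2
    rw [if_pos ⟨by push_cast; exact dvd_mul_right _ _, by push_cast; exact dvd_mul_right _ _⟩]
    rw [if_pos ⟨(B09c_even _).mpr (dvd_mul_right _ _), (B09c_even _).mpr (dvd_mul_right _ _)⟩]
    have e1 : 2 * m' / ((2 : ℕ) : ℤ) = m' := by push_cast; omega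
    have e2 : 2 * n' / ((2 : ℕ) : ℤ) = n' := by push_cast; omega
    rw [e1, e2]
    have e3 : ((2 * m' : ℤ) : ZMod 6) = -(m' : ZMod 6) + 3 * (m' : ZMod 6) := by push_cast; ring
    have e4 : ((2 * n' : ℤ) : ZMod 6) = -(n' : ZMod 6) + 3 * (n' : ZMod 6) := by push_cast; ring
    rw [e3, e4, B09c_p3l h3, B09c_p3r h3, h, neg_neg]
  · rw [if_neg (by push_cast; exact h2), if_neg]
    · simp
    · rintro ⟨h5, h6⟩
      exact h2 ⟨(B09c_even _).mp h5, (B09c_even _).mp h6⟩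

theorem sc12_lift {F : FZ} (h3 : P3 F) :
    sc 1 2 (fu (lift F)) = lift (fun m n => if 3 * n = 0 then F (m - n) (-n) else 0) := by
  funext m n
  unfold sc fu lift
  beta_reduce
  by_cases h2 : (2 : ℤ) ∣ n
  · obtain ⟨n', rfl⟩ := h2
    rw [if_pos ⟨by push_cast; exact one_dvd _, by push_cast; exact dvd_mul_right _ _⟩]
    rw [if_pos ((B09c_even _).mpr (dvd_mul_right _ _))]
    have e1 : m / ((1 : ℕ) : ℤ) = m := by push_cast; omega
    have e2 : 2 * n' / ((2 : ℕ) : ℤ) = n' := by push_cast; omega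
    rw [e1, e2]
    have e3 : (m : ZMod 6) - ((2 * n' : ℤ) : ZMod 6) = ((m + n' : ℤ) : ZMod 6) + 3 * (-(n' : ZMod 6)) := by
      push_cast; ring
    have e4 : -((2 * n' : ℤ) : ZMod 6) = (n' : ZMod 6) + 3 * (-(n' : ZMod 6)) := by push_cast; ring
    rw [e3, e4, B09c_p3l h3, B09c_p3r h3]
  · rw [if_neg (by push_cast; exact fun h => h2 h.2), if_neg]
    · simp
    · intro h5
      exact h2 ((B09c_even _).mp h5)

theorem sc21_lift {F : FZ} (h3 : P3 F) :
    sc 2 1 (fl (lift F)) = lift (fun m n => if 3 * m = 0 then F (-m) (n - m) else 0) := by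
  funext m n
  unfold sc fl lift
  beta_reduce
  by_cases h2 : (2 : ℤ) ∣ m
  · obtain ⟨m', rfl⟩ := h2
    rw [if_pos ⟨by push_cast; exact dvd_mul_right _ _, by push_cast; exact one_dvd _⟩]
    rw [if_pos ((B09c_even _).mpr (dvd_mul_right _ _))]
    have e1 : n / ((1 : ℕ) : ℤ) = n := by push_cast; omega
    have e2 : 2 * m' / ((2 : ℕ) : ℤ) = m' := by push_cast; omega
    rw [e1, e2]
    have e3 : (n : ZMod 6) - ((2 * m' : ℤ) : ZMod 6) = ((m' + n : ℤ) : ZMod 6) + 3 * (-(m' : ZMod 6)) := by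
      push_cast; ring
    have e4 : -((2 * m' : ℤ) : ZMod 6) = (m' : ZMod 6) + 3 * (-(m' : ZMod 6)) := by push_cast; ring
    rw [e3, e4, B09c_p3l h3, B09c_p3r h3]
  · rw [if_neg (by push_cast; exact fun h => h2 h.1), if_neg]
    · simp
    · intro h5
      exact h2 ((B09c_even _).mp h5)

theorem sc21_psi : sc 2 1 psiF = lift (fun m n => if 3 * m = 0 then chiZ (m + n) else 0) := by
  funext m n
  unfold sc psiF lift
  beta_reduce
  by_cases h2 : (2 : ℤ) ∣ m
  · obtain ⟨m', rfl⟩ := h2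
    rw [if_pos ⟨by push_cast; exact dvd_mul_right _ _, by push_cast; exact one_dvd _⟩]
    rw [if_pos ((B09c_even _).mpr (dvd_mul_right _ _))]
    have e1 : n / ((1 : ℕ) : ℤ) = n := by push_cast; omega
    have e2 : 2 * m' / ((2 : ℕ) : ℤ) = m' := by push_cast; omega
    rw [e1, e2, B09c_chi]
    push_cast
    rw [B09c_chi_add]
  · rw [if_neg (by push_cast; exact fun h => h2 h.1), if_neg]
    · simp
    · intro h5
      exact h2 ((B09c_even _).mp h5)

theorem sc23_psi : sc 2 3 (fu psiF) = lift (fun m n => if 3 * m = 0 ∧ 2 * n = 0 then chiZ m else 0) := by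
  funext m n
  unfold sc fu psiF lift
  beta_reduce
  by_cases h2 : (2 : ℤ) ∣ m ∧ (3 : ℤ) ∣ n
  · obtain ⟨⟨m', rfl⟩, n', rfl⟩ := h2
    rw [if_pos ⟨by push_cast; exact dvd_mul_right _ _, by push_cast; exact dvd_mul_right _ _⟩]
    rw [if_pos ⟨(B09c_even _).mpr (dvd_mul_right _ _), (B09c_three _).mpr (dvd_mul_right _ _)⟩]
    have e1 : 2 * m' / ((2 : ℕ) : ℤ) = m' := by push_cast; omega
    have e2 : 3 * n' / ((3 : ℕ) : ℤ) = n' := by push_cast; omega
    have e3 : n' - (m' + n') = -m' := by ring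
    rw [e1, e2, e3, B09c_chi]
    push_cast
    rw [B09c_chi_two]
  · rw [if_neg (by push_cast; exact h2), if_neg]
    · simp
    · rintro ⟨h5, h6⟩
      exact h2 ⟨(B09c_even _).mp h5, (B09c_three _).mp h6⟩

theorem sc31_psi : sc 3 1 (fl psiF) = lift (fun m n => if 2 * m = 0 then chiZ n else 0) := by
  funext m n
  unfold sc fl psiF lift
  beta_reduce
  by_cases h2 : (3 : ℤ) ∣ m
  · obtain ⟨m', rfl⟩ := h2
    rw [if_pos ⟨by push_cast; exact dvd_mul_right _ _, by push_cast; exact one_dvd _⟩]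
    rw [if_pos ((B09c_three _).mpr (dvd_mul_right _ _))]
    have e1 : n / ((1 : ℕ) : ℤ) = n := by push_cast; omega
    have e2 : 3 * m' / ((3 : ℕ) : ℤ) = m' := by push_cast; omega
    have e3 : m' + n - m' = n := by ring
    rw [e1, e2, e3, B09c_chi]
  · rw [if_neg (by push_cast; exact fun h => h2 h.1), if_neg]
    · simp
    · intro h5
      exact h2 ((B09c_three _).mp h5)

theorem fl_psi : fl psiF = lift (fun _ n => chiZ n) := by
  funext m n
  unfold fl psiF lift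
  beta_reduce
  have e3 : m + n - m = n := by ring
  rw [e3, B09c_chi]

end Pool.MP0eb725
end

section

set_option autoImplicit false

open MeasureTheory Filter

namespace Pool.MP0eb725

theorem B09d_l_eq {w : ℕ} (l : ℝ →ₗ[ℚ] ℚ) (hl : l (Real.sqrt 3 * Real.pi ^ w) = 0) {x y : ℝ}
    (h : Eqv w x y) : l x = l y := by
  obtain ⟨q, hq⟩ := h
  have h1 : l (x - y) = 0 := by
    rw [hq]
    have : ((q : ℝ)) * (Real.sqrt 3 * Real.pi ^ w) = q • (Real.sqrt 3 * Real.pi ^ w) := by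
      rw [Rat.smul_def]
    rw [this, map_smul, hl, smul_zero]
  rw [map_sub] at h1
  linarith

theorem B09d_l_mul (l : ℝ →ₗ[ℚ] ℚ) (q : ℚ) (x : ℝ) : l ((q : ℝ) * x) = q * l x := by
  have : (q : ℝ) * x = q • x := by rw [Rat.smul_def]
  rw [this, map_smul, smul_eq_mul]

theorem B09d_l_nat (l : ℝ →ₗ[ℚ] ℚ) (q : ℕ) (x : ℝ) : l ((q : ℝ) * x) = q * l x := by
  have := B09d_l_mul l (q : ℚ) x
  rw [Rat.cast_natCast] at this
  exact this

theorem B09d_pre_per (F : FZ) : Per (fun m n => lift F (m - n) n) := by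
  intro m n
  have hp := lift_per F
  constructor
  · show lift F (m + 6 - n) n = lift F (m - n) n
    rw [show m + 6 - n = (m - n) + 6 by ring]
    exact (hp _ _).1
  · show lift F (m - (n + 6)) (n + 6) = lift F (m - n) n
    rw [(hp _ _).2, ← (hp (m - (n + 6)) n).1]
    congr 1
    ring

theorem B09d_pre_odd {F : FZ} (h : OddZ F) : Odd2 (fun m n => lift F (m - n) n) := by
  intro m n
  show lift F (-m - -n) (-n) = - lift F (m - n) n
  rw [show -m - -n = -(m - n) by ring]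
  exact lift_odd h _ _

theorem B09d_fu_pre (F : FZ) : fu (fun m n => lift F (m - n) n) = lift F := by
  funext m n
  show lift F (m + n - n) n = lift F m n
  rw [add_sub_cancel_right]

theorem B09d_fl_pre (F : FZ) : fl (fun m n => lift F (m - n) n) = lift (fun m n => F (-n) (m + n)) := by
  funext m n
  show lift F (m - (m + n)) (m + n) = lift (fun m n => F (-n) (m + n)) m n
  rw [show m - (m + n) = -n by ring]
  unfold lift
  push_cast
  rfl

theorem B09d_fl_lift (F : FZ) : fl (lift F) = lift (fun m n => F m (m + n)) := by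
  funext m n
  show lift F m (m + n) = lift (fun m n => F m (m + n)) m n
  unfold lift
  push_cast
  rfl

theorem B09d_odd_ev {F : FZ} (h : OddZ F) :
    OddZ (fun m n => if 3 * m = 0 ∧ 3 * n = 0 then F m n else 0) := by
  intro m n
  show (if 3 * (-m) = 0 ∧ 3 * (-n) = 0 then F (-m) (-n) else 0) = - (if 3 * m = 0 ∧ 3 * n = 0 then F m n else 0)
  have e : ∀ x : ZMod 6, 3 * (-x) = 0 ↔ 3 * x = 0 := fun x => by rw [mul_neg, neg_eq_zero]
  by_cases hc : 3 * m = 0 ∧ 3 * n = 0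
  · rw [if_pos hc, if_pos ⟨(e m).2 hc.1, (e n).2 hc.2⟩, h m n]
  · rw [if_neg hc, if_neg fun hh => hc ⟨(e m).1 hh.1, (e n).1 hh.2⟩, neg_zero]

theorem B09d_lift_neg (G : FZ) : lift (fun m n => - G m n) = fun m n => - lift G m n := by
  funext m n
  unfold lift
  push_cast
  rfl

theorem B09d_neg_ite (F : FZ) : (fun m n => if 3 * m = 0 ∧ 3 * n = 0 then - F m n else 0) =
    (fun m n => - (if 3 * m = 0 ∧ 3 * n = 0 then F m n else 0) : FZ) := by
  funext m n
  split_ifs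
  · rfl
  · rw [neg_zero]

/-- THE INTERFACE.  `Th F u v = l (TH w (lift F) u v)`; `l` of an element of `ℚ √3 π^w` is 0.
`h2`: put `f = ` the function with `fu f = lift F`, i.e. `f m n = lift F (m-n) n`, then `fl f = lift (F (-n) (m+n))`;
`(u, v) -> (u+v, v)` in `H2`. -/
theorem iface (w : ℕ) (hw : 3 ≤ w) (hodd : Odd w) (l : ℝ →ₗ[ℚ] ℚ)
    (hl : l (Real.sqrt 3 * Real.pi ^ w) = 0) :
    Iface w (fun F u v => l (TH w (lift F) u v)) := by
  refine ⟨?_, ?_, ?_, ?_, ?_, ?_, ?_, ?_⟩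
  · intro F hF
    exact RF.ell (TH_form w hw hodd (lift_per F) (lift_odd hF)) l
  · intro F G hF hG u v
    show l (TH w (lift (fun m n => F m n + G m n)) u v) = l (TH w (lift F) u v) + l (TH w (lift G) u v)
    have h1 : lift (fun m n => F m n + G m n) = fun m n => lift F m n + lift G m n := by
      funext m n
      unfold lift
      push_cast
      rfl
    rw [h1, TH_add w hw (lift_per F) (lift_odd hF) (lift_per G) (lift_odd hG), map_add]
  · intro F hF u v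
    show l (TH w (lift (fun m n => - F m n)) u v) = - l (TH w (lift F) u v)
    rw [B09d_lift_neg, TH_neg w hw (lift_per F) (lift_odd hF), map_neg]
  · intro F hF u v
    show l (TH w (tr (lift F)) v u) = - l (TH w (lift F) u v)
    rw [B09d_l_eq l hl (H1 w hw hodd (lift_per F) (lift_odd hF) u v), map_neg]
  · intro F hF u v
    have h := B09d_l_eq l hl (H2 w hw hodd (B09d_pre_per F) (B09d_pre_odd hF) (u + v) v)
    rw [B09d_fu_pre, B09d_fl_pre] at h
    have e1 : ((u + v : ℚ) : ℝ) - (v : ℝ) = (u : ℝ) := by push_cast; ring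
    have e2 : (v : ℝ) - ((u + v : ℚ) : ℝ) = ((-u : ℚ) : ℝ) := by push_cast; ring
    rw [e1, e2] at h
    exact h.symm
  · intro F hF h3 u v
    have h := H3 w hw (lift_per3 h3) (lift_odd hF) (u : ℝ) (v : ℝ)
    rw [sc22_lift hF h3, B09d_neg_ite, B09d_lift_neg,
      TH_neg w hw (lift_per _) (lift_odd (B09d_odd_ev hF))] at h
    show 2 ^ w * l (TH w (lift (fun m n => if 3 * m = 0 ∧ 3 * n = 0 then F m n else 0)) u v) =
      - l (TH w (lift F) u v)
    rw [← h, mul_neg, map_neg, neg_neg]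
    have h2 := B09d_l_mul l (2 ^ w) (TH w (lift (fun m n => if 3 * m = 0 ∧ 3 * n = 0 then F m n else 0)) u v)
    push_cast at h2
    exact h2.symm
  · intro F hF h3 u v
    have h := B09d_l_eq l hl (H4 w hw hodd (lift_per3 h3) (lift_odd hF) u v)
    rw [sc12_lift h3, sc21_lift h3, B09d_fl_lift, map_add, map_sub, map_sub, map_zero] at h
    have h2 := fun x => B09d_l_nat l 2 x
    push_cast at h2
    rw [h2, h2] at h
    show l (TH w (lift F) u v)
      - 2 * l (TH w (lift (fun m n => if 3 * n = 0 then F (m - n) (-n) else 0)) ((u - v : ℚ) : ℝ) ((2 * v : ℚ) : ℝ))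
      - 2 * l (TH w (lift (fun m n => if 3 * m = 0 then F (-m) (n - m) else 0)) ((2 * u : ℚ) : ℝ) ((v - u : ℚ) : ℝ))
      + l (TH w (lift (fun m n => F m (m + n))) (u : ℝ) ((v - u : ℚ) : ℝ)) = 0
    push_cast
    exact h
  · intro u v
    have h := B09d_l_eq l hl (H5 w hw hodd u v)
    rw [sc21_psi, sc23_psi, sc31_psi, fl_psi, map_add, map_sub, map_sub, map_zero] at h
    have h2 := fun x => B09d_l_nat l 2 x
    have h3 := fun x => B09d_l_nat l 3 x
    have h6 := fun x => B09d_l_nat l 6 x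
    push_cast at h2 h3 h6
    rw [h2, h3, h6] at h
    show 2 * l (TH w (lift (fun m n => if 3 * m = 0 then chiZ (m + n) else 0)) ((2 * u : ℚ) : ℝ) (v : ℝ))
      - 6 * l (TH w (lift (fun m n => if 3 * m = 0 ∧ 2 * n = 0 then chiZ m else 0)) ((2 * (u - v) : ℚ) : ℝ) ((3 * v : ℚ) : ℝ))
      - 3 * l (TH w (lift (fun m n => if 2 * m = 0 then chiZ n else 0)) ((3 * u : ℚ) : ℝ) ((v - u : ℚ) : ℝ))
      + l (TH w (lift (fun _ n => chiZ n)) (u : ℝ) ((v - u : ℚ) : ℝ)) = 0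
    push_cast
    exact h

end Pool.MP0eb725
end

section

end

section

set_option autoImplicit false

open MeasureTheory Filter

namespace Pool.MP0eb725

/-- separate a real number from a line `ℚ P` by a `ℚ`-linear functional
(`Submodule.exists_dual_map_eq_bot_of_notMem` or a complement). -/
theorem exists_ell (x P : ℝ) (h : ∀ q : ℚ, x ≠ q * P) : ∃ l : ℝ →ₗ[ℚ] ℚ, l P = 0 ∧ l x ≠ 0 := by
  have hx : x ∉ Submodule.span ℚ {P} := by
    intro hx
    obtain ⟨q, hq⟩ := Submodule.mem_span_singleton.mp hx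
    exact h q (by rw [← hq, Rat.smul_def])
  obtain ⟨f, hf1, hf2⟩ := Submodule.exists_dual_map_eq_bot_of_notMem hx inferInstance
  refine ⟨f, ?_, hf1⟩
  have hP : f P ∈ Submodule.map f (Submodule.span ℚ {P}) :=
    Submodule.mem_map_of_mem (Submodule.mem_span_singleton_self P)
  rw [hf2] at hP
  exact (Submodule.mem_bot ℚ).mp hP

/-- For `w = 2K+1`: with `c` from `alg_main`: `∑_{k<K} c_k C(w-2,2k+1) m_{w-2-(2k+1)} ∈ ℚ √3 π^w`:
otherwise `exists_ell` gives `l`, `iface` and `alg_main` (with the coefficients `l (a i)` of `TH_FI`) give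
`∑ c_k l (a (2k+1)) = 0`, and `l (a (2k+1)) = C(w-2,2k+1) l (m)`, contradiction. -/
theorem mom_rel (K : ℕ) (hK : 1 ≤ K) :
    ∃ c : ℕ → ℚ, (∃ k ∈ Finset.range K, c k ≠ 0) ∧ ∃ q : ℚ,
      ∑ k ∈ Finset.range K, (c k : ℝ) * ((2 * K - 1).choose (2 * k + 1) : ℝ) * mom (2 * K + 1) (2 * K - 1 - (2 * k + 1)) =
        q * (Real.sqrt 3 * Real.pi ^ (2 * K + 1)) := by
  obtain ⟨c, hc, hmain⟩ := alg_main K hK
  refine ⟨c, hc, ?_⟩
  by_contra hcon
  push Not at hcon
  obtain ⟨l, hl0, hl1⟩ := exists_ell _ _ hcon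
  have hodd : Odd (2 * K + 1) := ⟨K, rfl⟩
  have hI := iface (2 * K + 1) (by omega) hodd l hl0
  obtain ⟨a, ha, ha'⟩ := TH_FI (2 * K + 1) (by omega) hodd
  have hd : 2 * K + 1 - 2 = 2 * K - 1 := by omega
  rw [hd] at ha ha'
  have hlr : ∀ (q : ℚ) (x : ℝ), l ((q : ℝ) * x) = q * l x := by
    intro q x
    have := l.map_smul q x
    rwa [Rat.smul_def, smul_eq_mul] at this
  have h1 := hmain _ hI (fun i => l (a i)) (by
    intro U V
    show l (TH (2 * K + 1) (lift FI) ((U - V : ℚ) : ℝ) (V : ℝ)) = _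
    have h2 := ha (U : ℝ) (V : ℝ)
    have h3 : ((U - V : ℚ) : ℝ) = (U : ℝ) - (V : ℝ) := by push_cast; ring
    rw [h3, h2, map_sum]
    refine Finset.sum_congr rfl fun i _ => ?_
    have h4 : a i * (V : ℝ) ^ i * (U : ℝ) ^ (2 * K - 1 - i) =
        ((V ^ i * U ^ (2 * K - 1 - i) : ℚ) : ℝ) * a i := by
      push_cast; ring
    rw [h4, hlr]
    ring)
  apply hl1
  rw [map_sum, ← h1]
  refine Finset.sum_congr rfl fun k hk => ?_
  have hk' : k < K := Finset.mem_range.mp hk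
  obtain ⟨q, hq⟩ := ha' (2 * k + 1) ⟨k, rfl⟩ (by omega)
  show l _ = c k * l (a (2 * k + 1))
  rw [hq]
  have h5 : ((c k : ℝ) * ((2 * K - 1).choose (2 * k + 1) : ℝ) *
      mom (2 * K + 1) (2 * K - 1 - (2 * k + 1))) =
      ((c k * ((2 * K - 1).choose (2 * k + 1) : ℚ) : ℚ) : ℝ) *
        mom (2 * K + 1) (2 * K - 1 - (2 * k + 1)) := by
    push_cast; ring
  have h6 : (((2 * K - 1).choose (2 * k + 1) : ℝ) * mom (2 * K + 1) (2 * K - 1 - (2 * k + 1))) =
      (((2 * K - 1).choose (2 * k + 1) : ℚ) : ℝ) * mom (2 * K + 1) (2 * K - 1 - (2 * k + 1)) := by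
    push_cast; ring
  rw [h5, hlr, map_add, h6, hlr, hlr, hl0]
  ring

end Pool.MP0eb725
end

section

set_option autoImplicit false

open MeasureTheory Filter

namespace Pool.MP0eb725

theorem C01b_clear (K : ℕ) (c : ℕ → ℚ) : ∃ N : ℕ, 0 < N ∧ ∀ k ∈ Finset.Icc 1 K, ∃ z : ℤ, (z : ℚ) = N * c k := by
  refine ⟨∏ k ∈ Finset.Icc 1 K, (c k).den, Finset.prod_pos fun k _ => (c k).den_pos, fun k hk => ?_⟩
  obtain ⟨m, hm⟩ := Finset.dvd_prod_of_mem (fun k => (c k).den) hk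
  refine ⟨m * (c k).num, ?_⟩
  have hden : ((c k).den : ℚ) ≠ 0 := by exact_mod_cast (c k).den_ne_zero
  have h1 : ((∏ k ∈ Finset.Icc 1 K, (c k).den : ℕ) : ℚ) = (c k).den * m := by
    rw [hm]; push_cast; ring
  rw [h1]
  have h2 : ((c k).num : ℚ) = c k * (c k).den := (Rat.mul_den_eq_num (c k)).symm
  push_cast
  rw [h2]
  ring

/-- FINAL THEOREM (existence part of Broadhurst's conjecture, all odd weights).  Proof: `w = 2K+1`, `mom_rel`; by `im_G`,
`m_{w-2k-1} = (2/√3) ((w-2k-1)!(2k-1)!/(w-1)!) Im G_k`; multiply by a common denominator; `√3 * √3 = 3`. -/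
theorem existence (w : ℕ) (hodd : Odd w) (hw : 1 < w) (G : ℕ → ℂ)
    (hG : ∀ k : ℕ, 1 ≤ k → 2 * k + 1 ≤ w →
      Filter.Tendsto (fun N : ℕ => ∑ n₁ ∈ Finset.Ico 1 N, ∑ n₂ ∈ Finset.Ico 1 n₁,
          Complex.exp (-((Real.pi / 3 : ℝ) : ℂ) * Complex.I * (n₁ : ℂ)) *
            Complex.exp (((Real.pi / 3 : ℝ) : ℂ) * Complex.I * (n₂ : ℂ)) /
            ((n₁ : ℂ) ^ (w - 2 * k) * (n₂ : ℂ) ^ (2 * k)))
        Filter.atTop (nhds (G k))) :
    ∃ c : ℕ → ℤ, (∃ k ∈ Finset.Icc 1 ((w - 1) / 2), c k ≠ 0) ∧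
      (∃ q : ℚ, ∑ k ∈ Finset.Icc 1 ((w - 1) / 2), (c k : ℝ) * (G k).im = (q : ℝ) * Real.pi ^ w) := by
  obtain ⟨K, rfl⟩ := hodd
  have hK : 1 ≤ K := by omega
  have hKK : (2 * K + 1 - 1) / 2 = K := by omega
  rw [hKK]
  obtain ⟨c, ⟨k0, hk0, hck0⟩, q, hq⟩ := mom_rel K hK
  have hodd : Odd (2 * K + 1) := ⟨K, rfl⟩
  set c' : ℕ → ℚ := fun k => c (k - 1) * ((2 * K - 1).choose (2 * k - 1) : ℚ) *
    ((Nat.factorial (2 * K + 1 - 2 * k - 1) * Nat.factorial (2 * k - 1) : ℚ) / Nat.factorial (2 * K)) with hc'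
  obtain ⟨N, hN, hz⟩ := C01b_clear K c'
  choose! z hz using hz
  have hNQ : (N : ℚ) ≠ 0 := by exact_mod_cast hN.ne'
  refine ⟨z, ⟨k0 + 1, ?_, ?_⟩, (N : ℚ) * (3 / 2) * q, ?_⟩
  · have := Finset.mem_range.mp hk0
    exact Finset.mem_Icc.mpr ⟨by omega, by omega⟩
  · intro h0
    have hm : k0 + 1 ∈ Finset.Icc 1 K := by
      have := Finset.mem_range.mp hk0
      exact Finset.mem_Icc.mpr ⟨by omega, by omega⟩
    have h1 := hz (k0 + 1) hm
    rw [h0] at h1
    have h2 : c' (k0 + 1) = 0 := by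
      rcases mul_eq_zero.mp h1.symm with h | h
      · exact absurd h hNQ
      · exact h
    rw [hc'] at h2
    simp only [Nat.add_sub_cancel] at h2
    have hlt := Finset.mem_range.mp hk0
    have hch : ((2 * K - 1).choose (2 * (k0 + 1) - 1) : ℚ) ≠ 0 := by
      exact_mod_cast (Nat.choose_pos (by omega)).ne'
    have hf : ((Nat.factorial (2 * K + 1 - 2 * (k0 + 1) - 1) * Nat.factorial (2 * (k0 + 1) - 1) : ℚ) /
        Nat.factorial (2 * K)) ≠ 0 := by
      have h3 : (Nat.factorial (2 * K + 1 - 2 * (k0 + 1) - 1) : ℚ) ≠ 0 := by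
        exact_mod_cast Nat.factorial_ne_zero _
      have h4 : (Nat.factorial (2 * (k0 + 1) - 1) : ℚ) ≠ 0 := by
        exact_mod_cast Nat.factorial_ne_zero _
      have h5 : (Nat.factorial (2 * K) : ℚ) ≠ 0 := by
        exact_mod_cast Nat.factorial_ne_zero _
      exact div_ne_zero (mul_ne_zero h3 h4) h5
    exact mul_ne_zero (mul_ne_zero hck0 hch) hf h2
  · have key : ∀ k ∈ Finset.Icc 1 K, (z k : ℝ) * (G k).im = (N : ℝ) * (Real.sqrt 3 / 2) *
        ((c (k - 1) : ℝ) * ((2 * K - 1).choose (2 * k - 1) : ℝ) * mom (2 * K + 1) (2 * K + 1 - 2 * k - 1)) := by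
      intro k hk
      have hk1 := (Finset.mem_Icc.mp hk).1
      have hk2 := (Finset.mem_Icc.mp hk).2
      have h1 := im_G (2 * K + 1) k hodd hk1 (by omega) (G k) (hG k hk1 (by omega))
      have h2 : (z k : ℝ) = (N : ℝ) * (c' k : ℝ) := by
        have := hz k hk
        exact_mod_cast congrArg (fun x : ℚ => (x : ℝ)) this
      rw [h1, h2, hc']
      have h3 : (Nat.factorial (2 * K + 1 - 2 * k - 1) : ℝ) ≠ 0 := by
        exact_mod_cast Nat.factorial_ne_zero _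
      have h4 : (Nat.factorial (2 * k - 1) : ℝ) ≠ 0 := by
        exact_mod_cast Nat.factorial_ne_zero _
      have h5 : (Nat.factorial (2 * K) : ℝ) ≠ 0 := by
        exact_mod_cast Nat.factorial_ne_zero _
      have h6 : 2 * K + 1 - 1 = 2 * K := by omega
      rw [h6]
      push_cast
      field_simp
    rw [Finset.sum_congr rfl key, ← Finset.mul_sum]
    have hsum : ∑ k ∈ Finset.Icc 1 K, ((c (k - 1) : ℝ) * ((2 * K - 1).choose (2 * k - 1) : ℝ) *
        mom (2 * K + 1) (2 * K + 1 - 2 * k - 1)) =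
        ∑ k ∈ Finset.range K, (c k : ℝ) * ((2 * K - 1).choose (2 * k + 1) : ℝ) *
          mom (2 * K + 1) (2 * K - 1 - (2 * k + 1)) := by
      rw [Finset.sum_bij (fun (k : ℕ) _ => k - 1)]
      · intro k hk
        have := Finset.mem_Icc.mp hk
        exact Finset.mem_range.mpr (by omega)
      · intro a ha b hb hab
        have := Finset.mem_Icc.mp ha
        have := Finset.mem_Icc.mp hb
        omega
      · intro b hb
        have := Finset.mem_range.mp hb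
        exact ⟨b + 1, Finset.mem_Icc.mpr ⟨by omega, by omega⟩, by simp⟩
      · intro k hk
        have := Finset.mem_Icc.mp hk
        have h1 : 2 * (k - 1) + 1 = 2 * k - 1 := by omega
        have h2 : 2 * K - 1 - (2 * k - 1) = 2 * K + 1 - 2 * k - 1 := by omega
        rw [h1, h2]
    rw [hsum, hq]
    have h3 : Real.sqrt 3 * Real.sqrt 3 = 3 := Real.mul_self_sqrt (by norm_num)
    push_cast
    linear_combination (N : ℝ) / 2 * q * Real.pi ^ (2 * K + 1) * h3

end Pool.MP0eb725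
end

section

end
end
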